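import Mathlib.Data.Nat.Basic
import Mathlib.Data.List.Basic

/-!
# K9: the certificate checker (natural number arithmetic on packed lanes of 48 bits)

Everything here is evaluated by the kernel, so only `Nat` operations with fast kernel support are
used, in the form `Nat.add` etc.
-/

namespace Pool.Agent.K9

/-- Forces the evaluation of `n` before it is passed to `f`. -/
def force {α : Type} (n : Nat) (f : Nat → α) : α :=
  Nat.rec (motive := fun _ => α) (f 0) (fun k _ => f k) (Nat.succ n)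

/-- The grid: biased coordinates (plus 128) of the directions `a 0, ..., a J` (with `a J = a 0`),
the radial multipliers `T 0 < ... < T K`, and the table of pairs (sector difference, least ring)
for the angular test. -/
structure Grid where
  ax : List Nat
  ay : List Nat
  T : List Nat
  ang : List (Nat × Nat)

/-- A corner of the box of `q`: coordinates, upper bound for the distance to `1024`, and a number
`t` with `(t + 2048)^2 ≤ |q + 1024|^2` (the flag tells whether `t` is to be used). -/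
structure Corner where
  qx : Nat
  qy : Nat
  d : Nat
  t : Nat

/-- Packing a list with stride `s` bits. -/
def pkl (s : Nat) (L : List Nat) : Nat :=
  List.rec (motive := fun _ => Nat) 0 (fun a _ r => Nat.add a (Nat.shiftLeft r s)) L

/-- lanes masks and constants -/
def cW : Nat := 48
def cBIAS : Nat := 140737488355328
def cFULL : Nat := 281474976710655
def cMOD : Nat := 281474976710656
/-- `2^44` -/
def cHB : Nat := 17592186044416
/-- `2^45` -/
def cH2 : Nat := 35184372088832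
/-- `2^43`, the penalty of a violated guard. -/
def cPEN : Nat := 8796093022208
/-- `2^18`, the offset of coordinates. -/
def cB : Nat := 262144

/-- sign bits of all lanes, moved to bit 0 of the lane -/
def sgn (ONE T : Nat) : Nat := Nat.land (Nat.shiftRight T 47) ONE

/-- lanes of `V` where the lane of `m` is one, zero elsewhere (`m` has lanes 0 or 1) -/
def msk (m V : Nat) : Nat := Nat.land (Nat.mul m 281474976710655) V

/-- one step of the digit by digit square root: `S = R^2`, candidate `R + 2^b` -/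
def sqStep (ONE D b R S : Nat) (k : Nat → Nat → Nat) : Nat :=
  force (Nat.add (Nat.mul (Nat.pow 2 (Nat.succ b)) R) (Nat.mul (Nat.pow 2 (Nat.mul 2 b)) ONE))
    fun I =>
  force (sgn ONE (Nat.sub (Nat.add D (Nat.mul cBIAS ONE)) (Nat.add S I))) fun m =>
  force (Nat.add R (Nat.mul (Nat.pow 2 b) m)) fun R' =>
  force (Nat.add S (msk m I)) fun S' => k R' S'

/-- the square roots (rounded down) of all lanes, from bit `b-1` down to `0` -/
def sqGo (ONE D : Nat) (b : Nat) : Nat → Nat → Nat :=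
  Nat.rec (motive := fun _ => Nat → Nat → Nat) (fun R _ => R)
    (fun b ih R S => sqStep ONE D b R S ih) b

/-- lane-wise `⌊√D⌋ + 1` -/
def sqv (ONE D : Nat) : Nat := Nat.add (sqGo ONE D 20 0 0) ONE

/-- lane-wise maximum -/
def vmax (ONE U V : Nat) : Nat :=
  force (Nat.sub (Nat.add U (Nat.mul cBIAS ONE)) V) fun D =>
  force (sgn ONE D) fun m =>
  Nat.sub (Nat.add V (msk m D)) (Nat.mul cBIAS m)

/-- lane-wise minimum -/
def vmin (ONE U V : Nat) : Nat := Nat.sub (Nat.add U V) (vmax ONE U V)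

/-- the bits of cell `l` from the bits of its four vertices -/
def and4 (M Z : Nat) : Nat :=
  force (Nat.land Z (Nat.shiftRight Z 48)) fun Y =>
  Nat.land Y (Nat.shiftRight Y (Nat.mul 48 M))

/-- a lane -/
def lane (V v : Nat) : Nat := Nat.mod (Nat.shiftRight V (Nat.mul 48 v)) 281474976710656

/-- The vectors of the grid. -/
structure GEnv where
  M : Nat
  ONE : Nat
  AV : Nat
  PX : Nat
  PY : Nat
  NN : Nat
  XA : Nat
  YA : Nat
  TA : Nat
  QF : Nat
  QN : Nat
  DF : Nat
  DN : Nat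
  WF : Nat
  WN : Nat
  GF : Nat
  PS : Nat
  /-- ones at the lanes of ring 0, sectors `0..J-1` -/
  JC : Nat
  CELL : Nat
  INF : Nat
  /-- `48 * M * J` -/
  R : Nat
  /-- ones at lanes `0..K` -/
  OK : Nat
  ang : List (Nat × Nat)

/-- sum of a list function over the list, with stride -/
def mapPk (s : Nat) (f : Nat → Nat) (L : List Nat) : Nat :=
  List.rec (motive := fun _ => Nat) 0 (fun a _ r => Nat.add (f a) (Nat.shiftLeft r s)) L

def len (L : List Nat) : Nat := List.rec (motive := fun _ => Nat) 0 (fun _ _ r => Nat.succ r) L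

/-- zip packing `f a b` -/
def mapPk2 (s : Nat) (f : Nat → Nat → Nat) (L : List Nat) : List Nat → Nat :=
  List.rec (motive := fun _ => List Nat → Nat) (fun _ => 0)
    (fun a _ ih L' => List.rec (motive := fun _ => Nat) 0
      (fun b L'' _ => Nat.add (f a b) (Nat.shiftLeft (ih L'') s)) L') L

/-- guard penalty: `2^43` in the lanes where `D < c * A` -/
def pen (ONE AV D c : Nat) : Nat :=
  Nat.mul cPEN (Nat.sub ONE (sgn ONE (Nat.sub (Nat.add D (Nat.mul cBIAS ONE)) (Nat.mul c AV))))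

def mkG {α : Type} (g : Grid) (k : GEnv → α) : α :=
  force (Nat.succ (len g.T)) fun M =>
  force (Nat.mul 48 M) fun s =>
  force (mapPk s (fun _ => 1) g.ax) fun J1 =>
  force (mapPk 48 (fun _ => 1) g.T) fun OK =>
  force (Nat.shiftLeft 1 (Nat.mul 48 (len g.T))) fun top =>
  force (Nat.mul J1 (Nat.add OK top)) fun ONE =>
  force (Nat.mul J1 OK) fun AV =>
  force (pkl 48 g.T) fun TA0 =>
  force (Nat.add TA0 (Nat.mul 16 top)) fun T0 =>
  force (pkl s g.ax) fun JX =>
  force (pkl s g.ay) fun JY =>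
  force (Nat.mul JX TA0) fun XA =>
  force (Nat.mul JY TA0) fun YA =>
  force (Nat.mul J1 TA0) fun TA =>
  force (Nat.mul 128 (Nat.mul J1 T0)) fun T8 =>
  force (Nat.sub (Nat.add (Nat.mul JX T0) (Nat.mul cB ONE)) T8) fun PX =>
  force (Nat.sub (Nat.add (Nat.mul JY T0) (Nat.mul cB ONE)) T8) fun PY =>
  force (mapPk2 s (fun a b => Nat.sub (Nat.add (Nat.add (Nat.mul a a) (Nat.mul b b)) 32768)
    (Nat.mul 256 (Nat.add a b))) g.ax g.ay) fun J2 =>
  force (Nat.add (mapPk 48 (fun a => Nat.mul a a) g.T) (Nat.mul 256 top)) fun T2 =>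
  force (Nat.mul J2 T2) fun NN =>
  force (mapPk s (fun a => Nat.add (Nat.sub a 128) (Nat.sub 128 a)) g.ax) fun JA =>
  force (Nat.mul 2048 (Nat.mul JA T0)) fun AX =>
  force (Nat.mul 2048 (Nat.mul JA TA0)) fun AXA =>
  force (Nat.mul 1048576 AV) fun A20 =>
  force (Nat.sub (Nat.mul cHB ONE) (Nat.add AX A20)) fun QF =>
  force (Nat.sub (Nat.add (Nat.mul cHB ONE) AX) A20) fun QN =>
  force (Nat.add (Nat.add NN AXA) A20) fun DF =>
  force (Nat.sub (Nat.add NN A20) AXA) fun DN =>
  force (sqv ONE DF) fun WF =>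
  force (sqv ONE DN) fun WN =>
  force (Nat.sub (Nat.add (Nat.add QF (Nat.mul 4096 WF)) (pen ONE AV DF 4194304))
    (Nat.mul 4194304 AV)) fun GF =>
  force (Nat.mul 524288 (Nat.add PX PY)) fun PS =>
  force (Nat.mul s (Nat.pred (len g.ax))) fun R =>
  force (Nat.mod J1 (Nat.shiftLeft 1 R)) fun JC =>
  force (Nat.mul JC OK) fun CELL =>
  force (Nat.mul JC (Nat.shiftRight top 48)) fun INF =>
  k ⟨M, ONE, AV, PX, PY, NN, XA, YA, TA, QF, QN, DF, DN, WF, WN, GF, PS, JC, CELL, INF, R, OK,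
    g.ang⟩

/-- The vectors of a box. -/
structure BEnv where
  G : GEnv
  QM : Nat
  WM : Nat
  GM : Nat
  C1 : Nat
  C2 : Nat
  C3 : Nat
  C4 : Nat
  C5 : Nat
  ACT : Nat

/-- vectors of one corner: `Q` (biased by `2^44`) -/
def cQ (G : GEnv) (c : Corner) : Nat :=
  Nat.sub (Nat.add (Nat.add (Nat.mul (Nat.mul 2 c.qx) G.PX) (Nat.mul (Nat.mul 2 c.qy) G.PY))
      (Nat.mul (Nat.sub cHB (Nat.mul 524288 (Nat.add c.qx c.qy))) G.ONE))
    (Nat.mul (Nat.add (Nat.mul c.qx c.qx) (Nat.mul c.qy c.qy)) G.AV)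

/-- `|v - A q|^2` -/
def cD (G : GEnv) (c : Corner) : Nat :=
  Nat.sub (Nat.add (Nat.add G.NN (Nat.mul (Nat.add (Nat.mul c.qx c.qx) (Nat.mul c.qy c.qy)) G.AV))
      (Nat.mul (Nat.mul 256 (Nat.add c.qx c.qy)) G.TA))
    (Nat.add (Nat.mul (Nat.mul 2 c.qx) G.XA) (Nat.mul (Nat.mul 2 c.qy) G.YA))

/-- The unary tests of a corner (bits at position 47 of the lanes): the three vectors
(within 2048 of `q`), (`u1`), (`u2`), (`u4`). -/
def cU0 (G : GEnv) (D : Nat) : Nat :=
  Nat.sub (Nat.add (Nat.mul (Nat.pred cBIAS) G.ONE) (Nat.mul 4194304 G.AV)) D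
def cU1 (G : GEnv) (c : Corner) (Q : Nat) : Nat :=
  Nat.sub (Nat.add (Nat.mul cBIAS G.ONE) G.QN)
    (Nat.add (Nat.add Q (Nat.mul (Nat.mul 2 c.d) G.WN)) (Nat.mul (Nat.mul c.d c.d) G.AV))
def cU2 (G : GEnv) (Q W : Nat) : Nat :=
  Nat.sub (Nat.add (Nat.mul cBIAS G.ONE) Q)
    (Nat.add (Nat.add G.QF (Nat.mul 4096 W)) (Nat.mul 4194304 G.AV))
def cU4 (G : GEnv) (c : Corner) (D : Nat) : Nat :=
  Nat.sub (Nat.add (Nat.mul (Nat.pred cBIAS) G.ONE) (Nat.mul (Nat.mul c.t c.t) G.AV)) D

def cGv (G : GEnv) (c : Corner) (Q W D : Nat) : Nat :=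
  Nat.sub (Nat.add (Nat.add Q (Nat.mul (Nat.mul 2 c.d) W)) (pen G.ONE G.AV D (Nat.mul c.d c.d)))
    (Nat.mul (Nat.mul c.d c.d) G.AV)

/-- fold over the corners -/
def mkC {α : Type} (G : GEnv) (k : Nat → Nat → Nat → Nat → Nat → Nat → Nat → α)
    (L : List Corner) : Nat → Nat → Nat → Nat → Nat → Nat → Nat → α :=
  List.rec (motive := fun _ => Nat → Nat → Nat → Nat → Nat → Nat → Nat → α)
    k
    (fun c _ ih QM WM GM U0 U1 U2 U4 =>
      force (cQ G c) fun Q =>
      force (cD G c) fun D =>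
      force (sqv G.ONE D) fun W =>
      force (cGv G c Q W D) fun Gv =>
      force (vmin G.ONE QM Q) fun QM' =>
      force (vmax G.ONE WM W) fun WM' =>
      force (vmax G.ONE GM Gv) fun GM' =>
      force (Nat.land U0 (cU0 G D)) fun U0' =>
      force (Nat.land U1 (cU1 G c Q)) fun U1' =>
      force (Nat.land U2 (cU2 G Q W)) fun U2' =>
      force (Nat.land U4 (cU4 G c D)) fun U4' =>
      ih QM' WM' GM' U0' U1' U2' U4') L

def mkB {α : Type} (G : GEnv) (L : List Corner) (vlo2 : Nat) (k : BEnv → α) : α :=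
  mkC G (fun QM WM GM U0 U1 U2 U4 =>
    force (Nat.sub (Nat.add (Nat.mul (Nat.pred cBIAS) G.ONE) (Nat.mul vlo2 G.AV)) G.DF) fun V0 =>
    force (Nat.sub (Nat.add (Nat.mul (Nat.pred cBIAS) G.ONE) (Nat.mul 4194304 G.AV)) G.DN)
      fun V1 =>
    force (Nat.lor (Nat.lor (and4 G.M V0) (and4 G.M V1)) (Nat.lor (and4 G.M U0)
      (Nat.lor (and4 G.M U1) (Nat.lor (and4 G.M U2) (and4 G.M U4))))) fun EL =>
    force (Nat.sub G.CELL (Nat.land G.CELL (Nat.shiftRight EL 47))) fun ACT =>
    force (Nat.mul (Nat.add cBIAS (Nat.add cHB 274877906944)) G.ONE) fun K1 =>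
    force (Nat.sub K1 (Nat.add G.PS G.GF)) fun C1 =>
    force (Nat.sub K1 (Nat.add G.PS GM)) fun C2 =>
    force (Nat.sub (Nat.add (Nat.mul (Nat.add cH2 (Nat.add cHB 274877906944)) G.ONE)
      (Nat.mul (Nat.sub cBIAS cH2) G.AV)) (Nat.add G.PS G.NN)) fun C3 =>
    force (Nat.mul (Nat.sub (Nat.add cBIAS 274877906944) cHB) G.ONE) fun K4 =>
    force (Nat.add G.PS (Nat.mul cHB G.AV)) fun L4 =>
    force (Nat.sub (Nat.add K4 G.QN) L4) fun C4 =>
    force (Nat.sub (Nat.add K4 QM) L4) fun C5 =>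
    k ⟨G, QM, WM, GM, C1, C2, C3, C4, C5, ACT⟩) L
    (Nat.mul cH2 G.ONE) 0 0 (Nat.mul cFULL G.ONE) (Nat.mul cFULL G.ONE) (Nat.mul cFULL G.ONE)
    (Nat.mul cFULL G.ONE)

/-- `2 ξ · v` (with offsets) for the vertex in lane `v` -/
def vE (e : BEnv) (v : Nat) : Nat :=
  Nat.add (Nat.mul (Nat.mul 2 (lane e.G.PX v)) e.G.PX) (Nat.mul (Nat.mul 2 (lane e.G.PY v)) e.G.PY)
/-- `2B (x' + y')` -/
def vS (e : BEnv) (v : Nat) : Nat := Nat.mul 524288 (Nat.add (lane e.G.PX v) (lane e.G.PY v))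
def vF (e : BEnv) (v : Nat) : Nat :=
  Nat.add (Nat.mul (Nat.mul 2 (Nat.sub 524288 (lane e.G.PX v))) e.G.PX)
    (Nat.mul (Nat.mul 2 (Nat.sub 524288 (lane e.G.PY v))) e.G.PY)
def vSF (e : BEnv) (v : Nat) : Nat :=
  Nat.mul 524288 (Nat.sub 1048576 (Nat.add (lane e.G.PX v) (lane e.G.PY v)))
def vL (e : BEnv) (v : Nat) : Nat :=
  Nat.add (Nat.mul (lane e.G.NN v) e.G.AV) (Nat.mul (vS e v) e.G.ONE)

/-- `y` covers `x`, closest pair -/
def T1 (e : BEnv) (v : Nat) : Nat := Nat.sub (Nat.add e.C1 (vE e v)) (vL e v)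
/-- `y` covers `x`, third point -/
def T2 (e : BEnv) (v : Nat) : Nat := Nat.sub (Nat.add e.C2 (vE e v)) (vL e v)
/-- `x` covers `y`, closest pair (finite cells `y` only) -/
def T3 (e : BEnv) (v : Nat) : Nat :=
  Nat.sub (Nat.add e.C3 (vE e v)) (Nat.mul (Nat.add (lane e.G.GF v) (vS e v)) e.G.ONE)
def T4 (e : BEnv) (v : Nat) : Nat :=
  Nat.sub (Nat.add (Nat.add e.C4 (vF e v)) (Nat.mul (lane e.QM v) e.G.AV))
    (Nat.add (Nat.mul (Nat.mul 2 (lane e.WM v)) e.G.WN) (Nat.mul (vSF e v) e.G.ONE))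
def T5 (e : BEnv) (v : Nat) : Nat :=
  Nat.sub (Nat.add (Nat.add e.C5 (vF e v)) (Nat.mul (lane e.G.QN v) e.G.AV))
    (Nat.add (Nat.mul (Nat.mul 2 (lane e.G.WN v)) e.WM) (Nat.mul (vSF e v) e.G.ONE))
def T6 (e : BEnv) (v : Nat) : Nat :=
  Nat.sub (Nat.add (Nat.add e.C4 (vF e v)) (Nat.mul (lane e.G.QN v) e.G.AV))
    (Nat.add (Nat.mul (Nat.mul 2 (lane e.G.WN v)) e.G.WN) (Nat.mul (vSF e v) e.G.ONE))

/-- the six tests for one vertex `v`, after combining the vertices of the cells `y` -/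
def Z1 (e : BEnv) (v : Nat) : Nat := and4 e.G.M (T1 e v)
def Z2 (e : BEnv) (v : Nat) : Nat := and4 e.G.M (T2 e v)
def Z3 (e : BEnv) (v : Nat) : Nat := and4 e.G.M (T3 e v)
def Z4 (e : BEnv) (v : Nat) : Nat := and4 e.G.M (T4 e v)
def Z5 (e : BEnv) (v : Nat) : Nat := and4 e.G.M (T5 e v)
def Z6 (e : BEnv) (v : Nat) : Nat := and4 e.G.M (T6 e v)

/-- the angular row of ring `k`, sector 0 -/
def ang0 (G : GEnv) (k : Nat) : Nat :=
  List.rec (motive := fun _ => Nat) 0
    (fun p _ r => Nat.rec (motive := fun _ => Nat)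
      (Nat.lor r (Nat.shiftLeft (Nat.shiftLeft (Nat.shiftRight G.OK (Nat.mul 48 p.2))
        (Nat.mul 48 p.2)) (Nat.mul (Nat.mul 48 G.M) p.1)))
      (fun _ _ => r) (Nat.sub p.2 k)) G.ang

/-- angular row of the cell `v` -/
def angRow (G : GEnv) (v : Nat) : Nat :=
  force (Nat.shiftLeft (ang0 G (Nat.mod v G.M)) (Nat.mul (Nat.mul 48 G.M) (Nat.div v G.M)))
    fun Y => Nat.lor (Nat.mod Y (Nat.shiftLeft 1 G.R)) (Nat.shiftRight Y G.R)

/-- the cells which conflict with the finite cell `v` -/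
def rowF (e : BEnv) (v : Nat) : Nat :=
  force (Nat.succ v) fun v1 =>
  force (Nat.add v e.G.M) fun v2 =>
  force (Nat.succ v2) fun v3 =>
  Nat.land (Nat.lor (angRow e.G v) (Nat.shiftRight
    (Nat.lor (Nat.land (Nat.land (Z1 e v) (Z1 e v1)) (Nat.land (Z1 e v2) (Z1 e v3)))
    (Nat.lor (Nat.land (Nat.land (Z2 e v) (Z2 e v1)) (Nat.land (Z2 e v2) (Z2 e v3)))
    (Nat.lor (Nat.land (Nat.land (Z3 e v) (Z3 e v1)) (Nat.land (Z3 e v2) (Z3 e v3)))
    (Nat.lor (Nat.land (Nat.land (Z4 e v) (Z4 e v1)) (Nat.land (Z4 e v2) (Z4 e v3)))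
    (Nat.lor (Nat.land (Nat.land (Z5 e v) (Z5 e v1)) (Nat.land (Z5 e v2) (Z5 e v3)))
      (Nat.land (Nat.land (Z6 e v) (Z6 e v1)) (Nat.land (Z6 e v2) (Z6 e v3)))))))) 47)) e.ACT

/-- is the cell `v` infinite (last ring)? 0 = yes -/
def finB (e : BEnv) (v : Nat) : Bool :=
  Nat.beq (Nat.add (Nat.mod v e.G.M) 2) e.G.M

def row (e : BEnv) (v : Nat) : Nat :=
  Bool.rec (motive := fun _ => Nat) (rowF e v) (Nat.land (angRow e.G v) e.ACT) (finB e v)

/-- The membership words: lane `v` of a word has bit `s` when the cell `v` is in the set `s`.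
Check of the cell `v` for one word. -/
def mChk1 (e : BEnv) (v : Nat) (w : Nat) : Bool :=
  force (Nat.land w (Nat.mul (lane w v) e.G.ONE)) fun A =>
  Bool.rec (motive := fun _ => Bool)
    (Nat.beq (Nat.land A (Nat.mul cFULL (row e v))) A)
    (force (Nat.land A (Nat.mul cFULL e.G.INF)) fun A' =>
      Nat.beq (Nat.land A' (Nat.mul cFULL (row e v))) A') (finB e v)

def mChk (e : BEnv) (ws : List Nat) (v : Nat) : Bool :=
  List.rec (motive := fun _ => Bool) true
    (fun w _ r => Bool.rec (motive := fun _ => Bool)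
      (Bool.rec (motive := fun _ => Bool) false r (mChk1 e v w)) r (Nat.beq (lane w v) 0)) ws

/-- check the membership words for the cells `a ≤ v < a + n` -/
def mAll (e : BEnv) (ws : List Nat) (n : Nat) : Nat → Bool :=
  Nat.rec (motive := fun _ => Nat → Bool) (fun _ => true)
    (fun _ ih v => Bool.rec (motive := fun _ => Bool) false (force (Nat.succ v) ih)
      (mChk e ws v)) n

/-- Search tree: a leaf lists sets (word index, bit) covering the candidates, a node branches on a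
cell. -/
inductive Tree where
  | leaf (ids : List (Nat × Nat)) : Tree
  | node (v : Nat) (l r : Tree) : Tree

def getW (ws : List Nat) : Nat → Nat :=
  List.rec (motive := fun _ => Nat → Nat) (fun _ => 0)
    (fun w _ ih i => Nat.rec (motive := fun _ => Nat) w (fun j _ => ih j) i) ws

/-- remove the sets of the leaf from `P`, at most `k` sets allowed -/
def leafGo (ONE : Nat) (ws : List Nat) (ids : List (Nat × Nat)) : Nat → Nat → Bool :=
  List.rec (motive := fun _ => Nat → Nat → Bool) (fun P _ => Nat.beq P 0)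
    (fun i _ ih P k => Nat.rec (motive := fun _ => Bool) false
      (fun k' _ => force (Nat.sub P (Nat.land P (Nat.land (Nat.shiftRight (getW ws i.1) (Nat.mod i.2 48)) ONE)))
        fun P' => ih P' k') k) ids

/-- the tree shows that at most `k` of the outer points are in the cells `P` -/
noncomputable def tChk (e : BEnv) (ws : List Nat) (t : Tree) : Nat → Nat → Bool :=
  Tree.rec (motive := fun _ => Nat → Nat → Bool)
    (fun ids P k => leafGo e.G.ONE ws ids P k)
    (fun v _ _ ihl ihr P k => Nat.rec (motive := fun _ => Bool) false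
      (fun k' _ =>
        force (row e v) fun r =>
        force (Nat.sub P (Nat.land P r)) fun P1 =>
        force (Nat.sub P (Nat.land P (Nat.shiftLeft 1 (Nat.mul 48 v)))) fun P2 =>
        Bool.rec (motive := fun _ => Bool) false (ihr P2 k) (ihl P1 k')) k) t

/-- peeling: remove cells `v` one by one; `t` shows that the cells not in conflict with `v` hold
at most 4 of the points -/
noncomputable def peel (e : BEnv) (ws : List Nat) (L : List (Nat × Tree)) (k : Nat → Bool) : Nat → Bool :=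
  List.rec (motive := fun _ => Nat → Bool) k
    (fun p _ ih P =>
      force (row e p.1) fun r =>
      force (Nat.sub P (Nat.land P r)) fun P1 =>
      force (Nat.sub P (Nat.land P (Nat.shiftLeft 1 (Nat.mul 48 p.1)))) fun P2 =>
      Bool.rec (motive := fun _ => Bool) false (ih P2) (tChk e ws p.2 P1 4)) L

/-- cells whose (ring, sector) is at least `(k0, j0)` lexicographically -/
def upTo (G : GEnv) (k0 j0 : Nat) : Nat :=
  Nat.add (Nat.mul G.JC (Nat.shiftLeft (Nat.shiftRight G.OK (Nat.mul 48 (Nat.succ k0)))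
      (Nat.mul 48 (Nat.succ k0))))
    (Nat.shiftLeft (Nat.shiftLeft (Nat.shiftRight G.JC (Nat.mul (Nat.mul 48 G.M) j0))
      (Nat.mul (Nat.mul 48 G.M) j0)) (Nat.mul 48 k0))

/-- one chunk of the peeling -/
noncomputable def chkP (g : Grid) (L : List Corner) (vlo2 : Nat) (ws : List Nat)
    (k0 j0 k1 j1 : Nat) (pl : List (Nat × Tree)) : Bool :=
  mkG g fun G => mkB G L vlo2 fun e =>
    force (upTo G k1 j1) fun U =>
    peel e ws pl (fun P => Nat.beq (Nat.land P U) P) (Nat.land e.ACT (upTo G k0 j0))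

/-- a chunk of the membership check -/
noncomputable def chkM (g : Grid) (L : List Corner) (vlo2 : Nat) (ws : List Nat) (a n : Nat) :
    Bool :=
  mkG g fun G => mkB G L vlo2 fun e => mAll e ws n a

/-- A certificate for a box in normal mode. -/
noncomputable def chkBox (g : Grid) (L : List Corner) (vlo2 : Nat) (ws : List Nat) (t : Tree) : Bool :=
  mkG g fun G => mkB G L vlo2 fun e =>
    Bool.rec (motive := fun _ => Bool) false (tChk e ws t e.ACT 5)
      (mAll e ws (Nat.div G.R 48) 0)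

end Pool.Agent.K9
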