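import Mathlib

/-!
# Open sphere of influence drawings of the complete graph on nine vertices: basic definitions

The closest pair of the nine points is normalised to `-1024, 1024`, so the least distance is `2048`.
`q` is the third point (first quadrant), `x 0, ..., x 5` are the six outer points.
-/

namespace Pool.Agent.K9

/-- The two points of the closest pair: `PB false = -1024`, `PB true = 1024`. -/
noncomputable def PB (b : Bool) : ℂ := if b then 1024 else -1024

/-- The inequalities between the third point `q` and the six outer points `x i` which the proof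
uses. -/
structure OC (q : ℂ) (x : Fin 6 → ℂ) : Prop where
  n01 : ∀ i b, 2048 ≤ ‖x i - PB b‖
  nq : ∀ i, 2048 ≤ ‖x i - q‖
  nqq : ∀ b, 2048 ≤ ‖q - PB b‖
  hV : ∀ i, ‖q - PB false‖ ≤ max ‖x i - PB false‖ ‖x i - PB true‖
  u1 : ∀ i b, ‖x i - q‖ < ‖x i - PB b‖ + ‖q - PB true‖
  u2 : ∀ i b, ‖x i - PB b‖ < ‖x i - q‖ + 2048
  u4 : ∀ i, ‖q - PB false‖ < ‖q - x i‖ + 2048
  c0 : ∀ i j, i ≠ j → 2048 ≤ ‖x i - x j‖
  c1 : ∀ i j b, i ≠ j → ‖x i - PB b‖ < ‖x i - x j‖ + 2048
  c2 : ∀ i j, i ≠ j → ‖x i - q‖ < ‖x i - x j‖ + ‖q - PB true‖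
  c3 : ∀ i j b, i ≠ j → ‖x i - x j‖ < ‖x i - q‖ + ‖x j - PB b‖
  c4 : ∀ i j b c, i ≠ j → ‖x i - x j‖ < ‖x i - PB b‖ + ‖x j - PB c‖

/-- The open sphere of influence graph of a finite point set in the Euclidean plane: the radius
of influence of `p` is its distance to the nearest other point, and two distinct points are
adjacent when their open disks of influence meet. -/
def osig (P : Finset (EuclideanSpace ℝ (Fin 2))) : SimpleGraph P where
  Adj p q := p ≠ q ∧
    (Metric.ball (p : EuclideanSpace ℝ (Fin 2))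
        (Metric.infDist (p : EuclideanSpace ℝ (Fin 2)) (P.erase p)) ∩
      Metric.ball (q : EuclideanSpace ℝ (Fin 2))
        (Metric.infDist (q : EuclideanSpace ℝ (Fin 2)) (P.erase q))).Nonempty
  symm := ⟨fun p q h => ⟨h.1.symm, by rw [Set.inter_comm]; exact h.2⟩⟩
  loopless := ⟨fun p h => h.1 rfl⟩

/-- `G` admits an open sphere of influence drawing. -/
def AdmitsOSI {V : Type*} (G : SimpleGraph V) : Prop :=
  ∃ P : Finset (EuclideanSpace ℝ (Fin 2)), 2 ≤ P.card ∧ Nonempty (G ≃g osig P)

end Pool.Agent.K9
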