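import Mathlib
import Pool.Agent.K9.Chk
import Pool.Agent.K9.Defs

/-!
# K9: specification of the vectors of the checker

All lane functions have integer values. `n` lanes, lane `l = M * j + k` is the vertex
`T k * a j` (`k < M - 1`) or the direction `16 * a j` (`k = M - 1`).
-/

namespace Pool.Agent.K9

/-- `V` is the packed form of the lanes `f 0, ..., f (n-1)`. -/
def Rep (n V : ℕ) (f : ℕ → ℤ) : Prop :=
  (V : ℤ) = ∑ l ∈ Finset.range n, f l * 2 ^ (48 * l)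

namespace Grid
variable (g : Grid)

/-- number of lanes per sector -/
def M : ℕ := g.T.length + 1
/-- number of sectors -/
def J : ℕ := g.ax.length - 1
/-- number of lanes -/
def n : ℕ := g.ax.length * g.M
def dx (j : ℕ) : ℤ := (g.ax.getD j 0 : ℤ) - 128
def dy (j : ℕ) : ℤ := (g.ay.getD j 0 : ℤ) - 128
def tt (k : ℕ) : ℤ := if k < g.T.length then (g.T.getD k 0 : ℤ) else 16
/-- 1 for vertices, 0 for directions -/
def av (l : ℕ) : ℤ := if l % g.M < g.T.length then 1 else 0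
def vx (l : ℕ) : ℤ := g.dx (l / g.M) * g.tt (l % g.M)
def vy (l : ℕ) : ℤ := g.dy (l / g.M) * g.tt (l % g.M)
def nn (l : ℕ) : ℤ := g.vx l ^ 2 + g.vy l ^ 2
def qf (l : ℕ) : ℤ := -2048 * |g.vx l| - 2 ^ 20 * g.av l
def qn (l : ℕ) : ℤ := 2048 * |g.vx l| - 2 ^ 20 * g.av l
def df (l : ℕ) : ℤ := g.nn l - g.av l * g.qf l
def dn (l : ℕ) : ℤ := g.nn l - g.av l * g.qn l
def wf (l : ℕ) : ℤ := (Nat.sqrt (g.df l).toNat : ℤ) + 1
def wn (l : ℕ) : ℤ := (Nat.sqrt (g.dn l).toNat : ℤ) + 1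
def gf (l : ℕ) : ℤ :=
  g.qf l + 4096 * g.wf l - 2 ^ 22 * g.av l + (if g.df l < 2 ^ 22 * g.av l then 2 ^ 43 else 0)
/-- inner product of the vectors in two lanes -/
def ip (v l : ℕ) : ℤ := g.vx v * g.vx l + g.vy v * g.vy l

/-- corner functions -/
def cq (c : Corner) (l : ℕ) : ℤ :=
  2 * ((c.qx : ℤ) * g.vx l + (c.qy : ℤ) * g.vy l) - ((c.qx : ℤ) ^ 2 + (c.qy : ℤ) ^ 2) * g.av l
def cd (c : Corner) (l : ℕ) : ℤ := g.nn l - g.av l * g.cq c l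
def cw (c : Corner) (l : ℕ) : ℤ := (Nat.sqrt (g.cd c l).toNat : ℤ) + 1
def cg (c : Corner) (l : ℕ) : ℤ :=
  g.cq c l + 2 * (c.d : ℤ) * g.cw c l - (c.d : ℤ) ^ 2 * g.av l +
    (if g.cd c l < (c.d : ℤ) ^ 2 * g.av l then 2 ^ 43 else 0)

/-- minimum over the corners -/
def qm (L : List Corner) (l : ℕ) : ℤ := L.foldl (fun m c => min m (g.cq c l)) (2 ^ 44)
def wm (L : List Corner) (l : ℕ) : ℤ := L.foldl (fun m c => max m (g.cw c l)) 0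
def gm (L : List Corner) (l : ℕ) : ℤ := L.foldl (fun m c => max m (g.cg c l)) (-2 ^ 44)

/-- is `l` a cell (sector `< J`, ring `< M - 1`)? -/
def isCell (l : ℕ) : Prop := l / g.M < g.J ∧ l % g.M < g.T.length
/-- finite cells: all four vertices are points -/
def isFin (l : ℕ) : Prop := l / g.M < g.J ∧ l % g.M + 1 < g.T.length

/-- the four vertices of the cell `l` -/
def vert (l : ℕ) : Fin 4 → ℕ := ![l, l + 1, l + g.M, l + g.M + 1]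

/-- the six tests for a vertex `v` (a point) and a vertex or direction `l` -/
def P1 (v l : ℕ) : Prop := 0 ≤ 2 * g.ip v l - g.av l * g.nn v - g.gf l
def P2 (L : List Corner) (v l : ℕ) : Prop := 0 ≤ 2 * g.ip v l - g.av l * g.nn v - g.gm L l
def P3 (v l : ℕ) : Prop := g.av l = 1 ∧ 0 ≤ 2 * g.ip v l - g.nn l - g.gf v
def P4 (L : List Corner) (v l : ℕ) : Prop :=
  0 ≤ g.qn l + g.av l * g.qm L v - 2 * g.ip v l - 2 * g.wm L v * g.wn l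
def P5 (L : List Corner) (v l : ℕ) : Prop :=
  0 ≤ g.qm L l + g.av l * g.qn v - 2 * g.ip v l - 2 * g.wn v * g.wm L l
def P6 (v l : ℕ) : Prop :=
  0 ≤ g.qn l + g.av l * g.qn v - 2 * g.ip v l - 2 * g.wn v * g.wn l

/-- angular conflict according to the table -/
def Ang (v u : ℕ) : Prop :=
  ∃ p ∈ g.ang, p.2 ≤ v % g.M ∧ p.2 ≤ u % g.M ∧ u / g.M = (v / g.M + p.1) % g.J

/-- some test succeeds for all pairs of vertices of the cells `v`, `u` -/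
def Confl (L : List Corner) (v u : ℕ) : Prop :=
  (g.isFin v ∧
    ((∀ i j, g.P1 (g.vert v i) (g.vert u j)) ∨ (∀ i j, g.P2 L (g.vert v i) (g.vert u j)) ∨
    (∀ i j, g.P3 (g.vert v i) (g.vert u j)) ∨ (∀ i j, g.P4 L (g.vert v i) (g.vert u j)) ∨
    (∀ i j, g.P5 L (g.vert v i) (g.vert u j)) ∨ (∀ i j, g.P6 (g.vert v i) (g.vert u j)))) ∨
  g.Ang v u

/-- unary tests (for a vertex or direction `l`) -/
def U0 (vlo2 : ℕ) (l : ℕ) : Prop := g.df l < (vlo2 : ℤ) * g.av l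
def U1 (l : ℕ) : Prop := g.dn l < 2 ^ 22 * g.av l
def U2 (c : Corner) (l : ℕ) : Prop := g.cd c l < 2 ^ 22 * g.av l
def U3 (c : Corner) (l : ℕ) : Prop :=
  0 ≤ g.qn l - g.cq c l - 2 * (c.d : ℤ) * g.wn l - (c.d : ℤ) ^ 2 * g.av l
def U4 (c : Corner) (l : ℕ) : Prop :=
  0 ≤ g.cq c l - g.qf l - 4096 * g.cw c l - 2 ^ 22 * g.av l
def U5 (c : Corner) (l : ℕ) : Prop := g.cd c l < (c.t : ℤ) ^ 2 * g.av l

/-- some unary test succeeds for all vertices of the cell `u` -/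
def Elim (L : List Corner) (vlo2 : ℕ) (u : ℕ) : Prop :=
  (∀ j, g.U0 vlo2 (g.vert u j)) ∨ (∀ j, g.U1 (g.vert u j)) ∨
  (∀ c ∈ L, ∀ j, g.U2 c (g.vert u j)) ∨ (∀ c ∈ L, ∀ j, g.U3 c (g.vert u j)) ∨
  (∀ c ∈ L, ∀ j, g.U4 c (g.vert u j)) ∨ (∀ c ∈ L, ∀ j, g.U5 c (g.vert u j))

/-- the point `z` lies in the cell `l`: homogeneous convex combination of the four vertices
(or directions) -/
def InCell (l : ℕ) (z : ℂ) : Prop :=
  ∃ w : Fin 4 → ℝ, (∀ i, 0 ≤ w i) ∧ ∑ i, w i * (g.av (g.vert l i) : ℝ) = 1 ∧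
    ∑ i, w i * (g.vx (g.vert l i) : ℝ) = z.re ∧ ∑ i, w i * (g.vy (g.vert l i) : ℝ) = z.im

/-- The conditions on the grid which are checked once for each grid. -/
structure OK : Prop where
  len : g.ax.length = g.ay.length
  J4 : 0 < g.J
  Jh : g.J = 2 * (g.J / 2)
  a0 : g.dx 0 = 64 ∧ g.dy 0 = 0
  ah : g.dx (g.J / 2) = -64 ∧ g.dy (g.J / 2) = 0
  aJ : g.dx g.J = 64 ∧ g.dy g.J = 0
  axb : ∀ j < g.ax.length, |g.dx j| ≤ 65 ∧ |g.dy j| ≤ 65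
  nrm : ∀ j < g.ax.length, 3969 ≤ g.dx j ^ 2 + g.dy j ^ 2 ∧ g.dx j ^ 2 + g.dy j ^ 2 ≤ 4315
  crs : ∀ j < g.J, 0 < g.dx j * g.dy (j + 1) - g.dy j * g.dx (j + 1)
  dot : ∀ j < g.J, 3969 ≤ g.dx j * g.dx (j + 1) + g.dy j * g.dy (j + 1)
  side : ∀ j < g.J, (0 ≤ g.dx j ∧ 0 ≤ g.dx (j + 1)) ∨ (g.dx j ≤ 0 ∧ g.dx (j + 1) ≤ 0)
  Tlen : 2 ≤ g.T.length
  T0 : g.tt 0 = 27
  Tlt : ∀ k, k + 1 < g.T.length → g.tt k < g.tt (k + 1)
  TK : 65 * g.tt (g.T.length - 1) < 2 ^ 18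
  ang : ∀ p ∈ g.ang, p.1 < g.J ∧ p.2 < g.T.length ∧ ∀ j < g.J, ∀ e < 2, ∀ f < 2,
    0 ≤ g.dx (j + e) * g.dx ((j + p.1) % g.J + f) + g.dy (j + e) * g.dy ((j + p.1) % g.J + f) ∧
    (63 * g.tt p.2 + 4096) ^ 2 * ((g.dx (j + e) ^ 2 + g.dy (j + e) ^ 2) *
        (g.dx ((j + p.1) % g.J + f) ^ 2 + g.dy ((j + p.1) % g.J + f) ^ 2)) ≤
      (126 * g.tt p.2 * (g.dx (j + e) * g.dx ((j + p.1) % g.J + f) +
        g.dy (j + e) * g.dy ((j + p.1) % g.J + f))) ^ 2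

/-- what is known about the vectors of the grid -/
structure GRep (G : GEnv) : Prop where
  hM : G.M = g.M
  hR : G.R = 48 * g.M * g.J
  hang : G.ang = g.ang
  one : Rep g.n G.ONE (fun _ => 1)
  av : Rep g.n G.AV g.av
  px : Rep g.n G.PX (fun l => g.vx l + 2 ^ 18)
  py : Rep g.n G.PY (fun l => g.vy l + 2 ^ 18)
  nn : Rep g.n G.NN g.nn
  xa : Rep g.n G.XA (fun l => (g.vx l + 128 * g.tt (l % g.M)) * g.av l)
  ya : Rep g.n G.YA (fun l => (g.vy l + 128 * g.tt (l % g.M)) * g.av l)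
  ta : Rep g.n G.TA (fun l => g.tt (l % g.M) * g.av l)
  qf : Rep g.n G.QF (fun l => 2 ^ 44 + g.qf l)
  qn : Rep g.n G.QN (fun l => 2 ^ 44 + g.qn l)
  df : Rep g.n G.DF g.df
  dn : Rep g.n G.DN g.dn
  wf : Rep g.n G.WF g.wf
  wn : Rep g.n G.WN g.wn
  gf : Rep g.n G.GF (fun l => 2 ^ 44 + g.gf l)
  ps : Rep g.n G.PS (fun l => 2 ^ 19 * (g.vx l + g.vy l) + 2 ^ 38)
  ok : ∀ i, G.OK.testBit i = true ↔ ∃ k < g.T.length, i = 48 * k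
  jc : ∀ i, G.JC.testBit i = true ↔ ∃ j < g.J, i = 48 * (g.M * j)
  cell : ∀ i, G.CELL.testBit i = true ↔ ∃ l, g.isCell l ∧ i = 48 * l
  inf : ∀ i, G.INF.testBit i = true ↔ ∃ l, g.isCell l ∧ ¬ g.isFin l ∧ i = 48 * l

/-- the conditions on a corner -/
def COK (c : Corner) : Prop :=
  c.qx ≤ 2 ^ 15 ∧ c.qy ≤ 2 ^ 15 ∧ c.d ≤ 2 ^ 16 ∧ c.t ≤ 2 ^ 16 ∧
  (c.qx : ℤ) ^ 2 + (c.qy : ℤ) ^ 2 + 1048576 ≤ (c.d : ℤ) ^ 2 + 2048 * c.qx ∧
  (c.t = 0 ∨ ((c.t : ℤ) + 2048) ^ 2 ≤ ((c.qx : ℤ) + 1024) ^ 2 + (c.qy : ℤ) ^ 2)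

/-- what is known about the vectors of a box -/
structure BRep (L : List Corner) (vlo2 : ℕ) (e : BEnv) : Prop where
  grep : g.GRep e.G
  qm : Rep g.n e.QM (fun l => 2 ^ 44 + g.qm L l)
  wm : Rep g.n e.WM (g.wm L)
  c1 : Rep g.n e.C1 (fun l => 2 ^ 47 - 2 ^ 19 * (g.vx l + g.vy l) - g.gf l)
  c2 : Rep g.n e.C2 (fun l => 2 ^ 47 - 2 ^ 19 * (g.vx l + g.vy l) - g.gm L l)
  c3 : Rep g.n e.C3 (fun l => 2 ^ 45 + 2 ^ 44 + (2 ^ 47 - 2 ^ 45) * g.av l -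
    2 ^ 19 * (g.vx l + g.vy l) - g.nn l)
  c4 : Rep g.n e.C4 (fun l => 2 ^ 47 + g.qn l - 2 ^ 19 * (g.vx l + g.vy l) - 2 ^ 44 * g.av l)
  c5 : Rep g.n e.C5 (fun l => 2 ^ 47 + g.qm L l - 2 ^ 19 * (g.vx l + g.vy l) - 2 ^ 44 * g.av l)
  act1 : ∀ i, e.ACT.testBit i = true → ∃ l, g.isCell l ∧ i = 48 * l
  act2 : ∀ l, g.isCell l → e.ACT.testBit (48 * l) = false → g.Elim L vlo2 l

end Grid

end Pool.Agent.K9
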