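import Mathlib
import Pool.Agent.K9.Spec

/-! # K9: bounds for the lane functions -/

namespace Pool.Agent.K9

namespace Grid

variable {g : Grid}

theorem OK.Mpos (_hg : g.OK) : 0 < g.M := by unfold Grid.M; omega

theorem OK.n_eq (hg : g.OK) : g.n = (g.J + 1) * g.M := by
  have h := hg.J4
  unfold Grid.n
  unfold Grid.J at h ⊢
  congr 1
  omega

theorem OK.len_eq (hg : g.OK) : g.ax.length = g.J + 1 := by
  have h := hg.J4
  unfold Grid.J at h ⊢
  omega

theorem OK.tt_mono (hg : g.OK) {k k' : ℕ} (h : k ≤ k') (hk' : k' < g.T.length) :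
    g.tt k ≤ g.tt k' := by
  induction k', h using Nat.le_induction with
  | base => exact le_refl _
  | succ m hm ih => exact (ih (by omega)).trans (hg.Tlt m hk').le

theorem OK.tt_pos (hg : g.OK) (k : ℕ) : 16 ≤ g.tt k := by
  by_cases hk : k < g.T.length
  · have h := hg.tt_mono (Nat.zero_le k) hk
    rw [hg.T0] at h
    linarith
  · unfold Grid.tt
    rw [if_neg hk]

theorem OK.tt_bound (hg : g.OK) (k : ℕ) : 65 * g.tt k < 2 ^ 18 := by
  by_cases hk : k < g.T.length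
  · have h := hg.tt_mono (show k ≤ g.T.length - 1 by omega) (by omega)
    have := hg.TK
    linarith
  · unfold Grid.tt
    rw [if_neg hk]
    norm_num

theorem av01 (g : Grid) (l : ℕ) : g.av l = 0 ∨ g.av l = 1 := by
  unfold Grid.av
  split_ifs <;> simp

theorem OK.vxy_bound (hg : g.OK) {l : ℕ} (hl : l < g.n) :
    |g.vx l| < 2 ^ 18 ∧ |g.vy l| < 2 ^ 18 := by
  have hj : l / g.M < g.ax.length := by
    rw [hg.len_eq]
    rw [hg.n_eq] at hl
    exact Nat.div_lt_of_lt_mul (by rw [Nat.mul_comm]; exact hl)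
  obtain ⟨h1, h2⟩ := hg.axb _ hj
  have h3 := hg.tt_bound (l % g.M)
  have h4 := hg.tt_pos (l % g.M)
  unfold Grid.vx Grid.vy
  rw [abs_mul, abs_mul, abs_of_nonneg (show (0 : ℤ) ≤ g.tt (l % g.M) by linarith)]
  constructor <;> nlinarith

theorem sqrt_lt {a : ℤ} (ha : a < 2 ^ 38) : (Nat.sqrt a.toNat : ℤ) + 1 < 2 ^ 20 := by
  have h : Nat.sqrt a.toNat < 2 ^ 19 := by
    rw [Nat.sqrt_lt]
    have : (a.toNat : ℤ) < 2 ^ 38 := by
      rcases le_or_gt 0 a with h | h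
      · rw [Int.toNat_of_nonneg h]; exact ha
      · rw [Int.toNat_of_nonpos h.le]; norm_num
    have h2 : a.toNat < 2 ^ 38 := by exact_mod_cast this
    calc a.toNat < 2 ^ 38 := h2
      _ = 2 ^ 19 * 2 ^ 19 := by norm_num
  have : (Nat.sqrt a.toNat : ℤ) < 2 ^ 19 := by exact_mod_cast h
  linarith

/-- bounds for the lane functions of a grid -/
theorem OK.bounds (hg : g.OK) {l : ℕ} (hl : l < g.n) :
    (g.av l = 0 ∨ g.av l = 1) ∧ |g.vx l| < 2 ^ 18 ∧ |g.vy l| < 2 ^ 18 ∧ 0 ≤ g.nn l ∧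
    g.nn l < 2 ^ 37 ∧ 0 ≤ g.dn l ∧ g.dn l ≤ g.df l ∧ g.df l < 2 ^ 38 ∧ 1 ≤ g.wn l ∧
    g.wn l ≤ g.wf l ∧ g.wf l < 2 ^ 20 ∧ |g.qf l| < 2 ^ 30 ∧ |g.qn l| < 2 ^ 30 ∧
    |g.gf l| < 2 ^ 44 := by
  obtain ⟨hx, hy⟩ := hg.vxy_bound hl
  have hx2 : g.vx l ^ 2 < 2 ^ 36 := by
    have : |g.vx l| ^ 2 < (2 ^ 18) ^ 2 := by
      have := abs_nonneg (g.vx l)
      nlinarith
    rw [sq_abs] at this
    calc g.vx l ^ 2 < (2 ^ 18) ^ 2 := this
      _ = 2 ^ 36 := by norm_num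
  have hy2 : g.vy l ^ 2 < 2 ^ 36 := by
    have : |g.vy l| ^ 2 < (2 ^ 18) ^ 2 := by
      have := abs_nonneg (g.vy l)
      nlinarith
    rw [sq_abs] at this
    calc g.vy l ^ 2 < (2 ^ 18) ^ 2 := this
      _ = 2 ^ 36 := by norm_num
  have hax := abs_nonneg (g.vx l)
  have hn0 : 0 ≤ g.nn l := by unfold Grid.nn; positivity
  have hn1 : g.nn l < 2 ^ 37 := by unfold Grid.nn; linarith
  have hdn : 0 ≤ g.dn l := by
    unfold Grid.dn Grid.qn
    rcases av01 g l with h | h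
    · rw [h]; simpa using hn0
    · rw [h]
      have : g.nn l - 1 * (2048 * |g.vx l| - 2 ^ 20 * 1) = (|g.vx l| - 1024) ^ 2 + g.vy l ^ 2 := by
        unfold Grid.nn
        rw [← sq_abs (g.vx l)]
        ring
      rw [this]
      positivity
  have hdf : g.dn l ≤ g.df l := by
    unfold Grid.dn Grid.df Grid.qn Grid.qf
    rcases av01 g l with h | h <;> rw [h] <;> linarith
  have hdf2 : g.df l < 2 ^ 38 := by
    unfold Grid.df Grid.qf
    rcases av01 g l with h | h <;> rw [h] <;> linarith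
  have hwf : g.wf l < 2 ^ 20 := sqrt_lt hdf2
  have hwn : 1 ≤ g.wn l := by unfold Grid.wn; linarith [Int.natCast_nonneg (Nat.sqrt (g.dn l).toNat)]
  have hwnf : g.wn l ≤ g.wf l := by
    unfold Grid.wn Grid.wf
    have : Nat.sqrt (g.dn l).toNat ≤ Nat.sqrt (g.df l).toNat :=
      Nat.sqrt_le_sqrt (Int.toNat_le_toNat hdf)
    have : (Nat.sqrt (g.dn l).toNat : ℤ) ≤ Nat.sqrt (g.df l).toNat := by exact_mod_cast this
    linarith
  have hqf : |g.qf l| < 2 ^ 30 := by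
    unfold Grid.qf
    rcases av01 g l with h | h <;> rw [h, abs_lt] <;> constructor <;> linarith
  have hqn : |g.qn l| < 2 ^ 30 := by
    unfold Grid.qn
    rcases av01 g l with h | h <;> rw [h, abs_lt] <;> constructor <;> linarith
  refine ⟨av01 g l, hx, hy, hn0, hn1, hdn, hdf, hdf2, hwn, hwnf, hwf, hqf, hqn, ?_⟩
  rw [abs_lt] at hqf
  obtain ⟨hq1, hq2⟩ := hqf
  unfold Grid.gf
  rcases av01 g l with h | h <;> rw [h, abs_lt] <;> split_ifs <;> constructor <;> linarith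

theorem cd_nonneg (g : Grid) (c : Corner) (l : ℕ) : 0 ≤ g.cd c l := by
  unfold Grid.cd Grid.cq
  rcases av01 g l with h | h
  · rw [h, zero_mul, sub_zero]; unfold Grid.nn; positivity
  · rw [h]
    have : g.nn l - 1 * (2 * ((c.qx : ℤ) * g.vx l + (c.qy : ℤ) * g.vy l) -
        ((c.qx : ℤ) ^ 2 + (c.qy : ℤ) ^ 2) * 1) = (g.vx l - c.qx) ^ 2 + (g.vy l - c.qy) ^ 2 := by
      unfold Grid.nn; ring
    rw [this]
    positivity

theorem OK.cbounds (hg : g.OK) {c : Corner} (hc : COK c) {l : ℕ} (hl : l < g.n) :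
    |g.cq c l| < 2 ^ 36 ∧ 0 ≤ g.cd c l ∧ g.cd c l < 2 ^ 38 ∧ 1 ≤ g.cw c l ∧ g.cw c l < 2 ^ 20 ∧
    |g.cg c l| < 2 ^ 44 := by
  obtain ⟨hx, hy⟩ := hg.vxy_bound hl
  rw [abs_lt] at hx hy
  obtain ⟨hx1, hx2⟩ := hx
  obtain ⟨hy1, hy2⟩ := hy
  obtain ⟨c1, c2, c3, c4, -, -⟩ := hc
  have c1' : (c.qx : ℤ) ≤ 2 ^ 15 := by exact_mod_cast c1
  have c2' : (c.qy : ℤ) ≤ 2 ^ 15 := by exact_mod_cast c2
  have c3' : (c.d : ℤ) ≤ 2 ^ 16 := by exact_mod_cast c3
  have p1 : (0 : ℤ) ≤ c.qx := Int.natCast_nonneg _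
  have p2 : (0 : ℤ) ≤ c.qy := Int.natCast_nonneg _
  have p3 : (0 : ℤ) ≤ c.d := Int.natCast_nonneg _
  have m1 : (c.qx : ℤ) * g.vx l ≤ 2 ^ 15 * 2 ^ 18 := by nlinarith
  have m2 : -(2 ^ 15 * 2 ^ 18) ≤ (c.qx : ℤ) * g.vx l := by nlinarith
  have m3 : (c.qy : ℤ) * g.vy l ≤ 2 ^ 15 * 2 ^ 18 := by nlinarith
  have m4 : -(2 ^ 15 * 2 ^ 18) ≤ (c.qy : ℤ) * g.vy l := by nlinarith
  have s1 : (c.qx : ℤ) ^ 2 ≤ 2 ^ 30 := by nlinarith
  have s2 : (c.qy : ℤ) ^ 2 ≤ 2 ^ 30 := by nlinarith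
  have s1' : 0 ≤ (c.qx : ℤ) ^ 2 := by positivity
  have s2' : 0 ≤ (c.qy : ℤ) ^ 2 := by positivity
  have s3 : (c.d : ℤ) ^ 2 ≤ 2 ^ 32 := by nlinarith
  have s3' : 0 ≤ (c.d : ℤ) ^ 2 := by positivity
  have hcq : |g.cq c l| < 2 ^ 36 := by
    unfold Grid.cq
    rcases av01 g l with h | h <;> rw [h, abs_lt] <;> constructor <;> linarith
  have hcd0 := cd_nonneg g c l
  have hcd : g.cd c l < 2 ^ 38 := by
    unfold Grid.cd Grid.cq
    rcases av01 g l with h | h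
    · rw [h]
      have : g.nn l < 2 ^ 37 := (hg.bounds hl).2.2.2.2.1
      linarith
    · rw [h]
      have : g.nn l - 1 * (2 * ((c.qx : ℤ) * g.vx l + (c.qy : ℤ) * g.vy l) -
          ((c.qx : ℤ) ^ 2 + (c.qy : ℤ) ^ 2) * 1) = (g.vx l - c.qx) ^ 2 + (g.vy l - c.qy) ^ 2 := by
        unfold Grid.nn; ring
      rw [this]
      nlinarith
  have hcw : g.cw c l < 2 ^ 20 := sqrt_lt hcd
  have hcw1 : 1 ≤ g.cw c l := by
    unfold Grid.cw; linarith [Int.natCast_nonneg (Nat.sqrt (g.cd c l).toNat)]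
  refine ⟨hcq, hcd0, hcd, hcw1, hcw, ?_⟩
  rw [abs_lt] at hcq
  obtain ⟨q1, q2⟩ := hcq
  have e1 : (c.d : ℤ) * g.cw c l ≤ 2 ^ 16 * 2 ^ 20 := by nlinarith
  have e2 : 0 ≤ (c.d : ℤ) * g.cw c l := mul_nonneg p3 (by linarith)
  unfold Grid.cg
  rw [mul_assoc]
  rcases av01 g l with h | h <;> rw [h, abs_lt] <;> split_ifs <;> constructor <;> linarith

theorem foldl_min_le {α : Type*} (F : α → ℤ) (L : List α) (m : ℤ) :
    L.foldl (fun m c => min m (F c)) m ≤ m ∧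
      ∀ c ∈ L, L.foldl (fun m c => min m (F c)) m ≤ F c := by
  induction L generalizing m with
  | nil => simp
  | cons a L ih =>
    obtain ⟨h1, h2⟩ := ih (min m (F a))
    refine ⟨?_, ?_⟩
    · simp only [List.foldl_cons]
      exact h1.trans (min_le_left _ _)
    · intro c hc
      simp only [List.foldl_cons]
      rcases List.mem_cons.1 hc with h | h
      · rw [h]; exact h1.trans (min_le_right _ _)
      · exact h2 c h

theorem le_foldl_max {α : Type*} (F : α → ℤ) (L : List α) (m : ℤ) :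
    m ≤ L.foldl (fun m c => max m (F c)) m ∧
      ∀ c ∈ L, F c ≤ L.foldl (fun m c => max m (F c)) m := by
  induction L generalizing m with
  | nil => simp
  | cons a L ih =>
    obtain ⟨h1, h2⟩ := ih (max m (F a))
    refine ⟨?_, ?_⟩
    · simp only [List.foldl_cons]
      exact (le_max_left _ _).trans h1
    · intro c hc
      simp only [List.foldl_cons]
      rcases List.mem_cons.1 hc with h | h
      · rw [h]; exact (le_max_right _ _).trans h1
      · exact h2 c h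

theorem foldl_min_ge {α : Type*} (F : α → ℤ) (L : List α) (m b : ℤ) (hm : b ≤ m)
    (h : ∀ c ∈ L, b ≤ F c) : b ≤ L.foldl (fun m c => min m (F c)) m := by
  induction L generalizing m with
  | nil => simpa
  | cons a L ih =>
    simp only [List.foldl_cons]
    exact ih _ (le_min hm (h a (by simp))) (fun c hc => h c (by simp [hc]))

theorem foldl_max_lt {α : Type*} (F : α → ℤ) (L : List α) (m b : ℤ) (hm : m < b)
    (h : ∀ c ∈ L, F c < b) : L.foldl (fun m c => max m (F c)) m < b := by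
  induction L generalizing m with
  | nil => simpa
  | cons a L ih =>
    simp only [List.foldl_cons]
    exact ih _ (max_lt hm (h a (by simp))) (fun c hc => h c (by simp [hc]))

theorem qm_le {L : List Corner} {c : Corner} (hc : c ∈ L) (l : ℕ) : g.qm L l ≤ g.cq c l :=
  (foldl_min_le (fun c => g.cq c l) L _).2 c hc

theorem le_wm {L : List Corner} {c : Corner} (hc : c ∈ L) (l : ℕ) : g.cw c l ≤ g.wm L l :=
  (le_foldl_max (fun c => g.cw c l) L _).2 c hc

theorem le_gm {L : List Corner} {c : Corner} (hc : c ∈ L) (l : ℕ) : g.cg c l ≤ g.gm L l :=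
  (le_foldl_max (fun c => g.cg c l) L _).2 c hc

theorem OK.mbounds (hg : g.OK) {L : List Corner} (hL : ∀ c ∈ L, COK c) {l : ℕ} (hl : l < g.n) :
    -2 ^ 36 ≤ g.qm L l ∧ g.qm L l ≤ 2 ^ 44 ∧ 0 ≤ g.wm L l ∧ g.wm L l < 2 ^ 20 ∧
    -2 ^ 44 ≤ g.gm L l ∧ g.gm L l < 2 ^ 44 := by
  refine ⟨?_, (foldl_min_le (fun c => g.cq c l) L _).1, (le_foldl_max (fun c => g.cw c l) L _).1,
    ?_, (le_foldl_max (fun c => g.cg c l) L _).1, ?_⟩
  · refine foldl_min_ge (fun c => g.cq c l) L _ _ (by norm_num) (fun c hc => ?_)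
    have := (hg.cbounds (hL c hc) hl).1
    rw [abs_lt] at this
    linarith [this.1]
  · exact foldl_max_lt (fun c => g.cw c l) L _ _ (by norm_num)
      (fun c hc => (hg.cbounds (hL c hc) hl).2.2.2.2.1)
  · refine foldl_max_lt (fun c => g.cg c l) L _ _ (by norm_num) (fun c hc => ?_)
    have := (hg.cbounds (hL c hc) hl).2.2.2.2.2
    rw [abs_lt] at this
    exact this.2

theorem OK.ip_bound (hg : g.OK) {v l : ℕ} (hv : v < g.n) (hl : l < g.n) :
    |g.ip v l| < 2 ^ 37 := by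
  obtain ⟨h1, h2⟩ := hg.vxy_bound hv
  obtain ⟨h3, h4⟩ := hg.vxy_bound hl
  unfold Grid.ip
  have a1 := abs_add_le (g.vx v * g.vx l) (g.vy v * g.vy l)
  rw [abs_mul, abs_mul] at a1
  have b1 := abs_nonneg (g.vx v)
  have b2 := abs_nonneg (g.vx l)
  have b3 := abs_nonneg (g.vy v)
  have b4 := abs_nonneg (g.vy l)
  have c1 : |g.vx v| * |g.vx l| < 2 ^ 18 * 2 ^ 18 := by nlinarith
  have c2 : |g.vy v| * |g.vy l| < 2 ^ 18 * 2 ^ 18 := by nlinarith
  calc |g.vx v * g.vx l + g.vy v * g.vy l| ≤ |g.vx v| * |g.vx l| + |g.vy v| * |g.vy l| := a1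
    _ < 2 ^ 18 * 2 ^ 18 + 2 ^ 18 * 2 ^ 18 := by linarith
    _ = 2 ^ 37 := by norm_num

/-- the vertices of a cell are lanes -/
theorem OK.vert_lt (hg : g.OK) {l : ℕ} (hl : g.isCell l) (i : Fin 4) : g.vert l i < g.n := by
  obtain ⟨h1, h2⟩ := hl
  have hM := hg.Mpos
  have h3 : l = g.M * (l / g.M) + l % g.M := (Nat.div_add_mod l g.M).symm
  have hM' : g.M = g.T.length + 1 := rfl
  have h4 : g.M * (l / g.M) + g.M ≤ g.M * g.J := by
    have : l / g.M + 1 ≤ g.J := h1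
    calc g.M * (l / g.M) + g.M = g.M * (l / g.M + 1) := by ring
      _ ≤ g.M * g.J := Nat.mul_le_mul_left _ this
  have h5 : g.n = g.M * g.J + g.M := by rw [hg.n_eq]; ring
  fin_cases i <;> simp [Grid.vert] <;> omega

theorem mod_succ {l m : ℕ} (h : l % m + 1 < m) : (l + 1) % m = l % m + 1 := by
  rw [Nat.add_mod, Nat.mod_eq_of_lt (show 1 < m by omega)]
  exact Nat.mod_eq_of_lt (by omega)

/-- all vertices of a finite cell are points -/
theorem OK.fin_av (hg : g.OK) {l : ℕ} (hl : g.isFin l) (i : Fin 4) :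
    g.av (g.vert l i) = 1 := by
  obtain ⟨h1, h2⟩ := hl
  have hM := hg.Mpos
  have hM' : g.M = g.T.length + 1 := rfl
  have h6 : (l + 1) % g.M = l % g.M + 1 := mod_succ (by omega)
  have h7 : (l + g.M) % g.M = l % g.M := Nat.add_mod_right _ _
  have h8 : (l + g.M + 1) % g.M = l % g.M + 1 := by
    rw [show l + g.M + 1 = (l + 1) + g.M by ring, Nat.add_mod_right, h6]
  fin_cases i
  · show g.av l = 1
    unfold Grid.av; rw [if_pos (by omega)]
  · show g.av (l + 1) = 1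
    unfold Grid.av; rw [h6, if_pos (by omega)]
  · show g.av (l + g.M) = 1
    unfold Grid.av; rw [h7, if_pos (by omega)]
  · show g.av (l + g.M + 1) = 1
    unfold Grid.av; rw [h8, if_pos (by omega)]

end Grid

end Pool.Agent.K9
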