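import Pool.Agent.K9.Defs

/-!
# Normalisation: from a drawing of `K_9` to the inequalities `OC`

`exists_cfg_of_admits` turns an open sphere of influence drawing of `K_9` into nine complex numbers
with the path inequalities; `reduce_core` normalises them (closest pair to `-1024, 1024`, third point
in the first quadrant); `reduce` is the combination.
-/

namespace Pool.Agent.K9

open Metric

theorem exists_cfg_of_admits (h : AdmitsOSI (⊤ : SimpleGraph (Fin 9))) :
    ∃ z : Fin 9 → ℂ, Function.Injective z ∧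
      ∀ i j k l, i ≠ j → k ≠ i → l ≠ j → ‖z i - z j‖ < ‖z i - z k‖ + ‖z j - z l‖ := by
  obtain ⟨P, -, ⟨e⟩⟩ := h
  let φ := Complex.orthonormalBasisOneI.repr.symm
  have hd : ∀ i j : Fin 9, ‖φ (e i : EuclideanSpace ℝ (Fin 2)) - φ (e j)‖ =
      dist (e i : EuclideanSpace ℝ (Fin 2)) (e j) := by
    intro i j
    rw [← dist_eq_norm, LinearIsometryEquiv.dist_map]
  refine ⟨fun i => φ (e i : EuclideanSpace ℝ (Fin 2)), ?_, ?_⟩
  · intro i j hij
    have h1 := φ.injective hij
    exact e.injective (Subtype.ext h1)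
  · intro i j k l hij hki hlj
    simp only [hd]
    have hadj : (osig P).Adj (e i) (e j) := by
      rw [e.map_adj_iff]
      exact hij
    obtain ⟨-, ⟨y, hy1, hy2⟩⟩ := hadj
    have hr : ∀ i k : Fin 9, k ≠ i →
        infDist (e i : EuclideanSpace ℝ (Fin 2)) (P.erase (e i : EuclideanSpace ℝ (Fin 2))) ≤
          dist (e i : EuclideanSpace ℝ (Fin 2)) (e k) := by
      intro i k hki
      refine infDist_le_dist_of_mem ?_
      rw [Finset.mem_coe, Finset.mem_erase]
      refine ⟨?_, (e k).2⟩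
      intro h
      exact hki (e.injective (Subtype.ext h))
    have h1 := hr i k hki
    have h2 := hr j l hlj
    rw [mem_ball] at hy1 hy2
    have h3 : dist (e i : EuclideanSpace ℝ (Fin 2)) (e j) ≤
        dist (e i : EuclideanSpace ℝ (Fin 2)) y + dist y (e j) := dist_triangle _ _ _
    rw [dist_comm _ y] at h3
    linarith

/-- The normalised situation. -/
private structure Nm (z : Fin 9 → ℂ) (i0 i1 i2 : Fin 9) : Prop where
  h01 : i0 ≠ i1
  h20 : i2 ≠ i0
  h21 : i2 ≠ i1
  z0 : z i0 = PB false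
  z1 : z i1 = PB true
  far : ∀ i j, i ≠ j → 2048 ≤ ‖z i - z j‖
  path : ∀ i j k l, i ≠ j → k ≠ i → l ≠ j → ‖z i - z j‖ < ‖z i - z k‖ + ‖z j - z l‖
  V : ∀ k, k ≠ i0 → k ≠ i1 → max ‖z i2 - PB false‖ ‖z i2 - PB true‖ ≤
    max ‖z k - PB false‖ ‖z k - PB true‖

private theorem PB_dist : ‖PB false - PB true‖ = 2048 := by
  have : PB false - PB true = ((-2048 : ℝ) : ℂ) := by
    simp only [PB]; norm_num
  rw [this, Complex.norm_real]; norm_num

private theorem core1 (H : ∀ (q : ℂ) (x : Fin 6 → ℂ), 0 ≤ q.re → 0 ≤ q.im → OC q x → False)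
    {z : Fin 9 → ℂ} {i0 i1 i2 : Fin 9} (h : Nm z i0 i1 i2) (hre : 0 ≤ (z i2).re)
    (him : 0 ≤ (z i2).im) : False := by
  obtain ⟨h01, h20, h21, z0, z1, far, path, V⟩ := h
  have hcard : (({i0, i1, i2} : Finset (Fin 9))ᶜ).card = 6 := by
    rw [Finset.card_compl, Finset.card_eq_three.mpr ⟨i0, i1, i2, h01, h20.symm, h21.symm, rfl⟩]
    simp
  let g := (({i0, i1, i2} : Finset (Fin 9))ᶜ).orderEmbOfFin hcard
  have hg : ∀ i, g i ≠ i0 ∧ g i ≠ i1 ∧ g i ≠ i2 := by
    intro i
    have := Finset.orderEmbOfFin_mem _ hcard i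
    simp only [Finset.mem_compl, Finset.mem_insert, Finset.mem_singleton, not_or] at this
    exact this
  -- the index of `PB b`
  let p : Bool → Fin 9 := fun b => if b then i1 else i0
  have hp : ∀ b, z (p b) = PB b := by
    intro b; cases b
    · exact z0
    · exact z1
  have hgp : ∀ i b, g i ≠ p b := by
    intro i b; cases b
    · exact (hg i).1
    · exact (hg i).2.1
  have h2p : ∀ b, i2 ≠ p b := by
    intro b; cases b
    · exact h20
    · exact h21
  have hpp : ∀ b, p (!b) ≠ p b := by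
    intro b; cases b
    · exact h01.symm
    · exact h01
  have hd : ∀ b, ‖PB b - PB (!b)‖ = 2048 := by
    intro b; cases b
    · exact PB_dist
    · rw [← PB_dist, norm_sub_rev]; rfl
  refine H (z i2) (fun i => z (g i)) hre him ⟨?_, ?_, ?_, ?_, ?_, ?_, ?_, ?_, ?_, ?_, ?_, ?_⟩
  · intro i b
    rw [← hp]; exact far _ _ (hgp i b)
  · intro i
    exact far _ _ (hg i).2.2
  · intro b
    rw [← hp]; exact far _ _ (h2p b)
  · intro i
    exact (le_max_left _ _).trans (V _ (hg i).1 (hg i).2.1)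
  · intro i b
    have := path (g i) i2 (p b) (p true) (hg i).2.2 (hgp i b).symm (h2p true).symm
    rwa [hp, hp] at this
  · intro i b
    have := path (g i) (p b) i2 (p (!b)) (hgp i b) (hg i).2.2.symm (hpp b)
    rwa [hp, hp, hd] at this
  · intro i
    have := path i2 (p false) (g i) (p true) (h2p false) (hg i).2.2 (hpp false)
    rwa [hp, hp, PB_dist] at this
  · intro i j hij
    exact far _ _ (fun e => hij (g.injective e))
  · intro i j b hij
    have := path (g i) (p b) (g j) (p (!b)) (hgp i b) (fun e => hij (g.injective e).symm) (hpp b)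
    rwa [hp, hp, hd] at this
  · intro i j hij
    have := path (g i) i2 (g j) (p true) (hg i).2.2 (fun e => hij (g.injective e).symm)
      (h2p true).symm
    rwa [hp] at this
  · intro i j b hij
    have := path (g i) (g j) i2 (p b) (fun e => hij (g.injective e)) (hg i).2.2.symm
      (hgp j b).symm
    rwa [hp] at this
  · intro i j b c hij
    have := path (g i) (g j) (p b) (p c) (fun e => hij (g.injective e)) (hgp i b).symm
      (hgp j c).symm
    rwa [hp, hp] at this

private theorem PB_false : PB false = ((-1024 : ℝ) : ℂ) := by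
  simp [PB]

private theorem PB_true : PB true = ((1024 : ℝ) : ℂ) := by
  simp [PB]

private theorem conj_PB (b : Bool) : (starRingEnd ℂ) (PB b) = PB b := by
  cases b
  · rw [PB_false, Complex.conj_ofReal]
  · rw [PB_true, Complex.conj_ofReal]

private theorem norm_conj_sub (a b : ℂ) :
    ‖(starRingEnd ℂ) a - (starRingEnd ℂ) b‖ = ‖a - b‖ := by
  rw [← map_sub, RCLike.norm_conj]

private theorem core2 (H : ∀ (q : ℂ) (x : Fin 6 → ℂ), 0 ≤ q.re → 0 ≤ q.im → OC q x → False)
    {z : Fin 9 → ℂ} {i0 i1 i2 : Fin 9} (h : Nm z i0 i1 i2) (hre : 0 ≤ (z i2).re) : False := by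
  by_cases him : 0 ≤ (z i2).im
  · exact core1 H h hre him
  · obtain ⟨h01, h20, h21, z0, z1, far, path, V⟩ := h
    have hc : ∀ (a : ℂ) (b : Bool), ‖(starRingEnd ℂ) a - PB b‖ = ‖a - PB b‖ := by
      intro a b
      rw [← norm_conj_sub a, conj_PB]
    refine core1 H (z := fun i => (starRingEnd ℂ) (z i)) (i0 := i0) (i1 := i1) (i2 := i2)
      ⟨h01, h20, h21, ?_, ?_, ?_, ?_, ?_⟩ ?_ ?_
    · simp only [z0, conj_PB]
    · simp only [z1, conj_PB]
    · intro i j hij
      rw [norm_conj_sub]; exact far i j hij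
    · intro i j k l hij hki hlj
      simp only [norm_conj_sub]; exact path i j k l hij hki hlj
    · intro k hk0 hk1
      simp only [hc]; exact V k hk0 hk1
    · simpa using hre
    · simp only [Complex.conj_im]; linarith

private theorem core3 (H : ∀ (q : ℂ) (x : Fin 6 → ℂ), 0 ≤ q.re → 0 ≤ q.im → OC q x → False)
    {z : Fin 9 → ℂ} {i0 i1 i2 : Fin 9} (h : Nm z i0 i1 i2) : False := by
  by_cases hre : 0 ≤ (z i2).re
  · exact core2 H h hre
  · obtain ⟨h01, h20, h21, z0, z1, far, path, V⟩ := h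
    have hn : ∀ a b : ℂ, ‖-a - -b‖ = ‖a - b‖ := by
      intro a b
      rw [← norm_neg (a - b)]; congr 1; ring
    have hPB : ∀ b, - PB b = PB (!b) := by
      intro b; cases b
      · simp [PB]
      · simp [PB]
    have hc : ∀ (a : ℂ) (b : Bool), ‖-a - PB b‖ = ‖a - PB (!b)‖ := by
      intro a b
      rw [← hn a, hPB, Bool.not_not]
    refine core2 H (z := fun i => - (z i)) (i0 := i1) (i1 := i0) (i2 := i2)
      ⟨h01.symm, h21, h20, ?_, ?_, ?_, ?_, ?_⟩ ?_
    · simp only [z1, hPB]; rfl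
    · simp only [z0, hPB]; rfl
    · intro i j hij
      rw [hn]; exact far i j hij
    · intro i j k l hij hki hlj
      simp only [hn]; exact path i j k l hij hki hlj
    · intro k hk0 hk1
      simp only [hc, Bool.not_false, Bool.not_true]
      rw [max_comm, max_comm ‖z k - PB true‖]
      exact V k hk1 hk0
    · simp only [Complex.neg_re]; linarith

theorem reduce_core (H : ∀ (q : ℂ) (x : Fin 6 → ℂ), 0 ≤ q.re → 0 ≤ q.im → OC q x → False)
    (z : Fin 9 → ℂ) (hz : Function.Injective z)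
    (hp : ∀ i j k l, i ≠ j → k ≠ i → l ≠ j → ‖z i - z j‖ < ‖z i - z k‖ + ‖z j - z l‖) :
    False := by
  -- the closest pair
  obtain ⟨⟨i0, i1⟩, hmem, hmin⟩ := Finset.exists_min_image
    (Finset.univ.filter fun p : Fin 9 × Fin 9 => p.1 ≠ p.2) (fun p => ‖z p.1 - z p.2‖)
    ⟨(0, 1), by simp⟩
  simp only [Finset.mem_filter, Finset.mem_univ, true_and] at hmem hmin
  have hne : z i1 - z i0 ≠ 0 := sub_ne_zero.mpr (fun e => hmem (hz e).symm)
  have hpos : 0 < ‖z i1 - z i0‖ := norm_pos_iff.mpr hne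
  set c : ℂ := 2048 / (z i1 - z i0) with hcdef
  have hcn : ‖c‖ = 2048 / ‖z i1 - z i0‖ := by
    rw [hcdef, norm_div]; norm_num
  have hcpos : 0 < ‖c‖ := by rw [hcn]; positivity
  set w : Fin 9 → ℂ := fun i => (z i - (z i0 + z i1) / 2) * c with hw
  have hdist : ∀ i j, ‖w i - w j‖ = ‖z i - z j‖ * ‖c‖ := by
    intro i j
    rw [← norm_mul]; congr 1; simp only [hw]; ring
  have hw0 : w i0 = PB false := by
    rw [PB_false]
    simp only [hw, hcdef]
    field_simp
    push_cast
    ring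
  have hw1 : w i1 = PB true := by
    rw [PB_true]
    simp only [hw, hcdef]
    field_simp
    push_cast
    ring
  have hfar : ∀ i j, i ≠ j → 2048 ≤ ‖w i - w j‖ := by
    intro i j hij
    have h1 := hmin (i, j) hij
    simp only at h1
    rw [hdist, hcn]
    rw [norm_sub_rev (z i0)] at h1
    rw [mul_div_assoc', le_div_iff₀ hpos]
    nlinarith
  have hpath : ∀ i j k l, i ≠ j → k ≠ i → l ≠ j → ‖w i - w j‖ < ‖w i - w k‖ + ‖w j - w l‖ := by
    intro i j k l hij hki hlj
    simp only [hdist]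
    rw [← add_mul]
    exact mul_lt_mul_of_pos_right (hp i j k l hij hki hlj) hcpos
  -- the third point
  obtain ⟨i2, hmem2, hmin2⟩ := Finset.exists_min_image
    (Finset.univ.filter fun k : Fin 9 => k ≠ i0 ∧ k ≠ i1)
    (fun k => max ‖w k - PB false‖ ‖w k - PB true‖) (by
      have : ∀ a b : Fin 9, ∃ k : Fin 9, k ≠ a ∧ k ≠ b := by decide
      obtain ⟨k, hk⟩ := this i0 i1
      exact ⟨k, by simpa using hk⟩)
  simp only [Finset.mem_filter, Finset.mem_univ, true_and] at hmem2 hmin2
  exact core3 H (z := w) (i0 := i0) (i1 := i1) (i2 := i2)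
    ⟨hmem, hmem2.1, hmem2.2, hw0, hw1, hfar, hpath, fun k h0 h1 => hmin2 k ⟨h0, h1⟩⟩

theorem reduce (H : ∀ (q : ℂ) (x : Fin 6 → ℂ), 0 ≤ q.re → 0 ≤ q.im → OC q x → False) :
    ¬ AdmitsOSI (⊤ : SimpleGraph (Fin 9)) := by
  intro h
  obtain ⟨z, hz, hp⟩ := exists_cfg_of_admits h
  exact reduce_core H z hz hp

end Pool.Agent.K9
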