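import Pool.Agent.K9.Chk

/-! # K9: the check of a box in normal mode, and its corners -/

namespace Pool.Agent.K9

/-- the search tree of a box in normal mode -/
noncomputable def chkT (g : Grid) (L : List Corner) (vlo2 : Nat) (ws : List Nat) (t : Tree) :
    Bool :=
  mkG g fun G => mkB G L vlo2 fun e => tChk e ws t e.ACT 5

/-- the corners of a box -/
def cnr (x0 x1 y0 y1 d0 t0 d1 t1 d2 t2 d3 t3 : Nat) : List Corner :=
  [⟨x0, y0, d0, t0⟩, ⟨x1, y0, d1, t1⟩, ⟨x0, y1, d2, t2⟩, ⟨x1, y1, d3, t3⟩]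

end Pool.Agent.K9
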