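import Mathlib
import Pool.Agent.K9.Spec

/-! # K9: the cells cover the region of the outer points; angular conflicts -/

namespace Pool.Agent.K9

theorem outer_norm {q : ℂ} {x : Fin 6 → ℂ} (h : OC q x) (i : Fin 6) :
    3 * 1024 ^ 2 ≤ ‖x i‖ ^ 2 := by
  have h0 := h.n01 i false
  have h1 := h.n01 i true
  have e0 : ‖x i - PB false‖ ^ 2 = ((x i).re + 1024) ^ 2 + (x i).im ^ 2 := by
    rw [Complex.sq_norm, Complex.normSq_apply]
    simp [PB]; ring
  have e1 : ‖x i - PB true‖ ^ 2 = ((x i).re - 1024) ^ 2 + (x i).im ^ 2 := by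
    rw [Complex.sq_norm, Complex.normSq_apply]
    simp [PB]; ring
  have e2 : ‖x i‖ ^ 2 = (x i).re ^ 2 + (x i).im ^ 2 := by
    rw [Complex.sq_norm, Complex.normSq_apply]; ring
  have k0 : (2048 : ℝ) ^ 2 ≤ ‖x i - PB false‖ ^ 2 := by gcongr
  have k1 : (2048 : ℝ) ^ 2 ≤ ‖x i - PB true‖ ^ 2 := by gcongr
  nlinarith

/-! ## indices of the vertices of a cell -/

namespace Grid
variable {g : Grid}

theorem cov_M_pos (g : Grid) : 0 < g.M := Nat.succ_pos _

theorem cov_div_mod (j : ℕ) {k : ℕ} (hk : k < g.M) :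
    (g.M * j + k) / g.M = j ∧ (g.M * j + k) % g.M = k := by
  have hM := g.cov_M_pos
  constructor
  · rw [Nat.mul_add_div hM, Nat.div_eq_of_lt hk, add_zero]
  · rw [Nat.mul_add_mod, Nat.mod_eq_of_lt hk]

theorem cov_idx1 {l : ℕ} (hl : l % g.M < g.T.length) :
    (l + 1) / g.M = l / g.M ∧ (l + 1) % g.M = l % g.M + 1 := by
  have h1 : l + 1 = g.M * (l / g.M) + (l % g.M + 1) := by
    have := Nat.div_add_mod l g.M; omega
  have h2 : l % g.M + 1 < g.M := by unfold M at *; omega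
  have := cov_div_mod (g := g) (l / g.M) h2
  rw [← h1] at this
  exact this

theorem cov_idx2 (l : ℕ) : (l + g.M) / g.M = l / g.M + 1 ∧ (l + g.M) % g.M = l % g.M :=
  ⟨Nat.add_div_right _ g.cov_M_pos, Nat.add_mod_right _ _⟩

theorem cov_idx3 {l : ℕ} (hl : l % g.M < g.T.length) :
    (l + g.M + 1) / g.M = l / g.M + 1 ∧ (l + g.M + 1) % g.M = l % g.M + 1 := by
  have h2 := cov_idx2 (g := g) l
  have h3 : (l + g.M) % g.M < g.T.length := by rw [h2.2]; exact hl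
  have h4 := cov_idx1 (g := g) h3
  rw [h2.1, h2.2] at h4
  exact h4

/-- the value of `av` at the outer vertices of a cell -/
def covOa (g : Grid) (k : ℕ) : ℤ := if k + 1 < g.T.length then 1 else 0

theorem cov_inCell_iff {l : ℕ} (hl : l % g.M < g.T.length) (z : ℂ) :
    g.InCell l z ↔ ∃ w0 w1 w2 w3 : ℝ, 0 ≤ w0 ∧ 0 ≤ w1 ∧ 0 ≤ w2 ∧ 0 ≤ w3 ∧
      w0 + w1 * (g.covOa (l % g.M) : ℝ) + w2 + w3 * (g.covOa (l % g.M) : ℝ) = 1 ∧
      (w0 * g.tt (l % g.M) + w1 * g.tt (l % g.M + 1)) * g.dx (l / g.M) +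
        (w2 * g.tt (l % g.M) + w3 * g.tt (l % g.M + 1)) * g.dx (l / g.M + 1) = z.re ∧
      (w0 * g.tt (l % g.M) + w1 * g.tt (l % g.M + 1)) * g.dy (l / g.M) +
        (w2 * g.tt (l % g.M) + w3 * g.tt (l % g.M + 1)) * g.dy (l / g.M + 1) = z.im := by
  have h1 := cov_idx1 (g := g) hl
  have h2 := cov_idx2 (g := g) l
  have h3 := cov_idx3 (g := g) hl
  have a0 : (g.av l : ℝ) = 1 := by unfold av; rw [if_pos hl]; norm_num
  have a1 : (g.av (l + 1) : ℝ) = (g.covOa (l % g.M) : ℝ) := by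
    unfold av covOa; rw [h1.2]
  have a2 : (g.av (l + g.M) : ℝ) = 1 := by unfold av; rw [h2.2, if_pos hl]; norm_num
  have a3 : (g.av (l + g.M + 1) : ℝ) = (g.covOa (l % g.M) : ℝ) := by
    unfold av covOa; rw [h3.2]
  unfold InCell
  constructor
  · rintro ⟨w, hw, hs, hx, hy⟩
    refine ⟨w 0, w 1, w 2, w 3, hw 0, hw 1, hw 2, hw 3, ?_, ?_, ?_⟩
    · rw [Fin.sum_univ_four] at hs
      simp only [vert, Matrix.cons_val_zero, Matrix.cons_val_one, Matrix.cons_val] at hs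
      rw [a0, a1, a2, a3] at hs
      linarith
    · rw [Fin.sum_univ_four] at hx
      simp only [vert, Matrix.cons_val_zero, Matrix.cons_val_one, Matrix.cons_val, vx] at hx
      rw [h1.1, h1.2, h2.1, h2.2, h3.1, h3.2] at hx
      push_cast at hx
      linarith
    · rw [Fin.sum_univ_four] at hy
      simp only [vert, Matrix.cons_val_zero, Matrix.cons_val_one, Matrix.cons_val, vy] at hy
      rw [h1.1, h1.2, h2.1, h2.2, h3.1, h3.2] at hy
      push_cast at hy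
      linarith
  · rintro ⟨w0, w1, w2, w3, h0, h1', h2', h3', hs, hx, hy⟩
    refine ⟨![w0, w1, w2, w3], ?_, ?_, ?_, ?_⟩
    · intro i; fin_cases i <;> simpa
    · rw [Fin.sum_univ_four]
      simp only [vert, Matrix.cons_val_zero, Matrix.cons_val_one, Matrix.cons_val]
      rw [a0, a1, a2, a3]
      linarith
    · rw [Fin.sum_univ_four]
      simp only [vert, Matrix.cons_val_zero, Matrix.cons_val_one, Matrix.cons_val, vx]
      rw [h1.1, h1.2, h2.1, h2.2, h3.1, h3.2]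
      push_cast
      linarith
    · rw [Fin.sum_univ_four]
      simp only [vert, Matrix.cons_val_zero, Matrix.cons_val_one, Matrix.cons_val, vy]
      rw [h1.1, h1.2, h2.1, h2.2, h3.1, h3.2]
      push_cast
      linarith

theorem cov_tt_mono {g : Grid} (hg : g.OK) {a b : ℕ} (hab : a ≤ b) (hb : b < g.T.length) :
    g.tt a ≤ g.tt b := by
  induction b, hab using Nat.le_induction with
  | base => exact le_rfl
  | succ n hn ih =>
    have := hg.Tlt n hb
    have := ih (by omega)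
    omega

theorem cov_tt_ge {g : Grid} (hg : g.OK) {k : ℕ} (hk : k < g.T.length) : 27 ≤ g.tt k := by
  have := cov_tt_mono hg (Nat.zero_le k) hk
  rw [hg.T0] at this
  exact this

theorem cov_lt_len {g : Grid} {j : ℕ} (hj : j < g.J) : j + 1 < g.ax.length := by
  unfold J at hj; omega

/-- decomposition of the points of a cell -/
theorem cov_cell_dec {g : Grid} (hg : g.OK) {l : ℕ} (hl : g.isCell l) {z : ℂ} (hz : g.InCell l z) :
    ∃ A B : ℝ, 0 ≤ A ∧ 0 ≤ B ∧ (g.tt (l % g.M) : ℝ) ≤ A + B ∧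
      A * g.dx (l / g.M) + B * g.dx (l / g.M + 1) = z.re ∧
      A * g.dy (l / g.M) + B * g.dy (l / g.M + 1) = z.im := by
  rw [cov_inCell_iff hl.2] at hz
  obtain ⟨w0, w1, w2, w3, h0, h1, h2, h3, hs, hx, hy⟩ := hz
  have ht : (27 : ℝ) ≤ g.tt (l % g.M) := by exact_mod_cast cov_tt_ge hg hl.2
  have ht1 : (0 : ℝ) ≤ g.tt (l % g.M + 1) := by
    by_cases hk : l % g.M + 1 < g.T.length
    · have := cov_tt_ge hg hk
      have : (0 : ℤ) ≤ g.tt (l % g.M + 1) := by omega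
      exact_mod_cast this
    · unfold tt
      rw [if_neg hk]; norm_num
  refine ⟨w0 * g.tt (l % g.M) + w1 * g.tt (l % g.M + 1),
    w2 * g.tt (l % g.M) + w3 * g.tt (l % g.M + 1), by positivity, by positivity, ?_, hx, hy⟩
  by_cases hk : l % g.M + 1 < g.T.length
  · have e : (g.covOa (l % g.M) : ℝ) = 1 := by unfold covOa; rw [if_pos hk]; norm_num
    rw [e] at hs
    have hlt : (g.tt (l % g.M) : ℝ) ≤ g.tt (l % g.M + 1) := by
      exact_mod_cast (hg.Tlt _ hk).le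
    nlinarith
  · have e : (g.covOa (l % g.M) : ℝ) = 0 := by unfold covOa; rw [if_neg hk]; norm_num
    rw [e] at hs
    nlinarith [mul_nonneg h1 ht1, mul_nonneg h3 ht1]

end Grid

theorem cov_exists_sign {f : ℕ → ℝ} {a b : ℕ} (hab : a < b) (ha : 0 ≤ f a) (hb : f b ≤ 0) :
    ∃ j, a ≤ j ∧ j < b ∧ 0 ≤ f j ∧ f (j + 1) ≤ 0 := by
  by_contra hcon
  push Not at hcon
  have key : ∀ j, a ≤ j → j < b → 0 ≤ f j := by
    intro j hj
    induction j, hj using Nat.le_induction with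
    | base => intro _; exact ha
    | succ n hn ih =>
      intro hlt
      have := hcon n hn (by omega) (ih (by omega))
      exact this.le
  have h1 := key (b - 1) (by omega) (by omega)
  have h2 := hcon (b - 1) (by omega) (by omega) h1
  rw [Nat.sub_add_cancel (by omega)] at h2
  linarith

theorem cov_exists_ring {g : Grid} (hg : g.OK) {s : ℝ} (hs : 27 ≤ s) :
    ∃ k, k < g.T.length ∧ (g.tt k : ℝ) ≤ s ∧ (k + 1 < g.T.length → s ≤ g.tt (k + 1)) := by
  have hlen := hg.Tlen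
  by_contra hcon
  push Not at hcon
  have key : ∀ k, k < g.T.length → (g.tt k : ℝ) ≤ s := by
    intro k
    induction k with
    | zero => intro _; rw [hg.T0]; exact_mod_cast hs
    | succ n ih =>
      intro hlt
      have := (hcon n (by omega) (ih (by omega))).2
      exact this.le
  have h1 := key (g.T.length - 1) (by omega)
  have h2 := (hcon (g.T.length - 1) (by omega) h1).1
  omega

theorem exists_cell {g : Grid} (hg : g.OK) (z : ℂ) (hz : 3 * 1024 ^ 2 ≤ ‖z‖ ^ 2) :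
    ∃ l, g.isCell l ∧ g.InCell l z := by
  have hnz : ‖z‖ ^ 2 = z.re ^ 2 + z.im ^ 2 := by
    rw [Complex.sq_norm, Complex.normSq_apply]; ring
  rw [hnz] at hz
  -- the sector
  obtain ⟨j, hj, hf0, hf1⟩ : ∃ j, j < g.J ∧ 0 ≤ (g.dx j : ℝ) * z.im - g.dy j * z.re ∧
      (g.dx (j + 1) : ℝ) * z.im - g.dy (j + 1) * z.re ≤ 0 := by
    set f : ℕ → ℝ := fun j => (g.dx j : ℝ) * z.im - g.dy j * z.re with hf
    have hJ := hg.J4
    have hJh := hg.Jh
    have f0 : f 0 = 64 * z.im := by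
      simp only [hf]; rw [hg.a0.1, hg.a0.2]; push_cast; ring
    have fh : f (g.J / 2) = -64 * z.im := by
      simp only [hf]; rw [hg.ah.1, hg.ah.2]; push_cast; ring
    have fJ : f g.J = 64 * z.im := by
      simp only [hf]; rw [hg.aJ.1, hg.aJ.2]; push_cast; ring
    rcases le_total 0 z.im with h | h
    · obtain ⟨j, -, hjb, h1, h2⟩ := cov_exists_sign (f := f) (a := 0) (b := g.J / 2) (by omega)
        (by rw [f0]; linarith) (by rw [fh]; linarith)
      exact ⟨j, by omega, h1, h2⟩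
    · obtain ⟨j, -, hjb, h1, h2⟩ := cov_exists_sign (f := f) (a := g.J / 2) (b := g.J) (by omega)
        (by rw [fh]; linarith) (by rw [fJ]; linarith)
      exact ⟨j, by omega, h1, h2⟩
  have hlt := Grid.cov_lt_len hj
  have hc : (0 : ℝ) < g.dx j * g.dy (j + 1) - g.dy j * g.dx (j + 1) := by
    exact_mod_cast hg.crs j hj
  set c : ℝ := g.dx j * g.dy (j + 1) - g.dy j * g.dx (j + 1) with hcdef
  obtain ⟨α, hα⟩ : ∃ α : ℝ, α = -((g.dx (j + 1) : ℝ) * z.im - g.dy (j + 1) * z.re) / c := ⟨_, rfl⟩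
  obtain ⟨β, hβ⟩ : ∃ β : ℝ, β = ((g.dx j : ℝ) * z.im - g.dy j * z.re) / c := ⟨_, rfl⟩
  have hα0 : 0 ≤ α := by rw [hα]; apply div_nonneg <;> linarith
  have hβ0 : 0 ≤ β := by rw [hβ]; apply div_nonneg <;> linarith
  have hx : α * g.dx j + β * g.dx (j + 1) = z.re := by
    rw [hα, hβ]; field_simp; rw [hcdef]; ring
  have hy : α * g.dy j + β * g.dy (j + 1) = z.im := by
    rw [hα, hβ]; field_simp; rw [hcdef]; ring
  have n0 : ((g.dx j : ℝ)) ^ 2 + (g.dy j : ℝ) ^ 2 ≤ 4315 := by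
    exact_mod_cast (hg.nrm j (by omega)).2
  have n1 : ((g.dx (j + 1) : ℝ)) ^ 2 + (g.dy (j + 1) : ℝ) ^ 2 ≤ 4315 := by
    exact_mod_cast (hg.nrm (j + 1) hlt).2
  have hs : 27 ≤ α + β := by
    have h1 : z.re ^ 2 + z.im ^ 2 ≤ 4315 * (α + β) ^ 2 := by
      rw [← hx, ← hy]
      have h2 : (g.dx j : ℝ) * g.dx (j + 1) + (g.dy j : ℝ) * g.dy (j + 1) ≤ 4315 := by
        nlinarith [sq_nonneg ((g.dx j : ℝ) - g.dx (j + 1)), sq_nonneg ((g.dy j : ℝ) - g.dy (j + 1))]
      have h3 : 0 ≤ α * β := mul_nonneg hα0 hβ0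
      nlinarith [mul_le_mul_of_nonneg_left n0 (sq_nonneg α),
        mul_le_mul_of_nonneg_left n1 (sq_nonneg β), mul_le_mul_of_nonneg_left h2 h3]
    by_contra hcon
    push Not at hcon
    nlinarith
  obtain ⟨k, hk, hk1, hk2⟩ := cov_exists_ring hg hs
  have hkM : k < g.M := by unfold Grid.M; omega
  have hdm := Grid.cov_div_mod (g := g) j hkM
  refine ⟨g.M * j + k, ⟨by rw [hdm.1]; exact hj, by rw [hdm.2]; exact hk⟩, ?_⟩
  rw [Grid.cov_inCell_iff (by rw [hdm.2]; exact hk), hdm.1, hdm.2]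
  have hs0 : 0 < α + β := by linarith
  have hT : (27 : ℝ) ≤ g.tt k := by exact_mod_cast Grid.cov_tt_ge hg hk
  by_cases hk3 : k + 1 < g.T.length
  · have e : (g.covOa k : ℝ) = 1 := by unfold Grid.covOa; rw [if_pos hk3]; norm_num
    have h4 := hk2 hk3
    have h5 : (g.tt k : ℝ) < g.tt (k + 1) := by exact_mod_cast hg.Tlt k hk3
    have h6 : (0 : ℝ) < g.tt (k + 1) - g.tt k := by linarith
    obtain ⟨t, ht⟩ : ∃ t : ℝ, t = (α + β - g.tt k) / (g.tt (k + 1) - g.tt k) := ⟨_, rfl⟩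
    have ht0 : 0 ≤ t := by rw [ht]; apply div_nonneg <;> linarith
    have ht1 : t ≤ 1 := by rw [ht, div_le_one h6]; linarith
    have ht2 : (1 - t) * g.tt k + t * g.tt (k + 1) = α + β := by
      rw [ht]; field_simp; ring
    refine ⟨(1 - t) * α / (α + β), t * α / (α + β), (1 - t) * β / (α + β), t * β / (α + β),
      div_nonneg (mul_nonneg (by linarith) hα0) hs0.le, div_nonneg (mul_nonneg ht0 hα0) hs0.le,
      div_nonneg (mul_nonneg (by linarith) hβ0) hs0.le, div_nonneg (mul_nonneg ht0 hβ0) hs0.le,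
      ?_, ?_, ?_⟩
    · rw [e]; field_simp; ring
    · have h7 : (1 - t) * α / (α + β) * (g.tt k : ℝ) + t * α / (α + β) * g.tt (k + 1) = α := by
        have : (1 - t) * α / (α + β) * (g.tt k : ℝ) + t * α / (α + β) * g.tt (k + 1) =
          α * ((1 - t) * g.tt k + t * g.tt (k + 1)) / (α + β) := by ring
        rw [this, ht2]; field_simp
      have h8 : (1 - t) * β / (α + β) * (g.tt k : ℝ) + t * β / (α + β) * g.tt (k + 1) = β := by
        have : (1 - t) * β / (α + β) * (g.tt k : ℝ) + t * β / (α + β) * g.tt (k + 1) =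
          β * ((1 - t) * g.tt k + t * g.tt (k + 1)) / (α + β) := by ring
        rw [this, ht2]; field_simp
      rw [h7, h8]; exact hx
    · have h7 : (1 - t) * α / (α + β) * (g.tt k : ℝ) + t * α / (α + β) * g.tt (k + 1) = α := by
        have : (1 - t) * α / (α + β) * (g.tt k : ℝ) + t * α / (α + β) * g.tt (k + 1) =
          α * ((1 - t) * g.tt k + t * g.tt (k + 1)) / (α + β) := by ring
        rw [this, ht2]; field_simp
      have h8 : (1 - t) * β / (α + β) * (g.tt k : ℝ) + t * β / (α + β) * g.tt (k + 1) = β := by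
        have : (1 - t) * β / (α + β) * (g.tt k : ℝ) + t * β / (α + β) * g.tt (k + 1) =
          β * ((1 - t) * g.tt k + t * g.tt (k + 1)) / (α + β) := by ring
        rw [this, ht2]; field_simp
      rw [h7, h8]; exact hy
  · have e : (g.covOa k : ℝ) = 0 := by unfold Grid.covOa; rw [if_neg hk3]; norm_num
    have e2 : (g.tt (k + 1) : ℝ) = 16 := by unfold Grid.tt; rw [if_neg hk3]; norm_num
    have h9 : 0 ≤ 1 - (g.tt k : ℝ) / (α + β) := by
      rw [sub_nonneg, div_le_one hs0]; exact hk1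
    refine ⟨α / (α + β), α * (1 - g.tt k / (α + β)) / 16, β / (α + β),
      β * (1 - g.tt k / (α + β)) / 16, by positivity,
      div_nonneg (mul_nonneg hα0 h9) (by norm_num), by positivity,
      div_nonneg (mul_nonneg hβ0 h9) (by norm_num), ?_, ?_, ?_⟩
    · rw [e]; field_simp; ring
    · rw [e2]
      have h7 : α / (α + β) * (g.tt k : ℝ) + α * (1 - g.tt k / (α + β)) / 16 * 16 = α := by ring
      have h8 : β / (α + β) * (g.tt k : ℝ) + β * (1 - g.tt k / (α + β)) / 16 * 16 = β := by ring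
      rw [h7, h8]; exact hx
    · rw [e2]
      have h7 : α / (α + β) * (g.tt k : ℝ) + α * (1 - g.tt k / (α + β)) / 16 * 16 = α := by ring
      have h8 : β / (α + β) * (g.tt k : ℝ) + β * (1 - g.tt k / (α + β)) / 16 * 16 = β := by ring
      rw [h7, h8]; exact hy

/-- lower bound for the norm of the points of a cell -/
theorem norm_ge {g : Grid} (hg : g.OK) {l : ℕ} (hl : g.isCell l) {z : ℂ} (hz : g.InCell l z) :
    63 * (g.tt (l % g.M) : ℝ) ≤ ‖z‖ := by
  obtain ⟨A, B, hA, hB, hAB, hx, hy⟩ := Grid.cov_cell_dec hg hl hz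
  have hlt := Grid.cov_lt_len hl.1
  have hnz : ‖z‖ ^ 2 = z.re ^ 2 + z.im ^ 2 := by
    rw [Complex.sq_norm, Complex.normSq_apply]; ring
  have n0 : (3969 : ℝ) ≤ ((g.dx (l / g.M) : ℝ)) ^ 2 + (g.dy (l / g.M) : ℝ) ^ 2 := by
    exact_mod_cast (hg.nrm (l / g.M) (by omega)).1
  have n1 : (3969 : ℝ) ≤ ((g.dx (l / g.M + 1) : ℝ)) ^ 2 + (g.dy (l / g.M + 1) : ℝ) ^ 2 := by
    exact_mod_cast (hg.nrm (l / g.M + 1) hlt).1
  have n2 : (3969 : ℝ) ≤ (g.dx (l / g.M) : ℝ) * g.dx (l / g.M + 1) +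
      (g.dy (l / g.M) : ℝ) * g.dy (l / g.M + 1) := by
    exact_mod_cast hg.dot (l / g.M) hl.1
  have ht : (27 : ℝ) ≤ g.tt (l % g.M) := by exact_mod_cast Grid.cov_tt_ge hg hl.2
  have h1 : 3969 * (A + B) ^ 2 ≤ ‖z‖ ^ 2 := by
    rw [hnz, ← hx, ← hy]
    have h3 : 0 ≤ A * B := mul_nonneg hA hB
    nlinarith [mul_le_mul_of_nonneg_left n0 (sq_nonneg A),
      mul_le_mul_of_nonneg_left n1 (sq_nonneg B), mul_le_mul_of_nonneg_left n2 h3]
  have h2 : (63 * (g.tt (l % g.M) : ℝ)) ^ 2 ≤ ‖z‖ ^ 2 := by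
    have : (g.tt (l % g.M) : ℝ) ^ 2 ≤ (A + B) ^ 2 := by gcongr
    nlinarith
  exact le_of_sq_le_sq h2 (norm_nonneg _)

/-- planar vectors: `|a|` as a real number -/
private noncomputable def r2 (a b : ℝ) : ℝ := Real.sqrt (a ^ 2 + b ^ 2)

private theorem r2_nonneg (a b : ℝ) : 0 ≤ r2 a b := Real.sqrt_nonneg _
private theorem r2_sq (a b : ℝ) : r2 a b ^ 2 = a ^ 2 + b ^ 2 := Real.sq_sqrt (by positivity)

private theorem norm_le_comb (z : ℂ) {A B a1 a2 b1 b2 : ℝ} (hA : 0 ≤ A) (hB : 0 ≤ B)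
    (hx : A * a1 + B * b1 = z.re) (hy : A * a2 + B * b2 = z.im) :
    ‖z‖ ≤ A * r2 a1 a2 + B * r2 b1 b2 := by
  have hnz : ‖z‖ ^ 2 = z.re ^ 2 + z.im ^ 2 := by
    rw [Complex.sq_norm, Complex.normSq_apply]; ring
  have h0 := r2_nonneg a1 a2
  have h1 := r2_nonneg b1 b2
  have h2 : a1 * b1 + a2 * b2 ≤ r2 a1 a2 * r2 b1 b2 := by
    apply le_of_sq_le_sq _ (mul_nonneg h0 h1)
    rw [mul_pow, r2_sq, r2_sq]
    nlinarith [sq_nonneg (a1 * b2 - a2 * b1)]
  apply le_of_sq_le_sq _ (by positivity)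
  rw [hnz, ← hx, ← hy]
  have h3 := mul_le_mul_of_nonneg_left h2 (mul_nonneg hA hB)
  have h4 := r2_sq a1 a2
  have h5 := r2_sq b1 b2
  calc (A * a1 + B * b1) ^ 2 + (A * a2 + B * b2) ^ 2
      = A ^ 2 * (a1 ^ 2 + a2 ^ 2) + B ^ 2 * (b1 ^ 2 + b2 ^ 2) +
        2 * (A * B * (a1 * b1 + a2 * b2)) := by ring
    _ ≤ A ^ 2 * r2 a1 a2 ^ 2 + B ^ 2 * r2 b1 b2 ^ 2 +
        2 * (A * B * (r2 a1 a2 * r2 b1 b2)) := by rw [h4, h5]; linarith
    _ = (A * r2 a1 a2 + B * r2 b1 b2) ^ 2 := by ring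

/-- the key inequality of the angular test -/
private theorem ang_key {g : Grid} (hg : g.OK) {v u : ℕ} (hv : g.isCell v) (hu : g.isCell u)
    {x y : ℂ} (hx : g.InCell v x) (hy : g.InCell u y) {p : ℕ × ℕ} (hp : p ∈ g.ang)
    (huv : u / g.M = (v / g.M + p.1) % g.J) :
    (63 * (g.tt p.2 : ℝ) + 4096) * (‖x‖ * ‖y‖) ≤
      126 * g.tt p.2 * (x.re * y.re + x.im * y.im) := by
  obtain ⟨A, B, hA, hB, -, hx1, hx2⟩ := Grid.cov_cell_dec hg hv hx
  obtain ⟨C, D, hC, hD, -, hy1, hy2⟩ := Grid.cov_cell_dec hg hu hy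
  obtain ⟨hp1, hp2, hp3⟩ := hg.ang p hp
  have ht : (27 : ℝ) ≤ g.tt p.2 := by exact_mod_cast Grid.cov_tt_ge hg hp2
  have key : ∀ e < 2, ∀ f < 2,
      (63 * (g.tt p.2 : ℝ) + 4096) * (r2 (g.dx (v / g.M + e)) (g.dy (v / g.M + e)) *
        r2 (g.dx (u / g.M + f)) (g.dy (u / g.M + f))) ≤
      126 * g.tt p.2 * ((g.dx (v / g.M + e) : ℝ) * g.dx (u / g.M + f) +
        (g.dy (v / g.M + e) : ℝ) * g.dy (u / g.M + f)) := by
    intro e he f hf
    have h := hp3 (v / g.M) hv.1 e he f hf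
    rw [← huv] at h
    obtain ⟨h1, h2⟩ := h
    have h1' : (0 : ℝ) ≤ (g.dx (v / g.M + e) : ℝ) * g.dx (u / g.M + f) +
        (g.dy (v / g.M + e) : ℝ) * g.dy (u / g.M + f) := by exact_mod_cast h1
    have h2' : (63 * (g.tt p.2 : ℝ) + 4096) ^ 2 *
        (((g.dx (v / g.M + e) : ℝ) ^ 2 + (g.dy (v / g.M + e) : ℝ) ^ 2) *
        ((g.dx (u / g.M + f) : ℝ) ^ 2 + (g.dy (u / g.M + f) : ℝ) ^ 2)) ≤
        (126 * g.tt p.2 * ((g.dx (v / g.M + e) : ℝ) * g.dx (u / g.M + f) +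
        (g.dy (v / g.M + e) : ℝ) * g.dy (u / g.M + f))) ^ 2 := by exact_mod_cast h2
    apply le_of_sq_le_sq _ (mul_nonneg (by positivity) h1')
    rw [mul_pow, mul_pow (r2 _ _), r2_sq, r2_sq]
    exact h2'
  have k00 := key 0 (by norm_num) 0 (by norm_num)
  have k01 := key 0 (by norm_num) 1 (by norm_num)
  have k10 := key 1 (by norm_num) 0 (by norm_num)
  have k11 := key 1 (by norm_num) 1 (by norm_num)
  simp only [Nat.add_zero] at k00 k01 k10
  have nx := norm_le_comb x hA hB hx1 hx2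
  have ny := norm_le_comb y hC hD hy1 hy2
  have hAC := mul_nonneg hA hC
  have hAD := mul_nonneg hA hD
  have hBC := mul_nonneg hB hC
  have hBD := mul_nonneg hB hD
  have hprod : ‖x‖ * ‖y‖ ≤
      (A * r2 (g.dx (v / g.M)) (g.dy (v / g.M)) +
        B * r2 (g.dx (v / g.M + 1)) (g.dy (v / g.M + 1))) *
      (C * r2 (g.dx (u / g.M)) (g.dy (u / g.M)) +
        D * r2 (g.dx (u / g.M + 1)) (g.dy (u / g.M + 1))) :=
    mul_le_mul nx ny (norm_nonneg _) ((norm_nonneg _).trans nx)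
  have h1 := mul_le_mul_of_nonneg_left k00 hAC
  have h2 := mul_le_mul_of_nonneg_left k01 hAD
  have h3 := mul_le_mul_of_nonneg_left k10 hBC
  have h4 := mul_le_mul_of_nonneg_left k11 hBD
  have h5 := mul_le_mul_of_nonneg_left hprod
    (show (0 : ℝ) ≤ 63 * (g.tt p.2 : ℝ) + 4096 by positivity)
  refine h5.trans ?_
  rw [← hx1, ← hx2, ← hy1, ← hy2]
  linarith

private theorem ang_core {X Y d T s : ℝ} (hT : 27 ≤ T) (hm : 63 * T ≤ X) (hXY : X ≤ Y)
    (hd : 0 ≤ d) (hd2 : d ^ 2 = X ^ 2 + Y ^ 2 - 2 * s)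
    (hs : (63 * T + 4096) * (X * Y) ≤ 126 * T * s) (h1 : Y < d + 2048) : False := by
  have hX : 0 < X := by linarith
  have hY : 0 < Y := by linarith
  -- 2 s ≥ X Y + 4096 Y
  have h2 : X * Y + 4096 * Y ≤ 2 * s := by
    have h3 : 63 * T * (X * Y + 4096 * Y) ≤ 63 * T * (2 * s) := by
      have : 63 * T * (4096 * Y) ≤ X * (4096 * Y) :=
        mul_le_mul_of_nonneg_right hm (by positivity)
      nlinarith
    exact le_of_mul_le_mul_left h3 (by positivity)
  have h4 : d ^ 2 ≤ Y ^ 2 - 4096 * Y := by nlinarith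
  rcases le_total 2048 Y with h | h
  · nlinarith
  · nlinarith [sq_nonneg d]

private theorem far_point (y : ℂ) : ∃ b, ‖y‖ ≤ ‖y - PB b‖ := by
  have hny : ‖y‖ ^ 2 = y.re ^ 2 + y.im ^ 2 := by
    rw [Complex.sq_norm, Complex.normSq_apply]; ring
  rcases le_total 0 y.re with h | h
  · refine ⟨false, ?_⟩
    have e0 : ‖y - PB false‖ ^ 2 = (y.re + 1024) ^ 2 + y.im ^ 2 := by
      rw [Complex.sq_norm, Complex.normSq_apply]; simp [PB]; ring
    exact le_of_sq_le_sq (by rw [hny, e0]; nlinarith) (norm_nonneg _)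
  · refine ⟨true, ?_⟩
    have e0 : ‖y - PB true‖ ^ 2 = (y.re - 1024) ^ 2 + y.im ^ 2 := by
      rw [Complex.sq_norm, Complex.normSq_apply]; simp [PB]; ring
    exact le_of_sq_le_sq (by rw [hny, e0]; nlinarith) (norm_nonneg _)

theorem ang_false {g : Grid} (hg : g.OK) {q : ℂ} {x : Fin 6 → ℂ} (h : OC q x)
    {i j : Fin 6} (hij : i ≠ j) {v u : ℕ} (hv : g.isCell v) (hu : g.isCell u)
    (hi : g.InCell v (x i)) (hj : g.InCell u (x j)) (ha : g.Ang v u) : False := by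
  obtain ⟨p, hp, hpv, hpu, huv⟩ := ha
  have hk := ang_key hg hv hu hi hj hp huv
  have hp2 := (hg.ang p hp).2.1
  have hT : (27 : ℝ) ≤ g.tt p.2 := by exact_mod_cast Grid.cov_tt_ge hg hp2
  have m1 : (g.tt p.2 : ℝ) ≤ g.tt (v % g.M) := by exact_mod_cast Grid.cov_tt_mono hg hpv hv.2
  have m2 : (g.tt p.2 : ℝ) ≤ g.tt (u % g.M) := by exact_mod_cast Grid.cov_tt_mono hg hpu hu.2
  have n1 := norm_ge hg hv hi
  have n2 := norm_ge hg hu hj
  have e1 : ‖x i‖ ^ 2 = (x i).re ^ 2 + (x i).im ^ 2 := by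
    rw [Complex.sq_norm, Complex.normSq_apply]; ring
  have e2 : ‖x j‖ ^ 2 = (x j).re ^ 2 + (x j).im ^ 2 := by
    rw [Complex.sq_norm, Complex.normSq_apply]; ring
  have e3 : ‖x i - x j‖ ^ 2 = ‖x i‖ ^ 2 + ‖x j‖ ^ 2 -
      2 * ((x i).re * (x j).re + (x i).im * (x j).im) := by
    rw [e1, e2, Complex.sq_norm, Complex.normSq_apply]
    simp; ring
  rcases le_total ‖x i‖ ‖x j‖ with hc | hc
  · obtain ⟨b, hb⟩ := far_point (x j)
    have h1 := h.c1 j i b (Ne.symm hij)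
    rw [norm_sub_rev (x j) (x i)] at h1
    exact ang_core hT (by linarith) hc (norm_nonneg _) e3 hk (by linarith)
  · obtain ⟨b, hb⟩ := far_point (x i)
    have h1 := h.c1 i j b hij
    exact ang_core (X := ‖x j‖) (Y := ‖x i‖) (d := ‖x i - x j‖)
      (s := (x i).re * (x j).re + (x i).im * (x j).im) hT (by linarith) hc (norm_nonneg _)
      (by rw [e3]; ring) (by rw [mul_comm ‖x j‖ ‖x i‖]; exact hk) (by linarith)

end Pool.Agent.K9
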