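import Mathlib
import Pool.Agent.K9.Spec

/-! # K9: arithmetic of packed lanes -/

namespace Pool.Agent.K9

theorem force_eq {α : Type} (n : ℕ) (f : ℕ → α) : force n f = f n := rfl

variable {n : ℕ} {U V T D m ONE AV : ℕ} {f g mf av : ℕ → ℤ}

/-- packed number of natural lanes -/
private def pkn (n : ℕ) (g : ℕ → ℕ) : ℕ := ∑ l ∈ Finset.range n, g l * 2 ^ (48 * l)

private theorem pkn_lt (g : ℕ → ℕ) (n : ℕ) (hg : ∀ l < n, g l < 2 ^ 48) :
    pkn n g < 2 ^ (48 * n) := by
  induction n with
  | zero => simp [pkn]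
  | succ n ih =>
    have h1 := ih fun l hl => hg l (Nat.lt_succ_of_lt hl)
    have h2 := hg n (Nat.lt_succ_self n)
    have e : pkn (n + 1) g = pkn n g + g n * 2 ^ (48 * n) := Finset.sum_range_succ _ _
    have e2 : 2 ^ (48 * (n + 1)) = 2 ^ 48 * 2 ^ (48 * n) := by
      rw [← pow_add]; congr 1; ring
    rw [e, e2]
    have h3 : (g n + 1) * 2 ^ (48 * n) ≤ 2 ^ 48 * 2 ^ (48 * n) := Nat.mul_le_mul_right _ h2
    rw [Nat.add_mul, Nat.one_mul] at h3
    omega

private theorem pkn_testBit (g : ℕ → ℕ) (n : ℕ) (hg : ∀ l < n, g l < 2 ^ 48) (i : ℕ) :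
    (pkn n g).testBit i = if i / 48 < n then (g (i / 48)).testBit (i % 48) else false := by
  induction n with
  | zero => simp [pkn]
  | succ n ih =>
    have h1 := ih fun l hl => hg l (Nat.lt_succ_of_lt hl)
    have h2 := hg n (Nat.lt_succ_self n)
    have e : pkn (n + 1) g = 2 ^ (48 * n) * g n + pkn n g := by
      have := Finset.sum_range_succ (fun l => g l * 2 ^ (48 * l)) n
      rw [pkn, this, pkn]
      ring
    rw [e, Nat.testBit_two_pow_mul_add _ (pkn_lt g n fun l hl => hg l (Nat.lt_succ_of_lt hl))]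
    by_cases hi : i < 48 * n
    · have h3 : i / 48 < n := by omega
      rw [if_pos hi, h1, if_pos h3, if_pos (Nat.lt_succ_of_lt h3)]
    · rw [if_neg hi]
      by_cases hi2 : i / 48 < n + 1
      · have h3 : i / 48 = n := by omega
        rw [if_pos hi2, h3]
        congr 1
        omega
      · rw [if_neg hi2]
        apply Nat.testBit_lt_two_pow
        refine lt_of_lt_of_le h2 (Nat.pow_le_pow_right two_pos ?_)
        omega

private theorem rep_pkn (hV : Rep n V f) (h : ∀ l < n, 0 ≤ f l) :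
    V = pkn n fun l => (f l).toNat := by
  have h1 : (V : ℤ) = ((pkn n fun l => (f l).toNat : ℕ) : ℤ) := by
    rw [hV, pkn]
    push_cast
    refine Finset.sum_congr rfl fun l hl => ?_
    rw [Int.toNat_of_nonneg (h l (Finset.mem_range.1 hl))]
  exact_mod_cast h1

private theorem pkn_rep (g : ℕ → ℕ) : Rep n (pkn n g) (fun l => (g l : ℤ)) := by
  rw [Rep, pkn]
  push_cast
  rfl

private theorem toNat_lt (h : ∀ l < n, 0 ≤ f l ∧ f l < 2 ^ 48) (l : ℕ) (hl : l < n) :
    (f l).toNat < 2 ^ 48 := by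
  have := h l hl
  omega

private theorem rep_testBit (hV : Rep n V f) (h : ∀ l < n, 0 ≤ f l ∧ f l < 2 ^ 48) (i : ℕ) :
    V.testBit i = if i / 48 < n then (f (i / 48)).toNat.testBit (i % 48) else false := by
  rw [rep_pkn hV fun l hl => (h l hl).1]
  exact pkn_testBit _ n (toNat_lt h) i

theorem Rep.congr (hV : Rep n V f) (h : ∀ l < n, f l = g l) : Rep n V g := by
  rw [Rep, hV]
  exact Finset.sum_congr rfl fun l hl => by rw [h l (Finset.mem_range.1 hl)]

theorem Rep.add (hU : Rep n U f) (hV : Rep n V g) : Rep n (Nat.add U V) (fun l => f l + g l) := by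
  have e : Nat.add U V = U + V := rfl
  rw [Rep, e, Nat.cast_add, hU, hV, ← Finset.sum_add_distrib]
  exact Finset.sum_congr rfl fun l _ => by ring

theorem Rep.smul (c : ℕ) (hV : Rep n V f) : Rep n (Nat.mul c V) (fun l => (c : ℤ) * f l) := by
  have e : Nat.mul c V = c * V := rfl
  rw [Rep, e, Nat.cast_mul, hV, Finset.mul_sum]
  exact Finset.sum_congr rfl fun l _ => by ring

theorem Rep.sub (hU : Rep n U f) (hV : Rep n V g) (h : ∀ l < n, g l ≤ f l) :
    Rep n (Nat.sub U V) (fun l => f l - g l) := by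
  have e : Nat.sub U V = U - V := rfl
  have hle : V ≤ U := by
    have : (V : ℤ) ≤ U := by
      rw [hU, hV]
      refine Finset.sum_le_sum fun l hl => ?_
      exact mul_le_mul_of_nonneg_right (h l (Finset.mem_range.1 hl)) (by positivity)
    exact_mod_cast this
  rw [Rep, e, Nat.cast_sub hle, hU, hV, ← Finset.sum_sub_distrib]
  exact Finset.sum_congr rfl fun l _ => by ring

/-- bits of a packed number -/
theorem Rep.testBit (hV : Rep n V f) (h : ∀ l < n, 0 ≤ f l ∧ f l < 2 ^ 48) {l b : ℕ} (hl : l < n)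
    (hb : b < 48) : V.testBit (48 * l + b) = (f l).toNat.testBit b := by
  rw [rep_testBit hV h]
  have e1 : (48 * l + b) / 48 = l := by omega
  have e2 : (48 * l + b) % 48 = b := by omega
  rw [e1, e2, if_pos hl]

theorem Rep.testBit_big (hV : Rep n V f) (h : ∀ l < n, 0 ≤ f l ∧ f l < 2 ^ 48) {i : ℕ}
    (hi : 48 * n ≤ i) : V.testBit i = false := by
  rw [rep_testBit hV h, if_neg (by omega)]

theorem Rep.sign (hV : Rep n V f) (h : ∀ l < n, 0 ≤ f l ∧ f l < 2 ^ 48) {l : ℕ} (hl : l < n) :
    V.testBit (48 * l + 47) = true ↔ 2 ^ 47 ≤ f l := by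
  rw [hV.testBit h hl (by norm_num), Nat.testBit_eq_decide_div_mod_eq, decide_eq_true_iff]
  have := h l hl
  have h2 : ((f l).toNat : ℤ) = f l := Int.toNat_of_nonneg this.1
  omega

/-- the lanes of a packed number -/
theorem Rep.lane (hV : Rep n V f) (h : ∀ l < n, 0 ≤ f l ∧ f l < 2 ^ 48) {l : ℕ} (hl : l < n) :
    ((lane V l : ℕ) : ℤ) = f l := by
  have h2 : ((f l).toNat : ℤ) = f l := Int.toNat_of_nonneg (h l hl).1
  rw [← h2]
  congr 1
  have e : Pool.Agent.K9.lane V l = (V >>> (48 * l)) % 2 ^ 48 := rfl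
  rw [e]
  refine Nat.eq_of_testBit_eq fun i => ?_
  rw [Nat.testBit_mod_two_pow, Nat.testBit_shiftRight]
  by_cases hi : i < 48
  · rw [hV.testBit h hl hi]
    simp [hi]
  · have h3 : (f l).toNat.testBit i = false := by
      apply Nat.testBit_lt_two_pow
      exact lt_of_lt_of_le (toNat_lt h l hl) (Nat.pow_le_pow_right two_pos (by omega))
    rw [h3]
    simp [hi]

/-- the bits of the number `ONE` -/
theorem Rep.one_testBit (h1 : Rep n ONE (fun _ => 1)) (i : ℕ) :
    ONE.testBit i = true ↔ ∃ l < n, i = 48 * l := by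
  rw [rep_testBit h1 (fun _ _ => by norm_num)]
  constructor
  · intro h
    by_cases hi : i / 48 < n
    · rw [if_pos hi] at h
      have h2 : i % 48 = 0 := by
        have h3 : Nat.testBit 1 (i % 48) = true := h
        exact Nat.testBit_one_eq_true_iff_self_eq_zero.1 h3
      exact ⟨i / 48, hi, by omega⟩
    · rw [if_neg hi] at h
      exact absurd h (by simp)
  · rintro ⟨l, hl, rfl⟩
    have e1 : 48 * l / 48 = l := by omega
    have e2 : 48 * l % 48 = 0 := by omega
    rw [e1, e2, if_pos hl]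
    rfl

private theorem rep_of_testBit (g : ℕ → ℕ) (hg : ∀ l < n, g l < 2 ^ 48)
    (h : ∀ i, V.testBit i = if i / 48 < n then (g (i / 48)).testBit (i % 48) else false) :
    Rep n V (fun l => (g l : ℤ)) := by
  have : V = pkn n g := Nat.eq_of_testBit_eq fun i => by rw [h, pkn_testBit g n hg]
  rw [this]
  exact pkn_rep g

theorem Rep.sgn (h1 : Rep n ONE (fun _ => 1)) (hT : Rep n T f)
    (h : ∀ l < n, 0 ≤ f l ∧ f l < 2 ^ 48) :
    Rep n (sgn ONE T) (fun l => if 2 ^ 47 ≤ f l then 1 else 0) := by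
  have e : Pool.Agent.K9.sgn ONE T = (T >>> 47) &&& ONE := rfl
  have key : Rep n (Pool.Agent.K9.sgn ONE T)
      (fun l => ((if 2 ^ 47 ≤ f l then 1 else 0 : ℕ) : ℤ)) := by
    refine rep_of_testBit _ (fun l _ => by split_ifs <;> norm_num) fun i => ?_
    rw [e, Nat.testBit_and, Nat.testBit_shiftRight]
    by_cases hi : i / 48 < n
    · rw [if_pos hi]
      by_cases h0 : i % 48 = 0
      · have h2 : ONE.testBit i = true := (h1.one_testBit i).2 ⟨i / 48, hi, by omega⟩
        have h3 : 47 + i = 48 * (i / 48) + 47 := by omega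
        have h4 := hT.sign h hi
        rw [h2, h3, Bool.and_true, h0]
        by_cases h5 : 2 ^ 47 ≤ f (i / 48)
        · rw [h4.2 h5, if_pos h5]; rfl
        · rw [if_neg h5]
          have : T.testBit (48 * (i / 48) + 47) = false := by
            rw [← Bool.not_eq_true]; exact fun h6 => h5 (h4.1 h6)
          rw [this]; rfl
      · have h2 : ONE.testBit i = false := by
          rw [← Bool.not_eq_true, h1.one_testBit]
          rintro ⟨l, -, h5⟩
          omega
        rw [h2, Bool.and_false]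
        split_ifs
        · rw [eq_comm, ← Bool.not_eq_true]
          exact fun h6 => h0 (Nat.testBit_one_eq_true_iff_self_eq_zero.1 h6)
        · simp
    · have h2 : ONE.testBit i = false := by
        rw [← Bool.not_eq_true, h1.one_testBit]
        rintro ⟨l, h4, h5⟩
        omega
      rw [h2, if_neg hi, Bool.and_false]
  refine key.congr fun l _ => ?_
  split_ifs <;> simp

theorem Rep.msk (hm : Rep n m mf) (h01 : ∀ l < n, mf l = 0 ∨ mf l = 1) (hV : Rep n V f)
    (h : ∀ l < n, 0 ≤ f l ∧ f l < 2 ^ 48) : Rep n (msk m V) (fun l => mf l * f l) := by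
  have e : Pool.Agent.K9.msk m V = (Nat.mul 281474976710655 m) &&& V := by
    show (m * 281474976710655) &&& V = (281474976710655 * m) &&& V
    rw [mul_comm]
  have hM : Rep n (Nat.mul 281474976710655 m) (fun l => ((281474976710655 : ℕ) : ℤ) * mf l) :=
    hm.smul _
  have hMb : ∀ l < n, 0 ≤ ((281474976710655 : ℕ) : ℤ) * mf l ∧
      ((281474976710655 : ℕ) : ℤ) * mf l < 2 ^ 48 := by
    intro l hl
    rcases h01 l hl with h0 | h0 <;> rw [h0] <;> norm_num
  have key : Rep n (Pool.Agent.K9.msk m V)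
      (fun l => ((if mf l = 1 then (f l).toNat else 0 : ℕ) : ℤ)) := by
    refine rep_of_testBit _ (fun l hl => ?_) fun i => ?_
    · have := toNat_lt h l hl
      split_ifs
      · exact this
      · positivity
    · rw [e, Nat.testBit_and, rep_testBit hM hMb, rep_testBit hV h]
      by_cases hi : i / 48 < n
      · rw [if_pos hi, if_pos hi, if_pos hi]
        rcases h01 _ hi with h0 | h0
        · rw [h0, if_neg (by norm_num)]
          simp
        · rw [h0, if_pos rfl]
          have h2 : ((((281474976710655 : ℕ) : ℤ) * 1).toNat) = 2 ^ 48 - 1 := rfl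
          rw [h2, Nat.testBit_two_pow_sub_one]
          have h3 : i % 48 < 48 := Nat.mod_lt _ (by norm_num)
          simp [h3]
      · rw [if_neg hi, if_neg hi, if_neg hi]; rfl
  refine key.congr fun l hl => ?_
  rcases h01 l hl with h0 | h0
  · rw [h0, if_neg (by norm_num)]; simp
  · rw [h0, if_pos rfl, one_mul]
    exact Int.toNat_of_nonneg (h l hl).1

theorem and4_testBit (M Z i : ℕ) :
    (and4 M Z).testBit i = (Z.testBit i && Z.testBit (i + 48) && Z.testBit (i + 48 * M) &&
      Z.testBit (i + 48 * M + 48)) := by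
  have e : and4 M Z = (Z &&& (Z >>> 48)) &&& ((Z &&& (Z >>> 48)) >>> (48 * M)) := rfl
  rw [e, Nat.testBit_and, Nat.testBit_shiftRight, Nat.testBit_and, Nat.testBit_and,
    Nat.testBit_shiftRight, Nat.testBit_shiftRight, Nat.add_comm 48 i, Nat.add_comm (48 * M) i,
    Nat.add_comm 48 (i + 48 * M)]
  cases Z.testBit i <;> cases Z.testBit (i + 48) <;> cases Z.testBit (i + 48 * M) <;>
    cases Z.testBit (i + 48 * M + 48) <;> rfl

end Pool.Agent.K9
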