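import Mathlib
import Pool.Agent.K9.Pack

/-! # K9: arithmetic of packed lanes, second part -/

namespace Pool.Agent.K9

variable {n : ℕ} {U V T D m ONE AV : ℕ} {f g mf av : ℕ → ℤ}

private theorem bias_cast : ((cBIAS : ℕ) : ℤ) = 2 ^ 47 := by norm_num [cBIAS]

private theorem rep_bias (h1 : Rep n ONE (fun _ => 1)) :
    Rep n (Nat.mul cBIAS ONE) (fun _ => 2 ^ 47) :=
  (h1.smul cBIAS).congr (fun l _ => by simp only [bias_cast, mul_one])

private theorem rep_zero : Rep n 0 (fun _ => 0) := by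
  simp [Rep]

private theorem sqGo_succ (R S b : ℕ) :
    sqGo ONE D (b + 1) R S = sqStep ONE D b R S (sqGo ONE D b) := rfl

private theorem force4 (A : ℕ) (B C : ℕ → ℕ) (E : ℕ → ℕ → ℕ) (k : ℕ → ℕ → ℕ) :
    force A (fun I => force (B I) (fun m => force (C m) (fun R' => force (E m I)
      (fun S' => k R' S')))) = k (C (B A)) (E (B A) A) := rfl

private theorem sqStep_eq (b R S : ℕ) (k : ℕ → ℕ → ℕ) :
    sqStep ONE D b R S k =
      k (Nat.add R (Nat.mul (Nat.pow 2 b) (sgn ONE (Nat.sub (Nat.add D (Nat.mul cBIAS ONE))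
        (Nat.add S (Nat.add (Nat.mul (Nat.pow 2 (Nat.succ b)) R)
          (Nat.mul (Nat.pow 2 (Nat.mul 2 b)) ONE)))))))
        (Nat.add S (msk (sgn ONE (Nat.sub (Nat.add D (Nat.mul cBIAS ONE))
        (Nat.add S (Nat.add (Nat.mul (Nat.pow 2 (Nat.succ b)) R)
          (Nat.mul (Nat.pow 2 (Nat.mul 2 b)) ONE)))))
          (Nat.add (Nat.mul (Nat.pow 2 (Nat.succ b)) R)
          (Nat.mul (Nat.pow 2 (Nat.mul 2 b)) ONE)))) :=
  force4 (Nat.add (Nat.mul (Nat.pow 2 (Nat.succ b)) R) (Nat.mul (Nat.pow 2 (Nat.mul 2 b)) ONE))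
    (fun I => sgn ONE (Nat.sub (Nat.add D (Nat.mul cBIAS ONE)) (Nat.add S I)))
    (fun m => Nat.add R (Nat.mul (Nat.pow 2 b) m)) (fun m I => Nat.add S (msk m I)) k

private theorem vmax_eq (U V : ℕ) :
    vmax ONE U V =
      Nat.sub (Nat.add V (msk (sgn ONE (Nat.sub (Nat.add U (Nat.mul cBIAS ONE)) V))
      (Nat.sub (Nat.add U (Nat.mul cBIAS ONE)) V)))
      (Nat.mul cBIAS (sgn ONE (Nat.sub (Nat.add U (Nat.mul cBIAS ONE)) V))) := by
  unfold vmax
  simp only [force_eq]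

/-- the loop of the square root -/
private theorem sqGo_spec (h1 : Rep n ONE (fun _ => 1)) (hD : Rep n D f)
    (h : ∀ l < n, 0 ≤ f l ∧ f l < 2 ^ 40) (b : ℕ) :
    ∀ (R S : ℕ) (r : ℕ → ℤ), b ≤ 20 → Rep n R r → Rep n S (fun l => r l ^ 2) →
      (∀ l < n, 0 ≤ r l ∧ r l ^ 2 ≤ f l ∧ f l < (r l + 2 ^ b) ^ 2) →
      Rep n (sqGo ONE D b R S) (fun l => (Nat.sqrt (f l).toNat : ℤ)) := by
  induction b with
  | zero =>
    intro R S r _ hR _ hr
    have e : sqGo ONE D 0 R S = R := rfl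
    rw [e]
    refine hR.congr ?_
    intro l hl
    obtain ⟨h0, h1', h2⟩ := hr l hl
    obtain ⟨hf0, -⟩ := h l hl
    obtain ⟨k, hk⟩ := Int.eq_ofNat_of_zero_le h0
    obtain ⟨F, hF⟩ := Int.eq_ofNat_of_zero_le hf0
    rw [hk, hF]
    rw [hk, hF] at h1' h2
    have e1 : k * k ≤ F := by
      have : ((k * k : ℕ) : ℤ) ≤ (F : ℤ) := by push_cast; nlinarith
      exact_mod_cast this
    have e2 : F < (k + 1) * (k + 1) := by
      have : ((F : ℕ) : ℤ) < (((k + 1) * (k + 1) : ℕ) : ℤ) := by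
        push_cast
        have := h2
        norm_num at this
        nlinarith
      exact_mod_cast this
    have e3 : Nat.sqrt F = k := by
      apply le_antisymm
      · exact Nat.lt_succ_iff.mp (Nat.sqrt_lt.mpr e2)
      · exact Nat.le_sqrt.mpr e1
    show (k : ℤ) = (Nat.sqrt ((F : ℤ)).toNat : ℤ)
    rw [Int.toNat_natCast, e3]
  | succ b ih =>
    intro R S r hb hR hS hr
    have hb' : b ≤ 19 := by omega
    -- the increment
    set I := Nat.add (Nat.mul (Nat.pow 2 (Nat.succ b)) R) (Nat.mul (Nat.pow 2 (Nat.mul 2 b)) ONE)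
      with hI
    have rI : Rep n I (fun l => (r l + 2 ^ b) ^ 2 - r l ^ 2) := by
      refine ((hR.smul (Nat.pow 2 (Nat.succ b))).add (h1.smul (Nat.pow 2 (Nat.mul 2 b)))).congr ?_
      intro l _
      have e1 : ((Nat.pow 2 (Nat.succ b) : ℕ) : ℤ) = 2 * 2 ^ b := by
        show (((2 : ℕ) ^ (b + 1) : ℕ) : ℤ) = 2 * 2 ^ b
        push_cast
        ring
      have e2 : ((Nat.pow 2 (Nat.mul 2 b) : ℕ) : ℤ) = (2 ^ b) ^ 2 := by
        show (((2 : ℕ) ^ (2 * b) : ℕ) : ℤ) = (2 ^ b) ^ 2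
        push_cast
        rw [← pow_mul, mul_comm]
      simp only [e1, e2]
      ring
    set m := sgn ONE (Nat.sub (Nat.add D (Nat.mul cBIAS ONE)) (Nat.add S I)) with hm
    have pb : (2 : ℤ) ^ b ≤ 2 ^ 19 := pow_le_pow_right₀ (by norm_num) hb'
    have pb0 : (0 : ℤ) < 2 ^ b := by positivity
    have hr20 : ∀ l < n, r l < 2 ^ 20 := by
      intro l hl
      obtain ⟨h0, h1', -⟩ := hr l hl
      obtain ⟨-, hf⟩ := h l hl
      by_contra hc
      have hc := not_lt.mp hc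
      have : (2 : ℤ) ^ 40 ≤ r l ^ 2 := by
        calc (2 : ℤ) ^ 40 = (2 ^ 20) ^ 2 := by norm_num
          _ ≤ r l ^ 2 := pow_le_pow_left₀ (by norm_num) hc 2
      linarith
    have hsq : ∀ l < n, (r l + 2 ^ b) ^ 2 ≤ 2 ^ 42 := by
      intro l hl
      have h20 := hr20 l hl
      obtain ⟨h0, -, -⟩ := hr l hl
      have h3 : r l + 2 ^ b ≤ 2 ^ 21 := by
        have : (2 : ℤ) ^ 21 = 2 ^ 20 + 2 ^ 19 + 2 ^ 19 := by norm_num
        have : (0 : ℤ) < 2 ^ 19 := by norm_num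
        linarith
      calc (r l + 2 ^ b) ^ 2 ≤ (2 ^ 21) ^ 2 := pow_le_pow_left₀ (by linarith) h3 2
        _ = 2 ^ 42 := by norm_num
    have rX : Rep n (Nat.sub (Nat.add D (Nat.mul cBIAS ONE)) (Nat.add S I))
        (fun l => f l + 2 ^ 47 - (r l + 2 ^ b) ^ 2) := by
      refine ((hD.add (rep_bias h1)).sub (hS.add rI) ?_).congr ?_
      · intro l hl
        have := hsq l hl
        obtain ⟨hf0, -⟩ := h l hl
        have e : (2 : ℤ) ^ 42 ≤ 2 ^ 47 := by norm_num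
        linarith
      · intro l _
        ring
    have rm : Rep n m (fun l => if 2 ^ 47 ≤ f l + 2 ^ 47 - (r l + 2 ^ b) ^ 2 then 1 else 0) := by
      refine Rep.sgn h1 rX ?_
      intro l hl
      have h3 := hsq l hl
      obtain ⟨hf0, hf1⟩ := h l hl
      have e : (2 : ℤ) ^ 42 ≤ 2 ^ 47 := by norm_num
      have e' : (2 : ℤ) ^ 40 + 2 ^ 47 < 2 ^ 48 := by norm_num
      have e'' : 0 ≤ (r l + 2 ^ b) ^ 2 := sq_nonneg _
      constructor <;> linarith
    have rR : Rep n (Nat.add R (Nat.mul (Nat.pow 2 b) m))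
        (fun l => if (r l + 2 ^ b) ^ 2 ≤ f l then r l + 2 ^ b else r l) := by
      refine (hR.add (rm.smul (Nat.pow 2 b))).congr ?_
      intro l _
      have e1 : ((Nat.pow 2 b : ℕ) : ℤ) = 2 ^ b := by
        show (((2 : ℕ) ^ b : ℕ) : ℤ) = 2 ^ b
        push_cast
        rfl
      by_cases hc : (r l + 2 ^ b) ^ 2 ≤ f l
      · have hc' : (2 : ℤ) ^ 47 ≤ f l + 2 ^ 47 - (r l + 2 ^ b) ^ 2 := by linarith
        simp only [e1, if_pos hc, if_pos hc', mul_one]
      · have hc' : ¬ (2 : ℤ) ^ 47 ≤ f l + 2 ^ 47 - (r l + 2 ^ b) ^ 2 := by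
          intro h'; exact hc (by linarith)
        simp only [e1, if_neg hc, if_neg hc', mul_zero, add_zero]
    have rI' : Rep n (msk m I) (fun l =>
        (if 2 ^ 47 ≤ f l + 2 ^ 47 - (r l + 2 ^ b) ^ 2 then 1 else 0) *
          ((r l + 2 ^ b) ^ 2 - r l ^ 2)) := by
      refine Rep.msk rm ?_ rI ?_
      · intro l _
        by_cases hc : (2 : ℤ) ^ 47 ≤ f l + 2 ^ 47 - (r l + 2 ^ b) ^ 2
        · right; simp only [if_pos hc]
        · left; simp only [if_neg hc]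
      · intro l hl
        have h3 := hsq l hl
        obtain ⟨h0, -, -⟩ := hr l hl
        have e : (2 : ℤ) ^ 42 < 2 ^ 48 := by norm_num
        constructor
        · nlinarith [mul_nonneg h0 pb0.le, sq_nonneg ((2 : ℤ) ^ b)]
        · nlinarith [sq_nonneg (r l)]
    have rS : Rep n (Nat.add S (msk m I))
        (fun l => (if (r l + 2 ^ b) ^ 2 ≤ f l then r l + 2 ^ b else r l) ^ 2) := by
      refine (hS.add rI').congr ?_
      intro l _
      by_cases hc : (r l + 2 ^ b) ^ 2 ≤ f l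
      · have hc' : (2 : ℤ) ^ 47 ≤ f l + 2 ^ 47 - (r l + 2 ^ b) ^ 2 := by linarith
        simp only [if_pos hc, if_pos hc']
        ring
      · have hc' : ¬ (2 : ℤ) ^ 47 ≤ f l + 2 ^ 47 - (r l + 2 ^ b) ^ 2 := by
          intro h'; exact hc (by linarith)
        simp only [if_neg hc, if_neg hc']
        ring
    rw [sqGo_succ, sqStep_eq, ← hI, ← hm]
    refine ih _ _ _ (by omega) rR rS ?_
    intro l hl
    obtain ⟨h0, h1', h2⟩ := hr l hl
    have e2 : (2 : ℤ) ^ (b + 1) = 2 ^ b + 2 ^ b := by rw [pow_succ]; ring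
    by_cases hc : (r l + 2 ^ b) ^ 2 ≤ f l
    · simp only [if_pos hc]
      refine ⟨by linarith, hc, ?_⟩
      rw [e2] at h2
      have : r l + 2 ^ b + 2 ^ b = r l + (2 ^ b + 2 ^ b) := by ring
      rw [this]
      exact h2
    · simp only [if_neg hc]
      exact ⟨h0, h1', not_le.mp hc⟩

theorem Rep.sqv (h1 : Rep n ONE (fun _ => 1)) (hD : Rep n D f)
    (h : ∀ l < n, 0 ≤ f l ∧ f l < 2 ^ 40) :
    Rep n (sqv ONE D) (fun l => (Nat.sqrt (f l).toNat : ℤ) + 1) := by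
  refine Rep.add ?_ h1
  refine sqGo_spec h1 hD h 20 0 0 (fun _ => 0) le_rfl rep_zero ?_ ?_
  · exact (rep_zero (n := n)).congr (fun l _ => by norm_num)
  · intro l hl
    obtain ⟨a, b⟩ := h l hl
    refine ⟨le_rfl, by norm_num; exact a, ?_⟩
    have e : ((0 : ℤ) + 2 ^ 20) ^ 2 = 2 ^ 40 := by norm_num
    rw [e]
    exact b

private theorem vmax_aux (h1 : Rep n ONE (fun _ => 1)) (hU : Rep n U f) (hV : Rep n V g)
    (hf : ∀ l < n, 0 ≤ f l ∧ f l < 2 ^ 47) (hg : ∀ l < n, 0 ≤ g l ∧ g l < 2 ^ 47) :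
    Rep n (vmax ONE U V) (fun l => max (f l) (g l)) := by
  have e48 : (2 : ℤ) ^ 48 = 2 ^ 47 + 2 ^ 47 := by norm_num
  have rD : Rep n (Nat.sub (Nat.add U (Nat.mul cBIAS ONE)) V) (fun l => f l + 2 ^ 47 - g l) := by
    refine (hU.add (rep_bias h1)).sub hV ?_
    intro l hl
    obtain ⟨a, b⟩ := hf l hl
    obtain ⟨c, d⟩ := hg l hl
    show g l ≤ f l + 2 ^ 47
    linarith
  have bD : ∀ l < n, 0 ≤ f l + 2 ^ 47 - g l ∧ f l + 2 ^ 47 - g l < 2 ^ 48 := by
    intro l hl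
    obtain ⟨a, b⟩ := hf l hl
    obtain ⟨c, d⟩ := hg l hl
    constructor <;> linarith
  have rm := Rep.sgn h1 rD bD
  have rM := Rep.msk rm (fun l _ => by
    by_cases hc : (2 : ℤ) ^ 47 ≤ f l + 2 ^ 47 - g l
    · right; simp only [if_pos hc]
    · left; simp only [if_neg hc]) rD bD
  have r3 : Rep n (Nat.sub (Nat.add V (msk (sgn ONE (Nat.sub (Nat.add U (Nat.mul cBIAS ONE)) V))
      (Nat.sub (Nat.add U (Nat.mul cBIAS ONE)) V)))
      (Nat.mul cBIAS (sgn ONE (Nat.sub (Nat.add U (Nat.mul cBIAS ONE)) V))))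
      (fun l => (g l + (if 2 ^ 47 ≤ f l + 2 ^ 47 - g l then 1 else 0) * (f l + 2 ^ 47 - g l)) -
        (cBIAS : ℤ) * (if 2 ^ 47 ≤ f l + 2 ^ 47 - g l then 1 else 0)) := by
    refine (hV.add rM).sub (rm.smul cBIAS) ?_
    intro l hl
    obtain ⟨a, b⟩ := hf l hl
    obtain ⟨c, d⟩ := hg l hl
    by_cases hc : (2 : ℤ) ^ 47 ≤ f l + 2 ^ 47 - g l
    · simp only [if_pos hc, bias_cast]
      linarith
    · simp only [if_neg hc]
      linarith
  rw [vmax_eq]
  refine r3.congr ?_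
  intro l hl
  by_cases hc : (2 : ℤ) ^ 47 ≤ f l + 2 ^ 47 - g l
  · simp only [if_pos hc, bias_cast]
    rw [max_eq_left (by linarith)]
    ring
  · simp only [if_neg hc]
    rw [max_eq_right (by
      have := not_le.mp hc
      linarith)]
    ring

theorem Rep.vmax (h1 : Rep n ONE (fun _ => 1)) (hU : Rep n U f) (hV : Rep n V g)
    (hf : ∀ l < n, 0 ≤ f l ∧ f l < 2 ^ 47) (hg : ∀ l < n, 0 ≤ g l ∧ g l < 2 ^ 47) :
    Rep n (vmax ONE U V) (fun l => max (f l) (g l)) := vmax_aux h1 hU hV hf hg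

theorem Rep.vmin (h1 : Rep n ONE (fun _ => 1)) (hU : Rep n U f) (hV : Rep n V g)
    (hf : ∀ l < n, 0 ≤ f l ∧ f l < 2 ^ 47) (hg : ∀ l < n, 0 ≤ g l ∧ g l < 2 ^ 47) :
    Rep n (vmin ONE U V) (fun l => min (f l) (g l)) := by
  refine ((hU.add hV).sub (Rep.vmax h1 hU hV hf hg) ?_).congr ?_
  · intro l hl
    obtain ⟨a, b⟩ := hf l hl
    obtain ⟨c, d⟩ := hg l hl
    show max (f l) (g l) ≤ f l + g l
    exact max_le (by linarith) (by linarith)
  · intro l _
    show f l + g l - max (f l) (g l) = min (f l) (g l)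
    have := min_add_max (f l) (g l)
    linarith

private theorem pen_aux (h1 : Rep n ONE (fun _ => 1)) (ha : Rep n AV av)
    (hav : ∀ l < n, av l = 0 ∨ av l = 1) (hD : Rep n D f)
    (h : ∀ l < n, 0 ≤ f l ∧ f l < 2 ^ 46) (c : ℕ) (hc : c < 2 ^ 46) :
    Rep n (pen ONE AV D c) (fun l => if f l < (c : ℤ) * av l then 2 ^ 43 else 0) := by
  have hc' : (c : ℤ) < 2 ^ 46 := by exact_mod_cast hc
  have hc0 : (0 : ℤ) ≤ c := by positivity
  have hca : ∀ l < n, 0 ≤ (c : ℤ) * av l ∧ (c : ℤ) * av l < 2 ^ 46 := by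
    intro l hl
    rcases hav l hl with h0 | h0 <;> rw [h0]
    · constructor <;> norm_num
    · constructor <;> linarith
  have e48 : (2 : ℤ) ^ 48 = 2 ^ 47 + 2 ^ 46 + 2 ^ 46 := by norm_num
  have e47 : (2 : ℤ) ^ 46 < 2 ^ 47 := by norm_num
  have e46 : (0 : ℤ) < 2 ^ 46 := by norm_num
  have rX : Rep n (Nat.sub (Nat.add D (Nat.mul cBIAS ONE)) (Nat.mul c AV))
      (fun l => f l + 2 ^ 47 - (c : ℤ) * av l) := by
    refine (hD.add (rep_bias h1)).sub (ha.smul c) ?_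
    intro l hl
    obtain ⟨a, b⟩ := h l hl
    obtain ⟨a', b'⟩ := hca l hl
    show (c : ℤ) * av l ≤ f l + 2 ^ 47
    linarith
  have rs := Rep.sgn h1 rX (by
    intro l hl
    obtain ⟨a, b⟩ := h l hl
    obtain ⟨a', b'⟩ := hca l hl
    constructor <;> linarith)
  have r1 : Rep n (Nat.sub ONE (sgn ONE (Nat.sub (Nat.add D (Nat.mul cBIAS ONE)) (Nat.mul c AV))))
      (fun l => 1 - (if 2 ^ 47 ≤ f l + 2 ^ 47 - (c : ℤ) * av l then 1 else 0)) := by
    refine h1.sub rs ?_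
    intro l _
    by_cases hq : (2 : ℤ) ^ 47 ≤ f l + 2 ^ 47 - (c : ℤ) * av l
    · simp only [if_pos hq]; exact le_rfl
    · simp only [if_neg hq]; norm_num
  refine (r1.smul cPEN).congr ?_
  intro l _
  have ep : ((cPEN : ℕ) : ℤ) = 2 ^ 43 := by norm_num [cPEN]
  by_cases hq : f l < (c : ℤ) * av l
  · have hq' : ¬ (2 : ℤ) ^ 47 ≤ f l + 2 ^ 47 - (c : ℤ) * av l := by
      intro h'; linarith
    simp only [if_pos hq, if_neg hq', ep]
    ring
  · have hq' : (2 : ℤ) ^ 47 ≤ f l + 2 ^ 47 - (c : ℤ) * av l := by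
      have := not_lt.mp hq
      linarith
    simp only [if_neg hq, if_pos hq', ep]
    ring

theorem Rep.pen (h1 : Rep n ONE (fun _ => 1)) (ha : Rep n AV av)
    (hav : ∀ l < n, av l = 0 ∨ av l = 1) (hD : Rep n D f)
    (h : ∀ l < n, 0 ≤ f l ∧ f l < 2 ^ 46) (c : ℕ) (hc : c < 2 ^ 46) :
    Rep n (pen ONE AV D c) (fun l => if f l < (c : ℤ) * av l then 2 ^ 43 else 0) :=
  pen_aux h1 ha hav hD h c hc

private theorem prod_aux (m : ℕ) (hm : 0 < m) (F H : ℕ → ℤ) (a : ℕ) :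
    (∑ j ∈ Finset.range a, F j * 2 ^ (48 * m * j)) * (∑ k ∈ Finset.range m, H k * 2 ^ (48 * k)) =
      ∑ l ∈ Finset.range (a * m), F (l / m) * H (l % m) * 2 ^ (48 * l) := by
  induction a with
  | zero => simp
  | succ a ih =>
    have e0 : (a + 1) * m = a * m + m := by ring
    rw [Finset.sum_range_succ, add_mul, ih, e0, Finset.sum_range_add
      (fun l => F (l / m) * H (l % m) * 2 ^ (48 * l)) (a * m) m]
    congr 1
    rw [Finset.mul_sum]
    refine Finset.sum_congr rfl ?_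
    intro k hk
    have hk' : k < m := Finset.mem_range.mp hk
    have e1 : (a * m + k) / m = a := by
      rw [mul_comm, Nat.mul_add_div hm, Nat.div_eq_of_lt hk', add_zero]
    have e2 : (a * m + k) % m = k := by
      rw [mul_comm, Nat.mul_add_mod, Nat.mod_eq_of_lt hk']
    rw [e1, e2]
    have e3 : (2 : ℤ) ^ (48 * (a * m + k)) = 2 ^ (48 * m * a) * 2 ^ (48 * k) := by
      rw [← pow_add]
      congr 1
      ring
    rw [e3]
    ring

/-- products of a number with stride `48 * m` and a number with `m` lanes -/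
theorem Rep.prod {a m : ℕ} {F H : ℕ → ℤ} (hm : 0 < m)
    (hU : (U : ℤ) = ∑ j ∈ Finset.range a, F j * 2 ^ (48 * m * j)) (hV : Rep m V H) :
    Rep (a * m) (Nat.mul U V) (fun l => F (l / m) * H (l % m)) := by
  have hV' : (V : ℤ) = ∑ k ∈ Finset.range m, H k * 2 ^ (48 * k) := hV
  show ((U * V : ℕ) : ℤ) = ∑ l ∈ Finset.range (a * m), F (l / m) * H (l % m) * 2 ^ (48 * l)
  rw [Nat.cast_mul, hU, hV', prod_aux m hm F H a]

theorem mapPk_eq (s : ℕ) (F : ℕ → ℕ) (L : List ℕ) :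
    (mapPk s F L : ℤ) = ∑ j ∈ Finset.range L.length, (F (L.getD j 0) : ℤ) * 2 ^ (s * j) := by
  induction L with
  | nil => simp [mapPk]
  | cons a L ih =>
    have e : mapPk s F (a :: L) = F a + (mapPk s F L) <<< s := rfl
    rw [e, List.length_cons, Finset.sum_range_succ', Nat.shiftLeft_eq]
    push_cast
    rw [ih, Finset.sum_mul]
    simp only [List.getD_cons_zero, List.getD_cons_succ, mul_zero, pow_zero, mul_one]
    rw [add_comm]
    congr 1
    refine Finset.sum_congr rfl ?_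
    intro j _
    rw [mul_add, mul_one, pow_add]
    ring

theorem pkl_eq (s : ℕ) (L : List ℕ) :
    (pkl s L : ℤ) = ∑ j ∈ Finset.range L.length, (L.getD j 0 : ℤ) * 2 ^ (s * j) :=
  mapPk_eq s (fun a => a) L

theorem mapPk2_eq (s : ℕ) (F : ℕ → ℕ → ℕ) (L L' : List ℕ) (h : L.length = L'.length) :
    (mapPk2 s F L L' : ℤ) =
      ∑ j ∈ Finset.range L.length, (F (L.getD j 0) (L'.getD j 0) : ℤ) * 2 ^ (s * j) := by
  induction L generalizing L' with
  | nil => simp [mapPk2]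
  | cons a L ih =>
    cases L' with
    | nil => simp at h
    | cons b L' =>
      have h' : L.length = L'.length := by simpa using h
      have e : mapPk2 s F (a :: L) (b :: L') = F a b + (mapPk2 s F L L') <<< s := rfl
      rw [e, List.length_cons, Finset.sum_range_succ', Nat.shiftLeft_eq]
      push_cast
      rw [ih L' h', Finset.sum_mul]
      simp only [List.getD_cons_zero, List.getD_cons_succ, mul_zero, pow_zero, mul_one]
      rw [add_comm]
      congr 1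
      refine Finset.sum_congr rfl ?_
      intro j _
      rw [mul_add, mul_one, pow_add]
      ring

theorem len_eq (L : List ℕ) : len L = L.length := by
  induction L with
  | nil => rfl
  | cons a L ih =>
    show Nat.succ (len L) = (a :: L).length
    rw [ih]
    rfl

end Pool.Agent.K9
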