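import Mathlib
import Pool.Agent.K9.Pack2
import Pool.Agent.K9.Bnd

/-! # K9: the vectors of a box -/

namespace Pool.Agent.K9

private theorem land_mod2 (P Y : ℕ) : (P &&& Y) % 2 = (P % 2) * (Y % 2) := by
  have h := Nat.and_mod_two_pow (a := P) (b := Y) (n := 1)
  rw [pow_one] at h
  rw [h]
  rcases Nat.mod_two_eq_zero_or_one P with hp | hp <;>
    rcases Nat.mod_two_eq_zero_or_one Y with hy | hy <;> rw [hp, hy] <;> rfl

private theorem land_div2 (P Y : ℕ) : (P &&& Y) / 2 = (P / 2 &&& Y / 2) := by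
  have h := Nat.and_div_two_pow (a := P) (b := Y) (n := 1)
  rwa [pow_one] at h

private theorem tb_sub_land (x P Y : ℕ) :
    (P - (P &&& Y)).testBit x = (P.testBit x && !Y.testBit x) := by
  induction x generalizing P Y with
  | zero =>
    have h1 := land_mod2 P Y
    have h2 : P &&& Y ≤ P := Nat.and_le_left
    rw [Nat.testBit_zero, Nat.testBit_zero, Nat.testBit_zero]
    generalize P &&& Y = Z at h1 h2 ⊢
    rcases Nat.mod_two_eq_zero_or_one P with hp | hp <;>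
      rcases Nat.mod_two_eq_zero_or_one Y with hy | hy <;>
      rw [hp, hy] at h1 <;> rw [hp, hy]
    · have : (P - Z) % 2 = 0 := by omega
      rw [this]; rfl
    · have : (P - Z) % 2 = 0 := by omega
      rw [this]; rfl
    · have : (P - Z) % 2 = 1 := by omega
      rw [this]; rfl
    · have : (P - Z) % 2 = 0 := by omega
      rw [this]; rfl
  | succ x ih =>
    have h1 : (P - (P &&& Y)) / 2 = P / 2 - (P / 2 &&& Y / 2) := by
      have h2 := land_div2 P Y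
      have h3 := land_mod2 P Y
      have h4 : P &&& Y ≤ P := Nat.and_le_left
      rw [← h2]
      generalize P &&& Y = Z at h2 h3 h4 ⊢
      rcases Nat.mod_two_eq_zero_or_one P with hp | hp <;>
        rcases Nat.mod_two_eq_zero_or_one Y with hy | hy <;> rw [hp, hy] at h3 <;> omega
    rw [Nat.testBit_succ, h1, ih, Nat.testBit_succ, Nat.testBit_succ]

/-- not a `rfl` lemma, so that the kernel never unfolds the arguments -/
theorem force_eq' {α : Type} (n : ℕ) (f : ℕ → α) : force n f = f n := by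
  cases n <;> rfl

theorem mkC_nil {α : Type} (G : GEnv) (k : ℕ → ℕ → ℕ → ℕ → ℕ → ℕ → ℕ → α)
    (QM WM GM U0 U1 U2 U4 : ℕ) : mkC G k [] QM WM GM U0 U1 U2 U4 = k QM WM GM U0 U1 U2 U4 := rfl

theorem mkC_cons {α : Type} (G : GEnv) (k : ℕ → ℕ → ℕ → ℕ → ℕ → ℕ → ℕ → α) (c : Corner)
    (L : List Corner) (QM WM GM U0 U1 U2 U4 : ℕ) :
    mkC G k (c :: L) QM WM GM U0 U1 U2 U4 =
      mkC G k L (vmin G.ONE QM (cQ G c)) (vmax G.ONE WM (sqv G.ONE (cD G c)))
        (vmax G.ONE GM (cGv G c (cQ G c) (sqv G.ONE (cD G c)) (cD G c)))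
        (Nat.land U0 (cU0 G (cD G c))) (Nat.land U1 (cU1 G c (cQ G c)))
        (Nat.land U2 (cU2 G (cQ G c) (sqv G.ONE (cD G c)))) (Nat.land U4 (cU4 G c (cD G c))) := by
  show (force (cQ G c) fun Q =>
      force (cD G c) fun D =>
      force (sqv G.ONE D) fun W =>
      force (cGv G c Q W D) fun Gv =>
      force (vmin G.ONE QM Q) fun QM' =>
      force (vmax G.ONE WM W) fun WM' =>
      force (vmax G.ONE GM Gv) fun GM' =>
      force (Nat.land U0 (cU0 G D)) fun U0' =>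
      force (Nat.land U1 (cU1 G c Q)) fun U1' =>
      force (Nat.land U2 (cU2 G Q W)) fun U2' =>
      force (Nat.land U4 (cU4 G c D)) fun U4' =>
      mkC G k L QM' WM' GM' U0' U1' U2' U4') = _
  simp only [force_eq']

namespace Grid

variable {g : Grid} {G : GEnv}

theorem av_sq (g : Grid) (l : ℕ) : g.av l * g.av l = g.av l := by
  rcases av01 g l with h | h <;> rw [h] <;> norm_num

theorem av_nonneg (g : Grid) (l : ℕ) : 0 ≤ g.av l := by
  rcases av01 g l with h | h <;> rw [h]; norm_num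

theorem av_le (g : Grid) (l : ℕ) : g.av l ≤ 1 := by
  rcases av01 g l with h | h <;> rw [h]; norm_num

theorem cQ_rep (hg : g.OK) (hG : g.GRep G) {c : Corner} (hc : COK c) :
    Rep g.n (cQ G c) (fun l => 2 ^ 44 + g.cq c l) := by
  have h1 := (hG.px.smul (Nat.mul 2 c.qx)).add (hG.py.smul (Nat.mul 2 c.qy))
  have h2 := h1.add (hG.one.smul (Nat.sub cHB (Nat.mul 524288 (Nat.add c.qx c.qy))))
  have h3 := hG.av.smul (Nat.add (Nat.mul c.qx c.qx) (Nat.mul c.qy c.qy))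
  have e1 : ((Nat.sub cHB (Nat.mul 524288 (Nat.add c.qx c.qy)) : ℕ) : ℤ) =
      2 ^ 44 - 2 ^ 19 * ((c.qx : ℤ) + c.qy) := by
    have h4 : 524288 * (c.qx + c.qy) ≤ 17592186044416 := by
      have := hc.1
      have := hc.2.1
      omega
    show ((17592186044416 - 524288 * (c.qx + c.qy) : ℕ) : ℤ) = _
    rw [Nat.cast_sub h4]
    push_cast
    norm_num
  have e2 : ((Nat.mul 2 c.qx : ℕ) : ℤ) = 2 * c.qx := by
    show ((2 * c.qx : ℕ) : ℤ) = _
    push_cast; ring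
  have e3 : ((Nat.mul 2 c.qy : ℕ) : ℤ) = 2 * c.qy := by
    show ((2 * c.qy : ℕ) : ℤ) = _
    push_cast; ring
  have e4 : ((Nat.add (Nat.mul c.qx c.qx) (Nat.mul c.qy c.qy) : ℕ) : ℤ) =
      (c.qx : ℤ) ^ 2 + (c.qy : ℤ) ^ 2 := by
    show ((c.qx * c.qx + c.qy * c.qy : ℕ) : ℤ) = _
    push_cast; ring
  rw [e1, e2, e3] at h2
  rw [e4] at h3
  have key : ∀ l, 2 * (c.qx : ℤ) * (g.vx l + 2 ^ 18) + 2 * (c.qy : ℤ) * (g.vy l + 2 ^ 18) +
      (2 ^ 44 - 2 ^ 19 * ((c.qx : ℤ) + c.qy)) * 1 - ((c.qx : ℤ) ^ 2 + (c.qy : ℤ) ^ 2) * g.av l =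
      2 ^ 44 + g.cq c l := by
    intro l
    unfold Grid.cq
    ring
  refine (h2.sub h3 fun l hl => ?_).congr fun l hl => key l
  have h5 := (hg.cbounds hc hl).1
  rw [abs_lt] at h5
  have h6 := key l
  linarith [h5.1]

theorem cD_rep (hG : g.GRep G) (c : Corner) : Rep g.n (cD G c) (g.cd c) := by
  have h1 := (hG.nn.add (hG.av.smul (Nat.add (Nat.mul c.qx c.qx) (Nat.mul c.qy c.qy)))).add
    (hG.ta.smul (Nat.mul 256 (Nat.add c.qx c.qy)))
  have h2 := (hG.xa.smul (Nat.mul 2 c.qx)).add (hG.ya.smul (Nat.mul 2 c.qy))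
  have e2 : ((Nat.mul 2 c.qx : ℕ) : ℤ) = 2 * c.qx := by
    show ((2 * c.qx : ℕ) : ℤ) = _
    push_cast; ring
  have e3 : ((Nat.mul 2 c.qy : ℕ) : ℤ) = 2 * c.qy := by
    show ((2 * c.qy : ℕ) : ℤ) = _
    push_cast; ring
  have e4 : ((Nat.add (Nat.mul c.qx c.qx) (Nat.mul c.qy c.qy) : ℕ) : ℤ) =
      (c.qx : ℤ) ^ 2 + (c.qy : ℤ) ^ 2 := by
    show ((c.qx * c.qx + c.qy * c.qy : ℕ) : ℤ) = _
    push_cast; ring
  have e5 : ((Nat.mul 256 (Nat.add c.qx c.qy) : ℕ) : ℤ) = 256 * ((c.qx : ℤ) + c.qy) := by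
    show ((256 * (c.qx + c.qy) : ℕ) : ℤ) = _
    push_cast; ring
  rw [e4, e5] at h1
  rw [e2, e3] at h2
  have key : ∀ l, g.nn l + ((c.qx : ℤ) ^ 2 + (c.qy : ℤ) ^ 2) * g.av l +
      256 * ((c.qx : ℤ) + c.qy) * (g.tt (l % g.M) * g.av l) -
      (2 * (c.qx : ℤ) * ((g.vx l + 128 * g.tt (l % g.M)) * g.av l) +
        2 * (c.qy : ℤ) * ((g.vy l + 128 * g.tt (l % g.M)) * g.av l)) = g.cd c l := by
    intro l
    unfold Grid.cd Grid.cq
    rcases av01 g l with h | h <;> rw [h] <;> ring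
  refine (h1.sub h2 fun l hl => ?_).congr fun l hl => key l
  have h5 := cd_nonneg g c l
  have h6 := key l
  linarith

theorem cW_rep (hg : g.OK) (hG : g.GRep G) {c : Corner} (hc : COK c) :
    Rep g.n (sqv G.ONE (cD G c)) (g.cw c) :=
  Rep.sqv hG.one (cD_rep hG c) fun l hl => by
    obtain ⟨-, h1, h2, -⟩ := hg.cbounds hc hl
    exact ⟨h1, h2.trans (by norm_num)⟩

theorem cG_rep (hg : g.OK) (hG : g.GRep G) {c : Corner} (hc : COK c) :
    Rep g.n (cGv G c (cQ G c) (sqv G.ONE (cD G c)) (cD G c)) (fun l => 2 ^ 44 + g.cg c l) := by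
  have e2 : ((Nat.mul 2 c.d : ℕ) : ℤ) = 2 * c.d := by
    show ((2 * c.d : ℕ) : ℤ) = _
    push_cast; ring
  have e3 : ((Nat.mul c.d c.d : ℕ) : ℤ) = (c.d : ℤ) ^ 2 := by
    show ((c.d * c.d : ℕ) : ℤ) = _
    push_cast; ring
  have hd : Nat.mul c.d c.d < 2 ^ 46 := by
    show c.d * c.d < 2 ^ 46
    calc c.d * c.d ≤ 2 ^ 16 * 2 ^ 16 := Nat.mul_le_mul hc.2.2.1 hc.2.2.1
      _ < 2 ^ 46 := by norm_num
  have hp := Rep.pen hG.one hG.av (fun l _ => av01 g l) (cD_rep hG c) (fun l hl => by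
    obtain ⟨-, h1, h2, -⟩ := hg.cbounds hc hl
    exact ⟨h1, h2.trans (by norm_num)⟩) (Nat.mul c.d c.d) hd
  have h1 := ((cQ_rep hg hG hc).add ((cW_rep hg hG hc).smul (Nat.mul 2 c.d))).add hp
  have h2 := hG.av.smul (Nat.mul c.d c.d)
  rw [e2, e3] at h1
  rw [e3] at h2
  have key : ∀ l, 2 ^ 44 + g.cq c l + 2 * (c.d : ℤ) * g.cw c l +
      (if g.cd c l < (c.d : ℤ) ^ 2 * g.av l then 2 ^ 43 else 0) - (c.d : ℤ) ^ 2 * g.av l =
      2 ^ 44 + g.cg c l := by
    intro l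
    unfold Grid.cg
    ring
  refine (h1.sub h2 fun l hl => ?_).congr fun l hl => key l
  have h5 := (hg.cbounds hc hl).2.2.2.2.2
  rw [abs_lt] at h5
  have h6 := key l
  linarith [h5.1]

/-- sign bits of the test vectors of a corner -/
theorem cU0_bit (hg : g.OK) (hG : g.GRep G) {c : Corner} (hc : COK c) {l : ℕ} (hl : l < g.n)
    (h : (cU0 G (cD G c)).testBit (48 * l + 47) = true) : g.U2 c l := by
  have h1 := ((hG.one.smul (Nat.pred cBIAS)).add (hG.av.smul 4194304)).sub (cD_rep hG c)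
    (fun l hl => by
      obtain ⟨-, h1, h2, -⟩ := hg.cbounds hc hl
      have := av_nonneg g l
      have e : ((Nat.pred cBIAS : ℕ) : ℤ) = 2 ^ 47 - 1 := rfl
      rw [e]
      push_cast
      linarith)
  have h2 := (h1.sign (fun l hl => by
      obtain ⟨-, h1, h2, -⟩ := hg.cbounds hc hl
      have := av_nonneg g l
      have := av_le g l
      have e : ((Nat.pred cBIAS : ℕ) : ℤ) = 2 ^ 47 - 1 := rfl
      rw [e]
      push_cast
      constructor <;> linarith) hl).1 h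
  have e : ((Nat.pred cBIAS : ℕ) : ℤ) = 2 ^ 47 - 1 := rfl
  rw [e] at h2
  push_cast at h2
  unfold Grid.U2
  linarith

theorem cU1_bit (hg : g.OK) (hG : g.GRep G) {c : Corner} (hc : COK c) {l : ℕ} (hl : l < g.n)
    (h : (cU1 G c (cQ G c)).testBit (48 * l + 47) = true) : g.U3 c l := by
  have e : ((cBIAS : ℕ) : ℤ) = 2 ^ 47 := rfl
  have e2 : ((Nat.mul 2 c.d : ℕ) : ℤ) = 2 * c.d := by
    show ((2 * c.d : ℕ) : ℤ) = _
    push_cast; ring
  have e3 : ((Nat.mul c.d c.d : ℕ) : ℤ) = (c.d : ℤ) ^ 2 := by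
    show ((c.d * c.d : ℕ) : ℤ) = _
    push_cast; ring
  have hd : (c.d : ℤ) ≤ 2 ^ 16 := by exact_mod_cast hc.2.2.1
  have hd0 : (0 : ℤ) ≤ c.d := Int.natCast_nonneg _
  have hd2 : (c.d : ℤ) ^ 2 ≤ 2 ^ 32 := by nlinarith
  have hd3 : 0 ≤ (c.d : ℤ) ^ 2 := by positivity
  have bd : ∀ l < g.n, 0 ≤ 2 * (c.d : ℤ) * g.wn l ∧ 2 * (c.d : ℤ) * g.wn l ≤ 2 ^ 38 ∧
      0 ≤ (c.d : ℤ) ^ 2 * g.av l ∧ (c.d : ℤ) ^ 2 * g.av l ≤ 2 ^ 32 ∧ |g.qn l| < 2 ^ 30 ∧
      |g.cq c l| < 2 ^ 36 := by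
    intro l hl
    obtain ⟨-, -, -, -, -, -, -, -, w1, w2, w3, -, q1, -⟩ := hg.bounds hl
    have w4 : g.wn l ≤ 2 ^ 20 := by linarith
    have w5 : 0 ≤ g.wn l := by linarith
    refine ⟨by positivity, ?_, mul_nonneg hd3 (av_nonneg g l), ?_, q1, (hg.cbounds hc hl).1⟩
    · nlinarith
    · nlinarith [av_nonneg g l, av_le g l]
  have h1 := ((hG.one.smul cBIAS).add hG.qn).sub
    (((cQ_rep hg hG hc).add (hG.wn.smul (Nat.mul 2 c.d))).add (hG.av.smul (Nat.mul c.d c.d)))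
    (fun l hl => by
      obtain ⟨b1, b2, b3, b4, b5, b6⟩ := bd l hl
      rw [abs_lt] at b5 b6
      rw [e, e2, e3]
      linarith [b5.1, b6.2])
  have h2 := (h1.sign (fun l hl => by
      obtain ⟨b1, b2, b3, b4, b5, b6⟩ := bd l hl
      rw [abs_lt] at b5 b6
      rw [e, e2, e3]
      constructor <;> linarith [b5.1, b6.2, b5.2, b6.1]) hl).1 h
  rw [e, e2, e3] at h2
  unfold Grid.U3
  linarith

theorem cU2_bit (hg : g.OK) (hG : g.GRep G) {c : Corner} (hc : COK c) {l : ℕ} (hl : l < g.n)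
    (h : (cU2 G (cQ G c) (sqv G.ONE (cD G c))).testBit (48 * l + 47) = true) : g.U4 c l := by
  have e : ((cBIAS : ℕ) : ℤ) = 2 ^ 47 := rfl
  have bd : ∀ l < g.n, 0 ≤ g.cw c l ∧ g.cw c l ≤ 2 ^ 20 ∧ 0 ≤ g.av l ∧ g.av l ≤ 1 ∧
      |g.qf l| < 2 ^ 30 ∧ |g.cq c l| < 2 ^ 36 := by
    intro l hl
    obtain ⟨-, -, -, -, -, -, -, -, -, -, -, q1, -⟩ := hg.bounds hl
    obtain ⟨c1, -, -, c4, c5, -⟩ := hg.cbounds hc hl
    exact ⟨by linarith, by linarith, av_nonneg g l, av_le g l, q1, c1⟩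
  have h1 := ((hG.one.smul cBIAS).add (cQ_rep hg hG hc)).sub
    ((hG.qf.add ((cW_rep hg hG hc).smul 4096)).add (hG.av.smul 4194304))
    (fun l hl => by
      obtain ⟨b1, b2, b3, b4, b5, b6⟩ := bd l hl
      rw [abs_lt] at b5 b6
      rw [e]
      push_cast
      linarith [b5.2, b6.1])
  have h2 := (h1.sign (fun l hl => by
      obtain ⟨b1, b2, b3, b4, b5, b6⟩ := bd l hl
      rw [abs_lt] at b5 b6
      rw [e]
      push_cast
      constructor <;> linarith [b5.1, b6.2, b5.2, b6.1]) hl).1 h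
  rw [e] at h2
  push_cast at h2
  unfold Grid.U4
  linarith

theorem cU4_bit (hg : g.OK) (hG : g.GRep G) {c : Corner} (hc : COK c) {l : ℕ} (hl : l < g.n)
    (h : (cU4 G c (cD G c)).testBit (48 * l + 47) = true) : g.U5 c l := by
  have e : ((Nat.pred cBIAS : ℕ) : ℤ) = 2 ^ 47 - 1 := rfl
  have e3 : ((Nat.mul c.t c.t : ℕ) : ℤ) = (c.t : ℤ) ^ 2 := by
    show ((c.t * c.t : ℕ) : ℤ) = _
    push_cast; ring
  have ht : (c.t : ℤ) ≤ 2 ^ 16 := by exact_mod_cast hc.2.2.2.1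
  have ht0 : (0 : ℤ) ≤ c.t := Int.natCast_nonneg _
  have ht2 : (c.t : ℤ) ^ 2 ≤ 2 ^ 32 := by nlinarith
  have ht3 : 0 ≤ (c.t : ℤ) ^ 2 := by positivity
  have bd : ∀ l < g.n, 0 ≤ (c.t : ℤ) ^ 2 * g.av l ∧ (c.t : ℤ) ^ 2 * g.av l ≤ 2 ^ 32 ∧
      0 ≤ g.cd c l ∧ g.cd c l < 2 ^ 38 := by
    intro l hl
    obtain ⟨-, h1, h2, -⟩ := hg.cbounds hc hl
    refine ⟨mul_nonneg ht3 (av_nonneg g l), ?_, h1, h2⟩
    nlinarith [av_nonneg g l, av_le g l]
  have h1 := ((hG.one.smul (Nat.pred cBIAS)).add (hG.av.smul (Nat.mul c.t c.t))).sub (cD_rep hG c)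
    (fun l hl => by
      obtain ⟨b1, b2, b3, b4⟩ := bd l hl
      rw [e, e3]
      linarith)
  have h2 := (h1.sign (fun l hl => by
      obtain ⟨b1, b2, b3, b4⟩ := bd l hl
      rw [e, e3]
      constructor <;> linarith) hl).1 h
  rw [e, e3] at h2
  unfold Grid.U5
  linarith

/-- the fold over the corners -/
theorem mkC_spec {α : Type} (hg : g.OK) (hG : g.GRep G)
    (k : ℕ → ℕ → ℕ → ℕ → ℕ → ℕ → ℕ → α) (L : List Corner) (hL : ∀ c ∈ L, COK c) :
    ∀ (QM WM GM U0 U1 U2 U4 : ℕ) (q w h : ℕ → ℤ),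
      Rep g.n QM (fun l => 2 ^ 44 + q l) → Rep g.n WM w → Rep g.n GM (fun l => 2 ^ 44 + h l) →
      (∀ l < g.n, -2 ^ 36 ≤ q l ∧ q l ≤ 2 ^ 44) → (∀ l < g.n, 0 ≤ w l ∧ w l < 2 ^ 20) →
      (∀ l < g.n, -2 ^ 44 ≤ h l ∧ h l < 2 ^ 44) →
      ∃ QM' WM' GM' U0' U1' U2' U4' : ℕ,
        mkC G k L QM WM GM U0 U1 U2 U4 = k QM' WM' GM' U0' U1' U2' U4' ∧
        Rep g.n QM' (fun l => 2 ^ 44 + L.foldl (fun m c => min m (g.cq c l)) (q l)) ∧
        Rep g.n WM' (fun l => L.foldl (fun m c => max m (g.cw c l)) (w l)) ∧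
        Rep g.n GM' (fun l => 2 ^ 44 + L.foldl (fun m c => max m (g.cg c l)) (h l)) ∧
        (∀ l < g.n, U0'.testBit (48 * l + 47) = true →
          U0.testBit (48 * l + 47) = true ∧ ∀ c ∈ L, g.U2 c l) ∧
        (∀ l < g.n, U1'.testBit (48 * l + 47) = true →
          U1.testBit (48 * l + 47) = true ∧ ∀ c ∈ L, g.U3 c l) ∧
        (∀ l < g.n, U2'.testBit (48 * l + 47) = true →
          U2.testBit (48 * l + 47) = true ∧ ∀ c ∈ L, g.U4 c l) ∧
        (∀ l < g.n, U4'.testBit (48 * l + 47) = true →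
          U4.testBit (48 * l + 47) = true ∧ ∀ c ∈ L, g.U5 c l) := by
  induction L with
  | nil =>
    intro QM WM GM U0 U1 U2 U4 q w h hq hw hh _ _ _
    exact ⟨QM, WM, GM, U0, U1, U2, U4, mkC_nil _ _ _ _ _ _ _ _ _, hq, hw, hh,
      fun l _ hb => ⟨hb, by simp⟩, fun l _ hb => ⟨hb, by simp⟩, fun l _ hb => ⟨hb, by simp⟩,
      fun l _ hb => ⟨hb, by simp⟩⟩
  | cons c L ih =>
    intro QM WM GM U0 U1 U2 U4 q w h hq hw hh bq bw bh
    have hc : COK c := hL c (by simp)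
    have rq : Rep g.n (vmin G.ONE QM (cQ G c)) (fun l => 2 ^ 44 + min (q l) (g.cq c l)) := by
      refine (Rep.vmin hG.one hq (cQ_rep hg hG hc) (fun l hl => ?_) (fun l hl => ?_)).congr
        (fun l hl => ?_)
      · have := bq l hl
        constructor <;> linarith [this.1, this.2]
      · have := (hg.cbounds hc hl).1
        rw [abs_lt] at this
        constructor <;> linarith [this.1, this.2]
      · exact (min_add_add_left _ _ _)
    have rw' : Rep g.n (vmax G.ONE WM (sqv G.ONE (cD G c))) (fun l => max (w l) (g.cw c l)) := by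
      refine Rep.vmax hG.one hw (cW_rep hg hG hc) (fun l hl => ?_) (fun l hl => ?_)
      · have := bw l hl
        constructor <;> linarith [this.1, this.2]
      · obtain ⟨-, -, -, h4, h5, -⟩ := hg.cbounds hc hl
        constructor <;> linarith
    have rh : Rep g.n (vmax G.ONE GM (cGv G c (cQ G c) (sqv G.ONE (cD G c)) (cD G c)))
        (fun l => 2 ^ 44 + max (h l) (g.cg c l)) := by
      refine (Rep.vmax hG.one hh (cG_rep hg hG hc) (fun l hl => ?_) (fun l hl => ?_)).congr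
        (fun l hl => ?_)
      · have := bh l hl
        constructor <;> linarith [this.1, this.2]
      · have := (hg.cbounds hc hl).2.2.2.2.2
        rw [abs_lt] at this
        constructor <;> linarith [this.1, this.2]
      · exact (max_add_add_left _ _ _)
    obtain ⟨QM', WM', GM', U0', U1', U2', U4', e1, e2, e3, e4, e5, e6, e7, e8⟩ :=
      ih (fun c' hc' => hL c' (List.mem_cons_of_mem _ hc')) _ _ _
        (Nat.land U0 (cU0 G (cD G c))) (Nat.land U1 (cU1 G c (cQ G c)))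
        (Nat.land U2 (cU2 G (cQ G c) (sqv G.ONE (cD G c)))) (Nat.land U4 (cU4 G c (cD G c)))
        _ _ _ rq rw' rh
        (fun l hl => by
          have h1 := bq l hl
          have h2 := (hg.cbounds hc hl).1
          rw [abs_lt] at h2
          exact ⟨le_min h1.1 (by linarith [h2.1]), (min_le_left _ _).trans h1.2⟩)
        (fun l hl => by
          have h1 := bw l hl
          obtain ⟨-, -, -, h4, h5, -⟩ := hg.cbounds hc hl
          exact ⟨h1.1.trans (le_max_left _ _), max_lt h1.2 h5⟩)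
        (fun l hl => by
          have h1 := bh l hl
          have h2 := (hg.cbounds hc hl).2.2.2.2.2
          rw [abs_lt] at h2
          exact ⟨h1.1.trans (le_max_left _ _), max_lt h1.2 h2.2⟩)
    refine ⟨QM', WM', GM', U0', U1', U2', U4', ?_, e2, e3, e4, ?_, ?_, ?_, ?_⟩
    · rw [mkC_cons, e1]
    · intro l hl hb
      obtain ⟨h1, h2⟩ := e5 l hl hb
      have h3 : (U0 &&& cU0 G (cD G c)).testBit (48 * l + 47) = true := h1
      rw [Nat.testBit_and, Bool.and_eq_true] at h3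
      refine ⟨h3.1, fun c' hc' => ?_⟩
      rcases List.mem_cons.1 hc' with rfl | h4
      · exact cU0_bit hg hG hc hl h3.2
      · exact h2 c' h4
    · intro l hl hb
      obtain ⟨h1, h2⟩ := e6 l hl hb
      have h3 : (U1 &&& cU1 G c (cQ G c)).testBit (48 * l + 47) = true := h1
      rw [Nat.testBit_and, Bool.and_eq_true] at h3
      refine ⟨h3.1, fun c' hc' => ?_⟩
      rcases List.mem_cons.1 hc' with rfl | h4
      · exact cU1_bit hg hG hc hl h3.2
      · exact h2 c' h4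
    · intro l hl hb
      obtain ⟨h1, h2⟩ := e7 l hl hb
      have h3 : (U2 &&& cU2 G (cQ G c) (sqv G.ONE (cD G c))).testBit (48 * l + 47) = true := h1
      rw [Nat.testBit_and, Bool.and_eq_true] at h3
      refine ⟨h3.1, fun c' hc' => ?_⟩
      rcases List.mem_cons.1 hc' with rfl | h4
      · exact cU2_bit hg hG hc hl h3.2
      · exact h2 c' h4
    · intro l hl hb
      obtain ⟨h1, h2⟩ := e8 l hl hb
      have h3 : (U4 &&& cU4 G c (cD G c)).testBit (48 * l + 47) = true := h1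
      rw [Nat.testBit_and, Bool.and_eq_true] at h3
      refine ⟨h3.1, fun c' hc' => ?_⟩
      rcases List.mem_cons.1 hc' with rfl | h4
      · exact cU4_bit hg hG hc hl h3.2
      · exact h2 c' h4

/-- the bits of `and4` at the position of a cell -/
theorem and4_cell (hM : G.M = g.M) {Z l : ℕ} (h : (and4 G.M Z).testBit (48 * l + 47) = true)
    (i : Fin 4) : Z.testBit (48 * g.vert l i + 47) = true := by
  rw [and4_testBit, hM] at h
  simp only [Bool.and_eq_true] at h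
  obtain ⟨⟨⟨h0, h1⟩, h2⟩, h3⟩ := h
  fin_cases i
  · exact h0
  · show Z.testBit (48 * (l + 1) + 47) = true
    rw [← h1]; congr 1
  · show Z.testBit (48 * (l + g.M) + 47) = true
    rw [← h2]; congr 1; ring
  · show Z.testBit (48 * (l + g.M + 1) + 47) = true
    rw [← h3]; congr 1; ring

end Grid

open Grid

theorem mkB_spec {α : Type} (g : Grid) (hg : g.OK) (G : GEnv) (hG : g.GRep G) (L : List Corner)
    (hL : ∀ c ∈ L, Grid.COK c) (vlo2 : ℕ) (hv : vlo2 < 2 ^ 40) (k : BEnv → α) :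
    ∃ e : BEnv, e.G = G ∧ g.BRep L vlo2 e ∧ mkB G L vlo2 k = k e := by
  have eP : ((Nat.pred cBIAS : ℕ) : ℤ) = 2 ^ 47 - 1 := rfl
  have eB : ((cBIAS : ℕ) : ℤ) = 2 ^ 47 := rfl
  have eH : ((cHB : ℕ) : ℤ) = 2 ^ 44 := rfl
  have eH2 : ((cH2 : ℕ) : ℤ) = 2 ^ 45 := rfl
  have hv' : (vlo2 : ℤ) < 2 ^ 40 := by exact_mod_cast hv
  have hv0 : (0 : ℤ) ≤ vlo2 := Int.natCast_nonneg _
  -- the fold
  have r0 : Rep g.n 0 (fun _ => 0) := by simp [Rep]
  obtain ⟨QM, WM, GM, U0, U1, U2, U4, e1, rq, rw', rg, b0, b1, b2, b4⟩ :=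
    mkC_spec hg hG (fun QM WM GM U0 U1 U2 U4 =>
      force (Nat.sub (Nat.add (Nat.mul (Nat.pred cBIAS) G.ONE) (Nat.mul vlo2 G.AV)) G.DF) fun V0 =>
      force (Nat.sub (Nat.add (Nat.mul (Nat.pred cBIAS) G.ONE) (Nat.mul 4194304 G.AV)) G.DN)
        fun V1 =>
      force (Nat.lor (Nat.lor (and4 G.M V0) (and4 G.M V1)) (Nat.lor (and4 G.M U0)
        (Nat.lor (and4 G.M U1) (Nat.lor (and4 G.M U2) (and4 G.M U4))))) fun EL =>
      force (Nat.sub G.CELL (Nat.land G.CELL (Nat.shiftRight EL 47))) fun ACT =>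
      force (Nat.mul (Nat.add cBIAS (Nat.add cHB 274877906944)) G.ONE) fun K1 =>
      force (Nat.sub K1 (Nat.add G.PS G.GF)) fun C1 =>
      force (Nat.sub K1 (Nat.add G.PS GM)) fun C2 =>
      force (Nat.sub (Nat.add (Nat.mul (Nat.add cH2 (Nat.add cHB 274877906944)) G.ONE)
        (Nat.mul (Nat.sub cBIAS cH2) G.AV)) (Nat.add G.PS G.NN)) fun C3 =>
      force (Nat.mul (Nat.sub (Nat.add cBIAS 274877906944) cHB) G.ONE) fun K4 =>
      force (Nat.add G.PS (Nat.mul cHB G.AV)) fun L4 =>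
      force (Nat.sub (Nat.add K4 G.QN) L4) fun C4 =>
      force (Nat.sub (Nat.add K4 QM) L4) fun C5 =>
      k ⟨G, QM, WM, GM, C1, C2, C3, C4, C5, ACT⟩) L hL (Nat.mul cH2 G.ONE) 0 0
      (Nat.mul cFULL G.ONE) (Nat.mul cFULL G.ONE) (Nat.mul cFULL G.ONE) (Nat.mul cFULL G.ONE)
      (fun _ => 2 ^ 44) (fun _ => 0) (fun _ => -2 ^ 44)
      ((hG.one.smul cH2).congr fun l _ => by rw [eH2]; norm_num)
      r0 (r0.congr fun l _ => by norm_num)
      (fun l _ => by constructor <;> norm_num) (fun l _ => by constructor <;> norm_num)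
      (fun l _ => by constructor <;> norm_num)
  have mb := fun l (hl : l < g.n) => hg.mbounds hL hl
  have gb := fun l (hl : l < g.n) => hg.bounds hl
  refine ⟨⟨G, QM, WM, GM,
    Nat.sub (Nat.mul (Nat.add cBIAS (Nat.add cHB 274877906944)) G.ONE) (Nat.add G.PS G.GF),
    Nat.sub (Nat.mul (Nat.add cBIAS (Nat.add cHB 274877906944)) G.ONE) (Nat.add G.PS GM),
    Nat.sub (Nat.add (Nat.mul (Nat.add cH2 (Nat.add cHB 274877906944)) G.ONE)
        (Nat.mul (Nat.sub cBIAS cH2) G.AV)) (Nat.add G.PS G.NN),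
    Nat.sub (Nat.add (Nat.mul (Nat.sub (Nat.add cBIAS 274877906944) cHB) G.ONE) G.QN)
      (Nat.add G.PS (Nat.mul cHB G.AV)),
    Nat.sub (Nat.add (Nat.mul (Nat.sub (Nat.add cBIAS 274877906944) cHB) G.ONE) QM)
      (Nat.add G.PS (Nat.mul cHB G.AV)),
    Nat.sub G.CELL (Nat.land G.CELL (Nat.shiftRight
      (Nat.lor (Nat.lor
        (and4 G.M (Nat.sub (Nat.add (Nat.mul (Nat.pred cBIAS) G.ONE) (Nat.mul vlo2 G.AV)) G.DF))
        (and4 G.M (Nat.sub (Nat.add (Nat.mul (Nat.pred cBIAS) G.ONE) (Nat.mul 4194304 G.AV))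
          G.DN)))
        (Nat.lor (and4 G.M U0) (Nat.lor (and4 G.M U1) (Nat.lor (and4 G.M U2) (and4 G.M U4)))))
      47))⟩, rfl, ⟨hG, rq, rw', ?_, ?_, ?_, ?_, ?_, ?_, ?_⟩, ?_⟩
  rotate_right
  · -- the value
    refine Eq.trans e1 ?_
    simp only [force_eq']
  · -- C1
    have eK : ((Nat.add cBIAS (Nat.add cHB 274877906944) : ℕ) : ℤ) = 2 ^ 47 + 2 ^ 44 + 2 ^ 38 := rfl
    refine ((hG.one.smul _).sub (hG.ps.add hG.gf) fun l hl => ?_).congr fun l hl => ?_
    · obtain ⟨-, x1, y1, -, -, -, -, -, -, -, -, -, -, g1⟩ := gb l hl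
      rw [abs_lt] at x1 y1 g1
      rw [eK]
      linarith [x1.2, y1.2, g1.2]
    · rw [eK]; ring
  · -- C2
    have eK : ((Nat.add cBIAS (Nat.add cHB 274877906944) : ℕ) : ℤ) = 2 ^ 47 + 2 ^ 44 + 2 ^ 38 := rfl
    refine ((hG.one.smul _).sub (hG.ps.add rg) fun l hl => ?_).congr fun l hl => ?_
    · obtain ⟨-, x1, y1, -⟩ := gb l hl
      have m1 : L.foldl (fun m c => max m (g.cg c l)) (-2 ^ 44) < 2 ^ 44 := (mb l hl).2.2.2.2.2
      rw [abs_lt] at x1 y1
      rw [eK]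
      linarith [x1.2, y1.2]
    · rw [eK]
      show _ = 2 ^ 47 - 2 ^ 19 * (g.vx l + g.vy l) - L.foldl (fun m c => max m (g.cg c l)) (-2 ^ 44)
      ring
  · -- C3
    have eK : ((Nat.add cH2 (Nat.add cHB 274877906944) : ℕ) : ℤ) = 2 ^ 45 + 2 ^ 44 + 2 ^ 38 := rfl
    have eK2 : ((Nat.sub cBIAS cH2 : ℕ) : ℤ) = 2 ^ 47 - 2 ^ 45 := by
      show ((140737488355328 - 35184372088832 : ℕ) : ℤ) = _
      norm_num
    refine (((hG.one.smul _).add (hG.av.smul _)).sub (hG.ps.add hG.nn) fun l hl => ?_).congr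
      fun l hl => ?_
    · obtain ⟨a1, x1, y1, n1, n2, -⟩ := gb l hl
      rw [abs_lt] at x1 y1
      rw [eK, eK2]
      have := av_nonneg g l
      linarith [x1.2, y1.2]
    · rw [eK, eK2]; ring
  · -- C4
    have eK : ((Nat.sub (Nat.add cBIAS 274877906944) cHB : ℕ) : ℤ) = 2 ^ 47 + 2 ^ 38 - 2 ^ 44 := by
      show ((140737488355328 + 274877906944 - 17592186044416 : ℕ) : ℤ) = _
      norm_num
    refine (((hG.one.smul _).add hG.qn).sub (hG.ps.add (hG.av.smul _)) fun l hl => ?_).congr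
      fun l hl => ?_
    · obtain ⟨a1, x1, y1, n1, n2, -, -, -, -, -, -, -, q1, -⟩ := gb l hl
      rw [abs_lt] at x1 y1 q1
      rw [eK, eH]
      have := av_le g l
      linarith [x1.2, y1.2, q1.1]
    · rw [eK, eH]; ring
  · -- C5
    have eK : ((Nat.sub (Nat.add cBIAS 274877906944) cHB : ℕ) : ℤ) = 2 ^ 47 + 2 ^ 38 - 2 ^ 44 := by
      show ((140737488355328 + 274877906944 - 17592186044416 : ℕ) : ℤ) = _
      norm_num
    refine (((hG.one.smul _).add rq).sub (hG.ps.add (hG.av.smul _)) fun l hl => ?_).congr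
      fun l hl => ?_
    · obtain ⟨a1, x1, y1, -⟩ := gb l hl
      have m1 : -2 ^ 36 ≤ L.foldl (fun m c => min m (g.cq c l)) (2 ^ 44) := (mb l hl).1
      rw [abs_lt] at x1 y1
      rw [eK, eH]
      have := av_le g l
      linarith [x1.2, y1.2]
    · rw [eK, eH]
      show _ = 2 ^ 47 + L.foldl (fun m c => min m (g.cq c l)) (2 ^ 44) -
        2 ^ 19 * (g.vx l + g.vy l) - 2 ^ 44 * g.av l
      ring
  · -- act1
    intro i hi
    have h1 := hi
    change (G.CELL - (G.CELL &&& _)).testBit i = true at h1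
    rw [tb_sub_land, Bool.and_eq_true] at h1
    exact (hG.cell i).1 h1.1
  · -- act2
    intro l hl hb
    change (G.CELL - (G.CELL &&& (_ >>> 47))).testBit (48 * l) = false at hb
    rw [tb_sub_land, (hG.cell _).2 ⟨l, hl, rfl⟩, Bool.true_and, Bool.not_eq_false',
      Nat.testBit_shiftRight, Nat.add_comm 47 (48 * l)] at hb
    have V0 := ((hG.one.smul (Nat.pred cBIAS)).add (hG.av.smul vlo2)).sub hG.df (fun l hl => by
      obtain ⟨-, -, -, -, -, d1, d2, d3, -⟩ := gb l hl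
      have := av_nonneg g l
      have : 0 ≤ (vlo2 : ℤ) * g.av l := mul_nonneg hv0 this
      rw [eP]
      linarith)
    have V0b : ∀ l < g.n, 0 ≤ ((Nat.pred cBIAS : ℕ) : ℤ) * 1 + (vlo2 : ℤ) * g.av l - g.df l ∧
        ((Nat.pred cBIAS : ℕ) : ℤ) * 1 + (vlo2 : ℤ) * g.av l - g.df l < 2 ^ 48 := by
      intro l hl
      obtain ⟨-, -, -, -, -, d1, d2, d3, -⟩ := gb l hl
      have := av_nonneg g l
      have h1 : 0 ≤ (vlo2 : ℤ) * g.av l := mul_nonneg hv0 this
      have h2 : (vlo2 : ℤ) * g.av l ≤ vlo2 * 1 := mul_le_mul_of_nonneg_left (av_le g l) hv0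
      rw [eP]
      constructor <;> linarith
    have V1 := ((hG.one.smul (Nat.pred cBIAS)).add (hG.av.smul 4194304)).sub hG.dn (fun l hl => by
      obtain ⟨-, -, -, -, -, d1, d2, d3, -⟩ := gb l hl
      have := av_nonneg g l
      rw [eP]
      push_cast
      linarith)
    have V1b : ∀ l < g.n, 0 ≤ ((Nat.pred cBIAS : ℕ) : ℤ) * 1 + ((4194304 : ℕ) : ℤ) * g.av l -
          g.dn l ∧
        ((Nat.pred cBIAS : ℕ) : ℤ) * 1 + ((4194304 : ℕ) : ℤ) * g.av l - g.dn l < 2 ^ 48 := by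
      intro l hl
      obtain ⟨-, -, -, -, -, d1, d2, d3, -⟩ := gb l hl
      have := av_nonneg g l
      have := av_le g l
      rw [eP]
      push_cast
      constructor <;> linarith
    have hvt := fun i => hg.vert_lt hl i
    have hb' : (((and4 G.M _ ||| and4 G.M _) ||| (and4 G.M U0 ||| (and4 G.M U1 |||
      (and4 G.M U2 ||| and4 G.M U4))))).testBit (48 * l + 47) = true := hb
    simp only [Nat.testBit_or, Bool.or_eq_true] at hb'
    rcases hb' with (h | h) | h | h | h | h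
    · refine Or.inl fun j => ?_
      have h1 := and4_cell hG.hM h j
      have h2 := (V0.sign V0b (hvt j)).1 h1
      rw [eP] at h2
      unfold Grid.U0
      linarith
    · refine Or.inr (Or.inl fun j => ?_)
      have h1 := and4_cell hG.hM h j
      have h2 := (V1.sign V1b (hvt j)).1 h1
      rw [eP] at h2
      push_cast at h2
      unfold Grid.U1
      linarith
    · exact Or.inr (Or.inr (Or.inl fun c hc j =>
        (b0 _ (hvt j) (and4_cell hG.hM h j)).2 c hc))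
    · exact Or.inr (Or.inr (Or.inr (Or.inl fun c hc j =>
        (b1 _ (hvt j) (and4_cell hG.hM h j)).2 c hc)))
    · exact Or.inr (Or.inr (Or.inr (Or.inr (Or.inl fun c hc j =>
        (b2 _ (hvt j) (and4_cell hG.hM h j)).2 c hc))))
    · exact Or.inr (Or.inr (Or.inr (Or.inr (Or.inr fun c hc j =>
        (b4 _ (hvt j) (and4_cell hG.hM h j)).2 c hc))))

end Pool.Agent.K9
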