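import Mathlib
import Pool.Agent.K9.Pack2
import Pool.Agent.K9.Bnd

/-! # K9: the vectors of the grid -/

namespace Pool.Agent.K9

theorem bits01 {n V : ℕ} {f : ℕ → ℤ} (hV : Rep n V f) (h : ∀ l < n, f l = 0 ∨ f l = 1) (i : ℕ) :
    V.testBit i = true ↔ ∃ l < n, f l = 1 ∧ i = 48 * l := by
  have hb : ∀ l < n, 0 ≤ f l ∧ f l < 2 ^ 48 := by
    intro l hl
    rcases h l hl with h | h <;> rw [h] <;> norm_num
  have hi : 48 * (i / 48) + i % 48 = i := Nat.div_add_mod i 48
  have hi2 : i % 48 < 48 := Nat.mod_lt _ (by norm_num)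
  by_cases hn : i / 48 < n
  · have h1 := hV.testBit hb hn hi2
    rw [hi] at h1
    rw [h1]
    rcases h _ hn with h0 | h0
    · rw [h0]
      simp only [Int.toNat_zero, Nat.zero_testBit, Bool.false_eq_true, false_iff, not_exists,
        not_and]
      intro l hl hf he
      have : i / 48 = l := by omega
      rw [this] at h0
      rw [h0] at hf
      exact absurd hf (by norm_num)
    · rw [h0]
      simp only [Int.toNat_one]
      rw [Nat.testBit_one_eq_true_iff_self_eq_zero]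
      constructor
      · intro h2
        exact ⟨i / 48, hn, h0, by omega⟩
      · rintro ⟨l, hl, hf, he⟩
        omega
  · rw [hV.testBit_big hb (show 48 * n ≤ i by omega)]
    simp only [Bool.false_eq_true, false_iff, not_exists, not_and]
    intro l hl hf he
    omega

namespace Grid
variable (g : Grid)

def eM : ℕ := Nat.succ (len g.T)
def es : ℕ := Nat.mul 48 g.eM
def eJ1 : ℕ := mapPk g.es (fun _ => 1) g.ax
def eOK : ℕ := mapPk 48 (fun _ => 1) g.T
def etop : ℕ := Nat.shiftLeft 1 (Nat.mul 48 (len g.T))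
def eONE : ℕ := Nat.mul g.eJ1 (Nat.add g.eOK g.etop)
def eAV : ℕ := Nat.mul g.eJ1 g.eOK
def eTA0 : ℕ := pkl 48 g.T
def eT0 : ℕ := Nat.add g.eTA0 (Nat.mul 16 g.etop)
def eJX : ℕ := pkl g.es g.ax
def eJY : ℕ := pkl g.es g.ay
def eXA : ℕ := Nat.mul g.eJX g.eTA0
def eYA : ℕ := Nat.mul g.eJY g.eTA0
def eTA : ℕ := Nat.mul g.eJ1 g.eTA0
def eT8 : ℕ := Nat.mul 128 (Nat.mul g.eJ1 g.eT0)
def ePX : ℕ := Nat.sub (Nat.add (Nat.mul g.eJX g.eT0) (Nat.mul cB g.eONE)) g.eT8
def ePY : ℕ := Nat.sub (Nat.add (Nat.mul g.eJY g.eT0) (Nat.mul cB g.eONE)) g.eT8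
def eJ2 : ℕ := mapPk2 g.es (fun a b => Nat.sub (Nat.add (Nat.add (Nat.mul a a) (Nat.mul b b)) 32768)
    (Nat.mul 256 (Nat.add a b))) g.ax g.ay
def eT2 : ℕ := Nat.add (mapPk 48 (fun a => Nat.mul a a) g.T) (Nat.mul 256 g.etop)
def eNN : ℕ := Nat.mul g.eJ2 g.eT2
def eJA : ℕ := mapPk g.es (fun a => Nat.add (Nat.sub a 128) (Nat.sub 128 a)) g.ax
def eAX : ℕ := Nat.mul 2048 (Nat.mul g.eJA g.eT0)
def eAXA : ℕ := Nat.mul 2048 (Nat.mul g.eJA g.eTA0)
def eA20 : ℕ := Nat.mul 1048576 g.eAV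
def eQF : ℕ := Nat.sub (Nat.mul cHB g.eONE) (Nat.add g.eAX g.eA20)
def eQN : ℕ := Nat.sub (Nat.add (Nat.mul cHB g.eONE) g.eAX) g.eA20
def eDF : ℕ := Nat.add (Nat.add g.eNN g.eAXA) g.eA20
def eDN : ℕ := Nat.sub (Nat.add g.eNN g.eA20) g.eAXA
def eWF : ℕ := sqv g.eONE g.eDF
def eWN : ℕ := sqv g.eONE g.eDN
def eGF : ℕ := Nat.sub (Nat.add (Nat.add g.eQF (Nat.mul 4096 g.eWF))
    (pen g.eONE g.eAV g.eDF 4194304)) (Nat.mul 4194304 g.eAV)
def ePS : ℕ := Nat.mul 524288 (Nat.add g.ePX g.ePY)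
def eR : ℕ := Nat.mul g.es (Nat.pred (len g.ax))
def eJC : ℕ := Nat.mod g.eJ1 (Nat.shiftLeft 1 g.eR)
def eCELL : ℕ := Nat.mul g.eJC g.eOK
def eINF : ℕ := Nat.mul g.eJC (Nat.shiftRight g.etop 48)

def eG : GEnv :=
  ⟨g.eM, g.eONE, g.eAV, g.ePX, g.ePY, g.eNN, g.eXA, g.eYA, g.eTA, g.eQF, g.eQN, g.eDF, g.eDN,
    g.eWF, g.eWN, g.eGF, g.ePS, g.eJC, g.eCELL, g.eINF, g.eR, g.eOK, g.ang⟩

theorem eM_eq : g.eM = g.M := by
  show Nat.succ (len g.T) = g.T.length + 1
  rw [K9.len_eq]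

theorem es_eq : g.es = 48 * g.M := by
  show 48 * g.eM = 48 * g.M
  rw [eM_eq]

/-- the indicator of the points in a sector -/
def ia (k : ℕ) : ℤ := if k < g.T.length then 1 else 0

theorem av_eq (l : ℕ) : g.av l = g.ia (l % g.M) := rfl

theorem eJ1_eq : (g.eJ1 : ℤ) = ∑ j ∈ Finset.range g.ax.length, (fun _ => (1 : ℤ)) j *
    2 ^ (48 * g.M * j) := by
  unfold eJ1
  rw [mapPk_eq, es_eq]
  simp

theorem etop_eq : g.etop = 2 ^ (48 * g.T.length) := by
  show 1 <<< (48 * len g.T) = _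
  rw [K9.len_eq, Nat.one_shiftLeft]

theorem rep_succ {V W K c : ℕ} {f h : ℕ → ℤ} (hV : (V : ℤ) = ∑ l ∈ Finset.range K, f l * 2 ^ (48 * l))
    (hW : W = c * 2 ^ (48 * K)) (h1 : ∀ l < K, h l = f l) (h2 : h K = c) :
    Rep (K + 1) (Nat.add V W) h := by
  show ((V + W : ℕ) : ℤ) = _
  rw [Finset.sum_range_succ, Nat.cast_add, hV, hW, h2]
  push_cast
  congr 1
  exact Finset.sum_congr rfl (fun l hl => by rw [h1 l (Finset.mem_range.1 hl)])

theorem rOK0 : (g.eOK : ℤ) = ∑ l ∈ Finset.range g.T.length, (1 : ℤ) * 2 ^ (48 * l) := by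
  unfold eOK
  rw [mapPk_eq]
  simp

theorem rOK : Rep g.M g.eOK g.ia := by
  have := rep_succ (V := g.eOK) (W := 0) (c := 0) (h := g.ia) g.rOK0 (by simp)
    (fun l hl => by unfold ia; rw [if_pos hl]) (by unfold ia; rw [if_neg (lt_irrefl _)]; simp)
  exact this

theorem rOT : Rep g.M (Nat.add g.eOK g.etop) (fun _ => 1) :=
  rep_succ (c := 1) g.rOK0 (by rw [etop_eq, one_mul]) (fun l hl => rfl) (by simp)

theorem rTA0' : (g.eTA0 : ℤ) = ∑ l ∈ Finset.range g.T.length, (g.T.getD l 0 : ℤ) * 2 ^ (48 * l) :=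
  pkl_eq 48 g.T

theorem rTA0 : Rep g.M g.eTA0 (fun k => g.tt k * g.ia k) := by
  have := rep_succ (V := g.eTA0) (W := 0) (c := 0) (h := fun k => g.tt k * g.ia k) g.rTA0' (by simp)
    (fun l hl => by unfold ia tt; rw [if_pos hl, if_pos hl, mul_one])
    (by unfold ia; rw [if_neg (lt_irrefl _)]; simp)
  exact this

theorem rT0 : Rep g.M g.eT0 g.tt := by
  refine rep_succ (c := 16) g.rTA0' ?_ (fun l hl => by unfold tt; rw [if_pos hl])
    (by unfold tt; rw [if_neg (lt_irrefl _)]; simp)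
  show 16 * g.etop = _
  rw [etop_eq]

theorem rT2 : Rep g.M g.eT2 (fun k => g.tt k ^ 2) := by
  refine rep_succ (c := 256) (mapPk_eq 48 _ g.T) ?_
    (fun l hl => by unfold tt; rw [if_pos hl]; show _ = ((g.T.getD l 0 * g.T.getD l 0 : ℕ) : ℤ); push_cast; ring)
    (by unfold tt; rw [if_neg (lt_irrefl _)]; norm_num)
  show 256 * g.etop = _
  rw [etop_eq]

theorem Mpos' : 0 < g.M := Nat.succ_pos _

theorem one_rep : Rep g.n g.eONE (fun _ => 1) := by
  have := Rep.prod (V := Nat.add g.eOK g.etop) g.Mpos' g.eJ1_eq g.rOT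
  exact this.congr (fun l hl => by ring)

theorem av_rep : Rep g.n g.eAV g.av := by
  have := Rep.prod (V := g.eOK) g.Mpos' g.eJ1_eq g.rOK
  exact this.congr (fun l hl => by rw [av_eq]; ring)

theorem eJX_eq : (g.eJX : ℤ) = ∑ j ∈ Finset.range g.ax.length, (fun j => g.dx j + 128) j *
    2 ^ (48 * g.M * j) := by
  unfold eJX
  rw [pkl_eq, es_eq]
  exact Finset.sum_congr rfl (fun j hj => by unfold dx; ring)

theorem eJY_eq (h : g.ax.length = g.ay.length) :
    (g.eJY : ℤ) = ∑ j ∈ Finset.range g.ax.length, (fun j => g.dy j + 128) j *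
    2 ^ (48 * g.M * j) := by
  unfold eJY
  rw [pkl_eq, es_eq, h]
  exact Finset.sum_congr rfl (fun j hj => by unfold dy; ring)

theorem eJ2_eq (h : g.ax.length = g.ay.length) :
    (g.eJ2 : ℤ) = ∑ j ∈ Finset.range g.ax.length, (fun j => g.dx j ^ 2 + g.dy j ^ 2) j *
    2 ^ (48 * g.M * j) := by
  unfold eJ2
  rw [mapPk2_eq _ _ _ _ h, es_eq]
  refine Finset.sum_congr rfl (fun j hj => ?_)
  congr 1
  show _ = ((g.ax.getD j 0 : ℤ) - 128) ^ 2 + ((g.ay.getD j 0 : ℤ) - 128) ^ 2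
  generalize g.ax.getD j 0 = a
  generalize g.ay.getD j 0 = b
  show (((a * a + b * b + 32768) - 256 * (a + b) : ℕ) : ℤ) = _
  have h0 : (256 * (a + b) : ℤ) ≤ a * a + b * b + 32768 := by
    nlinarith [sq_nonneg ((a : ℤ) - 128), sq_nonneg ((b : ℤ) - 128)]
  have h1 : 256 * (a + b) ≤ a * a + b * b + 32768 := by exact_mod_cast h0
  rw [Nat.cast_sub h1]
  push_cast
  ring

theorem eJA_eq :
    (g.eJA : ℤ) = ∑ j ∈ Finset.range g.ax.length, (fun j => |g.dx j|) j *
    2 ^ (48 * g.M * j) := by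
  unfold eJA
  rw [mapPk_eq, es_eq]
  refine Finset.sum_congr rfl (fun j hj => ?_)
  congr 1
  show _ = |(g.ax.getD j 0 : ℤ) - 128|
  generalize g.ax.getD j 0 = a
  show (((a - 128) + (128 - a) : ℕ) : ℤ) = _
  rcases le_total a 128 with h | h
  · rw [abs_of_nonpos (by have : (a : ℤ) ≤ 128 := by exact_mod_cast h
                          linarith)]
    omega
  · rw [abs_of_nonneg (by have : (128 : ℤ) ≤ a := by exact_mod_cast h
                          linarith)]
    omega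

theorem ta_rep : Rep g.n g.eTA (fun l => g.tt (l % g.M) * g.av l) := by
  have := Rep.prod (V := g.eTA0) g.Mpos' g.eJ1_eq g.rTA0
  exact this.congr (fun l hl => by rw [av_eq]; ring)

theorem xa_rep : Rep g.n g.eXA (fun l => (g.vx l + 128 * g.tt (l % g.M)) * g.av l) := by
  have := Rep.prod (V := g.eTA0) g.Mpos' g.eJX_eq g.rTA0
  exact this.congr (fun l hl => by rw [av_eq]; unfold vx; ring)

theorem ya_rep (h : g.ax.length = g.ay.length) :
    Rep g.n g.eYA (fun l => (g.vy l + 128 * g.tt (l % g.M)) * g.av l) := by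
  have := Rep.prod (V := g.eTA0) g.Mpos' (g.eJY_eq h) g.rTA0
  exact this.congr (fun l hl => by rw [av_eq]; unfold vy; ring)

theorem t8_rep : Rep g.n g.eT8 (fun l => 128 * g.tt (l % g.M)) := by
  have := (Rep.prod (V := g.eT0) g.Mpos' g.eJ1_eq g.rT0).smul 128
  exact this.congr (fun l hl => by push_cast; ring)

theorem nn_rep (h : g.ax.length = g.ay.length) : Rep g.n g.eNN g.nn := by
  have := Rep.prod (V := g.eT2) g.Mpos' (g.eJ2_eq h) g.rT2
  exact this.congr (fun l hl => by unfold nn vx vy; ring)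

variable {g}

theorem OK.px_rep (hg : g.OK) : Rep g.n g.ePX (fun l => g.vx l + 2 ^ 18) := by
  have h1 := Rep.prod (V := g.eT0) g.Mpos' g.eJX_eq g.rT0
  have h2 := g.one_rep.smul cB
  have h3 := (h1.add h2).sub g.t8_rep (fun l hl => by
    obtain ⟨-, hx, -⟩ := hg.bounds hl
    rw [abs_lt] at hx
    have hB : (cB : ℤ) = 2 ^ 18 := by unfold cB; norm_num
    have e : g.vx l = g.dx (l / g.M) * g.tt (l % g.M) := rfl
    simp only [hB]
    nlinarith [hx.1])
  refine h3.congr (fun l hl => ?_)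
  have hB : (cB : ℤ) = 2 ^ 18 := by unfold cB; norm_num
  simp only [hB]
  unfold vx
  ring

theorem OK.py_rep (hg : g.OK) : Rep g.n g.ePY (fun l => g.vy l + 2 ^ 18) := by
  have h1 := Rep.prod (V := g.eT0) g.Mpos' (g.eJY_eq hg.len) g.rT0
  have h2 := g.one_rep.smul cB
  have h3 := (h1.add h2).sub g.t8_rep (fun l hl => by
    obtain ⟨-, -, hx, -⟩ := hg.bounds hl
    rw [abs_lt] at hx
    have hB : (cB : ℤ) = 2 ^ 18 := by unfold cB; norm_num
    have e : g.vy l = g.dy (l / g.M) * g.tt (l % g.M) := rfl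
    simp only [hB]
    nlinarith [hx.1])
  refine h3.congr (fun l hl => ?_)
  have hB : (cB : ℤ) = 2 ^ 18 := by unfold cB; norm_num
  simp only [hB]
  unfold vy
  ring

theorem OK.absvx (hg : g.OK) (l : ℕ) : |g.vx l| = |g.dx (l / g.M)| * g.tt (l % g.M) := by
  have := hg.tt_pos (l % g.M)
  unfold vx
  rw [abs_mul, abs_of_nonneg (show (0 : ℤ) ≤ g.tt (l % g.M) by linarith)]

theorem OK.ax_rep (hg : g.OK) : Rep g.n g.eAX (fun l => 2048 * |g.vx l|) := by
  have := (Rep.prod (V := g.eT0) g.Mpos' g.eJA_eq g.rT0).smul 2048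
  exact this.congr (fun l hl => by rw [hg.absvx]; push_cast; ring)

theorem OK.axa_rep (hg : g.OK) : Rep g.n g.eAXA (fun l => 2048 * |g.vx l| * g.av l) := by
  have := (Rep.prod (V := g.eTA0) g.Mpos' g.eJA_eq g.rTA0).smul 2048
  exact this.congr (fun l hl => by rw [hg.absvx, av_eq]; push_cast; ring)

theorem a20_rep : Rep g.n g.eA20 (fun l => 2 ^ 20 * g.av l) :=
  (g.av_rep.smul 1048576).congr (fun l hl => by push_cast; norm_num)

theorem OK.qf_rep (hg : g.OK) : Rep g.n g.eQF (fun l => 2 ^ 44 + g.qf l) := by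
  have h1 := g.one_rep.smul cHB
  have h2 := h1.sub (hg.ax_rep.add a20_rep) (fun l hl => by
    obtain ⟨ha, hx, -⟩ := hg.bounds hl
    have hB : (cHB : ℤ) = 2 ^ 44 := by unfold cHB; norm_num
    simp only [hB]
    rcases ha with h | h <;> rw [h] <;> linarith)
  refine h2.congr (fun l hl => ?_)
  have hB : (cHB : ℤ) = 2 ^ 44 := by unfold cHB; norm_num
  simp only [hB]
  unfold qf
  ring

theorem OK.qn_rep (hg : g.OK) : Rep g.n g.eQN (fun l => 2 ^ 44 + g.qn l) := by
  have h1 := g.one_rep.smul cHB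
  have h2 := (h1.add hg.ax_rep).sub a20_rep (fun l hl => by
    obtain ⟨ha, hx, -⟩ := hg.bounds hl
    have hB : (cHB : ℤ) = 2 ^ 44 := by unfold cHB; norm_num
    simp only [hB]
    have := abs_nonneg (g.vx l)
    rcases ha with h | h <;> rw [h] <;> linarith)
  refine h2.congr (fun l hl => ?_)
  have hB : (cHB : ℤ) = 2 ^ 44 := by unfold cHB; norm_num
  simp only [hB]
  unfold qn
  ring

theorem av_sq (g : Grid) (l : ℕ) : g.av l * g.av l = g.av l := by
  rcases av01 g l with h | h <;> rw [h] <;> norm_num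

theorem OK.df_rep (hg : g.OK) : Rep g.n g.eDF g.df := by
  refine ((g.nn_rep hg.len).add hg.axa_rep |>.add a20_rep).congr (fun l hl => ?_)
  have := av_sq g l
  unfold df qf
  linear_combination (-2 ^ 20) * this

theorem OK.dn_rep (hg : g.OK) : Rep g.n g.eDN g.dn := by
  have e : ∀ l, g.nn l + 2 ^ 20 * g.av l - 2048 * |g.vx l| * g.av l = g.dn l := by
    intro l
    have := av_sq g l
    unfold dn qn
    linear_combination (-2 ^ 20) * this
  refine (((g.nn_rep hg.len).add a20_rep).sub hg.axa_rep (fun l hl => ?_)).congr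
    (fun l hl => e l)
  have h0 : 0 ≤ g.dn l := (hg.bounds hl).2.2.2.2.2.1
  have := e l
  linarith

theorem OK.wf_rep (hg : g.OK) : Rep g.n g.eWF g.wf :=
  (Rep.sqv g.one_rep hg.df_rep (fun l hl => by
    obtain ⟨-, -, -, -, -, h1, h2, h3, -⟩ := hg.bounds hl
    exact ⟨h1.trans h2, h3.trans (by norm_num)⟩)).congr (fun l hl => rfl)

theorem OK.wn_rep (hg : g.OK) : Rep g.n g.eWN g.wn :=
  (Rep.sqv g.one_rep hg.dn_rep (fun l hl => by
    obtain ⟨-, -, -, -, -, h1, h2, h3, -⟩ := hg.bounds hl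
    exact ⟨h1, (h2.trans_lt h3).trans (by norm_num)⟩)).congr (fun l hl => rfl)

theorem OK.gf_rep (hg : g.OK) : Rep g.n g.eGF (fun l => 2 ^ 44 + g.gf l) := by
  have h1 := Rep.pen g.one_rep g.av_rep (fun l _ => av01 g l) hg.df_rep (fun l hl => by
    obtain ⟨-, -, -, -, -, h1, h2, h3, -⟩ := hg.bounds hl
    exact ⟨h1.trans h2, h3.trans (by norm_num)⟩) 4194304 (by norm_num)
  have h2 := (hg.qf_rep.add (hg.wf_rep.smul 4096)).add h1
  have e : ∀ l, 2 ^ 44 + g.qf l + ((4096 : ℕ) : ℤ) * g.wf l +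
      (if g.df l < ((4194304 : ℕ) : ℤ) * g.av l then 2 ^ 43 else 0) -
      ((4194304 : ℕ) : ℤ) * g.av l = 2 ^ 44 + g.gf l := by
    intro l
    have h3 : (((4194304 : ℕ) : ℤ)) = 2 ^ 22 := by norm_num
    rw [h3]
    unfold gf
    push_cast
    ring
  refine (h2.sub (g.av_rep.smul 4194304) (fun l hl => ?_)).congr (fun l hl => e l)
  have h0 := (hg.bounds hl).2.2.2.2.2.2.2.2.2.2.2.2.2
  rw [abs_lt] at h0
  have := e l
  linarith [h0.1]

theorem OK.ps_rep (hg : g.OK) :
    Rep g.n g.ePS (fun l => 2 ^ 19 * (g.vx l + g.vy l) + 2 ^ 38) :=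
  ((hg.px_rep.add hg.py_rep).smul 524288).congr (fun l hl => by push_cast; ring)

theorem ok_bits (i : ℕ) : g.eOK.testBit i = true ↔ ∃ k < g.T.length, i = 48 * k := by
  rw [bits01 g.rOK (fun l _ => by unfold ia; split_ifs <;> simp)]
  constructor
  · rintro ⟨l, hl, h1, h2⟩
    refine ⟨l, ?_, h2⟩
    unfold ia at h1
    by_contra hc
    rw [if_neg hc] at h1
    exact absurd h1 (by norm_num)
  · rintro ⟨k, hk, h⟩
    refine ⟨k, by unfold Grid.M; omega, by unfold ia; rw [if_pos hk], h⟩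

theorem eR_eq : g.eR = 48 * g.M * g.J := by
  show g.es * (len g.ax).pred = _
  rw [es_eq, K9.len_eq]
  rfl

theorem geom_lt (s J : ℕ) (hs : 0 < s) : ∑ j ∈ Finset.range J, 2 ^ (s * j) < 2 ^ (s * J) := by
  induction J with
  | zero => simp
  | succ J ih =>
    rw [Finset.sum_range_succ, Nat.mul_succ, pow_add]
    have h2 : 2 ≤ 2 ^ s := by
      calc 2 = 2 ^ 1 := by norm_num
        _ ≤ 2 ^ s := Nat.pow_le_pow_right (by norm_num) hs
    have h3 : 0 < 2 ^ (s * J) := by positivity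
    nlinarith

theorem OK.eJC_eq (hg : g.OK) : (g.eJC : ℤ) = ∑ j ∈ Finset.range g.J, (fun _ => (1 : ℤ)) j *
    2 ^ (48 * g.M * j) := by
  have h1 : g.eJ1 = (∑ j ∈ Finset.range g.J, 2 ^ (48 * g.M * j)) + 2 ^ (48 * g.M * g.J) := by
    have h := g.eJ1_eq
    rw [hg.len_eq, Finset.sum_range_succ] at h
    have : (g.eJ1 : ℤ) = (((∑ j ∈ Finset.range g.J, 2 ^ (48 * g.M * j)) +
      2 ^ (48 * g.M * g.J) : ℕ) : ℤ) := by
      rw [h]
      push_cast
      simp
    exact_mod_cast this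
  have h2 : g.eJC = ∑ j ∈ Finset.range g.J, 2 ^ (48 * g.M * j) := by
    show g.eJ1 % (1 <<< g.eR) = _
    rw [Nat.one_shiftLeft, eR_eq, h1, Nat.add_mod_right]
    exact Nat.mod_eq_of_lt (geom_lt _ _ (by have := g.Mpos'; omega))
  rw [h2]
  push_cast
  simp

theorem OK.jc_bits (hg : g.OK) (i : ℕ) :
    g.eJC.testBit i = true ↔ ∃ j < g.J, i = 48 * (g.M * j) := by
  have h0 : Rep g.M 1 (fun k => if k = 0 then 1 else 0) := by
    show ((1 : ℕ) : ℤ) = _
    rw [show g.M = g.T.length + 1 from rfl, Finset.sum_range_succ']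
    simp
  have h1 := Rep.prod (V := 1) g.Mpos' hg.eJC_eq h0
  have h2 : Nat.mul g.eJC 1 = g.eJC := Nat.mul_one _
  rw [h2] at h1
  rw [bits01 h1 (fun l _ => by split_ifs <;> simp)]
  constructor
  · rintro ⟨l, hl, h3, h4⟩
    have h5 : l % g.M = 0 := by
      by_contra hc
      simp only [if_neg hc] at h3
      exact absurd h3 (by norm_num)
    refine ⟨l / g.M, ?_, ?_⟩
    · exact Nat.div_lt_of_lt_mul (by rw [Nat.mul_comm]; exact hl)
    · rw [h4]
      congr 1
      have := Nat.div_add_mod l g.M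
      omega
  · rintro ⟨j, hj, h⟩
    refine ⟨g.M * j, ?_, ?_, h⟩
    · rw [Nat.mul_comm]
      exact Nat.mul_lt_mul_of_pos_right hj g.Mpos'
    · simp

theorem div_lt_iff' {l J M : ℕ} (hM : 0 < M) : l / M < J ↔ l < J * M := by
  rw [Nat.div_lt_iff_lt_mul hM]

theorem OK.cell_bits (hg : g.OK) (i : ℕ) :
    g.eCELL.testBit i = true ↔ ∃ l, g.isCell l ∧ i = 48 * l := by
  have h1 := Rep.prod (V := g.eOK) g.Mpos' hg.eJC_eq g.rOK
  show (Nat.mul g.eJC g.eOK).testBit i = true ↔ _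
  rw [bits01 h1 (fun l _ => by unfold ia; split_ifs <;> simp)]
  constructor
  · rintro ⟨l, hl, h3, h4⟩
    have h5 : l % g.M < g.T.length := by
      by_contra hc
      unfold ia at h3
      simp only [if_neg hc] at h3
      exact absurd h3 (by norm_num)
    exact ⟨l, ⟨(div_lt_iff' g.Mpos').2 hl, h5⟩, h4⟩
  · rintro ⟨l, ⟨h3, h5⟩, h4⟩
    refine ⟨l, (div_lt_iff' g.Mpos').1 h3, ?_, h4⟩
    unfold ia
    simp only [if_pos h5]
    norm_num

theorem OK.inf_bits (hg : g.OK) (i : ℕ) :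
    g.eINF.testBit i = true ↔ ∃ l, g.isCell l ∧ ¬ g.isFin l ∧ i = 48 * l := by
  have hT := hg.Tlen
  have h0 : Rep g.M (Nat.shiftRight g.etop 48) (fun k => if k + 1 = g.T.length then 1 else 0) := by
    have e1 : Nat.shiftRight g.etop 48 = 2 ^ (48 * (g.T.length - 1)) := by
      show g.etop >>> 48 = _
      rw [etop_eq, Nat.shiftRight_eq_div_pow,
        show 48 * g.T.length = 48 * (g.T.length - 1) + 48 by omega, pow_add]
      exact Nat.mul_div_cancel _ (by positivity)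
    rw [e1]
    show ((2 ^ (48 * (g.T.length - 1)) : ℕ) : ℤ) = _
    rw [Finset.sum_eq_single (g.T.length - 1)]
    · simp only [if_pos (show g.T.length - 1 + 1 = g.T.length by omega)]
      push_cast
      ring
    · intro b hb hne
      simp only [if_neg (show ¬ b + 1 = g.T.length by omega)]
      ring
    · intro hc
      exact absurd (Finset.mem_range.2 (show g.T.length - 1 < g.M by unfold Grid.M; omega)) hc
  have h1 := Rep.prod (V := Nat.shiftRight g.etop 48) g.Mpos' hg.eJC_eq h0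
  show (Nat.mul g.eJC (Nat.shiftRight g.etop 48)).testBit i = true ↔ _
  rw [bits01 h1 (fun l _ => by split_ifs <;> simp)]
  constructor
  · rintro ⟨l, hl, h3, h4⟩
    have h5 : l % g.M + 1 = g.T.length := by
      by_contra hc
      simp only [if_neg hc] at h3
      exact absurd h3 (by norm_num)
    refine ⟨l, ⟨(div_lt_iff' g.Mpos').2 hl, by omega⟩, ?_, h4⟩
    rintro ⟨-, h6⟩
    omega
  · rintro ⟨l, ⟨h3, h5⟩, h6, h4⟩
    refine ⟨l, (div_lt_iff' g.Mpos').1 h3, ?_, h4⟩
    have h7 : l % g.M + 1 = g.T.length := by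
      by_contra hc
      exact h6 ⟨h3, by omega⟩
    simp only [if_pos h7]
    norm_num

theorem OK.grep (hg : g.OK) : g.GRep g.eG where
  hM := g.eM_eq
  hR := eR_eq
  hang := rfl
  one := g.one_rep
  av := g.av_rep
  px := hg.px_rep
  py := hg.py_rep
  nn := g.nn_rep hg.len
  xa := g.xa_rep
  ya := g.ya_rep hg.len
  ta := g.ta_rep
  qf := hg.qf_rep
  qn := hg.qn_rep
  df := hg.df_rep
  dn := hg.dn_rep
  wf := hg.wf_rep
  wn := hg.wn_rep
  gf := hg.gf_rep
  ps := hg.ps_rep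
  ok := ok_bits
  jc := hg.jc_bits
  cell := hg.cell_bits
  inf := hg.inf_bits

end Grid

theorem force_elim {α : Type} {P : α → Prop} (n : ℕ) (f : ℕ → α) (h : ∀ m, m = n → P (f m)) :
    P (force n f) := h n rfl

theorem mkG_eq {α : Type} (g : Grid) (k : GEnv → α) : mkG g k = k g.eG := by
  unfold mkG
  refine force_elim (P := fun r => r = k g.eG) _ _ (fun M hM => ?_)
  replace hM : M = g.eM := by
    rw [hM]
    rfl
  subst hM
  refine force_elim (P := fun r => r = k g.eG) _ _ (fun s hs => ?_)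
  replace hs : s = g.es := by
    rw [hs]
    rfl
  subst hs
  refine force_elim (P := fun r => r = k g.eG) _ _ (fun J1 hJ1 => ?_)
  replace hJ1 : J1 = g.eJ1 := by
    rw [hJ1]
    rfl
  subst hJ1
  refine force_elim (P := fun r => r = k g.eG) _ _ (fun OK hOK => ?_)
  replace hOK : OK = g.eOK := by
    rw [hOK]
    rfl
  subst hOK
  refine force_elim (P := fun r => r = k g.eG) _ _ (fun top htop => ?_)
  replace htop : top = g.etop := by
    rw [htop]
    rfl
  subst htop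
  refine force_elim (P := fun r => r = k g.eG) _ _ (fun ONE hONE => ?_)
  replace hONE : ONE = g.eONE := by
    rw [hONE]
    rfl
  subst hONE
  refine force_elim (P := fun r => r = k g.eG) _ _ (fun AV hAV => ?_)
  replace hAV : AV = g.eAV := by
    rw [hAV]
    rfl
  subst hAV
  refine force_elim (P := fun r => r = k g.eG) _ _ (fun TA0 hTA0 => ?_)
  replace hTA0 : TA0 = g.eTA0 := by
    rw [hTA0]
    rfl
  subst hTA0
  refine force_elim (P := fun r => r = k g.eG) _ _ (fun T0 hT0 => ?_)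
  replace hT0 : T0 = g.eT0 := by
    rw [hT0]
    rfl
  subst hT0
  refine force_elim (P := fun r => r = k g.eG) _ _ (fun JX hJX => ?_)
  replace hJX : JX = g.eJX := by
    rw [hJX]
    rfl
  subst hJX
  refine force_elim (P := fun r => r = k g.eG) _ _ (fun JY hJY => ?_)
  replace hJY : JY = g.eJY := by
    rw [hJY]
    rfl
  subst hJY
  refine force_elim (P := fun r => r = k g.eG) _ _ (fun XA hXA => ?_)
  replace hXA : XA = g.eXA := by
    rw [hXA]
    rfl
  subst hXA
  refine force_elim (P := fun r => r = k g.eG) _ _ (fun YA hYA => ?_)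
  replace hYA : YA = g.eYA := by
    rw [hYA]
    rfl
  subst hYA
  refine force_elim (P := fun r => r = k g.eG) _ _ (fun TA hTA => ?_)
  replace hTA : TA = g.eTA := by
    rw [hTA]
    rfl
  subst hTA
  refine force_elim (P := fun r => r = k g.eG) _ _ (fun T8 hT8 => ?_)
  replace hT8 : T8 = g.eT8 := by
    rw [hT8]
    rfl
  subst hT8
  refine force_elim (P := fun r => r = k g.eG) _ _ (fun PX hPX => ?_)
  replace hPX : PX = g.ePX := by
    rw [hPX]
    rfl
  subst hPX
  refine force_elim (P := fun r => r = k g.eG) _ _ (fun PY hPY => ?_)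
  replace hPY : PY = g.ePY := by
    rw [hPY]
    rfl
  subst hPY
  refine force_elim (P := fun r => r = k g.eG) _ _ (fun J2 hJ2 => ?_)
  replace hJ2 : J2 = g.eJ2 := by
    rw [hJ2]
    rfl
  subst hJ2
  refine force_elim (P := fun r => r = k g.eG) _ _ (fun T2 hT2 => ?_)
  replace hT2 : T2 = g.eT2 := by
    rw [hT2]
    rfl
  subst hT2
  refine force_elim (P := fun r => r = k g.eG) _ _ (fun NN hNN => ?_)
  replace hNN : NN = g.eNN := by
    rw [hNN]
    rfl
  subst hNN
  refine force_elim (P := fun r => r = k g.eG) _ _ (fun JA hJA => ?_)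
  replace hJA : JA = g.eJA := by
    rw [hJA]
    rfl
  subst hJA
  refine force_elim (P := fun r => r = k g.eG) _ _ (fun AX hAX => ?_)
  replace hAX : AX = g.eAX := by
    rw [hAX]
    rfl
  subst hAX
  refine force_elim (P := fun r => r = k g.eG) _ _ (fun AXA hAXA => ?_)
  replace hAXA : AXA = g.eAXA := by
    rw [hAXA]
    rfl
  subst hAXA
  refine force_elim (P := fun r => r = k g.eG) _ _ (fun A20 hA20 => ?_)
  replace hA20 : A20 = g.eA20 := by
    rw [hA20]
    rfl
  subst hA20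
  refine force_elim (P := fun r => r = k g.eG) _ _ (fun QF hQF => ?_)
  replace hQF : QF = g.eQF := by
    rw [hQF]
    rfl
  subst hQF
  refine force_elim (P := fun r => r = k g.eG) _ _ (fun QN hQN => ?_)
  replace hQN : QN = g.eQN := by
    rw [hQN]
    rfl
  subst hQN
  refine force_elim (P := fun r => r = k g.eG) _ _ (fun DF hDF => ?_)
  replace hDF : DF = g.eDF := by
    rw [hDF]
    rfl
  subst hDF
  refine force_elim (P := fun r => r = k g.eG) _ _ (fun DN hDN => ?_)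
  replace hDN : DN = g.eDN := by
    rw [hDN]
    rfl
  subst hDN
  refine force_elim (P := fun r => r = k g.eG) _ _ (fun WF hWF => ?_)
  replace hWF : WF = g.eWF := by
    rw [hWF]
    rfl
  subst hWF
  refine force_elim (P := fun r => r = k g.eG) _ _ (fun WN hWN => ?_)
  replace hWN : WN = g.eWN := by
    rw [hWN]
    rfl
  subst hWN
  refine force_elim (P := fun r => r = k g.eG) _ _ (fun GF hGF => ?_)
  replace hGF : GF = g.eGF := by
    rw [hGF]
    rfl
  subst hGF
  refine force_elim (P := fun r => r = k g.eG) _ _ (fun PS hPS => ?_)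
  replace hPS : PS = g.ePS := by
    rw [hPS]
    rfl
  subst hPS
  refine force_elim (P := fun r => r = k g.eG) _ _ (fun R hR => ?_)
  replace hR : R = g.eR := by
    rw [hR]
    rfl
  subst hR
  refine force_elim (P := fun r => r = k g.eG) _ _ (fun JC hJC => ?_)
  replace hJC : JC = g.eJC := by
    rw [hJC]
    rfl
  subst hJC
  refine force_elim (P := fun r => r = k g.eG) _ _ (fun CELL hCELL => ?_)
  replace hCELL : CELL = g.eCELL := by
    rw [hCELL]
    rfl
  subst hCELL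
  refine force_elim (P := fun r => r = k g.eG) _ _ (fun INF hINF => ?_)
  replace hINF : INF = g.eINF := by
    rw [hINF]
    rfl
  subst hINF
  rfl

theorem mkG_spec {α : Type} (g : Grid) (hg : g.OK) (k : GEnv → α) :
    ∃ G : GEnv, g.GRep G ∧ mkG g k = k G :=
  ⟨g.eG, hg.grep, mkG_eq g k⟩

end Pool.Agent.K9
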