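import Mathlib
import Pool.Agent.K9.Spec
import Pool.Agent.K9.Bnd

/-! # K9: the conflicts -/

namespace Pool.Agent.K9

/-- the corners as complex numbers -/
noncomputable def cpt (c : Corner) : ℂ := ⟨c.qx, c.qy⟩

namespace GeoL

theorem nsq (z : ℂ) : ‖z‖ ^ 2 = z.re ^ 2 + z.im ^ 2 := by
  rw [Complex.sq_norm, Complex.normSq_apply]; ring

/-- the branch `‖z - b‖ + D ≤ ‖z - a‖` as a (convex) inequality -/
theorem char (a b z : ℂ) {D : ℝ} (hD : 0 ≤ D) :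
    ‖z - b‖ + D ≤ ‖z - a‖ ↔
      2 * D * ‖z - b‖ ≤ 2 * ((b.re - a.re) * z.re + (b.im - a.im) * z.im) +
        (a.re ^ 2 + a.im ^ 2 - b.re ^ 2 - b.im ^ 2 - D ^ 2) := by
  have h1 := nsq (z - b)
  have h2 := nsq (z - a)
  simp only [Complex.sub_re, Complex.sub_im] at h1 h2
  have hb : 0 ≤ ‖z - b‖ := norm_nonneg _
  have ha : 0 ≤ ‖z - a‖ := norm_nonneg _
  constructor
  · intro h
    have h3 : (‖z - b‖ + D) ^ 2 ≤ ‖z - a‖ ^ 2 := pow_le_pow_left₀ (by positivity) h 2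
    nlinarith
  · intro h
    refine abs_le_of_sq_le_sq' ?_ ha |>.2
    nlinarith

theorem hull {a b : ℂ} {D : ℝ} (hD : 0 ≤ D) {w A X Y : Fin 4 → ℝ} {z : ℂ}
    (hw : ∀ i, 0 ≤ w i) (h1 : ∑ i, w i * A i = 1) (h2 : ∑ i, w i * X i = z.re)
    (h3 : ∑ i, w i * Y i = z.im)
    (h : ∀ i, 2 * D * ‖(⟨X i - A i * b.re, Y i - A i * b.im⟩ : ℂ)‖ ≤
      2 * ((b.re - a.re) * X i + (b.im - a.im) * Y i) +
        A i * (a.re ^ 2 + a.im ^ 2 - b.re ^ 2 - b.im ^ 2 - D ^ 2)) :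
    ‖z - b‖ + D ≤ ‖z - a‖ := by
  rw [char a b z hD]
  have hz : z - b = ∑ i, (w i : ℂ) * (⟨X i - A i * b.re, Y i - A i * b.im⟩ : ℂ) := by
    simp only [Fin.sum_univ_four] at h1 h2 h3 ⊢
    apply Complex.ext
    · simp
      linear_combination -h2 + b.re * h1
    · simp
      linear_combination -h3 + b.im * h1
  have hn : ‖z - b‖ ≤ ∑ i, w i * ‖(⟨X i - A i * b.re, Y i - A i * b.im⟩ : ℂ)‖ := by
    rw [hz]
    refine (norm_sum_le _ _).trans (le_of_eq ?_)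
    refine Finset.sum_congr rfl fun i _ => ?_
    rw [norm_mul, Complex.norm_real, Real.norm_of_nonneg (hw i)]
  have hs : ∑ i, w i * (2 * D * ‖(⟨X i - A i * b.re, Y i - A i * b.im⟩ : ℂ)‖) ≤
      ∑ i, w i * (2 * ((b.re - a.re) * X i + (b.im - a.im) * Y i) +
        A i * (a.re ^ 2 + a.im ^ 2 - b.re ^ 2 - b.im ^ 2 - D ^ 2)) :=
    Finset.sum_le_sum fun i _ => mul_le_mul_of_nonneg_left (h i) (hw i)
  have hl : ∑ i, w i * (2 * D * ‖(⟨X i - A i * b.re, Y i - A i * b.im⟩ : ℂ)‖) =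
      2 * D * ∑ i, w i * ‖(⟨X i - A i * b.re, Y i - A i * b.im⟩ : ℂ)‖ := by
    rw [Finset.mul_sum]; exact Finset.sum_congr rfl fun i _ => by ring
  have hr : ∑ i, w i * (2 * ((b.re - a.re) * X i + (b.im - a.im) * Y i) +
        A i * (a.re ^ 2 + a.im ^ 2 - b.re ^ 2 - b.im ^ 2 - D ^ 2)) =
      2 * ((b.re - a.re) * z.re + (b.im - a.im) * z.im) +
        (a.re ^ 2 + a.im ^ 2 - b.re ^ 2 - b.im ^ 2 - D ^ 2) := by
    simp only [Fin.sum_univ_four] at h1 h2 h3 ⊢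
    linear_combination (2 * (b.re - a.re)) * h2 + (2 * (b.im - a.im)) * h3 +
      (a.re ^ 2 + a.im ^ 2 - b.re ^ 2 - b.im ^ 2 - D ^ 2) * h1
  rw [hl, hr] at hs
  exact (mul_le_mul_of_nonneg_left hn (by positivity)).trans hs

theorem convex_hyp (a b : ℂ) {D : ℝ} (hD : 0 ≤ D) :
    Convex ℝ {z : ℂ | ‖z - b‖ + D ≤ ‖z - a‖} := by
  intro x hx y hy s t hs ht hst
  simp only [Set.mem_ofPred_eq] at hx hy ⊢
  rw [char a b _ hD] at hx hy ⊢
  have hn : ‖s • x + t • y - b‖ ≤ s * ‖x - b‖ + t * ‖y - b‖ := by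
    have e : s • x + t • y - b = (s : ℂ) * (x - b) + (t : ℂ) * (y - b) := by
      simp only [Complex.real_smul]
      have : (s : ℂ) + t = 1 := by exact_mod_cast hst
      linear_combination b * this
    rw [e]
    refine (norm_add_le _ _).trans (le_of_eq ?_)
    rw [norm_mul, norm_mul, Complex.norm_real, Complex.norm_real, Real.norm_of_nonneg hs,
      Real.norm_of_nonneg ht]
  have h1 := mul_le_mul_of_nonneg_left hn (show 0 ≤ 2 * D by positivity)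
  have h2 := mul_le_mul_of_nonneg_left hx hs
  have h3 := mul_le_mul_of_nonneg_left hy ht
  simp only [Complex.add_re, Complex.smul_re, Complex.add_im, Complex.smul_im, smul_eq_mul]
  have e : t = 1 - s := by linarith
  subst e
  nlinarith

/-- convex combination of four points of a convex set -/
theorem conv4 {S : Set ℂ} (hS : Convex ℝ S) {w X Y : Fin 4 → ℝ} {z : ℂ}
    (hw : ∀ i, 0 ≤ w i) (h1 : ∑ i, w i = 1) (h2 : ∑ i, w i * X i = z.re)
    (h3 : ∑ i, w i * Y i = z.im) (h : ∀ i, (⟨X i, Y i⟩ : ℂ) ∈ S) : z ∈ S := by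
  have hz : z = ∑ i, w i • (⟨X i, Y i⟩ : ℂ) := by
    simp only [Fin.sum_univ_four] at h2 h3 ⊢
    apply Complex.ext
    · simp
      linarith
    · simp
      linarith
  rw [hz]
  exact hS.sum_mem (fun i _ => hw i) h1 (fun i _ => h i)

theorem tt_nonneg (g : Grid) (k : ℕ) : 0 ≤ g.tt k := by
  unfold Grid.tt; split_ifs <;> simp

/-- the four vertices: sectors and rings -/
theorem vert_side {g : Grid} (hg : g.OK) {u : ℕ} (hu : g.isCell u) :
    (∀ i, 0 ≤ g.vx (g.vert u i)) ∨ (∀ i, g.vx (g.vert u i) ≤ 0) := by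
  obtain ⟨h1, h2⟩ := hu
  have hM : g.M = g.T.length + 1 := rfl
  have hMp : 0 < g.M := by omega
  have hlt : u % g.M + 1 < g.M := by omega
  have hd1 : (u + 1) / g.M = u / g.M := by
    have h3 := Nat.div_add_mod u g.M
    have h4 : u + 1 = (u % g.M + 1) + g.M * (u / g.M) := by omega
    rw [h4, Nat.add_mul_div_left _ _ hMp, Nat.div_eq_of_lt hlt, zero_add]
  have hd2 : (u + g.M) / g.M = u / g.M + 1 := Nat.add_div_right _ hMp
  have hd3 : (u + g.M + 1) / g.M = u / g.M + 1 := by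
    have : u + g.M + 1 = u + 1 + g.M := by omega
    rw [this, Nat.add_div_right _ hMp, hd1]
  rcases hg.side (u / g.M) h1 with h | h
  · left
    intro i
    fin_cases i
    · exact mul_nonneg h.1 (tt_nonneg _ _)
    · show 0 ≤ g.dx ((u + 1) / g.M) * g.tt ((u + 1) % g.M)
      rw [hd1]; exact mul_nonneg h.1 (tt_nonneg _ _)
    · show 0 ≤ g.dx ((u + g.M) / g.M) * g.tt ((u + g.M) % g.M)
      rw [hd2]; exact mul_nonneg h.2 (tt_nonneg _ _)
    · show 0 ≤ g.dx ((u + g.M + 1) / g.M) * g.tt ((u + g.M + 1) % g.M)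
      rw [hd3]; exact mul_nonneg h.2 (tt_nonneg _ _)
  · right
    intro i
    fin_cases i
    · exact mul_nonpos_of_nonpos_of_nonneg h.1 (tt_nonneg _ _)
    · show g.dx ((u + 1) / g.M) * g.tt ((u + 1) % g.M) ≤ 0
      rw [hd1]; exact mul_nonpos_of_nonpos_of_nonneg h.1 (tt_nonneg _ _)
    · show g.dx ((u + g.M) / g.M) * g.tt ((u + g.M) % g.M) ≤ 0
      rw [hd2]; exact mul_nonpos_of_nonpos_of_nonneg h.2 (tt_nonneg _ _)
    · show g.dx ((u + g.M + 1) / g.M) * g.tt ((u + g.M + 1) % g.M) ≤ 0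
      rw [hd3]; exact mul_nonpos_of_nonpos_of_nonneg h.2 (tt_nonneg _ _)

theorem PB_im (b : Bool) : (PB b).im = 0 := by cases b <;> simp [PB]
theorem PB_re_sq (b : Bool) : (PB b).re ^ 2 = 1048576 := by cases b <;> simp [PB] <;> norm_num
theorem PB_not (b : Bool) : (PB (!b)).re = -(PB b).re := by cases b <;> simp [PB]

/-- the near point is the same for the four vertices -/
theorem near_side {g : Grid} (hg : g.OK) {u : ℕ} (hu : g.isCell u) :
    ∃ b : Bool, ∀ i, ((|g.vx (g.vert u i)| : ℤ) : ℝ) * 1024 =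
      (PB b).re * (g.vx (g.vert u i) : ℝ) := by
  rcases vert_side hg hu with h | h
  · refine ⟨true, fun i => ?_⟩
    rw [abs_of_nonneg (h i)]
    simp [PB]; ring
  · refine ⟨false, fun i => ?_⟩
    rw [abs_of_nonpos (h i)]
    simp [PB]; ring

/-- `w = ⌊√D⌋ + 1` bounds the norm -/
theorem norm_le_sqrt {z : ℂ} {D : ℤ} (h : z.re ^ 2 + z.im ^ 2 = (D : ℝ)) :
    ‖z‖ ≤ (((Nat.sqrt D.toNat : ℕ) : ℤ) + 1 : ℤ) := by
  have hD : (0 : ℝ) ≤ (D : ℝ) := by rw [← h]; positivity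
  have hD' : 0 ≤ D := by exact_mod_cast hD
  have h1 : D.toNat < (Nat.sqrt D.toNat + 1) * (Nat.sqrt D.toNat + 1) := Nat.lt_succ_sqrt _
  have h2 : D < ((Nat.sqrt D.toNat : ℕ) + 1 : ℤ) * ((Nat.sqrt D.toNat : ℕ) + 1 : ℤ) := by
    have : ((D.toNat : ℕ) : ℤ) < (((Nat.sqrt D.toNat + 1) * (Nat.sqrt D.toNat + 1) : ℕ) : ℤ) := by
      exact_mod_cast h1
    rw [Int.toNat_of_nonneg hD'] at this
    push_cast at this
    exact this
  have h3 : (D : ℝ) < (((Nat.sqrt D.toNat : ℕ) : ℝ) + 1) * (((Nat.sqrt D.toNat : ℕ) : ℝ) + 1) := by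
    exact_mod_cast h2
  push_cast
  refine abs_le_of_sq_le_sq' ?_ (by positivity) |>.2
  rw [nsq, h]
  nlinarith

/-- the vertex inequality for the tests `|y - ξ| + D ≤ |y - P|` -/
theorem test1 {A X Y D : ℝ} {ξ P : ℂ} (hA : A = 0 ∨ A = 1) (hD : 0 ≤ D)
    (ht : A = 1 → D ≤ ‖(⟨X - A * P.re, Y - A * P.im⟩ : ℂ)‖)
    (h : 0 ≤ 2 * (ξ.re * X + ξ.im * Y) - A * (ξ.re ^ 2 + ξ.im ^ 2) -
      (2 * (P.re * X + P.im * Y) - A * (P.re ^ 2 + P.im ^ 2)) -
      2 * D * ‖(⟨X - A * P.re, Y - A * P.im⟩ : ℂ)‖ + D ^ 2 * A) :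
    2 * D * ‖(⟨X - A * ξ.re, Y - A * ξ.im⟩ : ℂ)‖ ≤
      2 * ((ξ.re - P.re) * X + (ξ.im - P.im) * Y) +
        A * (P.re ^ 2 + P.im ^ 2 - ξ.re ^ 2 - ξ.im ^ 2 - D ^ 2) := by
  rcases hA with hA | hA
  · subst hA
    simp only [zero_mul, sub_zero, mul_zero, add_zero] at h ⊢
    linarith
  · subst hA
    have ht' := ht rfl
    have h1 := nsq (⟨X - 1 * P.re, Y - 1 * P.im⟩ : ℂ)
    have h2 := nsq (⟨X - 1 * ξ.re, Y - 1 * ξ.im⟩ : ℂ)
    simp only [] at h1 h2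
    have n1 := norm_nonneg (⟨X - 1 * P.re, Y - 1 * P.im⟩ : ℂ)
    have n2 := norm_nonneg (⟨X - 1 * ξ.re, Y - 1 * ξ.im⟩ : ℂ)
    set t := ‖(⟨X - 1 * P.re, Y - 1 * P.im⟩ : ℂ)‖
    set r := ‖(⟨X - 1 * ξ.re, Y - 1 * ξ.im⟩ : ℂ)‖
    have h3 : r ^ 2 ≤ (t - D) ^ 2 := by nlinarith
    have h4 : r ≤ t - D := abs_le_of_sq_le_sq' h3 (by linarith) |>.2
    have h5 : (r + D) ^ 2 ≤ t ^ 2 := pow_le_pow_left₀ (by positivity) (by linarith) 2
    nlinarith

/-- the same with the guard of the checker -/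
theorem gtest {A X Y D W G N : ℝ} {ξ P : ℂ} (hA : A = 0 ∨ A = 1) (hD : 0 ≤ D)
    (hD2 : D ^ 2 ≤ 2 ^ 41)
    (hN : (X - A * P.re) ^ 2 + (Y - A * P.im) ^ 2 = N)
    (hW : ‖(⟨X - A * P.re, Y - A * P.im⟩ : ℂ)‖ ≤ W)
    (hG : (N < D ^ 2 * A ∧ G = 2 ^ 43) ∨ (D ^ 2 * A ≤ N ∧ G = 0))
    (h : 0 ≤ 2 * (ξ.re * X + ξ.im * Y) - A * (ξ.re ^ 2 + ξ.im ^ 2) -
      ((2 * (P.re * X + P.im * Y) - A * (P.re ^ 2 + P.im ^ 2)) + 2 * D * W - D ^ 2 * A + G)) :
    2 * D * ‖(⟨X - A * ξ.re, Y - A * ξ.im⟩ : ℂ)‖ ≤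
      2 * ((ξ.re - P.re) * X + (ξ.im - P.im) * Y) +
        A * (P.re ^ 2 + P.im ^ 2 - ξ.re ^ 2 - ξ.im ^ 2 - D ^ 2) := by
  have h1 := nsq (⟨X - A * P.re, Y - A * P.im⟩ : ℂ)
  simp only [] at h1
  have n1 := norm_nonneg (⟨X - A * P.re, Y - A * P.im⟩ : ℂ)
  have hW0 : 0 ≤ W := n1.trans hW
  have hDW : 0 ≤ D * W := mul_nonneg hD hW0
  rcases hG with ⟨hG1, hG2⟩ | ⟨hG1, hG2⟩
  · exfalso
    rcases hA with hA | hA
    · subst hA
      have : 0 ≤ N := by rw [← hN]; positivity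
      linarith
    · subst hA
      nlinarith [sq_nonneg (X - ξ.re), sq_nonneg (Y - ξ.im)]
  · refine test1 hA hD (fun hA1 => ?_) ?_
    · refine abs_le_of_sq_le_sq' ?_ n1 |>.2
      rw [h1, hN]
      rw [hA1] at hG1
      linarith
    · have h2 := mul_le_mul_of_nonneg_left hW hD
      rw [hG2] at h
      linarith

theorem av2 (g : Grid) (l : ℕ) : (g.av l : ℝ) ^ 2 = g.av l := by
  rcases Grid.av01 g l with h0 | h0 <;> rw [h0] <;> norm_num

theorem av01r (g : Grid) (l : ℕ) : (g.av l : ℝ) = 0 ∨ (g.av l : ℝ) = 1 := by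
  rcases Grid.av01 g l with h0 | h0 <;> rw [h0] <;> norm_num

theorem qn_eq {g : Grid} {l : ℕ} {b : Bool}
    (hb : ((|g.vx l| : ℤ) : ℝ) * 1024 = (PB b).re * (g.vx l : ℝ)) :
    (g.qn l : ℝ) = 2 * ((PB b).re * g.vx l + (PB b).im * g.vy l) -
      g.av l * ((PB b).re ^ 2 + (PB b).im ^ 2) := by
  rw [PB_re_sq, PB_im]
  unfold Grid.qn
  push_cast at hb ⊢
  linarith

theorem qf_eq {g : Grid} {l : ℕ} {b : Bool}
    (hb : ((|g.vx l| : ℤ) : ℝ) * 1024 = (PB b).re * (g.vx l : ℝ)) :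
    (g.qf l : ℝ) = 2 * ((PB (!b)).re * g.vx l + (PB (!b)).im * g.vy l) -
      g.av l * ((PB (!b)).re ^ 2 + (PB (!b)).im ^ 2) := by
  rw [PB_re_sq, PB_im, PB_not]
  unfold Grid.qf
  push_cast at hb ⊢
  linarith

theorem D_eq {g : Grid} {l : ℕ} {P : ℂ} {Q D : ℝ}
    (hQ : Q = 2 * (P.re * g.vx l + P.im * g.vy l) - g.av l * (P.re ^ 2 + P.im ^ 2))
    (hD : D = (g.nn l : ℝ) - g.av l * Q) :
    ((g.vx l : ℝ) - g.av l * P.re) ^ 2 + ((g.vy l : ℝ) - g.av l * P.im) ^ 2 = D := by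
  have e : (g.nn l : ℝ) = (g.vx l : ℝ) ^ 2 + (g.vy l : ℝ) ^ 2 := by
    unfold Grid.nn; push_cast; ring
  rw [hD, hQ, e]
  ring

theorem cq_eq {g : Grid} {l : ℕ} {c : Corner} :
    (g.cq c l : ℝ) = 2 * ((cpt c).re * g.vx l + (cpt c).im * g.vy l) -
      g.av l * ((cpt c).re ^ 2 + (cpt c).im ^ 2) := by
  unfold Grid.cq cpt; push_cast; ring

theorem dn_eq {g : Grid} {l : ℕ} {b : Bool}
    (hb : ((|g.vx l| : ℤ) : ℝ) * 1024 = (PB b).re * (g.vx l : ℝ)) :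
    ((g.vx l : ℝ) - g.av l * (PB b).re) ^ 2 + ((g.vy l : ℝ) - g.av l * (PB b).im) ^ 2 =
      (g.dn l : ℝ) :=
  D_eq (qn_eq hb) (by unfold Grid.dn; push_cast; ring)

theorem df_eq {g : Grid} {l : ℕ} {b : Bool}
    (hb : ((|g.vx l| : ℤ) : ℝ) * 1024 = (PB b).re * (g.vx l : ℝ)) :
    ((g.vx l : ℝ) - g.av l * (PB (!b)).re) ^ 2 + ((g.vy l : ℝ) - g.av l * (PB (!b)).im) ^ 2 =
      (g.df l : ℝ) :=
  D_eq (qf_eq hb) (by unfold Grid.df; push_cast; ring)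

theorem cd_eq {g : Grid} {l : ℕ} {c : Corner} :
    ((g.vx l : ℝ) - g.av l * (cpt c).re) ^ 2 + ((g.vy l : ℝ) - g.av l * (cpt c).im) ^ 2 =
      (g.cd c l : ℝ) :=
  D_eq cq_eq (by unfold Grid.cd; push_cast; ring)

theorem wn_ge {g : Grid} {l : ℕ} {b : Bool}
    (hb : ((|g.vx l| : ℤ) : ℝ) * 1024 = (PB b).re * (g.vx l : ℝ)) :
    ‖(⟨g.vx l - g.av l * (PB b).re, g.vy l - g.av l * (PB b).im⟩ : ℂ)‖ ≤ (g.wn l : ℝ) :=
  norm_le_sqrt (z := ⟨g.vx l - g.av l * (PB b).re, g.vy l - g.av l * (PB b).im⟩) (dn_eq hb)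

theorem wf_ge {g : Grid} {l : ℕ} {b : Bool}
    (hb : ((|g.vx l| : ℤ) : ℝ) * 1024 = (PB b).re * (g.vx l : ℝ)) :
    ‖(⟨g.vx l - g.av l * (PB (!b)).re, g.vy l - g.av l * (PB (!b)).im⟩ : ℂ)‖ ≤ (g.wf l : ℝ) :=
  norm_le_sqrt (z := ⟨g.vx l - g.av l * (PB (!b)).re, g.vy l - g.av l * (PB (!b)).im⟩) (df_eq hb)

theorem cw_ge {g : Grid} {l : ℕ} {c : Corner} :
    ‖(⟨g.vx l - g.av l * (cpt c).re, g.vy l - g.av l * (cpt c).im⟩ : ℂ)‖ ≤ (g.cw c l : ℝ) :=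
  norm_le_sqrt (z := ⟨g.vx l - g.av l * (cpt c).re, g.vy l - g.av l * (cpt c).im⟩) cd_eq

theorem gf_eq (g : Grid) (l : ℕ) : ∃ G : ℝ,
    (((g.df l : ℝ) < 2048 ^ 2 * g.av l ∧ G = 2 ^ 43) ∨
      (2048 ^ 2 * (g.av l : ℝ) ≤ (g.df l : ℝ) ∧ G = 0)) ∧
    (g.gf l : ℝ) = g.qf l + 2 * 2048 * g.wf l - 2048 ^ 2 * g.av l + G := by
  by_cases h : g.df l < 2 ^ 22 * g.av l
  · refine ⟨2 ^ 43, Or.inl ⟨?_, rfl⟩, ?_⟩
    · have : (g.df l : ℝ) < 2 ^ 22 * g.av l := by exact_mod_cast h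
      linarith
    · unfold Grid.gf; rw [if_pos h]; push_cast; ring
  · refine ⟨0, Or.inr ⟨?_, rfl⟩, ?_⟩
    · have : (2 : ℝ) ^ 22 * g.av l ≤ (g.df l : ℝ) := by exact_mod_cast not_lt.1 h
      linarith
    · unfold Grid.gf; rw [if_neg h]; push_cast; ring

theorem cg_eq (g : Grid) (c : Corner) (l : ℕ) : ∃ G : ℝ,
    (((g.cd c l : ℝ) < (c.d : ℝ) ^ 2 * g.av l ∧ G = 2 ^ 43) ∨
      ((c.d : ℝ) ^ 2 * (g.av l : ℝ) ≤ (g.cd c l : ℝ) ∧ G = 0)) ∧
    (g.cg c l : ℝ) = g.cq c l + 2 * c.d * g.cw c l - (c.d : ℝ) ^ 2 * g.av l + G := by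
  by_cases h : g.cd c l < (c.d : ℤ) ^ 2 * g.av l
  · refine ⟨2 ^ 43, Or.inl ⟨?_, rfl⟩, ?_⟩
    · exact_mod_cast h
    · unfold Grid.cg; rw [if_pos h]; push_cast; ring
  · refine ⟨0, Or.inr ⟨?_, rfl⟩, ?_⟩
    · exact_mod_cast not_lt.1 h
    · unfold Grid.cg; rw [if_neg h]; push_cast; ring

/-- the point of a lane -/
noncomputable def lpt (g : Grid) (l : ℕ) : ℂ := ⟨g.vx l, g.vy l⟩

theorem lpt_sub {g : Grid} {l : ℕ} (h : g.av l = 1) (p : ℂ) :
    ‖lpt g l - p‖ = ‖(⟨g.vx l - g.av l * p.re, g.vy l - g.av l * p.im⟩ : ℂ)‖ := by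
  congr 1
  rw [h]
  apply Complex.ext <;> simp [lpt]

theorem ip_eq (g : Grid) (v l : ℕ) :
    (g.ip v l : ℝ) = (lpt g v).re * g.vx l + (lpt g v).im * g.vy l := by
  unfold Grid.ip lpt; push_cast; ring

theorem nn_eq (g : Grid) (v : ℕ) :
    (g.nn v : ℝ) = (lpt g v).re ^ 2 + (lpt g v).im ^ 2 := by
  unfold Grid.nn lpt; push_cast; ring

theorem d_ge {c : Corner} (hc : Grid.COK c) : ‖cpt c - PB true‖ ≤ c.d := by
  refine abs_le_of_sq_le_sq' ?_ (Nat.cast_nonneg _) |>.2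
  rw [nsq]
  have h3 : ((c.qx : ℤ) ^ 2 + (c.qy : ℤ) ^ 2 + 1048576 : ℝ) ≤
      (c.d : ℤ) ^ 2 + 2048 * (c.qx : ℤ) := by exact_mod_cast hc.2.2.2.2.1
  push_cast at h3
  simp [cpt, PB]
  nlinarith

/-- product tests: `|y - P| + D ≤ |y - ξ|` at a lane -/
theorem dtest {A X Y D W W' Q : ℝ} {ξ P : ℂ} (hA : 0 ≤ A) (hD : 0 ≤ D)
    (hW : ‖(⟨X - A * P.re, Y - A * P.im⟩ : ℂ)‖ ≤ W) (hW' : D ≤ W')
    (hQ : Q ≤ ξ.re ^ 2 + ξ.im ^ 2 - D ^ 2)
    (h : 0 ≤ (2 * (P.re * X + P.im * Y) - A * (P.re ^ 2 + P.im ^ 2)) + A * Q -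
      2 * (ξ.re * X + ξ.im * Y) - 2 * W' * W) :
    2 * D * ‖(⟨X - A * P.re, Y - A * P.im⟩ : ℂ)‖ ≤
      2 * ((P.re - ξ.re) * X + (P.im - ξ.im) * Y) +
        A * (ξ.re ^ 2 + ξ.im ^ 2 - P.re ^ 2 - P.im ^ 2 - D ^ 2) := by
  have n1 := norm_nonneg (⟨X - A * P.re, Y - A * P.im⟩ : ℂ)
  have h1 := mul_le_mul_of_nonneg_left hQ hA
  have h2 : D * ‖(⟨X - A * P.re, Y - A * P.im⟩ : ℂ)‖ ≤ W' * W :=
    mul_le_mul hW' hW n1 (hD.trans hW')
  linarith

end GeoL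

open GeoL

theorem confl_false {g : Grid} (hg : g.OK) {L : List Corner} (hL : ∀ c ∈ L, Grid.COK c)
    {q : ℂ} {x : Fin 6 → ℂ} (h : OC q x) (hq : q ∈ convexHull ℝ {z | ∃ c ∈ L, z = cpt c})
    {i j : Fin 6} (hij : i ≠ j) {v u : ℕ} (hv : g.isFin v) (hu : g.isCell u)
    (hi : g.InCell v (x i)) (hj : g.InCell u (x j))
    (hc : (∀ i j, g.P1 (g.vert v i) (g.vert u j)) ∨ (∀ i j, g.P2 L (g.vert v i) (g.vert u j)) ∨
    (∀ i j, g.P3 (g.vert v i) (g.vert u j)) ∨ (∀ i j, g.P4 L (g.vert v i) (g.vert u j)) ∨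
    (∀ i j, g.P5 L (g.vert v i) (g.vert u j)) ∨ (∀ i j, g.P6 (g.vert v i) (g.vert u j))) :
    False := by
  obtain ⟨w, hw, hA, hX, hY⟩ := hi
  obtain ⟨w', hw', hA', hX', hY'⟩ := hj
  have hvc : g.isCell v := ⟨hv.1, by have := hv.2; omega⟩
  have hav : ∀ a, g.av (g.vert v a) = 1 := hg.fin_av hv
  have hw1 : ∑ a, w a = 1 := by
    rw [← hA]
    exact Finset.sum_congr rfl fun a _ => by rw [hav a]; simp
  obtain ⟨b, hb⟩ := near_side hg hvc
  obtain ⟨b', hb'⟩ := near_side hg hu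
  -- convex sets: from the vertices of `v` to `x i`
  have hcx : ∀ {S : Set ℂ}, Convex ℝ S → (∀ a, lpt g (g.vert v a) ∈ S) → x i ∈ S :=
    fun hS hS2 => conv4 hS hw hw1 hX hY hS2
  have hqx : ∀ {S : Set ℂ}, Convex ℝ S → (∀ c ∈ L, cpt c ∈ S) → q ∈ S := by
    intro S hS hS2
    refine convexHull_min ?_ hS hq
    rintro z ⟨c, hcL, rfl⟩
    exact hS2 c hcL
  have ball : ∀ {z y p : ℂ} {D : ℝ}, z ∈ Metric.closedBall y (‖y - p‖ - D) ↔
      ‖y - z‖ + D ≤ ‖y - p‖ := by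
    intro z y p D
    rw [Metric.mem_closedBall, dist_eq_norm, norm_sub_rev]
    constructor <;> intro h <;> linarith
  rcases hc with hc | hc | hc | hc | hc | hc
  · -- P1
    have h1 : ∀ a, ‖x j - lpt g (g.vert v a)‖ + 2048 ≤ ‖x j - PB (!b')‖ := by
      intro a
      refine hull (by norm_num) hw' hA' hX' hY' (fun m => ?_)
      obtain ⟨G, hG1, hG2⟩ := gf_eq g (g.vert u m)
      have h0 := hc a m
      unfold Grid.P1 at h0
      have h0' : (0 : ℝ) ≤ 2 * g.ip (g.vert v a) (g.vert u m) -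
        g.av (g.vert u m) * g.nn (g.vert v a) - g.gf (g.vert u m) := by exact_mod_cast h0
      refine gtest (av01r g _) (by norm_num) (by norm_num) (df_eq (hb' m)) (wf_ge (hb' m)) hG1 ?_
      rw [hG2, qf_eq (hb' m), ip_eq, nn_eq] at h0'
      linarith
    have h2 := hcx (convex_closedBall (x j) (‖x j - PB (!b')‖ - 2048)) (fun a => ball.2 (h1 a))
    rw [ball] at h2
    linarith [h.c1 j i (!b') hij.symm]
  · -- P2
    have h1 : ∀ c ∈ L, ∀ a, ‖x j - lpt g (g.vert v a)‖ + (c.d : ℝ) ≤ ‖x j - cpt c‖ := by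
      intro c hcL a
      refine hull (Nat.cast_nonneg _) hw' hA' hX' hY' (fun m => ?_)
      obtain ⟨G, hG1, hG2⟩ := cg_eq g c (g.vert u m)
      have h0 := hc a m
      unfold Grid.P2 at h0
      have hle := Grid.le_gm (g := g) hcL (g.vert u m)
      have h0' : (0 : ℝ) ≤ 2 * g.ip (g.vert v a) (g.vert u m) -
        g.av (g.vert u m) * g.nn (g.vert v a) - g.cg c (g.vert u m) := by
        have : 0 ≤ 2 * g.ip (g.vert v a) (g.vert u m) -
          g.av (g.vert u m) * g.nn (g.vert v a) - g.cg c (g.vert u m) := by linarith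
        exact_mod_cast this
      have hd : (c.d : ℝ) ≤ 2 ^ 16 := by exact_mod_cast (hL c hcL).2.2.1
      have hd0 : (0 : ℝ) ≤ c.d := Nat.cast_nonneg _
      refine gtest (av01r g _) hd0 (by nlinarith) cd_eq cw_ge hG1 ?_
      rw [hG2, cq_eq, ip_eq, nn_eq] at h0'
      linarith
    have h2 : ∀ c ∈ L, ‖cpt c - PB true‖ + ‖x j - x i‖ ≤ ‖cpt c - x j‖ := by
      intro c hcL
      have h2 := hcx (convex_closedBall (x j) (‖x j - cpt c‖ - c.d)) (fun a => ball.2 (h1 c hcL a))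
      rw [ball] at h2
      have h3 := d_ge (hL c hcL)
      rw [norm_sub_rev (cpt c) (x j)]
      linarith
    have h3 := hqx (convex_hyp (x j) (PB true) (norm_nonneg (x j - x i))) h2
    simp only [Set.mem_ofPred_eq] at h3
    rw [norm_sub_rev q (x j)] at h3
    linarith [h.c2 j i hij.symm]
  · -- P3
    have hav' : ∀ m, g.av (g.vert u m) = 1 := fun m => (hc 0 m).1
    have hw1' : ∑ m, w' m = 1 := by
      rw [← hA']
      exact Finset.sum_congr rfl fun m _ => by rw [hav' m]; simp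
    have h1 : ∀ m, ‖x i - lpt g (g.vert u m)‖ + 2048 ≤ ‖x i - PB (!b)‖ := by
      intro m
      refine hull (by norm_num) hw hA hX hY (fun a => ?_)
      obtain ⟨G, hG1, hG2⟩ := gf_eq g (g.vert v a)
      have h0 := (hc a m).2
      have h0' : (0 : ℝ) ≤ 2 * g.ip (g.vert v a) (g.vert u m) - g.nn (g.vert u m) -
        g.gf (g.vert v a) := by exact_mod_cast h0
      refine gtest (av01r g _) (by norm_num) (by norm_num) (df_eq (hb a)) (wf_ge (hb a)) hG1 ?_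
      have e : (g.ip (g.vert v a) (g.vert u m) : ℝ) = (lpt g (g.vert u m)).re * g.vx (g.vert v a) +
          (lpt g (g.vert u m)).im * g.vy (g.vert v a) := by
        unfold Grid.ip lpt; push_cast; ring
      rw [hG2, qf_eq (hb a), e, nn_eq] at h0'
      have e2 : (g.av (g.vert v a) : ℝ) = 1 := by rw [hav a]; norm_num
      rw [e2] at h0' ⊢
      linarith
    have h2 : x j ∈ Metric.closedBall (x i) (‖x i - PB (!b)‖ - 2048) :=
      conv4 (convex_closedBall _ _) hw' hw1' hX' hY' (fun m => ball.2 (h1 m))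
    rw [ball] at h2
    linarith [h.c1 i j (!b) hij]
  · -- P4
    have h1 : ∀ c ∈ L, ∀ a, ‖x j - PB b'‖ + ‖lpt g (g.vert v a) - cpt c‖ ≤
        ‖x j - lpt g (g.vert v a)‖ := by
      intro c hcL a
      refine hull (norm_nonneg _) hw' hA' hX' hY' (fun m => ?_)
      have h0 := hc a m
      unfold Grid.P4 at h0
      have h0' : (0 : ℝ) ≤ g.qn (g.vert u m) + g.av (g.vert u m) * g.qm L (g.vert v a) -
        2 * g.ip (g.vert v a) (g.vert u m) - 2 * g.wm L (g.vert v a) * g.wn (g.vert u m) := by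
        exact_mod_cast h0
      rw [qn_eq (hb' m), ip_eq] at h0'
      have hA0 : (0 : ℝ) ≤ g.av (g.vert u m) := by
        rcases av01r g (g.vert u m) with e | e <;> rw [e]; norm_num
      refine dtest hA0 (norm_nonneg _) (wn_ge (hb' m)) (W' := g.wm L (g.vert v a))
        (Q := g.qm L (g.vert v a)) ?_ ?_ h0'
      · rw [lpt_sub (hav a)]
        refine cw_ge.trans ?_
        exact_mod_cast Grid.le_wm hcL _
      · have e : ((g.qm L (g.vert v a) : ℤ) : ℝ) ≤ g.cq c (g.vert v a) := by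
          exact_mod_cast Grid.qm_le hcL _
        refine e.trans (le_of_eq ?_)
        rw [cq_eq, nsq, hav a]
        simp [lpt]
        ring
    have h2 : ∀ c ∈ L, ‖x i - cpt c‖ + ‖x j - PB b'‖ ≤ ‖x i - x j‖ := by
      intro c hcL
      refine hcx (convex_hyp (x j) (cpt c) (norm_nonneg (x j - PB b'))) (fun a => ?_)
      have := h1 c hcL a
      simp only [Set.mem_ofPred_eq]
      rw [norm_sub_rev (lpt g (g.vert v a)) (x j)]
      linarith
    have h3 := hqx (convex_closedBall (x i) (‖x i - x j‖ - ‖x j - PB b'‖))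
      (fun c hcL => ball.2 (h2 c hcL))
    rw [ball] at h3
    linarith [h.c3 i j b' hij]
  · -- P5
    have h1 : ∀ c ∈ L, ∀ a, ‖x j - cpt c‖ + ‖lpt g (g.vert v a) - PB b‖ ≤
        ‖x j - lpt g (g.vert v a)‖ := by
      intro c hcL a
      refine hull (norm_nonneg _) hw' hA' hX' hY' (fun m => ?_)
      have h0 := hc a m
      unfold Grid.P5 at h0
      have h0' : (0 : ℝ) ≤ g.qm L (g.vert u m) + g.av (g.vert u m) * g.qn (g.vert v a) -
        2 * g.ip (g.vert v a) (g.vert u m) - 2 * g.wn (g.vert v a) * g.wm L (g.vert u m) := by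
        exact_mod_cast h0
      have hA0 : (0 : ℝ) ≤ g.av (g.vert u m) := by
        rcases av01r g (g.vert u m) with e | e <;> rw [e]; norm_num
      have hqm : ((g.qm L (g.vert u m) : ℤ) : ℝ) ≤ g.cq c (g.vert u m) := by
        exact_mod_cast Grid.qm_le hcL _
      rw [cq_eq] at hqm
      rw [ip_eq] at h0'
      refine dtest hA0 (norm_nonneg _) (W := g.wm L (g.vert u m)) (W' := g.wn (g.vert v a))
        (Q := g.qn (g.vert v a)) ?_ ?_ ?_ (by linarith)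
      · refine cw_ge.trans ?_
        exact_mod_cast Grid.le_wm hcL _
      · rw [lpt_sub (hav a)]
        exact wn_ge (hb a)
      · rw [qn_eq (hb a), nsq, hav a]
        refine le_of_eq ?_
        simp [lpt]
        ring
    have h2 : ∀ c ∈ L, ‖x j - cpt c‖ + ‖x i - PB b‖ ≤ ‖x j - x i‖ := by
      intro c hcL
      have h3 := hcx (convex_hyp (x j) (PB b) (norm_nonneg (x j - cpt c))) (fun a => by
        have := h1 c hcL a
        simp only [Set.mem_ofPred_eq]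
        rw [norm_sub_rev (lpt g (g.vert v a)) (x j)]
        linarith)
      simp only [Set.mem_ofPred_eq] at h3
      rw [norm_sub_rev (x j) (x i)]
      linarith
    have h3 := hqx (convex_closedBall (x j) (‖x j - x i‖ - ‖x i - PB b‖))
      (fun c hcL => ball.2 (h2 c hcL))
    rw [ball] at h3
    linarith [h.c3 j i b hij.symm]
  · -- P6
    have h1 : ∀ a, ‖x j - PB b'‖ + ‖lpt g (g.vert v a) - PB b‖ ≤
        ‖x j - lpt g (g.vert v a)‖ := by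
      intro a
      refine hull (norm_nonneg _) hw' hA' hX' hY' (fun m => ?_)
      have h0 := hc a m
      unfold Grid.P6 at h0
      have h0' : (0 : ℝ) ≤ g.qn (g.vert u m) + g.av (g.vert u m) * g.qn (g.vert v a) -
        2 * g.ip (g.vert v a) (g.vert u m) - 2 * g.wn (g.vert v a) * g.wn (g.vert u m) := by
        exact_mod_cast h0
      have hA0 : (0 : ℝ) ≤ g.av (g.vert u m) := by
        rcases av01r g (g.vert u m) with e | e <;> rw [e]; norm_num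
      have e1 := qn_eq (hb' m)
      rw [e1, ip_eq] at h0'
      refine dtest hA0 (norm_nonneg _) (wn_ge (hb' m)) (W' := g.wn (g.vert v a))
        (Q := g.qn (g.vert v a)) ?_ ?_ h0'
      · rw [lpt_sub (hav a)]
        exact wn_ge (hb a)
      · rw [qn_eq (hb a), nsq, hav a]
        refine le_of_eq ?_
        simp [lpt]
        ring
    have h3 := hcx (convex_hyp (x j) (PB b) (norm_nonneg (x j - PB b'))) (fun a => by
      have := h1 a
      simp only [Set.mem_ofPred_eq]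
      rw [norm_sub_rev (lpt g (g.vert v a)) (x j)]
      linarith)
    simp only [Set.mem_ofPred_eq] at h3
    linarith [h.c4 i j b b' hij]

end Pool.Agent.K9
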