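import Pool.Agent.K9.Defs

/-!
# The third point cannot be far

If the third point `q` has distance at least `9 * 2048` from `-1024`, then `q` and the six outer
points are seven points whose directions (seen from the origin) form pairwise angles with cosine
less than `21 / 34 < cos (2 π / 7)`, which is impossible.
-/

namespace Pool.Agent.K9

open Real

private theorem L7_cos {t : ℝ} (h0 : 0 ≤ t) (h1 : t ≤ 2 * π / 7) : (21 / 34 : ℝ) < cos t := by
  have hpi : π < 3.15 := pi_lt_d2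
  have hpi0 : 0 < π := pi_pos
  have e1 : 1 - (π / 14) ^ 2 / 2 ≤ cos (π / 14) := one_sub_sq_div_two_le_cos
  have e2 : cos (π / 7) = 2 * cos (π / 14) ^ 2 - 1 := by
    rw [← cos_two_mul]; congr 1; ring
  have e3 : cos (2 * π / 7) = 2 * cos (π / 7) ^ 2 - 1 := by
    rw [← cos_two_mul]; congr 1; ring
  have e4 : cos (2 * π / 7) ≤ cos t :=
    cos_le_cos_of_nonneg_of_le_pi h0 (by linarith) h1
  have e5 : (0.97468 : ℝ) ≤ cos (π / 14) := by
    have : (π / 14) ^ 2 ≤ (3.15 / 14) ^ 2 := by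
      apply pow_le_pow_left₀ (by positivity)
      linarith
    norm_num at this ⊢
    linarith
  have e6 : (0.9 : ℝ) ≤ cos (π / 7) := by
    have : (0.97468 : ℝ) ^ 2 ≤ cos (π / 14) ^ 2 := pow_le_pow_left₀ (by norm_num) e5 2
    norm_num at this ⊢
    linarith
  have e7 : (0.62 : ℝ) ≤ cos (2 * π / 7) := by
    have : (0.9 : ℝ) ^ 2 ≤ cos (π / 7) ^ 2 := pow_le_pow_left₀ (by norm_num) e6 2
    norm_num at this ⊢
    linarith
  norm_num at e7 ⊢
  linarith

/-- seven directions with large pairwise angles do not exist -/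
private theorem L7_dir (θ : Fin 7 → ℝ) (h1 : ∀ a, -π < θ a) (h2 : ∀ a, θ a ≤ π)
    (hc : ∀ a b, a ≠ b → cos (θ a - θ b) < 21 / 34) : False := by
  set σ := Tuple.sort θ with hσ
  have hm : Monotone (θ ∘ σ) := Tuple.monotone_sort θ
  have key : ∀ i j : Fin 7, i < j → 2 * π / 7 < θ (σ j) - θ (σ i) := by
    intro i j hij
    by_contra hcon
    rw [not_lt] at hcon
    have e1 : 0 ≤ θ (σ j) - θ (σ i) := sub_nonneg.2 (hm hij.le)
    have e2 := L7_cos e1 hcon
    have e3 := hc (σ j) (σ i) (fun h => hij.ne' (σ.injective h))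
    linarith
  have k0 := key 0 1 (by decide)
  have k1 := key 1 2 (by decide)
  have k2 := key 2 3 (by decide)
  have k3 := key 3 4 (by decide)
  have k4 := key 4 5 (by decide)
  have k5 := key 5 6 (by decide)
  have e1 := h1 (σ 0)
  have e2 := h2 (σ 6)
  have e3 := L7_cos (t := 2 * π - (θ (σ 6) - θ (σ 0))) (by linarith) (by linarith)
  rw [cos_two_pi_sub] at e3
  have e4 := hc (σ 6) (σ 0) (fun h => absurd (σ.injective h) (by decide))
  linarith

private theorem L7_sq (z w : ℂ) : ‖z - w‖ ^ 2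
    = ‖z‖ ^ 2 + ‖w‖ ^ 2 - 2 * (z.re * w.re + z.im * w.im) := by
  rw [Complex.sq_norm, Complex.sq_norm, Complex.sq_norm, Complex.normSq_apply,
    Complex.normSq_apply, Complex.normSq_apply]
  simp only [Complex.sub_re, Complex.sub_im]
  ring

private theorem L7_inner (z w : ℂ) :
    z.re * w.re + z.im * w.im = ‖z‖ * ‖w‖ * cos (z.arg - w.arg) := by
  rw [cos_sub]
  have e1 := Complex.norm_mul_cos_arg z
  have e2 := Complex.norm_mul_cos_arg w
  have e3 := Complex.norm_mul_sin_arg z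
  have e4 := Complex.norm_mul_sin_arg w
  rw [← e1, ← e2, ← e3, ← e4]
  ring

/-- two points: the angle is large -/
private theorem L7_pair {s t m c : ℝ} (h0 : 17408 ≤ s) (h1 : s ≤ t)
    (hm : m ^ 2 = s ^ 2 + t ^ 2 - 2 * (s * t * c)) (hlt : t < m + 2048) : c < 21 / 34 := by
  have h3 : (t - 2048) ^ 2 < m ^ 2 := pow_lt_pow_left₀ (by linarith) (by linarith) (by norm_num)
  rw [hm] at h3
  have h4 : s * s ≤ s * t := mul_le_mul_of_nonneg_left h1 (by linarith)
  have h5 : 17408 * t ≤ s * t := mul_le_mul_of_nonneg_right h0 (by linarith)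
  have hst : 0 < s * t := mul_pos (by linarith) (by linarith)
  by_contra hcon
  rw [not_lt] at hcon
  have h6 : s * t * (21 / 34) ≤ s * t * c := mul_le_mul_of_nonneg_left hcon hst.le
  nlinarith

private theorem L7_half {s m1 m2 m3 : ℝ} (h1 : m1 < m3 + 2048) (h2 : m2 < m3 + 2048)
    (hm1 : 0 ≤ m1) (hm2 : 0 ≤ m2) (h : m1 ^ 2 + m2 ^ 2 = 2 * s ^ 2 + 2 * 1024 ^ 2) :
    s < m3 + 2048 := by
  by_contra hcon
  rw [not_lt] at hcon
  have e1 : m1 ^ 2 < s ^ 2 := pow_lt_pow_left₀ (by linarith) hm1 (by norm_num)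
  have e2 : m2 ^ 2 < s ^ 2 := pow_lt_pow_left₀ (by linarith) hm2 (by norm_num)
  linarith

private theorem L7_PB (b : Bool) : ‖PB b‖ = 1024 := by
  cases b <;> simp [PB]

private theorem L7_sum (z : ℂ) :
    ‖z - PB true‖ ^ 2 + ‖z - PB false‖ ^ 2 = 2 * ‖z‖ ^ 2 + 2 * 1024 ^ 2 := by
  have e1 := L7_sq z (PB true)
  have e2 := L7_sq z (PB false)
  rw [L7_PB] at e1 e2
  rw [e1, e2]
  simp [PB]
  ring

theorem lemma7 {q : ℂ} {x : Fin 6 → ℂ} (h : OC q x) (hre : 0 ≤ q.re)
    (hq : 9 * 2048 ≤ ‖q - PB false‖) : False := by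
  -- the norms
  have hn : ∀ (z : ℂ) (b : Bool), ‖z - PB b‖ ≤ ‖z‖ + 1024 := by
    intro z b
    have := norm_sub_le z (PB b)
    rwa [L7_PB] at this
  have hqn : ‖q‖ ≤ ‖q - PB false‖ := by
    have e := L7_sq q (PB false)
    rw [L7_PB] at e
    have : (PB false).re = -1024 := by simp [PB]
    have h2 : (PB false).im = 0 := by simp [PB]
    rw [this, h2] at e
    by_contra hcon
    rw [not_le] at hcon
    have := pow_lt_pow_left₀ hcon (norm_nonneg _) (two_ne_zero)
    nlinarith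
  let y : Fin 7 → ℂ := Fin.cons q x
  have hy0 : y 0 = q := rfl
  have hys : ∀ i : Fin 6, y i.succ = x i := fun i => rfl
  have hfar : ∀ a, 17408 ≤ ‖y a‖ := by
    intro a
    refine Fin.cases ?_ (fun i => ?_) a
    · rw [hy0]
      have := hn q false
      linarith
    · rw [hys]
      have h1 := h.hV i
      have h2 := max_le (hn (x i) false) (hn (x i) true)
      linarith
  have hhalf : ∀ (z : ℂ) (d : ℝ), (∀ b, ‖z - PB b‖ < d + 2048) → ‖z‖ < d + 2048 := by
    intro z d hd
    exact L7_half (hd true) (hd false) (norm_nonneg _) (norm_nonneg _) (L7_sum z)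
  have hpath : ∀ a b, a ≠ b → ‖y a‖ < ‖y a - y b‖ + 2048 := by
    intro a b
    refine Fin.cases ?_ (fun i => ?_) a
    · refine Fin.cases (fun hab => absurd rfl hab) (fun j _ => ?_) b
      rw [hy0, hys]
      exact lt_of_le_of_lt hqn (h.u4 j)
    · refine Fin.cases (fun _ => ?_) (fun j hab => ?_) b
      · rw [hy0, hys]
        exact hhalf _ _ (fun c => h.u2 i c)
      · rw [hys, hys]
        have hij : i ≠ j := fun hh => hab (congrArg Fin.succ hh)
        exact hhalf _ _ (fun c => h.c1 i j c hij)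
  refine L7_dir (fun a => (y a).arg) (fun a => Complex.neg_pi_lt_arg _)
    (fun a => Complex.arg_le_pi _) ?_
  intro a b hab
  rcases le_total ‖y a‖ ‖y b‖ with hle | hle
  · refine L7_pair (m := ‖y a - y b‖) (hfar a) hle ?_ ?_
    · rw [L7_sq, L7_inner]
    · have := hpath b a hab.symm
      rwa [norm_sub_rev] at this
  · refine L7_pair (m := ‖y a - y b‖) (hfar b) hle ?_ (hpath a b hab)
    rw [L7_sq, L7_inner]
    ring

end Pool.Agent.K9
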