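import Pool.Agent.K9.Defs

/-!
# Six far outer points are impossible

All six outer points at distance at least `13 * 2048` from the origin: two of them are nearly
opposite (three gaps), and the width of the triple of inner points gives a contradiction.
-/

namespace Pool.Agent.K9

open Real

/-- three gaps -/
private theorem LF_gap {κ θ₁ θ₂ θ₃ : ℝ} (hκ : -1 ≤ κ) (hκ' : κ ≤ 1) (h0 : 0 ≤ θ₁) (h12 : θ₁ ≤ θ₂)
    (h23 : θ₂ ≤ θ₃) (h3 : θ₃ ≤ π) (c1 : cos θ₁ < κ) (c2 : cos (θ₂ - θ₁) < κ)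
    (c3 : cos (θ₃ - θ₂) < κ) : cos θ₃ < 4 * κ ^ 3 - 3 * κ := by
  have hα : cos (arccos κ) = κ := cos_arccos hκ hκ'
  have hα0 : 0 ≤ arccos κ := arccos_nonneg κ
  have hαπ : arccos κ ≤ π := arccos_le_pi κ
  have key : ∀ θ, 0 ≤ θ → θ ≤ π → cos θ < κ → arccos κ < θ := by
    intro θ hθ0 hθ hc
    by_contra hcon
    have := cos_le_cos_of_nonneg_of_le_pi hθ0 hαπ (not_lt.1 hcon)
    rw [hα] at this
    linarith
  have k1 := key θ₁ h0 (by linarith) c1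
  have k2 := key (θ₂ - θ₁) (by linarith) (by linarith) c2
  have k3 := key (θ₃ - θ₂) (by linarith) (by linarith) c3
  have h4 : cos θ₃ < cos (3 * arccos κ) :=
    cos_lt_cos_of_nonneg_of_le_pi (by linarith) h3 (by linarith)
  rw [cos_three_mul, hα] at h4
  exact h4

/-- among three directions in a half plane with pairwise large angles one is nearly opposite -/
private theorem LF_gap3 {κ : ℝ} (hκ : -1 ≤ κ) (hκ' : κ ≤ 1) {ι : Type} (θ : ι → ℝ) (T : Finset ι)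
    (hT : 2 < T.card) (h0 : ∀ i ∈ T, 0 ≤ θ i) (hπ : ∀ i ∈ T, θ i ≤ π) (c1 : ∀ i ∈ T, cos (θ i) < κ)
    (c2 : ∀ i ∈ T, ∀ j ∈ T, i ≠ j → cos (θ i - θ j) < κ) :
    ∃ i ∈ T, cos (θ i) < 4 * κ ^ 3 - 3 * κ := by
  obtain ⟨a, ha, b, hb, c, hc, hab, hac, hbc⟩ := Finset.two_lt_card.1 hT
  have main : ∀ x ∈ T, ∀ y ∈ T, ∀ z ∈ T, x ≠ y → y ≠ z → θ x ≤ θ y → θ y ≤ θ z →
      ∃ i ∈ T, cos (θ i) < 4 * κ ^ 3 - 3 * κ := by
    intro x hx y hy z hz hxy hyz h1 h2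
    exact ⟨z, hz, LF_gap hκ hκ' (h0 x hx) h1 h2 (hπ z hz) (c1 x hx) (c2 y hy x hx hxy.symm)
      (c2 z hz y hy hyz.symm)⟩
  rcases le_total (θ a) (θ b) with h1 | h1 <;> rcases le_total (θ b) (θ c) with h2 | h2 <;>
    rcases le_total (θ a) (θ c) with h3 | h3
  · exact main a ha b hb c hc hab hbc h1 h2
  · exact main a ha b hb c hc hab hbc h1 h2
  · exact main a ha c hc b hb hac hbc.symm h3 h2
  · exact main c hc a ha b hb hac.symm hab h3 h1
  · exact main b hb a ha c hc hab.symm hac h1 h3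
  · exact main b hb c hc a ha hbc hac.symm h2 h3
  · exact main c hc b hb a ha hbc.symm hab.symm h2 h1
  · exact main c hc b hb a ha hbc.symm hab.symm h2 h1

private theorem LF_sq (z w : ℂ) : ‖z - w‖ ^ 2
    = ‖z‖ ^ 2 + ‖w‖ ^ 2 - 2 * (z.re * w.re + z.im * w.im) := by
  rw [Complex.sq_norm, Complex.sq_norm, Complex.sq_norm, Complex.normSq_apply,
    Complex.normSq_apply, Complex.normSq_apply]
  simp only [Complex.sub_re, Complex.sub_im]
  ring

private theorem LF_norm (z : ℂ) : ‖z‖ ^ 2 = z.re ^ 2 + z.im ^ 2 := by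
  rw [Complex.sq_norm, Complex.normSq_apply]; ring

/-- upper bound of the distance by the linear part -/
private theorem LF_lin {s a b p q δ : ℝ} {z k : ℂ} (hz1 : z.re = s * a) (hz2 : z.im = s * b)
    (hab : a ^ 2 + b ^ 2 = 1) (hk1 : k.re = p) (hk2 : k.im = q)
    (h0 : 0 ≤ s - (p * a + q * b) + δ)
    (h : p ^ 2 + q ^ 2 ≤ (p * a + q * b) ^ 2 + 2 * δ * (s - (p * a + q * b))) :
    ‖z - k‖ ≤ s - (p * a + q * b) + δ := by
  by_contra hcon
  rw [not_le] at hcon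
  have h1 : ‖z - k‖ ^ 2 = (s * a - p) ^ 2 + (s * b - q) ^ 2 := by
    rw [LF_norm]; simp only [Complex.sub_re, Complex.sub_im, hz1, hz2, hk1, hk2]
  have h2 : (s - (p * a + q * b) + δ) ^ 2 < ‖z - k‖ ^ 2 := by
    apply pow_lt_pow_left₀ hcon h0 (by norm_num)
  rw [h1] at h2
  have h3 : (s * a - p) ^ 2 + (s * b - q) ^ 2
      = s ^ 2 * (a ^ 2 + b ^ 2) - 2 * s * (p * a + q * b) + p ^ 2 + q ^ 2 := by ring
  rw [h3, hab] at h2
  nlinarith [sq_nonneg δ]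

private theorem LF_b {a b : ℝ} (hab : a ^ 2 + b ^ 2 = 1) (h1 : -(7 / 10) < a) (h2 : a < 7 / 10)
    (hb : 0 < b) : 7 / 10 ≤ b := by
  by_contra h
  rw [not_le] at h
  have e1 : b ^ 2 < 49 / 100 := by nlinarith
  have e2 : a ^ 2 < 49 / 100 := by nlinarith
  linarith

private theorem LF_e1 {a b p q : ℝ} (hab : a ^ 2 + b ^ 2 = 1) (hb : 7 / 10 ≤ b) (ha : 0 ≤ a)
    (hp0 : 0 ≤ p) (hq0 : 1728 / 2048 ≤ q) : 73 / 100 ≤ (p + 1 / 2) * a + q * b := by
  have h5 : 1 ≤ a + b := by nlinarith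
  have h6 : 0 ≤ p * a := mul_nonneg hp0 ha
  have h7 : 27 / 32 * b ≤ q * b := by nlinarith
  nlinarith

private theorem LF_e2 {a b p q : ℝ} (hab : a ^ 2 + b ^ 2 = 1) (hb : 7 / 10 ≤ b) (ha : a ≤ 0)
    (hA : -(7 / 10) < a) (hp1 : p ≤ 576 / 2048) (hq0 : 1728 / 2048 ≤ q) :
    73 / 100 ≤ (1 / 2 - p) * (-a) + q * b := by
  have h6 : 7 / 32 * (-a) ≤ (1 / 2 - p) * (-a) := by nlinarith
  have h7 : 27 / 32 * b ≤ q * b := by nlinarith
  have h8 : 1 + 43 / 100 * a ≤ b := by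
    by_contra hcon
    rw [not_le] at hcon
    have h9 : b ^ 2 < (1 + 43 / 100 * a) ^ 2 := pow_lt_pow_left₀ hcon (by linarith) (by norm_num)
    nlinarith
  linarith

private theorem LF_q2 {p q : ℝ} (hp0 : 0 ≤ p) (hp1 : p ≤ 576 / 2048)
    (hq0 : 1728 / 2048 ≤ q) (hq1 : q ≤ 2240 / 2048) : p ^ 2 + q ^ 2 ≤ (113 / 100) ^ 2 := by
  have h1 : p ^ 2 ≤ (576 / 2048) ^ 2 := pow_le_pow_left₀ hp0 hp1 2
  have h2 : q ^ 2 ≤ (2240 / 2048) ^ 2 := pow_le_pow_left₀ (by linarith) hq1 2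
  norm_num at h1 h2 ⊢
  linarith

private theorem LF_qa {a b p q : ℝ} (hab : a ^ 2 + b ^ 2 = 1)
    (h2 : p ^ 2 + q ^ 2 ≤ (113 / 100) ^ 2) : p * a + q * b ≤ 113 / 100 := by
  have h1 : (p * a + q * b) ^ 2 ≤ (p ^ 2 + q ^ 2) * (a ^ 2 + b ^ 2) := by
    nlinarith [sq_nonneg (p * b - q * a)]
  rw [hab, mul_one] at h1
  exact (abs_le.1 (abs_le_of_sq_le_sq (h1.trans h2) (by norm_num))).2

private theorem LF_unit {a b : ℝ} (hab : a ^ 2 + b ^ 2 = 1) : -1 ≤ a ∧ a ≤ 1 :=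
  abs_le.1 (abs_le_of_sq_le_sq (by nlinarith [sq_nonneg b]) (by norm_num))

private theorem LF_P {s a b : ℝ} {x : ℂ} (hs : 13 ≤ s) (hx1 : x.re = s * a) (hx2 : x.im = s * b)
    (hab : a ^ 2 + b ^ 2 = 1) {k : ℝ} (hk : k = 1 / 2 ∨ k = -1 / 2) :
    ‖x - (k : ℂ)‖ ≤ s - k * a + 1 / 100 := by
  have ha := LF_unit hab
  have := LF_lin (z := x) (k := (k : ℂ)) (p := k) (q := 0) (δ := 1 / 100) hx1 hx2 hab
    (Complex.ofReal_re k) (Complex.ofReal_im k)
    (by rcases hk with rfl | rfl <;> linarith [ha.1, ha.2])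
    (by rcases hk with rfl | rfl <;> nlinarith [ha.1, ha.2, sq_nonneg a])
  simpa using this

private theorem LF_Q {s a b p q : ℝ} {x k0 : ℂ} (hs : 13 ≤ s) (hx1 : x.re = s * a)
    (hx2 : x.im = s * b) (hab : a ^ 2 + b ^ 2 = 1) (hk1 : k0.re = p) (hk2 : k0.im = q)
    (h2 : p ^ 2 + q ^ 2 ≤ (113 / 100) ^ 2) : ‖x - k0‖ ≤ s - (p * a + q * b) + 55 / 1000 := by
  have hqa := LF_qa hab h2
  refine LF_lin (δ := 55 / 1000) hx1 hx2 hab hk1 hk2 (by linarith) ?_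
  have h3 := sq_nonneg (p * a + q * b)
  linarith

/-- the width argument -/
private theorem LF_width {s s' a b a' b' p q : ℝ} {x x' k0 : ℂ} (hs : 13 ≤ s) (hs' : 13 ≤ s')
    (hx1 : x.re = s * a) (hx2 : x.im = s * b) (hx1' : x'.re = s' * a') (hx2' : x'.im = s' * b')
    (hab : a ^ 2 + b ^ 2 = 1) (hab' : a' ^ 2 + b' ^ 2 = 1)
    (heps : (a + a') ^ 2 + (b + b') ^ 2 ≤ 3 / 40)
    (hk1 : k0.re = p) (hk2 : k0.im = q) (hp0 : 0 ≤ p) (hp1 : p ≤ 576 / 2048)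
    (hq0 : 1728 / 2048 ≤ q) (hq1 : q ≤ 2240 / 2048)
    (hside : 0 < b ∨ 7 / 10 ≤ |a|)
    (h4 : ∀ k k' : ℝ, (k = 1 / 2 ∨ k = -1 / 2) → (k' = 1 / 2 ∨ k' = -1 / 2) →
      ‖x - x'‖ < ‖x - (k : ℂ)‖ + ‖x' - (k' : ℂ)‖)
    (h3 : ∀ k : ℝ, (k = 1 / 2 ∨ k = -1 / 2) → ‖x - x'‖ < ‖x - k0‖ + ‖x' - (k : ℂ)‖) :
    ‖x - x'‖ < s + s' - 1 / 2 := by
  have heps' : -(274 / 1000) ≤ a + a' ∧ a + a' ≤ 274 / 1000 :=
    abs_le.1 (abs_le_of_sq_le_sq (by
      have := sq_nonneg (b + b')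
      norm_num at heps ⊢
      linarith) (by norm_num))
  obtain ⟨he1, he2⟩ := heps'
  by_cases hA : 7 / 10 ≤ |a|
  · rcases le_abs.1 hA with h | h
    · have e1 := LF_P hs hx1 hx2 hab (k := 1 / 2) (Or.inl rfl)
      have e2 := LF_P hs' hx1' hx2' hab' (k := -1 / 2) (Or.inr rfl)
      have e3 := h4 (1 / 2) (-1 / 2) (Or.inl rfl) (Or.inr rfl)
      linarith
    · have e1 := LF_P hs hx1 hx2 hab (k := -1 / 2) (Or.inr rfl)
      have e2 := LF_P hs' hx1' hx2' hab' (k := 1 / 2) (Or.inl rfl)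
      have e3 := h4 (-1 / 2) (1 / 2) (Or.inr rfl) (Or.inl rfl)
      linarith
  · have hb : 0 < b := hside.resolve_right hA
    rw [not_le, abs_lt] at hA
    have hb2 : 7 / 10 ≤ b := LF_b hab hA.1 hA.2 hb
    have hQ := LF_Q (k0 := k0) hs hx1 hx2 hab hk1 hk2 (LF_q2 hp0 hp1 hq0 hq1)
    rcases le_total 0 a with ha | ha
    · have e2 := LF_P hs' hx1' hx2' hab' (k := -1 / 2) (Or.inr rfl)
      have e3 := h3 (-1 / 2) (Or.inr rfl)
      have e4 := LF_e1 hab hb2 ha hp0 hq0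
      linarith
    · have e2 := LF_P hs' hx1' hx2' hab' (k := 1 / 2) (Or.inl rfl)
      have e3 := h3 (1 / 2) (Or.inl rfl)
      have e4 := LF_e2 hab hb2 ha hA.1 hp1 hq0
      linarith

private theorem LF_pair {s1 si sj d m : ℝ} (h0 : 13 ≤ s1) (h1 : s1 ≤ si) (h2 : si ≤ sj)
    (hm : m ^ 2 = si ^ 2 + sj ^ 2 - 2 * d) (hlt : sj < m + 1) :
    d < (1 / 2 + 1 / s1) * si * sj := by
  have h3 : (sj - 1) ^ 2 < m ^ 2 := pow_lt_pow_left₀ (by linarith) (by linarith) (by norm_num)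
  have h4 : si * si ≤ si * sj := mul_le_mul_of_nonneg_left h2 (by linarith)
  have h5 : sj ≤ 1 / s1 * si * sj := by
    have h6 : 1 ≤ 1 / s1 * si := by
      rw [one_div, inv_mul_eq_div, le_div_iff₀ (by linarith)]; linarith
    nlinarith
  nlinarith

private theorem LF_final {s1 sc d m : ℝ} (h0 : 13 ≤ s1) (h1 : s1 ≤ sc)
    (hm : m ^ 2 = s1 ^ 2 + sc ^ 2 - 2 * d) (hm0 : 0 ≤ m) (hlt : m < s1 + sc - 1 / 2)
    (hd : d < (-1 + 6 * (1 / s1) ^ 2 + 4 * (1 / s1) ^ 3) * s1 * sc) : False := by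
  have h3 : m ^ 2 < (s1 + sc - 1 / 2) ^ 2 := pow_lt_pow_left₀ hlt hm0 (by norm_num)
  have hs1 : s1 ≠ 0 := by linarith
  have h4 : (-1 + 6 * (1 / s1) ^ 2 + 4 * (1 / s1) ^ 3) * s1 * sc
      = -(s1 * sc) + (6 * (1 / s1) + 4 * (1 / s1) ^ 2) * sc := by
    field_simp
    ring
  rw [h4] at hd
  have h5 : 1 / s1 ≤ 1 / 13 := one_div_le_one_div_of_le (by norm_num) h0
  have h6 : 0 ≤ 1 / s1 := by positivity
  have h7 : (1 / s1) ^ 2 ≤ (1 / 13) ^ 2 := pow_le_pow_left₀ h6 h5 2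
  have h8 : (6 * (1 / s1) + 4 * (1 / s1) ^ 2) * sc ≤ (6 * (1 / 13) + 4 * (1 / 13) ^ 2) * sc :=
    mul_le_mul_of_nonneg_right (by linarith) (by linarith)
  nlinarith

private theorem LF_half {s s' m1 m2 m3 : ℝ} (h1 : m1 < m3 + 1) (h2 : m2 < m3 + 1)
    (hm1 : 0 ≤ m1) (hm2 : 0 ≤ m2) (h : m1 ^ 2 + m2 ^ 2 = 2 * s ^ 2 + s') (hs' : 0 ≤ s') :
    s < m3 + 1 := by
  by_contra hcon
  rw [not_lt] at hcon
  have e1 : m1 ^ 2 < s ^ 2 := pow_lt_pow_left₀ (by linarith) hm1 (by norm_num)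
  have e2 : m2 ^ 2 < s ^ 2 := pow_lt_pow_left₀ (by linarith) hm2 (by norm_num)
  linarith

theorem lemmaF {q : ℂ} {x : Fin 6 → ℂ} (h : OC q x) (h1 : 0 ≤ q.re) (h2 : q.re ≤ 576)
    (h3 : 1728 ≤ q.im) (h4 : q.im ≤ 2240) (hfar : ∀ i, 13 * 2048 ≤ ‖x i‖) : False := by
  -- rescaling
  obtain ⟨y, hy⟩ : ∃ y : Fin 6 → ℂ, ∀ i, x i = 2048 * y i :=
    ⟨fun i => x i / 2048, fun i => by field_simp⟩
  obtain ⟨k0, hk0⟩ : ∃ k0 : ℂ, q = 2048 * k0 := ⟨q / 2048, by field_simp⟩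
  have hn : ∀ z : ℂ, ‖2048 * z‖ = 2048 * ‖z‖ := by
    intro z; rw [norm_mul]; norm_num
  have hk0re : k0.re = q.re / 2048 := by
    rw [hk0]
    have : (2048 * k0).re = 2048 * k0.re := by simp
    rw [this]; ring
  have hk0im : k0.im = q.im / 2048 := by
    rw [hk0]
    have : (2048 * k0).im = 2048 * k0.im := by simp
    rw [this]; ring
  have hs : ∀ i, 13 ≤ ‖y i‖ := by
    intro i
    have := hfar i
    rw [hy, hn] at this
    linarith
  have hPB : ∀ b, PB b = 2048 * (((if b then (1 / 2 : ℝ) else (-1 / 2 : ℝ)) : ℝ) : ℂ) := by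
    intro b; cases b <;> simp [PB] <;> norm_num
  have hc1 : ∀ i j, i ≠ j → ∀ b : Bool,
      ‖y i - (((if b then (1 / 2 : ℝ) else (-1 / 2 : ℝ)) : ℝ) : ℂ)‖ < ‖y i - y j‖ + 1 := by
    intro i j hij b
    have := h.c1 i j b hij
    rw [hy, hy, hPB, ← mul_sub, ← mul_sub, hn, hn] at this
    linarith
  have hF1 : ∀ i j, i ≠ j → ‖y i‖ < ‖y i - y j‖ + 1 := by
    intro i j hij
    have e1 := hc1 i j hij true
    have e2 := hc1 i j hij false
    have e3 := LF_sq (y i) (((if true then (1 / 2 : ℝ) else (-1 / 2 : ℝ)) : ℝ) : ℂ)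
    have e4 := LF_sq (y i) (((if false then (1 / 2 : ℝ) else (-1 / 2 : ℝ)) : ℝ) : ℂ)
    refine LF_half e1 e2 (norm_nonneg _) (norm_nonneg _) (s' := 1 / 2) ?_
      (by norm_num)
    rw [e3, e4]
    simp only [if_true, Bool.false_eq_true, if_false, Complex.norm_real, Complex.ofReal_re,
      Complex.ofReal_im]
    norm_num
    ring
  have hk : ∀ k : ℝ, (k = 1 / 2 ∨ k = -1 / 2) → ∃ b : Bool, k = if b then (1 / 2 : ℝ) else (-1 / 2) := by
    rintro k (rfl | rfl)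
    · exact ⟨true, by simp⟩
    · exact ⟨false, by simp⟩
  have hF4 : ∀ i j, i ≠ j → ∀ k k' : ℝ, (k = 1 / 2 ∨ k = -1 / 2) → (k' = 1 / 2 ∨ k' = -1 / 2) →
      ‖y i - y j‖ < ‖y i - (k : ℂ)‖ + ‖y j - (k' : ℂ)‖ := by
    intro i j hij k k' hk1 hk2
    obtain ⟨b, rfl⟩ := hk k hk1
    obtain ⟨c, rfl⟩ := hk k' hk2
    have := h.c4 i j b c hij
    rw [hy, hy, hPB, hPB, ← mul_sub, ← mul_sub, ← mul_sub, hn, hn, hn] at this
    linarith
  have hF3 : ∀ i j, i ≠ j → ∀ k : ℝ, (k = 1 / 2 ∨ k = -1 / 2) →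
      ‖y i - y j‖ < ‖y i - k0‖ + ‖y j - (k : ℂ)‖ := by
    intro i j hij k hk1
    obtain ⟨b, rfl⟩ := hk k hk1
    have := h.c3 i j b hij
    rw [hy, hy, hPB, hk0, ← mul_sub, ← mul_sub, ← mul_sub, hn, hn, hn] at this
    linarith
  clear hc1 hPB h
  -- the outer point of least norm
  obtain ⟨i0, -, hi0⟩ := Finset.exists_min_image (Finset.univ : Finset (Fin 6)) (fun i => ‖y i‖)
    ⟨0, Finset.mem_univ _⟩
  have hmin : ∀ i, ‖y i0‖ ≤ ‖y i‖ := fun i => hi0 i (Finset.mem_univ i)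
  set s1 := ‖y i0‖ with hs1
  have hs1p : 13 ≤ s1 := hs i0
  obtain ⟨κ, hκ⟩ : ∃ κ : ℝ, κ = 1 / 2 + 1 / s1 := ⟨_, rfl⟩
  have ht : 1 / s1 ≤ 1 / 13 := one_div_le_one_div_of_le (by norm_num) hs1p
  have ht0 : 0 ≤ 1 / s1 := by positivity
  have hdot : ∀ i j, i ≠ j →
      (y i).re * (y j).re + (y i).im * (y j).im < κ * ‖y i‖ * ‖y j‖ := by
    intro i j hij
    rw [hκ]
    rcases le_total ‖y i‖ ‖y j‖ with hle | hle
    · refine LF_pair hs1p (hmin i) hle (m := ‖y i - y j‖) ?_ ?_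
      · rw [LF_sq]
      · rw [norm_sub_rev]; exact hF1 j i hij.symm
    · have := LF_pair hs1p (hmin j) hle (m := ‖y i - y j‖)
        (d := (y i).re * (y j).re + (y i).im * (y j).im) (by rw [LF_sq]; ring) (hF1 i j hij)
      linarith
  -- the angles
  have hy0 : y i0 ≠ 0 := by
    intro h0
    rw [hs1, h0, norm_zero] at hs1p
    linarith
  have hyi : ∀ i, y i ≠ 0 := by
    intro i h0
    have := hs i
    rw [h0, norm_zero] at this
    linarith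
  set u : Fin 6 → ℂ := fun i => y i / y i0 with hu
  have hui : ∀ i, u i ≠ 0 := fun i => div_ne_zero (hyi i) hy0
  have hun : ∀ i, ‖u i‖ = ‖y i‖ / s1 := fun i => by rw [hu]; simp only [norm_div]; rw [hs1]
  have hnsq : Complex.normSq (y i0) = s1 ^ 2 := by rw [hs1, Complex.sq_norm]
  have hure : ∀ i, (u i).re = ((y i).re * (y i0).re + (y i).im * (y i0).im) / s1 ^ 2 := by
    intro i
    rw [hu]; simp only [Complex.div_re, hnsq]; ring
  have huim : ∀ i, (u i).im = ((y i).im * (y i0).re - (y i).re * (y i0).im) / s1 ^ 2 := by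
    intro i
    rw [hu]; simp only [Complex.div_im, hnsq]; ring
  have hs1z : s1 ≠ 0 := by linarith
  have hcos : ∀ i, cos (Complex.arg (u i))
      = ((y i).re * (y i0).re + (y i).im * (y i0).im) / (‖y i‖ * s1) := by
    intro i
    rw [Complex.cos_arg (hui i), hun, hure]
    have : ‖y i‖ ≠ 0 := norm_ne_zero_iff.2 (hyi i)
    field_simp
  have hs1sq : (y i0).re ^ 2 + (y i0).im ^ 2 = s1 ^ 2 := by rw [hs1, LF_norm]
  have hcos2 : ∀ i j, cos (Complex.arg (u i) - Complex.arg (u j))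
      = ((y i).re * (y j).re + (y i).im * (y j).im) / (‖y i‖ * ‖y j‖) := by
    intro i j
    rw [cos_sub, Complex.cos_arg (hui i), Complex.cos_arg (hui j), Complex.sin_arg,
      Complex.sin_arg, hun, hun, hure, hure, huim, huim]
    have e1 : ‖y i‖ ≠ 0 := norm_ne_zero_iff.2 (hyi i)
    have e2 : ‖y j‖ ≠ 0 := norm_ne_zero_iff.2 (hyi j)
    field_simp
    rw [← hs1sq]
    ring
  have hκ0 : -1 ≤ κ := by rw [hκ]; linarith
  have hκ1 : κ ≤ 1 := by rw [hκ]; linarith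
  have hc2 : ∀ i j, i ≠ j → cos (Complex.arg (u i) - Complex.arg (u j)) < κ := by
    intro i j hij
    rw [hcos2, div_lt_iff₀ (mul_pos (by linarith [hs i]) (by linarith [hs j]))]
    have := hdot i j hij
    linarith
  have hc1 : ∀ i, i ≠ i0 → cos (Complex.arg (u i)) < κ := by
    intro i hi
    rw [hcos, div_lt_iff₀ (mul_pos (by linarith [hs i]) (by linarith))]
    have := hdot i i0 hi
    linarith
  -- a nearly opposite point
  obtain ⟨c, hc0, hcc⟩ : ∃ c, c ≠ i0 ∧ cos (Complex.arg (u c)) < 4 * κ ^ 3 - 3 * κ := by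
    have hcard : ((Finset.univ.erase i0).filter (fun i => 0 ≤ Complex.arg (u i))).card
        + ((Finset.univ.erase i0).filter (fun i => ¬ 0 ≤ Complex.arg (u i))).card = 5 := by
      rw [Finset.card_filter_add_card_filter_not, Finset.card_erase_of_mem (Finset.mem_univ _)]
      simp
    by_cases hbig : 2 < ((Finset.univ.erase i0).filter (fun i => 0 ≤ Complex.arg (u i))).card
    · obtain ⟨c, hc, hcc⟩ := LF_gap3 hκ0 hκ1 (fun i => Complex.arg (u i)) _ hbig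
        (fun i hi => (Finset.mem_filter.1 hi).2) (fun i _ => Complex.arg_le_pi _)
        (fun i hi => hc1 i (Finset.ne_of_mem_erase (Finset.mem_filter.1 hi).1))
        (fun i _ j _ hij => hc2 i j hij)
      exact ⟨c, Finset.ne_of_mem_erase (Finset.mem_filter.1 hc).1, hcc⟩
    · have hbig' : 2 < ((Finset.univ.erase i0).filter
          (fun i => ¬ 0 ≤ Complex.arg (u i))).card := by omega
      obtain ⟨c, hc, hcc⟩ := LF_gap3 hκ0 hκ1 (fun i => -Complex.arg (u i)) _ hbig'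
        (fun i hi => by have := (Finset.mem_filter.1 hi).2; linarith)
        (fun i _ => by have := Complex.neg_pi_lt_arg (u i); linarith)
        (fun i hi => by
          rw [cos_neg]
          exact hc1 i (Finset.ne_of_mem_erase (Finset.mem_filter.1 hi).1))
        (fun i _ j _ hij => by
          have e : -Complex.arg (u i) - -Complex.arg (u j)
            = -(Complex.arg (u i) - Complex.arg (u j)) := by ring
          rw [e, cos_neg]
          exact hc2 i j hij)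
      refine ⟨c, Finset.ne_of_mem_erase (Finset.mem_filter.1 hc).1, ?_⟩
      rw [cos_neg] at hcc
      exact hcc
  rw [hcos] at hcc
  have hcubic : 4 * κ ^ 3 - 3 * κ = -1 + 6 * (1 / s1) ^ 2 + 4 * (1 / s1) ^ 3 := by rw [hκ]; ring
  rw [hcubic] at hcc
  set sc := ‖y c‖ with hsc
  have hscp : 13 ≤ sc := hs c
  have hsc1 : s1 ≤ sc := hmin c
  have hscz : sc ≠ 0 := by linarith
  -- coordinates
  obtain ⟨a, ha⟩ : ∃ a, (y i0).re = s1 * a := ⟨(y i0).re / s1, by field_simp⟩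
  obtain ⟨b, hb⟩ : ∃ b, (y i0).im = s1 * b := ⟨(y i0).im / s1, by field_simp⟩
  obtain ⟨a', ha'⟩ : ∃ a, (y c).re = sc * a := ⟨(y c).re / sc, by field_simp⟩
  obtain ⟨b', hb'⟩ : ∃ b, (y c).im = sc * b := ⟨(y c).im / sc, by field_simp⟩
  have hab : a ^ 2 + b ^ 2 = 1 := by
    rw [ha, hb] at hs1sq
    have : s1 ^ 2 * (a ^ 2 + b ^ 2) = s1 ^ 2 * 1 := by linarith
    exact mul_left_cancel₀ (pow_ne_zero 2 hs1z) this
  have hab' : a' ^ 2 + b' ^ 2 = 1 := by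
    have e := LF_norm (y c)
    rw [ha', hb', ← hsc] at e
    have : sc ^ 2 * (a' ^ 2 + b' ^ 2) = sc ^ 2 * 1 := by linarith
    exact mul_left_cancel₀ (pow_ne_zero 2 hscz) this
  have hC : ((y c).re * (y i0).re + (y c).im * (y i0).im) / (sc * s1) = a * a' + b * b' := by
    rw [ha, hb, ha', hb']; field_simp
  have hcc' := hcc
  rw [hC] at hcc
  have ht2 : (1 / s1) ^ 2 ≤ 1 / 169 := (pow_le_pow_left₀ ht0 ht 2).trans (by norm_num)
  have ht3 : (1 / s1) ^ 3 ≤ 1 / 2197 := (pow_le_pow_left₀ ht0 ht 3).trans (by norm_num)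
  have heps : (a + a') ^ 2 + (b + b') ^ 2 ≤ 3 / 40 := by
    have e : (a + a') ^ 2 + (b + b') ^ 2
        = (a ^ 2 + b ^ 2) + (a' ^ 2 + b' ^ 2) + 2 * (a * a' + b * b') := by ring
    rw [e, hab, hab']
    linarith
  have hp0 : 0 ≤ k0.re := by rw [hk0re]; positivity
  have hp1 : k0.re ≤ 576 / 2048 := by rw [hk0re]; linarith
  have hq0 : 1728 / 2048 ≤ k0.im := by rw [hk0im]; linarith
  have hq1 : k0.im ≤ 2240 / 2048 := by rw [hk0im]; linarith
  have hlast : ‖y i0 - y c‖ < s1 + sc - 1 / 2 := by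
    by_cases hside : 0 < b ∨ 7 / 10 ≤ |a|
    · exact LF_width hs1p hscp ha hb ha' hb' hab hab' heps rfl rfl hp0 hp1 hq0 hq1 hside
        (hF4 i0 c hc0.symm) (hF3 i0 c hc0.symm)
    · push Not at hside
      obtain ⟨hb0, ha0⟩ := hside
      have hb7 : 7 / 10 ≤ -b := by
        by_contra hcon
        rw [not_le] at hcon
        have e1 : a ^ 2 < (7 / 10) ^ 2 := by
          rw [← sq_abs]; exact pow_lt_pow_left₀ ha0 (abs_nonneg _) (by norm_num)
        have e2 : (-b) ^ 2 < (7 / 10) ^ 2 := pow_lt_pow_left₀ hcon (by linarith) (by norm_num)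
        norm_num at e1 e2
        linarith
      have hb'0 : 0 < b' := by
        by_contra hcon
        rw [not_lt] at hcon
        nlinarith [sq_nonneg (a + a')]
      have := LF_width hscp hs1p ha' hb' ha hb hab' hab (by linarith) rfl rfl hp0 hp1 hq0 hq1
        (Or.inl hb'0) (hF4 c i0 hc0) (hF3 c i0 hc0)
      rw [norm_sub_rev]
      linarith
  refine LF_final hs1p hsc1 (m := ‖y i0 - y c‖)
    (d := (y i0).re * (y c).re + (y i0).im * (y c).im) (by rw [LF_sq]) (norm_nonneg _) hlast ?_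
  rw [div_lt_iff₀ (mul_pos (by linarith) (by linarith))] at hcc'
  linarith

end Pool.Agent.K9
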