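import Mathlib
import Pool.Agent.K9.Pack
import Pool.Agent.K9.Bnd

/-! # K9: meaning of the rows computed by the checker -/

namespace Pool.Agent.K9

/-! ## Angular rows -/

theorem row_shift_testBit (V s i : ℕ) :
    (Nat.shiftLeft V s).testBit i = (decide (s ≤ i) && V.testBit (i - s)) := by
  show (V <<< s).testBit i = _
  rw [Nat.testBit_shiftLeft]

theorem row_shr_testBit (V s i : ℕ) :
    (Nat.shiftRight V s).testBit i = V.testBit (s + i) := by
  show (V >>> s).testBit i = _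
  rw [Nat.testBit_shiftRight]

/-- bits of the angular row of ring `k`, sector 0 -/
theorem row_ang0 {OK M k i : ℕ} (A : List (ℕ × ℕ))
    (h : (List.rec (motive := fun _ => Nat) 0
      (fun p _ r => Nat.rec (motive := fun _ => Nat)
        (Nat.lor r (Nat.shiftLeft (Nat.shiftLeft (Nat.shiftRight OK (Nat.mul 48 p.2))
          (Nat.mul 48 p.2)) (Nat.mul (Nat.mul 48 M) p.1)))
        (fun _ _ => r) (Nat.sub p.2 k)) A : ℕ).testBit i = true) :
    ∃ p ∈ A, p.2 ≤ k ∧ 48 * M * p.1 + 48 * p.2 ≤ i ∧ OK.testBit (i - 48 * M * p.1) = true := by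
  induction A with
  | nil =>
    have h' : (0 : ℕ).testBit i = true := h
    simp at h'
  | cons p A ih =>
    by_cases hp : p.2 ≤ k
    · have h0 : Nat.sub p.2 k = 0 := Nat.sub_eq_zero_of_le hp
      simp only [h0] at h
      have h1 := h
      change (Nat.lor _ _).testBit i = true at h1
      have h2 : ∀ a b : ℕ, (Nat.lor a b).testBit i = (a.testBit i || b.testBit i) := fun a b =>
        Nat.testBit_or a b i
      rw [h2, Bool.or_eq_true] at h1
      rcases h1 with h1 | h1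
      · obtain ⟨q, hq, r⟩ := ih h1
        exact ⟨q, List.mem_cons_of_mem _ hq, r⟩
      · rw [row_shift_testBit, Bool.and_eq_true, decide_eq_true_iff, row_shift_testBit,
          Bool.and_eq_true, decide_eq_true_iff, row_shr_testBit] at h1
        obtain ⟨a1, a2, a3⟩ := h1
        have e1 : Nat.mul (Nat.mul 48 M) p.1 = 48 * M * p.1 := rfl
        have e2 : Nat.mul 48 p.2 = 48 * p.2 := rfl
        rw [e1] at a1 a2 a3
        rw [e2] at a2 a3
        refine ⟨p, List.mem_cons_self, hp, by omega, ?_⟩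
        rw [show 48 * p.2 + (i - 48 * M * p.1 - 48 * p.2) = i - 48 * M * p.1 by omega] at a3
        exact a3
    · obtain ⟨m, hm⟩ : ∃ m, Nat.sub p.2 k = m + 1 :=
        ⟨Nat.sub p.2 k - 1, by have : Nat.sub p.2 k = p.2 - k := rfl; omega⟩
      simp only [hm] at h
      obtain ⟨q, hq, r⟩ := ih h
      exact ⟨q, List.mem_cons_of_mem _ hq, r⟩

theorem angRow_spec {g : Grid} (hg : g.OK) {G : GEnv} (hG : g.GRep G) {v u : ℕ}
    (hv : g.isCell v) (hu : g.isCell u) (h : (angRow G v).testBit (48 * u) = true) :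
    g.Ang v u := by
  have hM := hg.Mpos
  have hM' : g.M = g.T.length + 1 := rfl
  obtain ⟨hv1, hv2⟩ := hv
  obtain ⟨hu1, hu2⟩ := hu
  set Y : ℕ := Nat.shiftLeft (ang0 G (Nat.mod v G.M)) (Nat.mul (Nat.mul 48 G.M) (Nat.div v G.M))
    with hY
  have key : ∀ i, Y.testBit i = true → ∃ p ∈ g.ang, p.2 ≤ v % g.M ∧ ∃ k < g.T.length, p.2 ≤ k ∧
      i = 48 * (g.M * (v / g.M + p.1) + k) := by
    intro i hi
    rw [hY, row_shift_testBit, Bool.and_eq_true, decide_eq_true_iff] at hi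
    obtain ⟨h1, h2⟩ := hi
    have h3 := row_ang0 G.ang h2
    rw [hG.hang] at h3
    obtain ⟨p, hp, h4, h5, h6⟩ := h3
    obtain ⟨k, hk, h7⟩ := (hG.ok _).1 h6
    have e1 : Nat.mul (Nat.mul 48 G.M) (Nat.div v G.M) = 48 * g.M * (v / g.M) := by
      rw [hG.hM]; rfl
    have e2 : Nat.mod v G.M = v % g.M := by rw [hG.hM]; rfl
    rw [e1] at h1 h5 h7
    rw [e2] at h4
    rw [hG.hM] at h5 h7
    refine ⟨p, hp, h4, k, hk, ?_, ?_⟩
    · omega
    · have e3 : 48 * (g.M * (v / g.M + p.1) + k) =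
          48 * g.M * (v / g.M) + (48 * g.M * p.1 + 48 * k) := by ring
      rw [e3]
      omega
  have hrow : angRow G v = Nat.lor (Nat.mod Y (Nat.shiftLeft 1 G.R)) (Nat.shiftRight Y G.R) := rfl
  have h2 : ∀ a b i : ℕ, (Nat.lor a b).testBit i = (a.testBit i || b.testBit i) := fun a b i =>
    Nat.testBit_or a b i
  rw [hrow, h2, Bool.or_eq_true] at h
  have fin : ∀ {a k c : ℕ}, k < g.T.length → g.M * a + k = u → a = c → u / g.M = c ∧ u % g.M = k := by
    intro a k c hk he hc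
    have hk' : k < g.M := by omega
    refine ⟨?_, ?_⟩
    · rw [← he, Nat.mul_add_div hM, Nat.div_eq_of_lt hk', hc, add_zero]
    · rw [← he, Nat.mul_add_mod, Nat.mod_eq_of_lt hk']
  rcases h with h | h
  · have h3 : Nat.mod Y (Nat.shiftLeft 1 G.R) = Y % 2 ^ G.R := by
      show Y % (1 <<< G.R) = _
      rw [Nat.one_shiftLeft]
    rw [h3, Nat.testBit_mod_two_pow, Bool.and_eq_true, decide_eq_true_iff] at h
    obtain ⟨h4, h5⟩ := h
    obtain ⟨p, hp, h6, k, hk, h7, h8⟩ := key _ h5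
    rw [hG.hR] at h4
    have h9 : g.M * (v / g.M + p.1) + k = u := by omega
    have h10 : v / g.M + p.1 < g.J := by
      by_contra hcon
      push Not at hcon
      have h11 : g.M * g.J ≤ g.M * (v / g.M + p.1) := Nat.mul_le_mul_left _ hcon
      have h12 : 48 * g.M * g.J = 48 * (g.M * g.J) := by ring
      omega
    obtain ⟨r1, r2⟩ := fin hk h9 rfl
    exact ⟨p, hp, h6, by rw [r2]; exact h7, by rw [r1, Nat.mod_eq_of_lt h10]⟩
  · rw [row_shr_testBit] at h
    obtain ⟨p, hp, h6, k, hk, h7, h8⟩ := key _ h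
    have hpJ : p.1 < g.J := (hg.ang p hp).1
    rw [hG.hR] at h8
    have h12 : 48 * g.M * g.J = 48 * (g.M * g.J) := by ring
    have h10 : g.J ≤ v / g.M + p.1 := by
      by_contra hcon
      push Not at hcon
      have h11 : g.M * (v / g.M + p.1 + 1) ≤ g.M * g.J := Nat.mul_le_mul_left _ hcon
      have h13 : g.M * (v / g.M + p.1 + 1) = g.M * (v / g.M + p.1) + g.M := by ring
      omega
    obtain ⟨c, hc⟩ := Nat.exists_eq_add_of_le h10
    have h14 : g.M * (v / g.M + p.1) = g.M * g.J + g.M * c := by rw [hc]; ring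
    have h9 : g.M * c + k = u := by omega
    obtain ⟨r1, r2⟩ := fin hk h9 rfl
    refine ⟨p, hp, h6, by rw [r2]; exact h7, ?_⟩
    rw [r1, hc, Nat.add_mod_left, Nat.mod_eq_of_lt (by omega)]

/-! ## Lane vectors of a vertex -/

section lanes

variable {g : Grid} {L : List Corner} {vlo2 : ℕ} {e : BEnv}

theorem row_px (hg : g.OK) (he : g.BRep L vlo2 e) {v : ℕ} (hv : v < g.n) :
    ((lane e.G.PX v : ℕ) : ℤ) = g.vx v + 2 ^ 18 := by
  refine he.grep.px.lane (fun l hl => ?_) hv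
  have h := (hg.vxy_bound hl).1
  rw [abs_lt] at h
  constructor <;> linarith [h.1, h.2]

theorem row_py (hg : g.OK) (he : g.BRep L vlo2 e) {v : ℕ} (hv : v < g.n) :
    ((lane e.G.PY v : ℕ) : ℤ) = g.vy v + 2 ^ 18 := by
  refine he.grep.py.lane (fun l hl => ?_) hv
  have h := (hg.vxy_bound hl).2
  rw [abs_lt] at h
  constructor <;> linarith [h.1, h.2]

theorem row_nn (hg : g.OK) (he : g.BRep L vlo2 e) {v : ℕ} (hv : v < g.n) :
    ((lane e.G.NN v : ℕ) : ℤ) = g.nn v := by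
  refine he.grep.nn.lane (fun l hl => ?_) hv
  obtain ⟨-, -, -, h1, h2, -⟩ := hg.bounds hl
  constructor <;> linarith

theorem row_gf (hg : g.OK) (he : g.BRep L vlo2 e) {v : ℕ} (hv : v < g.n) :
    ((lane e.G.GF v : ℕ) : ℤ) = 2 ^ 44 + g.gf v := by
  refine he.grep.gf.lane (fun l hl => ?_) hv
  obtain ⟨-, -, -, -, -, -, -, -, -, -, -, -, -, h⟩ := hg.bounds hl
  rw [abs_lt] at h
  constructor <;> linarith [h.1, h.2]

theorem row_qn (hg : g.OK) (he : g.BRep L vlo2 e) {v : ℕ} (hv : v < g.n) :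
    ((lane e.G.QN v : ℕ) : ℤ) = 2 ^ 44 + g.qn v := by
  refine he.grep.qn.lane (fun l hl => ?_) hv
  obtain ⟨-, -, -, -, -, -, -, -, -, -, -, -, h, -⟩ := hg.bounds hl
  rw [abs_lt] at h
  constructor <;> linarith [h.1, h.2]

theorem row_wn (hg : g.OK) (he : g.BRep L vlo2 e) {v : ℕ} (hv : v < g.n) :
    ((lane e.G.WN v : ℕ) : ℤ) = g.wn v := by
  refine he.grep.wn.lane (fun l hl => ?_) hv
  obtain ⟨-, -, -, -, -, -, -, -, h1, h2, h3, -⟩ := hg.bounds hl
  constructor <;> linarith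

theorem row_qm (hg : g.OK) (hL : ∀ c ∈ L, Grid.COK c) (he : g.BRep L vlo2 e) {v : ℕ}
    (hv : v < g.n) : ((lane e.QM v : ℕ) : ℤ) = 2 ^ 44 + g.qm L v := by
  refine he.qm.lane (fun l hl => ?_) hv
  obtain ⟨h1, h2, -⟩ := hg.mbounds hL hl
  constructor <;> linarith

theorem row_wm (hg : g.OK) (hL : ∀ c ∈ L, Grid.COK c) (he : g.BRep L vlo2 e) {v : ℕ}
    (hv : v < g.n) : ((lane e.WM v : ℕ) : ℤ) = g.wm L v := by
  refine he.wm.lane (fun l hl => ?_) hv
  obtain ⟨-, -, h1, h2, -⟩ := hg.mbounds hL hl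
  constructor <;> linarith

theorem row_vS (hg : g.OK) (he : g.BRep L vlo2 e) {v : ℕ} (hv : v < g.n) :
    ((vS e v : ℕ) : ℤ) = 2 ^ 19 * (g.vx v + g.vy v) + 2 ^ 38 := by
  have h : vS e v = 524288 * (lane e.G.PX v + lane e.G.PY v) := rfl
  rw [h]
  push_cast
  rw [row_px hg he hv, row_py hg he hv]
  ring

theorem row_vSF (hg : g.OK) (he : g.BRep L vlo2 e) {v : ℕ} (hv : v < g.n) :
    ((vSF e v : ℕ) : ℤ) = 2 ^ 38 - 2 ^ 19 * (g.vx v + g.vy v) := by
  have h : vSF e v = 524288 * (1048576 - (lane e.G.PX v + lane e.G.PY v)) := rfl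
  have hx := row_px hg he hv
  have hy := row_py hg he hv
  obtain ⟨b1, b2⟩ := hg.vxy_bound hv
  rw [abs_lt] at b1 b2
  have hle : lane e.G.PX v + lane e.G.PY v ≤ 1048576 := by
    have : ((lane e.G.PX v : ℕ) : ℤ) + ((lane e.G.PY v : ℕ) : ℤ) ≤ 1048576 := by
      rw [hx, hy]; linarith [b1.2, b2.2]
    exact_mod_cast this
  rw [h, Nat.cast_mul, Nat.cast_sub hle]
  push_cast
  rw [hx, hy]
  ring

theorem row_vE (hg : g.OK) (he : g.BRep L vlo2 e) {v : ℕ} (hv : v < g.n) :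
    Rep g.n (vE e v) (fun l => 2 * g.ip v l +
      2 ^ 19 * (g.vx v + g.vy v + g.vx l + g.vy l) + 2 ^ 38) := by
  have h1 := he.grep.px.smul (Nat.mul 2 (lane e.G.PX v))
  have h2 := he.grep.py.smul (Nat.mul 2 (lane e.G.PY v))
  refine (h1.add h2).congr (fun l _ => ?_)
  have e1 : ((Nat.mul 2 (lane e.G.PX v) : ℕ) : ℤ) = 2 * (g.vx v + 2 ^ 18) := by
    show ((2 * lane e.G.PX v : ℕ) : ℤ) = _
    push_cast; rw [row_px hg he hv]; ring
  have e2 : ((Nat.mul 2 (lane e.G.PY v) : ℕ) : ℤ) = 2 * (g.vy v + 2 ^ 18) := by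
    show ((2 * lane e.G.PY v : ℕ) : ℤ) = _
    push_cast; rw [row_py hg he hv]; ring
  simp only [e1, e2]
  unfold Grid.ip
  ring

theorem row_vF (hg : g.OK) (he : g.BRep L vlo2 e) {v : ℕ} (hv : v < g.n) :
    Rep g.n (vF e v) (fun l => -2 * g.ip v l +
      2 ^ 19 * (-g.vx v - g.vy v + g.vx l + g.vy l) + 2 ^ 38) := by
  have h1 := he.grep.px.smul (Nat.mul 2 (Nat.sub 524288 (lane e.G.PX v)))
  have h2 := he.grep.py.smul (Nat.mul 2 (Nat.sub 524288 (lane e.G.PY v)))
  refine (h1.add h2).congr (fun l _ => ?_)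
  have hx := row_px hg he hv
  have hy := row_py hg he hv
  obtain ⟨b1, b2⟩ := hg.vxy_bound hv
  rw [abs_lt] at b1 b2
  have hlx : lane e.G.PX v ≤ 524288 := by
    have : ((lane e.G.PX v : ℕ) : ℤ) ≤ 524288 := by rw [hx]; linarith [b1.2]
    exact_mod_cast this
  have hly : lane e.G.PY v ≤ 524288 := by
    have : ((lane e.G.PY v : ℕ) : ℤ) ≤ 524288 := by rw [hy]; linarith [b2.2]
    exact_mod_cast this
  have e1 : ((Nat.mul 2 (Nat.sub 524288 (lane e.G.PX v)) : ℕ) : ℤ) = 2 * (2 ^ 18 - g.vx v) := by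
    show ((2 * (524288 - lane e.G.PX v) : ℕ) : ℤ) = _
    rw [Nat.cast_mul, Nat.cast_sub hlx]
    push_cast; rw [hx]; ring
  have e2 : ((Nat.mul 2 (Nat.sub 524288 (lane e.G.PY v)) : ℕ) : ℤ) = 2 * (2 ^ 18 - g.vy v) := by
    show ((2 * (524288 - lane e.G.PY v) : ℕ) : ℤ) = _
    rw [Nat.cast_mul, Nat.cast_sub hly]
    push_cast; rw [hy]; ring
  simp only [e1, e2]
  unfold Grid.ip
  ring

theorem row_vL (hg : g.OK) (he : g.BRep L vlo2 e) {v : ℕ} (hv : v < g.n) :
    Rep g.n (vL e v) (fun l => g.nn v * g.av l + (2 ^ 19 * (g.vx v + g.vy v) + 2 ^ 38)) := by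
  have h1 := he.grep.av.smul (lane e.G.NN v)
  have h2 := he.grep.one.smul (vS e v)
  refine (h1.add h2).congr (fun l _ => ?_)
  simp only [row_nn hg he hv, row_vS hg he hv]
  ring

/-! ## The six tests -/

theorem row_T1 (hg : g.OK) (he : g.BRep L vlo2 e) {v l : ℕ} (hv : v < g.n) (hl : l < g.n)
    (h : (T1 e v).testBit (48 * l + 47) = true) : g.P1 v l := by
  have B : ∀ l < g.n, 0 ≤ 2 ^ 47 + (2 * g.ip v l - g.av l * g.nn v - g.gf l) ∧
      2 ^ 47 + (2 * g.ip v l - g.av l * g.nn v - g.gf l) < 2 ^ 48 := by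
    intro l hl
    have h1 := hg.ip_bound hv hl
    obtain ⟨-, -, -, n1, n2, -⟩ := hg.bounds hv
    obtain ⟨a1, -, -, -, -, -, -, -, -, -, -, -, -, g1⟩ := hg.bounds hl
    rw [abs_lt] at h1 g1
    rcases a1 with a1 | a1 <;> rw [a1] <;> constructor <;> linarith [h1.1, h1.2, g1.1, g1.2]
  have R : Rep g.n (T1 e v) (fun l => 2 ^ 47 + (2 * g.ip v l - g.av l * g.nn v - g.gf l)) := by
    refine Rep.congr ((he.c1.add (row_vE hg he hv)).sub (row_vL hg he hv) (fun l hl => ?_))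
      (fun l _ => ?_)
    · have := (B l hl).1
      linarith
    · ring
  have := (R.sign B hl).1 h
  unfold Grid.P1
  linarith

theorem row_T2 (hg : g.OK) (hL : ∀ c ∈ L, Grid.COK c) (he : g.BRep L vlo2 e) {v l : ℕ}
    (hv : v < g.n) (hl : l < g.n)
    (h : (T2 e v).testBit (48 * l + 47) = true) : g.P2 L v l := by
  have B : ∀ l < g.n, 0 ≤ 2 ^ 47 + (2 * g.ip v l - g.av l * g.nn v - g.gm L l) ∧
      2 ^ 47 + (2 * g.ip v l - g.av l * g.nn v - g.gm L l) < 2 ^ 48 := by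
    intro l hl
    have h1 := hg.ip_bound hv hl
    obtain ⟨-, -, -, n1, n2, -⟩ := hg.bounds hv
    obtain ⟨a1, -⟩ := hg.bounds hl
    obtain ⟨-, -, -, -, g1, g2⟩ := hg.mbounds hL hl
    rw [abs_lt] at h1
    rcases a1 with a1 | a1 <;> rw [a1] <;> constructor <;> linarith [h1.1, h1.2]
  have R : Rep g.n (T2 e v) (fun l => 2 ^ 47 + (2 * g.ip v l - g.av l * g.nn v - g.gm L l)) := by
    refine Rep.congr ((he.c2.add (row_vE hg he hv)).sub (row_vL hg he hv) (fun l hl => ?_))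
      (fun l _ => ?_)
    · have := (B l hl).1
      linarith
    · ring
  have := (R.sign B hl).1 h
  unfold Grid.P2
  linarith

theorem row_T3 (hg : g.OK) (he : g.BRep L vlo2 e) {v l : ℕ} (hv : v < g.n) (hl : l < g.n)
    (h : (T3 e v).testBit (48 * l + 47) = true) : g.P3 v l := by
  obtain ⟨-, -, -, -, -, -, -, -, -, -, -, -, -, f1⟩ := hg.bounds hv
  rw [abs_lt] at f1
  have B : ∀ l < g.n, 0 ≤ 2 ^ 45 + (2 ^ 47 - 2 ^ 45) * g.av l + (2 * g.ip v l - g.nn l - g.gf v) ∧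
      2 ^ 45 + (2 ^ 47 - 2 ^ 45) * g.av l + (2 * g.ip v l - g.nn l - g.gf v) < 2 ^ 48 := by
    intro l hl
    have h1 := hg.ip_bound hv hl
    obtain ⟨a1, -, -, n1, n2, -⟩ := hg.bounds hl
    rw [abs_lt] at h1
    rcases a1 with a1 | a1 <;> rw [a1] <;> constructor <;> linarith [h1.1, h1.2, f1.1, f1.2]
  have e1 : ((Nat.add (lane e.G.GF v) (vS e v) : ℕ) : ℤ) =
      2 ^ 44 + g.gf v + (2 ^ 19 * (g.vx v + g.vy v) + 2 ^ 38) := by
    show ((lane e.G.GF v + vS e v : ℕ) : ℤ) = _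
    push_cast
    rw [row_gf hg he hv, row_vS hg he hv]
    ring
  have R : Rep g.n (T3 e v) (fun l => 2 ^ 45 + (2 ^ 47 - 2 ^ 45) * g.av l +
      (2 * g.ip v l - g.nn l - g.gf v)) := by
    refine Rep.congr ((he.c3.add (row_vE hg he hv)).sub
      (he.grep.one.smul (Nat.add (lane e.G.GF v) (vS e v))) (fun l hl => ?_)) (fun l _ => ?_)
    · have := (B l hl).1
      rw [e1]
      linarith
    · rw [e1]
      ring
  have h2 := (R.sign B hl).1 h
  have h1 := hg.ip_bound hv hl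
  obtain ⟨a1, -, -, n1, n2, -⟩ := hg.bounds hl
  rw [abs_lt] at h1
  rcases a1 with a1 | a1
  · rw [a1] at h2
    exfalso
    linarith [h1.1, h1.2, f1.1, f1.2]
  · refine ⟨a1, ?_⟩
    rw [a1] at h2
    linarith

theorem row_T4 (hg : g.OK) (hL : ∀ c ∈ L, Grid.COK c) (he : g.BRep L vlo2 e) {v l : ℕ}
    (hv : v < g.n) (hl : l < g.n)
    (h : (T4 e v).testBit (48 * l + 47) = true) : g.P4 L v l := by
  obtain ⟨q1, q2, w1, w2, -, -⟩ := hg.mbounds hL hv
  have B : ∀ l < g.n, 0 ≤ 2 ^ 47 + (g.qn l + g.av l * g.qm L v - 2 * g.ip v l -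
        2 * g.wm L v * g.wn l) ∧
      2 ^ 47 + (g.qn l + g.av l * g.qm L v - 2 * g.ip v l - 2 * g.wm L v * g.wn l) < 2 ^ 48 := by
    intro l hl
    have h1 := hg.ip_bound hv hl
    obtain ⟨a1, -, -, -, -, -, -, -, x1, x2, x3, -, x4, -⟩ := hg.bounds hl
    rw [abs_lt] at h1 x4
    have p1 : 0 ≤ g.wm L v * g.wn l := mul_nonneg w1 (by linarith)
    have p2 : g.wm L v * g.wn l ≤ 2 ^ 20 * 2 ^ 20 :=
      mul_le_mul w2.le (by linarith) (by linarith) (by norm_num)
    rw [mul_assoc 2 (g.wm L v)]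
    rcases a1 with a1 | a1 <;> rw [a1] <;> constructor <;> linarith [h1.1, h1.2, x4.1, x4.2]
  have e1 : ((Nat.mul 2 (lane e.WM v) : ℕ) : ℤ) = 2 * g.wm L v := by
    show ((2 * lane e.WM v : ℕ) : ℤ) = _
    push_cast; rw [row_wm hg hL he hv]
  have e2 := row_qm hg hL he hv
  have e3 := row_vSF hg he hv
  have R : Rep g.n (T4 e v) (fun l => 2 ^ 47 + (g.qn l + g.av l * g.qm L v - 2 * g.ip v l -
      2 * g.wm L v * g.wn l)) := by
    refine Rep.congr ((((he.c4.add (row_vF hg he hv)).add (he.grep.av.smul (lane e.QM v))).sub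
      ((he.grep.wn.smul (Nat.mul 2 (lane e.WM v))).add (he.grep.one.smul (vSF e v))))
      (fun l hl => ?_)) (fun l _ => ?_)
    · have := (B l hl).1
      rw [e1, e2, e3]
      linarith
    · rw [e1, e2, e3]
      ring
  have := (R.sign B hl).1 h
  unfold Grid.P4
  linarith

theorem row_T5 (hg : g.OK) (hL : ∀ c ∈ L, Grid.COK c) (he : g.BRep L vlo2 e) {v l : ℕ}
    (hv : v < g.n) (hl : l < g.n)
    (h : (T5 e v).testBit (48 * l + 47) = true) : g.P5 L v l := by
  obtain ⟨-, -, -, -, -, -, -, -, x1, x2, x3, -, x4, -⟩ := hg.bounds hv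
  rw [abs_lt] at x4
  have B : ∀ l < g.n, 0 ≤ 2 ^ 47 + (g.qm L l + g.av l * g.qn v - 2 * g.ip v l -
        2 * g.wn v * g.wm L l) ∧
      2 ^ 47 + (g.qm L l + g.av l * g.qn v - 2 * g.ip v l - 2 * g.wn v * g.wm L l) < 2 ^ 48 := by
    intro l hl
    have h1 := hg.ip_bound hv hl
    obtain ⟨q1, q2, w1, w2, -, -⟩ := hg.mbounds hL hl
    obtain ⟨a1, -⟩ := hg.bounds hl
    rw [abs_lt] at h1
    have p1 : 0 ≤ g.wn v * g.wm L l := mul_nonneg (by linarith) w1
    have p2 : g.wn v * g.wm L l ≤ 2 ^ 20 * 2 ^ 20 :=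
      mul_le_mul (by linarith) w2.le (by linarith) (by norm_num)
    rw [mul_assoc 2 (g.wn v)]
    rcases a1 with a1 | a1 <;> rw [a1] <;> constructor <;> linarith [h1.1, h1.2, x4.1, x4.2]
  have e1 : ((Nat.mul 2 (lane e.G.WN v) : ℕ) : ℤ) = 2 * g.wn v := by
    show ((2 * lane e.G.WN v : ℕ) : ℤ) = _
    push_cast; rw [row_wn hg he hv]
  have e2 := row_qn hg he hv
  have e3 := row_vSF hg he hv
  have R : Rep g.n (T5 e v) (fun l => 2 ^ 47 + (g.qm L l + g.av l * g.qn v - 2 * g.ip v l -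
      2 * g.wn v * g.wm L l)) := by
    refine Rep.congr ((((he.c5.add (row_vF hg he hv)).add (he.grep.av.smul (lane e.G.QN v))).sub
      ((he.wm.smul (Nat.mul 2 (lane e.G.WN v))).add (he.grep.one.smul (vSF e v))))
      (fun l hl => ?_)) (fun l _ => ?_)
    · have := (B l hl).1
      rw [e1, e2, e3]
      linarith
    · rw [e1, e2, e3]
      ring
  have := (R.sign B hl).1 h
  unfold Grid.P5
  linarith

theorem row_T6 (hg : g.OK) (he : g.BRep L vlo2 e) {v l : ℕ}
    (hv : v < g.n) (hl : l < g.n)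
    (h : (T6 e v).testBit (48 * l + 47) = true) : g.P6 v l := by
  obtain ⟨-, -, -, -, -, -, -, -, x1, x2, x3, -, x4, -⟩ := hg.bounds hv
  rw [abs_lt] at x4
  have B : ∀ l < g.n, 0 ≤ 2 ^ 47 + (g.qn l + g.av l * g.qn v - 2 * g.ip v l -
        2 * g.wn v * g.wn l) ∧
      2 ^ 47 + (g.qn l + g.av l * g.qn v - 2 * g.ip v l - 2 * g.wn v * g.wn l) < 2 ^ 48 := by
    intro l hl
    have h1 := hg.ip_bound hv hl
    obtain ⟨a1, -, -, -, -, -, -, -, y1, y2, y3, -, y4, -⟩ := hg.bounds hl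
    rw [abs_lt] at h1 y4
    have p1 : 0 ≤ g.wn v * g.wn l := mul_nonneg (by linarith) (by linarith)
    have p2 : g.wn v * g.wn l ≤ 2 ^ 20 * 2 ^ 20 :=
      mul_le_mul (by linarith) (by linarith) (by linarith) (by norm_num)
    rw [mul_assoc 2 (g.wn v)]
    rcases a1 with a1 | a1 <;> rw [a1] <;> constructor <;>
      linarith [h1.1, h1.2, x4.1, x4.2, y4.1, y4.2]
  have e1 : ((Nat.mul 2 (lane e.G.WN v) : ℕ) : ℤ) = 2 * g.wn v := by
    show ((2 * lane e.G.WN v : ℕ) : ℤ) = _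
    push_cast; rw [row_wn hg he hv]
  have e2 := row_qn hg he hv
  have e3 := row_vSF hg he hv
  have R : Rep g.n (T6 e v) (fun l => 2 ^ 47 + (g.qn l + g.av l * g.qn v - 2 * g.ip v l -
      2 * g.wn v * g.wn l)) := by
    refine Rep.congr ((((he.c4.add (row_vF hg he hv)).add (he.grep.av.smul (lane e.G.QN v))).sub
      ((he.grep.wn.smul (Nat.mul 2 (lane e.G.WN v))).add (he.grep.one.smul (vSF e v))))
      (fun l hl => ?_)) (fun l _ => ?_)
    · have := (B l hl).1
      rw [e1, e2, e3]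
      linarith
    · rw [e1, e2, e3]
      ring
  have := (R.sign B hl).1 h
  unfold Grid.P6
  linarith

end lanes

/-! ## Rows -/

theorem row_land (a b i : ℕ) : (Nat.land a b).testBit i = (a.testBit i && b.testBit i) :=
  Nat.testBit_and a b i

theorem row_lor (a b i : ℕ) : (Nat.lor a b).testBit i = (a.testBit i || b.testBit i) :=
  Nat.testBit_or a b i

theorem row_testBit {g : Grid} {L : List Corner} {vlo2 : ℕ} {e : BEnv}
    (_he : g.BRep L vlo2 e) (v i : ℕ) (h : (row e v).testBit i = true) :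
    e.ACT.testBit i = true := by
  unfold row at h
  cases hf : finB e v with
  | false =>
    rw [hf] at h
    have h1 : (Nat.land _ e.ACT).testBit i = true := h
    rw [row_land, Bool.and_eq_true] at h1
    exact h1.2
  | true =>
    rw [hf] at h
    have h1 : (Nat.land (angRow e.G v) e.ACT).testBit i = true := h
    rw [row_land, Bool.and_eq_true] at h1
    exact h1.2

/-- four vertices at once -/
theorem row_four {g : Grid} (hg : g.OK) {v u : ℕ} (hv : g.isCell v) (hu : g.isCell u)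
    {M : ℕ} (hM : M = g.M) {T : ℕ → ℕ} {P : ℕ → ℕ → Prop}
    (hT : ∀ w l, w < g.n → l < g.n → (T w).testBit (48 * l + 47) = true → P w l)
    (h : (Nat.land (Nat.land (and4 M (T v)) (and4 M (T (Nat.succ v))))
      (Nat.land (and4 M (T (Nat.add v M))) (and4 M (T (Nat.succ (Nat.add v M)))))).testBit
        (47 + 48 * u) = true) :
    ∀ i j, P (g.vert v i) (g.vert u j) := by
  have key : ∀ w < g.n, (and4 M (T w)).testBit (47 + 48 * u) = true → ∀ j, P w (g.vert u j) := by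
    intro w hw hb j
    rw [and4_testBit, Bool.and_eq_true, Bool.and_eq_true, Bool.and_eq_true] at hb
    obtain ⟨⟨⟨b1, b2⟩, b3⟩, b4⟩ := hb
    refine hT w _ hw (hg.vert_lt hu j) ?_
    fin_cases j
    · show (T w).testBit (48 * u + 47) = true
      rw [show 48 * u + 47 = 47 + 48 * u by ring]; exact b1
    · show (T w).testBit (48 * (u + 1) + 47) = true
      rw [show 48 * (u + 1) + 47 = 47 + 48 * u + 48 by ring]; exact b2
    · show (T w).testBit (48 * (u + g.M) + 47) = true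
      rw [show 48 * (u + g.M) + 47 = 47 + 48 * u + 48 * g.M by ring, ← hM]; exact b3
    · show (T w).testBit (48 * (u + g.M + 1) + 47) = true
      rw [show 48 * (u + g.M + 1) + 47 = 47 + 48 * u + 48 * g.M + 48 by ring, ← hM]; exact b4
  rw [row_land, row_land, row_land, Bool.and_eq_true, Bool.and_eq_true, Bool.and_eq_true] at h
  obtain ⟨⟨a1, a2⟩, a3, a4⟩ := h
  intro i j
  fin_cases i
  · exact key _ (hg.vert_lt hv 0) a1 j
  · exact key _ (hg.vert_lt hv 1) a2 j
  · refine key _ (hg.vert_lt hv 2) ?_ j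
    have : g.vert v 2 = Nat.add v M := by rw [hM]; rfl
    rw [this]; exact a3
  · refine key _ (hg.vert_lt hv 3) ?_ j
    have : g.vert v 3 = Nat.succ (Nat.add v M) := by rw [hM]; rfl
    rw [this]; exact a4

theorem row_spec {g : Grid} (hg : g.OK) {L : List Corner} (hL : ∀ c ∈ L, Grid.COK c)
    {vlo2 : ℕ} {e : BEnv} (he : g.BRep L vlo2 e) {v u : ℕ} (hv : g.isCell v)
    (h : (row e v).testBit (48 * u) = true) : g.isCell u ∧ g.Confl L v u := by
  have hu : g.isCell u := by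
    obtain ⟨l, hl, h1⟩ := he.act1 _ (row_testBit he v _ h)
    have : u = l := by omega
    rw [this]; exact hl
  refine ⟨hu, ?_⟩
  unfold row at h
  cases hf : finB e v with
  | true =>
    rw [hf] at h
    have h1 : (Nat.land (angRow e.G v) e.ACT).testBit (48 * u) = true := h
    rw [row_land, Bool.and_eq_true] at h1
    exact Or.inr (angRow_spec hg he.grep hv hu h1.1)
  | false =>
    have hfin : g.isFin v := by
      refine ⟨hv.1, ?_⟩
      have hM' : g.M = g.T.length + 1 := rfl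
      have h2 := hv.2
      have h3 : Nat.beq (Nat.add (Nat.mod v e.G.M) 2) e.G.M = false := hf
      have h4 : ¬ (v % g.M + 2 = g.M) := by
        intro hcon
        have h5 : Nat.add (Nat.mod v e.G.M) 2 = e.G.M := by rw [he.grep.hM]; exact hcon
        rw [h5, Nat.beq_refl] at h3
        exact absurd h3 (by decide)
      omega
    rw [hf] at h
    have h1 : (rowF e v).testBit (48 * u) = true := h
    have hMM := he.grep.hM
    have h2 : (Nat.land (Nat.lor (angRow e.G v) (Nat.shiftRight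
      (Nat.lor (Nat.land (Nat.land (and4 e.G.M (T1 e v)) (and4 e.G.M (T1 e (Nat.succ v))))
        (Nat.land (and4 e.G.M (T1 e (Nat.add v e.G.M)))
          (and4 e.G.M (T1 e (Nat.succ (Nat.add v e.G.M))))))
      (Nat.lor (Nat.land (Nat.land (and4 e.G.M (T2 e v)) (and4 e.G.M (T2 e (Nat.succ v))))
        (Nat.land (and4 e.G.M (T2 e (Nat.add v e.G.M)))
          (and4 e.G.M (T2 e (Nat.succ (Nat.add v e.G.M))))))
      (Nat.lor (Nat.land (Nat.land (and4 e.G.M (T3 e v)) (and4 e.G.M (T3 e (Nat.succ v))))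
        (Nat.land (and4 e.G.M (T3 e (Nat.add v e.G.M)))
          (and4 e.G.M (T3 e (Nat.succ (Nat.add v e.G.M))))))
      (Nat.lor (Nat.land (Nat.land (and4 e.G.M (T4 e v)) (and4 e.G.M (T4 e (Nat.succ v))))
        (Nat.land (and4 e.G.M (T4 e (Nat.add v e.G.M)))
          (and4 e.G.M (T4 e (Nat.succ (Nat.add v e.G.M))))))
      (Nat.lor (Nat.land (Nat.land (and4 e.G.M (T5 e v)) (and4 e.G.M (T5 e (Nat.succ v))))
        (Nat.land (and4 e.G.M (T5 e (Nat.add v e.G.M)))
          (and4 e.G.M (T5 e (Nat.succ (Nat.add v e.G.M))))))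
      (Nat.land (Nat.land (and4 e.G.M (T6 e v)) (and4 e.G.M (T6 e (Nat.succ v))))
        (Nat.land (and4 e.G.M (T6 e (Nat.add v e.G.M)))
          (and4 e.G.M (T6 e (Nat.succ (Nat.add v e.G.M)))))))))))
      47)) e.ACT).testBit (48 * u) = true := h1
    rw [row_land, Bool.and_eq_true, row_lor, Bool.or_eq_true, row_shr_testBit] at h2
    rcases h2.1 with h3 | h3
    · exact Or.inr (angRow_spec hg he.grep hv hu h3)
    · refine Or.inl ⟨hfin, ?_⟩
      rw [row_lor, row_lor, row_lor, row_lor, row_lor, Bool.or_eq_true, Bool.or_eq_true,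
        Bool.or_eq_true, Bool.or_eq_true, Bool.or_eq_true] at h3
      rcases h3 with h3 | h3 | h3 | h3 | h3 | h3
      · exact Or.inl (row_four hg hv hu hMM
          (fun w l hw hl hb => row_T1 hg he hw hl hb) h3)
      · exact Or.inr (Or.inl (row_four hg hv hu hMM
          (fun w l hw hl hb => row_T2 hg hL he hw hl hb) h3))
      · exact Or.inr (Or.inr (Or.inl (row_four hg hv hu hMM
          (fun w l hw hl hb => row_T3 hg he hw hl hb) h3)))
      · exact Or.inr (Or.inr (Or.inr (Or.inl (row_four hg hv hu hMM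
          (fun w l hw hl hb => row_T4 hg hL he hw hl hb) h3))))
      · exact Or.inr (Or.inr (Or.inr (Or.inr (Or.inl (row_four hg hv hu hMM
          (fun w l hw hl hb => row_T5 hg hL he hw hl hb) h3)))))
      · exact Or.inr (Or.inr (Or.inr (Or.inr (Or.inr (row_four hg hv hu hMM
          (fun w l hw hl hb => row_T6 hg he hw hl hb) h3)))))

end Pool.Agent.K9
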