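import Mathlib
import Pool.Agent.K9.Pack

/-! # K9: soundness of the search -/

namespace Pool.Agent.K9

/-- `c i` is the cell of the outer point `x i`; different outer points never lie in conflicting
cells. -/
structure Place (g : Grid) (e : BEnv) (c : Fin 6 → ℕ) : Prop where
  cell : ∀ i, g.isCell (c i)
  act : ∀ i, e.ACT.testBit (48 * c i) = true
  conf : ∀ i j, i ≠ j → (row e (c i)).testBit (48 * c j) = false
  pos : ∀ v i, (row e v).testBit i = true → ∃ u, i = 48 * u

/-- the membership words are checked at the cells of the outer points -/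
def Memb (e : BEnv) (ws : List ℕ) (c : Fin 6 → ℕ) : Prop := ∀ i, mChk e ws (c i) = true

theorem mAll_succ (e : BEnv) (ws : List ℕ) (n a : ℕ) :
    mAll e ws (n + 1) a = (mChk e ws a && mAll e ws n (a + 1)) := by
  show Bool.rec (motive := fun _ => Bool) false (mAll e ws n (a + 1)) (mChk e ws a) = _
  cases mChk e ws a <;> rfl

theorem mAll_spec {e : BEnv} {ws : List ℕ} {n a : ℕ} (h : mAll e ws n a = true) {v : ℕ}
    (h1 : a ≤ v) (h2 : v < a + n) : mChk e ws v = true := by
  induction n generalizing a with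
  | zero => omega
  | succ n ih =>
    rw [mAll_succ, Bool.and_eq_true] at h
    rcases Nat.eq_or_lt_of_le h1 with h3 | h3
    · rw [← h3]; exact h.1
    · exact ih h.2 h3 (by omega)

theorem mChk_cons (e : BEnv) (w : ℕ) (ws : List ℕ) (v : ℕ) :
    mChk e (w :: ws) v = ((Nat.beq (lane w v) 0 || mChk1 e v w) && mChk e ws v) := by
  show Bool.rec (motive := fun _ => Bool)
      (Bool.rec (motive := fun _ => Bool) false (mChk e ws v) (mChk1 e v w)) (mChk e ws v)
      (Nat.beq (lane w v) 0) = _
  cases Nat.beq (lane w v) 0 <;> cases mChk1 e v w <;> cases mChk e ws v <;> rfl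

theorem mChk_mem {e : BEnv} {ws : List ℕ} {v : ℕ} (h : mChk e ws v = true) {w : ℕ} (hw : w ∈ ws) :
    lane w v = 0 ∨ mChk1 e v w = true := by
  induction ws with
  | nil => simp at hw
  | cons a ws ih =>
    rw [mChk_cons, Bool.and_eq_true, Bool.or_eq_true] at h
    rcases List.mem_cons.1 hw with rfl | hw
    · rcases h.1 with h1 | h1
      · exact Or.inl (Nat.eq_of_beq_eq_true h1)
      · exact Or.inr h1
    · exact ih h.2 hw

theorem land_mod_two (P Y : ℕ) : (P &&& Y) % 2 = (P % 2) * (Y % 2) := by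
  have h := Nat.and_mod_two_pow (a := P) (b := Y) (n := 1)
  rw [pow_one] at h
  rw [h]
  rcases Nat.mod_two_eq_zero_or_one P with hp | hp <;>
    rcases Nat.mod_two_eq_zero_or_one Y with hy | hy <;> rw [hp, hy] <;> rfl

theorem land_div_two (P Y : ℕ) : (P &&& Y) / 2 = (P / 2 &&& Y / 2) := by
  have h := Nat.and_div_two_pow (a := P) (b := Y) (n := 1)
  rwa [pow_one] at h

theorem testBit_sub_land (x P Y : ℕ) :
    (P - (P &&& Y)).testBit x = (P.testBit x && !Y.testBit x) := by
  induction x generalizing P Y with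
  | zero =>
    have h1 := land_mod_two P Y
    have h2 : P &&& Y ≤ P := Nat.and_le_left
    rw [Nat.testBit_zero, Nat.testBit_zero, Nat.testBit_zero]
    generalize P &&& Y = Z at h1 h2 ⊢
    rcases Nat.mod_two_eq_zero_or_one P with hp | hp <;>
      rcases Nat.mod_two_eq_zero_or_one Y with hy | hy <;>
      rw [hp, hy] at h1 <;> rw [hp, hy]
    · have : (P - Z) % 2 = 0 := by omega
      rw [this]; rfl
    · have : (P - Z) % 2 = 0 := by omega
      rw [this]; rfl
    · have : (P - Z) % 2 = 1 := by omega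
      rw [this]; rfl
    · have : (P - Z) % 2 = 0 := by omega
      rw [this]; rfl
  | succ x ih =>
    have h1 : (P - (P &&& Y)) / 2 = P / 2 - (P / 2 &&& Y / 2) := by
      have h2 : P &&& Y ≤ P := Nat.and_le_left
      have h3 := land_div_two P Y
      have h4 := land_mod_two P Y
      have h5 : (P &&& Y) % 2 ≤ P % 2 := by
        rw [h4]
        calc P % 2 * (Y % 2) ≤ P % 2 * 1 := Nat.mul_le_mul_left _ (by omega)
          _ = _ := mul_one _
      rw [← h3]
      generalize P &&& Y = Z at *
      omega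
    rw [Nat.testBit_succ, h1, ih, Nat.testBit_succ, Nat.testBit_succ]

theorem mod_of_pos {R : ℕ} (hR : ∀ i, R.testBit i = true → ∃ u, i = 48 * u) :
    R % 2 ^ 48 = if R.testBit 0 then 1 else 0 := by
  apply Nat.eq_of_testBit_eq
  intro i
  rw [Nat.testBit_mod_two_pow]
  rcases Nat.eq_zero_or_pos i with rfl | hi
  · by_cases h : R.testBit 0 <;> simp [h]
  · have h1 : (decide (i < 48) && R.testBit i) = false := by
      by_cases h : i < 48
      · by_cases h' : R.testBit i = true
        · obtain ⟨u, hu⟩ := hR i h'; omega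
        · simp [h']
      · simp [h]
    rw [h1]
    obtain ⟨j, rfl⟩ : ∃ j, i = j + 1 := ⟨i - 1, by omega⟩
    by_cases h : R.testBit 0
    · simp only [h, if_true]
      rw [Nat.testBit_succ]; simp
    · simp [h]

theorem shift_pos {R : ℕ} (hR : ∀ i, R.testBit i = true → ∃ u, i = 48 * u) :
    ∀ i, (R / 2 ^ 48).testBit i = true → ∃ u, i = 48 * u := by
  intro i hi
  rw [← Nat.shiftRight_eq_div_pow, Nat.testBit_shiftRight] at hi
  obtain ⟨u, hu⟩ := hR _ hi
  exact ⟨u - 1, by omega⟩

theorem testBit_full {b : ℕ} (hb : b < 48) : cFULL.testBit b = true := by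
  have : cFULL = 2 ^ 48 - 1 := rfl
  rw [this, Nat.testBit_two_pow_sub_one]
  simpa using hb

theorem testBit_full_mul {b : ℕ} (hb : b < 48) (l : ℕ) : ∀ R : ℕ,
    (∀ i, R.testBit i = true → ∃ u, i = 48 * u) →
    (cFULL * R).testBit (48 * l + b) = R.testBit (48 * l) := by
  have key : ∀ R : ℕ, (∀ i, R.testBit i = true → ∃ u, i = 48 * u) → ∀ i,
      (cFULL * R).testBit i = if i < 48 then R.testBit 0 else
        (cFULL * (R / 2 ^ 48)).testBit (i - 48) := by
    intro R hR i
    have h0 := mod_of_pos hR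
    have h1 : cFULL * R = 2 ^ 48 * (cFULL * (R / 2 ^ 48)) + cFULL * (R % 2 ^ 48) := by
      conv_lhs => rw [← Nat.div_add_mod R (2 ^ 48)]
      ring
    have h2 : cFULL * (R % 2 ^ 48) < 2 ^ 48 := by
      rw [h0]
      have : cFULL = 2 ^ 48 - 1 := rfl
      split_ifs <;> omega
    rw [h1, Nat.testBit_two_pow_mul_add _ h2]
    split_ifs with h3
    · rw [h0]
      by_cases h : R.testBit 0
      · simp only [h, if_true, mul_one]; exact testBit_full h3
      · simp [h]
    · rfl
  induction l with
  | zero =>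
    intro R hR
    rw [key R hR, if_pos (by omega)]
  | succ l ih =>
    intro R hR
    rw [key R hR, if_neg (by omega)]
    have h1 : 48 * (l + 1) + b - 48 = 48 * l + b := by omega
    rw [h1, ih _ (shift_pos hR), ← Nat.shiftRight_eq_div_pow, Nat.testBit_shiftRight]
    congr 1
    omega

theorem testBit_sum_pow (S : Finset ℕ) (i : ℕ) :
    (∑ l ∈ S, 2 ^ l).testBit i = true ↔ i ∈ S := by
  rw [← Nat.mem_bitIndices, ← List.mem_toFinset, Finset.toFinset_bitIndices_sum_two_pow]

theorem eq_sum_pow (V : ℕ) : V = ∑ l ∈ V.bitIndices.toFinset, 2 ^ l :=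
  (Finset.sum_toFinset_bitIndices_two_pow V).symm

theorem mem_bits {V i : ℕ} : i ∈ V.bitIndices.toFinset ↔ V.testBit i = true := by
  rw [List.mem_toFinset, Nat.mem_bitIndices]

theorem testBit_lane {w v s : ℕ} (hs : s < 48) :
    (lane w v).testBit s = w.testBit (48 * v + s) := by
  show (w >>> (48 * v) % 281474976710656).testBit s = _
  have : (281474976710656 : ℕ) = 2 ^ 48 := rfl
  rw [this, Nat.testBit_mod_two_pow, Nat.testBit_shiftRight]
  simp [hs]

theorem lane_lt (w v : ℕ) : lane w v < 2 ^ 48 := Nat.mod_lt _ (by norm_num)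

theorem isCell_lt {g : Grid} {l : ℕ} (h : g.isCell l) : l < g.n := by
  have hM : 0 < g.M := Nat.succ_pos _
  have h1 := h.1
  have h2 : l / g.M < g.ax.length := by unfold Grid.J at h1; omega
  show l < g.ax.length * g.M
  exact (Nat.div_lt_iff_lt_mul hM).1 h2

/-- bits of `lane * ONE` -/
theorem testBit_mul_one {n ONE d l s : ℕ} (h1 : Rep n ONE (fun _ => 1)) (hd : d < 2 ^ 48)
    (hl : l < n) (hs : s < 48) : (Nat.mul d ONE).testBit (48 * l + s) = d.testBit s := by
  have h := Rep.smul d h1
  have h2 := Rep.testBit (f := fun l => (d : ℤ) * 1) h (fun l _ => by constructor <;> push_cast <;> omega) hl hs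
  rw [h2]
  simp

/-- if the word `w` is checked at `v` and `v`, `u` are both in a set of `w`, then either `v` and
`u` are in conflict or both are infinite cells -/
theorem mChk1_spec {g : Grid} {e : BEnv} (hG : g.GRep e.G) {w v u s : ℕ}
    (hm : mChk1 e v w = true) (hu : u < g.n) (hs : s < 48)
    (hv : w.testBit (48 * v + s) = true) (hwu : w.testBit (48 * u + s) = true)
    (hp : ∀ i, (row e v).testBit i = true → ∃ u, i = 48 * u)
    (hr : (row e v).testBit (48 * u) = false) :
    finB e v = true ∧ e.G.INF.testBit (48 * u) = false := by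
  have hA : (w &&& Nat.mul (lane w v) e.G.ONE).testBit (48 * u + s) = true := by
    rw [Nat.testBit_and, hwu, testBit_mul_one hG.one (lane_lt w v) hu hs, testBit_lane hs, hv]
    rfl
  have hR : (Nat.mul cFULL (row e v)).testBit (48 * u + s) = false := by
    have := testBit_full_mul hs u (row e v) hp
    rw [hr] at this
    exact this
  have hI : (Nat.mul cFULL e.G.INF).testBit (48 * u + s) = e.G.INF.testBit (48 * u) := by
    refine testBit_full_mul hs u e.G.INF (fun i hi => ?_)
    obtain ⟨l, -, -, hl⟩ := (hG.inf i).1 hi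
    exact ⟨l, hl⟩
  have hm' : Bool.rec (motive := fun _ => Bool)
    (Nat.beq (Nat.land (w &&& Nat.mul (lane w v) e.G.ONE) (Nat.mul cFULL (row e v)))
      (w &&& Nat.mul (lane w v) e.G.ONE))
    (Nat.beq (Nat.land (Nat.land (w &&& Nat.mul (lane w v) e.G.ONE) (Nat.mul cFULL e.G.INF))
        (Nat.mul cFULL (row e v)))
      (Nat.land (w &&& Nat.mul (lane w v) e.G.ONE) (Nat.mul cFULL e.G.INF))) (finB e v) = true :=
    hm
  generalize hAA : w &&& Nat.mul (lane w v) e.G.ONE = A at hA hm'
  generalize Nat.mul cFULL (row e v) = R at hR hm'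
  generalize Nat.mul cFULL e.G.INF = I at hI hm'
  cases hf : finB e v with
  | false =>
    rw [hf] at hm'
    have h1 : (A &&& R) = A := Nat.eq_of_beq_eq_true hm'
    rw [← h1, Nat.testBit_and, hR, Bool.and_false] at hA
    exact absurd hA (by simp)
  | true =>
    rw [hf] at hm'
    refine ⟨rfl, ?_⟩
    have h1 : ((A &&& I) &&& R) = (A &&& I) := Nat.eq_of_beq_eq_true hm'
    have h2 : (A &&& I).testBit (48 * u + s) = false := by
      rw [← h1, Nat.testBit_and, hR, Bool.and_false]
    rw [Nat.testBit_and, hA, Bool.true_and, hI] at h2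
    exact h2

theorem finB_inf {g : Grid} {e : BEnv} (hG : g.GRep e.G) {v : ℕ} (hc : g.isCell v)
    (hf : finB e v = true) : e.G.INF.testBit (48 * v) = true := by
  rw [hG.inf]
  refine ⟨v, hc, fun h => ?_, rfl⟩
  have h1 : v % e.G.M + 2 = e.G.M := Nat.eq_of_beq_eq_true hf
  rw [hG.hM] at h1
  have h2 := h.2
  have h3 : g.M = g.T.length + 1 := rfl
  omega

/-- a set of a word holds at most one of the outer points -/
theorem once {g : Grid} {e : BEnv} (hG : g.GRep e.G) {c : Fin 6 → ℕ} (hc : Place g e c)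
    {ws : List ℕ} (hm : Memb e ws c) {w : ℕ} (hw : w ∈ ws) {s : ℕ} (hs : s < 48) {i j : Fin 6}
    (hi : w.testBit (48 * c i + s) = true) (hj : w.testBit (48 * c j + s) = true) : i = j := by
  by_contra hij
  have ne : ∀ v, w.testBit (48 * v + s) = true → lane w v ≠ 0 := by
    intro v hv h0
    have := testBit_lane (w := w) (v := v) hs
    rw [h0, hv] at this
    simp at this
  have h1 : mChk1 e (c i) w = true := (mChk_mem (hm i) hw).resolve_left (ne _ hi)
  have h2 : mChk1 e (c j) w = true := (mChk_mem (hm j) hw).resolve_left (ne _ hj)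
  have a1 := mChk1_spec hG h1 (isCell_lt (hc.cell j)) hs hi hj (hc.pos _) (hc.conf i j hij)
  have a2 := mChk1_spec hG h2 (isCell_lt (hc.cell i)) hs hj hi (hc.pos _)
    (hc.conf j i (Ne.symm hij))
  have a3 := finB_inf hG (hc.cell i) a1.1
  rw [a2.2] at a3
  exact absurd a3 (by simp)

theorem getW_mem (ws : List ℕ) (i : ℕ) : getW ws i = 0 ∨ getW ws i ∈ ws := by
  induction ws generalizing i with
  | nil => exact Or.inl rfl
  | cons w ws ih =>
    cases i with
    | zero => exact Or.inr (List.mem_cons_self ..)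
    | succ i =>
      rcases ih i with h | h
      · exact Or.inl h
      · exact Or.inr (List.mem_cons_of_mem _ h)

theorem card_le_succ {S S' : Finset (Fin 6)} {k : ℕ} (h : S'.card ≤ k)
    (h1 : ∀ a ∈ S \ S', ∀ b ∈ S \ S', a = b) : S.card ≤ k + 1 := by
  have h2 : (S \ S').card ≤ 1 := Finset.card_le_one.2 h1
  have h3 : S.card ≤ (S \ S').card + S'.card := by
    calc S.card ≤ ((S \ S') ∪ S').card := Finset.card_le_card (fun x hx => by
          by_cases hx' : x ∈ S'
          · exact Finset.mem_union_right _ hx'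
          · exact Finset.mem_union_left _ (Finset.mem_sdiff.2 ⟨hx, hx'⟩))
      _ ≤ _ := Finset.card_union_le _ _
  omega

theorem leafGo_cons (ONE : ℕ) (ws : List ℕ) (i : ℕ × ℕ) (ids : List (ℕ × ℕ)) (P k : ℕ) :
    leafGo ONE ws (i :: ids) P (k + 1) =
      leafGo ONE ws ids (P - (P &&& ((getW ws i.1 >>> (i.2 % 48)) &&& ONE))) k := rfl

theorem leafGo_spec {g : Grid} {e : BEnv} (hG : g.GRep e.G) {c : Fin 6 → ℕ} (hc : Place g e c)
    {ws : List ℕ} (hm : Memb e ws c) {ids : List (ℕ × ℕ)} {P k : ℕ}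
    (h : leafGo e.G.ONE ws ids P k = true) :
    (Finset.univ.filter fun i => P.testBit (48 * c i) = true).card ≤ k := by
  induction ids generalizing P k with
  | nil =>
    have h0 : P = 0 := Nat.eq_of_beq_eq_true h
    subst h0
    simp
  | cons i ids ih =>
    cases k with
    | zero => exact absurd h (by simp [leafGo])
    | succ k =>
      rw [leafGo_cons] at h
      refine card_le_succ (ih h) ?_
      have hs : i.2 % 48 < 48 := Nat.mod_lt _ (by norm_num)
      have key : ∀ a ∈ (Finset.univ.filter fun a => P.testBit (48 * c a) = true) \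
          (Finset.univ.filter fun a => (P - (P &&& ((getW ws i.1 >>> (i.2 % 48)) &&&
            e.G.ONE))).testBit (48 * c a) = true),
          (getW ws i.1).testBit (48 * c a + i.2 % 48) = true := by
        intro a ha
        rw [Finset.mem_sdiff, Finset.mem_filter, Finset.mem_filter, testBit_sub_land,
          Nat.testBit_and, Nat.testBit_shiftRight] at ha
        obtain ⟨⟨-, h1⟩, h2⟩ := ha
        rw [h1] at h2
        by_contra h3
        apply h2
        refine ⟨Finset.mem_univ _, ?_⟩
        rw [Bool.not_eq_true, add_comm] at h3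
        rw [h3]; rfl
      rcases getW_mem ws i.1 with h0 | h0
      · intro a ha
        have := key a ha
        rw [h0] at this
        simp at this
      · intro a ha b hb
        exact once hG hc hm h0 hs (key a ha) (key b hb)

theorem tChk_node (e : BEnv) (ws : List ℕ) (v : ℕ) (l r : Tree) (P k : ℕ) :
    tChk e ws (Tree.node v l r) P (k + 1) =
      (tChk e ws l (P - (P &&& row e v)) k && tChk e ws r (P - (P &&& (1 <<< (48 * v)))) (k + 1)) := by
  show Bool.rec (motive := fun _ => Bool) false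
    (tChk e ws r (P - (P &&& (1 <<< (48 * v)))) (k + 1)) (tChk e ws l (P - (P &&& row e v)) k) = _
  cases tChk e ws l (P - (P &&& row e v)) k <;> rfl

theorem testBit_one_shift {v u : ℕ} (h : u ≠ v) : (1 <<< (48 * v)).testBit (48 * u) = false := by
  rw [Nat.one_shiftLeft, Nat.testBit_two_pow]
  simp; omega

theorem tChk_spec {g : Grid} (_hg : g.OK) {e : BEnv} (hG : g.GRep e.G) {c : Fin 6 → ℕ}
    (hc : Place g e c) {ws : List ℕ} (hm : Memb e ws c) {t : Tree} {P k : ℕ}
    (h : tChk e ws t P k = true) :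
    (Finset.univ.filter fun i => P.testBit (48 * c i) = true).card ≤ k := by
  induction t generalizing P k with
  | leaf ids => exact leafGo_spec hG hc hm h
  | node v l r ihl ihr =>
    cases k with
    | zero => exact absurd h (by simp [tChk])
    | succ k =>
      rw [tChk_node, Bool.and_eq_true] at h
      by_cases hv : ∃ i, c i = v
      · obtain ⟨i, rfl⟩ := hv
        refine card_le_succ (ihl h.1) ?_
        have key : ∀ a ∈ (Finset.univ.filter fun a => P.testBit (48 * c a) = true) \
            (Finset.univ.filter fun a =>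
              (P - (P &&& row e (c i))).testBit (48 * c a) = true), a = i := by
          intro a ha
          rw [Finset.mem_sdiff, Finset.mem_filter, Finset.mem_filter, testBit_sub_land] at ha
          obtain ⟨⟨-, h1⟩, h2⟩ := ha
          by_contra h3
          apply h2
          refine ⟨Finset.mem_univ _, ?_⟩
          rw [h1, hc.conf i a (Ne.symm h3)]; rfl
        intro a ha b hb
        rw [key a ha, key b hb]
      · refine le_trans (Finset.card_le_card ?_) (ihr h.2)
        intro a ha
        rw [Finset.mem_filter] at ha ⊢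
        refine ⟨Finset.mem_univ _, ?_⟩
        rw [testBit_sub_land, ha.2, testBit_one_shift (fun h => hv ⟨a, h⟩)]
        rfl

theorem peel_cons (e : BEnv) (ws : List ℕ) (p : ℕ × Tree) (pl : List (ℕ × Tree)) (K : ℕ → Bool)
    (P : ℕ) : peel e ws (p :: pl) K P =
      (tChk e ws p.2 (P - (P &&& row e p.1)) 4 &&
        peel e ws pl K (P - (P &&& (1 <<< (48 * p.1))))) := by
  show Bool.rec (motive := fun _ => Bool) false
    (peel e ws pl K (P - (P &&& (1 <<< (48 * p.1))))) (tChk e ws p.2 (P - (P &&& row e p.1)) 4) = _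
  cases tChk e ws p.2 (P - (P &&& row e p.1)) 4 <;> rfl

theorem peel_spec {g : Grid} (hg : g.OK) {e : BEnv} (hG : g.GRep e.G) {c : Fin 6 → ℕ}
    (hc : Place g e c) {ws : List ℕ} (hm : Memb e ws c) {pl : List (ℕ × Tree)} {K : ℕ → Bool}
    {P : ℕ} (h : peel e ws pl K P = true) (hP : ∀ i, P.testBit (48 * c i) = true) :
    ∃ P', K P' = true ∧ ∀ i, P'.testBit (48 * c i) = true := by
  induction pl generalizing P with
  | nil => exact ⟨P, h, hP⟩
  | cons p pl ih =>
    rw [peel_cons, Bool.and_eq_true] at h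
    by_cases hv : ∃ i, c i = p.1
    · exfalso
      obtain ⟨i, hi⟩ := hv
      have h1 := tChk_spec hg hG hc hm h.1
      have h2 : (Finset.univ.erase i : Finset (Fin 6)).card ≤
          (Finset.univ.filter fun a => (P - (P &&& row e p.1)).testBit (48 * c a) = true).card := by
        apply Finset.card_le_card
        intro a ha
        rw [Finset.mem_erase] at ha
        rw [Finset.mem_filter]
        refine ⟨Finset.mem_univ _, ?_⟩
        rw [testBit_sub_land, hP a, ← hi, hc.conf i a (Ne.symm ha.1)]; rfl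
      rw [Finset.card_erase_of_mem (Finset.mem_univ _), Finset.card_univ, Fintype.card_fin] at h2
      omega
    · refine ih h.2 (fun a => ?_)
      rw [testBit_sub_land, hP a, testBit_one_shift (fun h => hv ⟨a, h⟩)]
      rfl

/-- the bits of a product of two packed numbers without carries -/
theorem testBit_mul_of {A B : ℕ}
    (hAB : ∀ a b a' b', A.testBit a = true → B.testBit b = true → A.testBit a' = true →
      B.testBit b' = true → a + b = a' + b' → a = a' ∧ b = b') (i : ℕ) :
    (A * B).testBit i = true ↔ ∃ a b, A.testBit a = true ∧ B.testBit b = true ∧ a + b = i := by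
  have h1 : A * B = ∑ l ∈ (A.bitIndices.toFinset ×ˢ B.bitIndices.toFinset).image
      (fun p : ℕ × ℕ => p.1 + p.2), 2 ^ l := by
    rw [Finset.sum_image]
    · rw [Finset.sum_product]
      conv_lhs => rw [eq_sum_pow A, eq_sum_pow B, Finset.sum_mul_sum]
      simp only [pow_add]
    · intro p hp q hq hpq
      simp only [Finset.coe_product, Set.mem_prod, Finset.mem_coe, mem_bits] at hp hq
      have := hAB _ _ _ _ hp.1 hp.2 hq.1 hq.2 hpq
      exact Prod.ext this.1 this.2
  rw [h1, testBit_sum_pow]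
  simp only [Finset.mem_image, Finset.mem_product, mem_bits, Prod.exists]
  constructor
  · rintro ⟨a, b, ⟨ha, hb⟩, rfl⟩; exact ⟨a, b, ha, hb, rfl⟩
  · rintro ⟨a, b, ha, hb, rfl⟩; exact ⟨a, b, ⟨ha, hb⟩, rfl⟩

/-- the bits of a sum of two numbers without common bits -/
theorem testBit_add_of {A B : ℕ} (hAB : ∀ i, A.testBit i = true → B.testBit i = true → False)
    (i : ℕ) : (A + B).testBit i = true ↔ A.testBit i = true ∨ B.testBit i = true := by
  have h1 : A + B = ∑ l ∈ A.bitIndices.toFinset ∪ B.bitIndices.toFinset, 2 ^ l := by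
    rw [Finset.sum_union]
    · rw [← eq_sum_pow A, ← eq_sum_pow B]
    · rw [Finset.disjoint_left]
      intro a ha hb
      rw [mem_bits] at ha hb
      exact hAB a ha hb
  rw [h1, testBit_sum_pow, Finset.mem_union, mem_bits, mem_bits]

theorem upTo_spec {g : Grid} (_hg : g.OK) {G : GEnv} (hG : g.GRep G) {k0 j0 l : ℕ}
    (hk0 : k0 < g.M) (hl : g.isCell l) : (upTo G k0 j0).testBit (48 * l) = true ↔
      (k0 < l % g.M ∨ (l % g.M = k0 ∧ j0 ≤ l / g.M)) := by
  have hM : g.M = g.T.length + 1 := rfl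
  have hMp : 0 < g.M := Nat.succ_pos _
  set X : ℕ := (G.OK >>> (48 * (k0 + 1))) <<< (48 * (k0 + 1)) with hX
  set Y : ℕ := ((G.JC >>> (48 * G.M * j0)) <<< (48 * G.M * j0)) <<< (48 * k0) with hY
  have e0 : upTo G k0 j0 = G.JC * X + Y := rfl
  have hXb : ∀ i, X.testBit i = true ↔ ∃ k, k0 < k ∧ k < g.T.length ∧ i = 48 * k := by
    intro i
    rw [hX, Nat.testBit_shiftLeft, Nat.testBit_shiftRight, Bool.and_eq_true, decide_eq_true_iff]
    constructor
    · rintro ⟨h1, h2⟩
      rw [Nat.add_sub_cancel' h1, hG.ok] at h2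
      obtain ⟨k, hk, hik⟩ := h2
      exact ⟨k, by omega, hk, hik⟩
    · rintro ⟨k, h1, h2, h3⟩
      have h4 : 48 * (k0 + 1) ≤ i := by omega
      refine ⟨h4, ?_⟩
      rw [Nat.add_sub_cancel' h4, hG.ok]
      exact ⟨k, h2, h3⟩
  have hYb : ∀ i, Y.testBit i = true ↔ ∃ j, j0 ≤ j ∧ j < g.J ∧ i = 48 * (g.M * j + k0) := by
    intro i
    rw [hY, Nat.testBit_shiftLeft, Nat.testBit_shiftLeft, Nat.testBit_shiftRight,
      Bool.and_eq_true, Bool.and_eq_true, decide_eq_true_iff, decide_eq_true_iff]
    have em : 48 * G.M * j0 = 48 * (g.M * j0) := by rw [hG.hM]; ring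
    rw [em]
    constructor
    · rintro ⟨h1, h2, h3⟩
      rw [Nat.add_sub_cancel' h2, hG.jc] at h3
      obtain ⟨j, hj, hij⟩ := h3
      refine ⟨j, ?_, hj, by omega⟩
      have : g.M * j0 ≤ g.M * j := by omega
      exact Nat.le_of_mul_le_mul_left this hMp
    · rintro ⟨j, h1, h2, h3⟩
      have h4 : g.M * j0 ≤ g.M * j := Nat.mul_le_mul_left _ h1
      have h5 : 48 * k0 ≤ i := by omega
      have h6 : 48 * (g.M * j0) ≤ i - 48 * k0 := by omega
      refine ⟨h5, h6, ?_⟩
      rw [Nat.add_sub_cancel' h6, hG.jc]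
      exact ⟨j, h2, by omega⟩
  have uniq : ∀ j k j' k', k < g.M → k' < g.M → g.M * j + k = g.M * j' + k' → j = j' ∧ k = k' := by
    intro j k j' k' hk hk' h
    have h1 : j = j' := by
      have a1 : (g.M * j + k) / g.M = j := by
        rw [Nat.mul_add_div hMp, Nat.div_eq_of_lt hk, add_zero]
      have a2 : (g.M * j' + k') / g.M = j' := by
        rw [Nat.mul_add_div hMp, Nat.div_eq_of_lt hk', add_zero]
      rw [← a1, ← a2, h]
    subst h1
    exact ⟨rfl, by omega⟩
  have hAb : ∀ i, (G.JC * X).testBit i = true ↔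
      ∃ j k, j < g.J ∧ k0 < k ∧ k < g.T.length ∧ i = 48 * (g.M * j + k) := by
    intro i
    rw [testBit_mul_of]
    · constructor
      · rintro ⟨a, b, ha, hb, rfl⟩
        obtain ⟨j, hj, rfl⟩ := (hG.jc a).1 ha
        obtain ⟨k, h1, h2, rfl⟩ := (hXb b).1 hb
        exact ⟨j, k, hj, h1, h2, by ring⟩
      · rintro ⟨j, k, hj, h1, h2, rfl⟩
        exact ⟨48 * (g.M * j), 48 * k, (hG.jc _).2 ⟨j, hj, rfl⟩, (hXb _).2 ⟨k, h1, h2, rfl⟩,
          by ring⟩
    · intro a b a' b' ha hb ha' hb' hab
      obtain ⟨j, hj, rfl⟩ := (hG.jc a).1 ha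
      obtain ⟨k, h1, h2, rfl⟩ := (hXb b).1 hb
      obtain ⟨j', hj', rfl⟩ := (hG.jc a').1 ha'
      obtain ⟨k', h1', h2', rfl⟩ := (hXb b').1 hb'
      obtain ⟨rfl, rfl⟩ := uniq j k j' k' (by omega) (by omega) (by omega)
      exact ⟨rfl, rfl⟩
  have hdm : g.M * (l / g.M) + l % g.M = l := Nat.div_add_mod l g.M
  have hlt : l % g.M < g.M := Nat.mod_lt _ hMp
  rw [e0, testBit_add_of]
  · rw [hAb, hYb]
    constructor
    · rintro (⟨j, k, h1, h2, h3, h4⟩ | ⟨j, h1, h2, h3⟩)
      · obtain ⟨rfl, rfl⟩ := uniq (l / g.M) (l % g.M) j k hlt (by omega) (by omega)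
        exact Or.inl h2
      · obtain ⟨rfl, h5⟩ := uniq (l / g.M) (l % g.M) j k0 hlt hk0 (by omega)
        exact Or.inr ⟨h5, h1⟩
    · rintro (h | ⟨h1, h2⟩)
      · exact Or.inl ⟨l / g.M, l % g.M, hl.1, h, hl.2, by rw [hdm]⟩
      · refine Or.inr ⟨l / g.M, h2, hl.1, ?_⟩
        rw [← h1, hdm]
  · intro i h1 h2
    obtain ⟨j, k, a1, a2, a3, a4⟩ := (hAb i).1 h1
    obtain ⟨j', b1, b2, b3⟩ := (hYb i).1 h2
    obtain ⟨-, h5⟩ := uniq j k j' k0 (by omega) hk0 (by omega)
    omega

end Pool.Agent.K9
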