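import Mathlib
import Pool.Agent.K9.Geo

/-! # K9: unary eliminations -/

namespace Pool.Agent.K9

namespace Una

theorem nsq (z : ℂ) : ‖z‖ ^ 2 = z.re ^ 2 + z.im ^ 2 := by
  rw [Complex.sq_norm, Complex.normSq_apply]; ring

/-- the branch `‖z - b‖ + D ≤ ‖z - a‖` as a (convex) inequality -/
theorem char (a b z : ℂ) {D : ℝ} (hD : 0 ≤ D) :
    ‖z - b‖ + D ≤ ‖z - a‖ ↔
      2 * D * ‖z - b‖ ≤ 2 * ((b.re - a.re) * z.re + (b.im - a.im) * z.im) +
        (a.re ^ 2 + a.im ^ 2 - b.re ^ 2 - b.im ^ 2 - D ^ 2) := by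
  have h1 := nsq (z - b)
  have h2 := nsq (z - a)
  simp only [Complex.sub_re, Complex.sub_im] at h1 h2
  have hb : 0 ≤ ‖z - b‖ := norm_nonneg _
  have ha : 0 ≤ ‖z - a‖ := norm_nonneg _
  constructor
  · intro h
    have h3 : (‖z - b‖ + D) ^ 2 ≤ ‖z - a‖ ^ 2 := pow_le_pow_left₀ (by positivity) h 2
    nlinarith
  · intro h
    refine abs_le_of_sq_le_sq' ?_ ha |>.2
    nlinarith

theorem hull {a b : ℂ} {D : ℝ} (hD : 0 ≤ D) {w A X Y : Fin 4 → ℝ} {z : ℂ}
    (hw : ∀ i, 0 ≤ w i) (h1 : ∑ i, w i * A i = 1) (h2 : ∑ i, w i * X i = z.re)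
    (h3 : ∑ i, w i * Y i = z.im)
    (h : ∀ i, 2 * D * ‖(⟨X i - A i * b.re, Y i - A i * b.im⟩ : ℂ)‖ ≤
      2 * ((b.re - a.re) * X i + (b.im - a.im) * Y i) +
        A i * (a.re ^ 2 + a.im ^ 2 - b.re ^ 2 - b.im ^ 2 - D ^ 2)) :
    ‖z - b‖ + D ≤ ‖z - a‖ := by
  rw [char a b z hD]
  have hz : z - b = ∑ i, (w i : ℂ) * (⟨X i - A i * b.re, Y i - A i * b.im⟩ : ℂ) := by
    simp only [Fin.sum_univ_four] at h1 h2 h3 ⊢
    apply Complex.ext
    · simp
      linear_combination -h2 + b.re * h1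
    · simp
      linear_combination -h3 + b.im * h1
  have hn : ‖z - b‖ ≤ ∑ i, w i * ‖(⟨X i - A i * b.re, Y i - A i * b.im⟩ : ℂ)‖ := by
    rw [hz]
    refine (norm_sum_le _ _).trans (le_of_eq ?_)
    refine Finset.sum_congr rfl fun i _ => ?_
    rw [norm_mul, Complex.norm_real, Real.norm_of_nonneg (hw i)]
  have hs : ∑ i, w i * (2 * D * ‖(⟨X i - A i * b.re, Y i - A i * b.im⟩ : ℂ)‖) ≤
      ∑ i, w i * (2 * ((b.re - a.re) * X i + (b.im - a.im) * Y i) +
        A i * (a.re ^ 2 + a.im ^ 2 - b.re ^ 2 - b.im ^ 2 - D ^ 2)) :=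
    Finset.sum_le_sum fun i _ => mul_le_mul_of_nonneg_left (h i) (hw i)
  have hl : ∑ i, w i * (2 * D * ‖(⟨X i - A i * b.re, Y i - A i * b.im⟩ : ℂ)‖) =
      2 * D * ∑ i, w i * ‖(⟨X i - A i * b.re, Y i - A i * b.im⟩ : ℂ)‖ := by
    rw [Finset.mul_sum]; exact Finset.sum_congr rfl fun i _ => by ring
  have hr : ∑ i, w i * (2 * ((b.re - a.re) * X i + (b.im - a.im) * Y i) +
        A i * (a.re ^ 2 + a.im ^ 2 - b.re ^ 2 - b.im ^ 2 - D ^ 2)) =
      2 * ((b.re - a.re) * z.re + (b.im - a.im) * z.im) +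
        (a.re ^ 2 + a.im ^ 2 - b.re ^ 2 - b.im ^ 2 - D ^ 2) := by
    simp only [Fin.sum_univ_four] at h1 h2 h3 ⊢
    linear_combination (2 * (b.re - a.re)) * h2 + (2 * (b.im - a.im)) * h3 +
      (a.re ^ 2 + a.im ^ 2 - b.re ^ 2 - b.im ^ 2 - D ^ 2) * h1
  rw [hl, hr] at hs
  exact (mul_le_mul_of_nonneg_left hn (by positivity)).trans hs

theorem convex_hyp (a b : ℂ) {D : ℝ} (hD : 0 ≤ D) :
    Convex ℝ {z : ℂ | ‖z - b‖ + D ≤ ‖z - a‖} := by
  intro x hx y hy s t hs ht hst
  simp only [Set.mem_ofPred_eq] at hx hy ⊢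
  rw [char a b _ hD] at hx hy ⊢
  have hz : s • x + t • y - b = (s : ℂ) * (x - b) + (t : ℂ) * (y - b) := by
    have : (b : ℂ) = ((s + t : ℝ) : ℂ) * b := by rw [hst]; simp
    push_cast at this
    simp only [Complex.real_smul]
    linear_combination -this
  have hn : ‖s • x + t • y - b‖ ≤ s * ‖x - b‖ + t * ‖y - b‖ := by
    rw [hz]
    refine (norm_add_le _ _).trans (le_of_eq ?_)
    rw [norm_mul, norm_mul, Complex.norm_real, Complex.norm_real, Real.norm_of_nonneg hs,
      Real.norm_of_nonneg ht]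
  have h1 := mul_le_mul_of_nonneg_left hn (show 0 ≤ 2 * D by positivity)
  have h2 := mul_le_mul_of_nonneg_left hx hs
  have h3 := mul_le_mul_of_nonneg_left hy ht
  simp only [Complex.add_re, Complex.smul_re, Complex.add_im, Complex.smul_im, smul_eq_mul]
  have e : t = 1 - s := by linarith
  subst e
  nlinarith

/-- convex combination of four points of an open ball -/
theorem ball4 {b : ℂ} {R : ℝ} {w X Y : Fin 4 → ℝ} {z : ℂ}
    (hw : ∀ i, 0 ≤ w i) (h1 : ∑ i, w i = 1) (h2 : ∑ i, w i * X i = z.re)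
    (h3 : ∑ i, w i * Y i = z.im) (h : ∀ i, ‖(⟨X i, Y i⟩ : ℂ) - b‖ < R) : ‖z - b‖ < R := by
  have hz : z = ∑ i, w i • (⟨X i, Y i⟩ : ℂ) := by
    simp only [Fin.sum_univ_four] at h2 h3 ⊢
    apply Complex.ext
    · simp
      linarith
    · simp
      linarith
  have := (convex_ball b R).sum_mem (t := Finset.univ) (w := w)
    (z := fun i => (⟨X i, Y i⟩ : ℂ)) (fun i _ => hw i) h1
    (fun i _ => by simpa [Metric.mem_ball, dist_eq_norm] using h i)
  rw [← hz] at this
  simpa [Metric.mem_ball, dist_eq_norm] using this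

theorem av01 (g : Grid) (l : ℕ) : g.av l = 0 ∨ g.av l = 1 := by
  unfold Grid.av; split_ifs <;> simp

theorem nn_nonneg (g : Grid) (l : ℕ) : 0 ≤ g.nn l := by
  unfold Grid.nn; positivity

theorem tt_nonneg (g : Grid) (k : ℕ) : 0 ≤ g.tt k := by
  unfold Grid.tt; split_ifs <;> simp

/-- the four vertices: sectors and rings -/
theorem vert_side {g : Grid} (hg : g.OK) {u : ℕ} (hu : g.isCell u) :
    (∀ i, 0 ≤ g.vx (g.vert u i)) ∨ (∀ i, g.vx (g.vert u i) ≤ 0) := by
  obtain ⟨h1, h2⟩ := hu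
  have hM : g.M = g.T.length + 1 := rfl
  have hMp : 0 < g.M := by omega
  have hlt : u % g.M + 1 < g.M := by omega
  have hd1 : (u + 1) / g.M = u / g.M := by
    have h3 := Nat.div_add_mod u g.M
    have h4 : u + 1 = (u % g.M + 1) + g.M * (u / g.M) := by omega
    rw [h4, Nat.add_mul_div_left _ _ hMp, Nat.div_eq_of_lt hlt, zero_add]
  have hd2 : (u + g.M) / g.M = u / g.M + 1 := Nat.add_div_right _ hMp
  have hd3 : (u + g.M + 1) / g.M = u / g.M + 1 := by
    have : u + g.M + 1 = u + 1 + g.M := by omega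
    rw [this, Nat.add_div_right _ hMp, hd1]
  rcases hg.side (u / g.M) h1 with h | h
  · left
    intro i
    fin_cases i
    · exact mul_nonneg h.1 (tt_nonneg _ _)
    · show 0 ≤ g.dx ((u + 1) / g.M) * g.tt ((u + 1) % g.M)
      rw [hd1]; exact mul_nonneg h.1 (tt_nonneg _ _)
    · show 0 ≤ g.dx ((u + g.M) / g.M) * g.tt ((u + g.M) % g.M)
      rw [hd2]; exact mul_nonneg h.2 (tt_nonneg _ _)
    · show 0 ≤ g.dx ((u + g.M + 1) / g.M) * g.tt ((u + g.M + 1) % g.M)
      rw [hd3]; exact mul_nonneg h.2 (tt_nonneg _ _)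
  · right
    intro i
    fin_cases i
    · exact mul_nonpos_of_nonpos_of_nonneg h.1 (tt_nonneg _ _)
    · show g.dx ((u + 1) / g.M) * g.tt ((u + 1) % g.M) ≤ 0
      rw [hd1]; exact mul_nonpos_of_nonpos_of_nonneg h.1 (tt_nonneg _ _)
    · show g.dx ((u + g.M) / g.M) * g.tt ((u + g.M) % g.M) ≤ 0
      rw [hd2]; exact mul_nonpos_of_nonpos_of_nonneg h.2 (tt_nonneg _ _)
    · show g.dx ((u + g.M + 1) / g.M) * g.tt ((u + g.M + 1) % g.M) ≤ 0
      rw [hd3]; exact mul_nonpos_of_nonpos_of_nonneg h.2 (tt_nonneg _ _)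

/-- the near point is the same for the four vertices -/
theorem near_side {g : Grid} (hg : g.OK) {u : ℕ} (hu : g.isCell u) :
    ∃ b : Bool, ∀ i, ((|g.vx (g.vert u i)| : ℤ) : ℝ) * 1024 =
      (PB b).re * (g.vx (g.vert u i) : ℝ) := by
  rcases vert_side hg hu with h | h
  · refine ⟨true, fun i => ?_⟩
    rw [abs_of_nonneg (h i)]
    simp [PB]; ring
  · refine ⟨false, fun i => ?_⟩
    rw [abs_of_nonpos (h i)]
    simp [PB]; ring

theorem PB_im (b : Bool) : (PB b).im = 0 := by cases b <;> simp [PB]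
theorem PB_re_sq (b : Bool) : (PB b).re ^ 2 = 1048576 := by cases b <;> simp [PB] <;> norm_num
theorem PB_not (b : Bool) : (PB (!b)).re = -(PB b).re := by cases b <;> simp [PB]

/-- `w = ⌊√D⌋ + 1` bounds the norm -/
theorem norm_le_sqrt {z : ℂ} {D : ℤ} (h : z.re ^ 2 + z.im ^ 2 = (D : ℝ)) :
    ‖z‖ ≤ (((Nat.sqrt D.toNat : ℕ) : ℤ) + 1 : ℤ) := by
  have hD : (0 : ℝ) ≤ (D : ℝ) := by rw [← h]; positivity
  have hD' : 0 ≤ D := by exact_mod_cast hD
  have h1 : D.toNat < (Nat.sqrt D.toNat + 1) * (Nat.sqrt D.toNat + 1) := Nat.lt_succ_sqrt _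
  have h2 : D < ((Nat.sqrt D.toNat : ℕ) + 1 : ℤ) * ((Nat.sqrt D.toNat : ℕ) + 1 : ℤ) := by
    have : ((D.toNat : ℕ) : ℤ) < (((Nat.sqrt D.toNat + 1) * (Nat.sqrt D.toNat + 1) : ℕ) : ℤ) := by
      exact_mod_cast h1
    rw [Int.toNat_of_nonneg hD'] at this
    push_cast at this
    exact this
  have h3 : (D : ℝ) < (((Nat.sqrt D.toNat : ℕ) : ℝ) + 1) * (((Nat.sqrt D.toNat : ℕ) : ℝ) + 1) := by
    exact_mod_cast h2
  push_cast
  refine abs_le_of_sq_le_sq' ?_ (by positivity) |>.2
  rw [nsq, h]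
  nlinarith

end Una

open Una

theorem elim_false {g : Grid} (hg : g.OK) {L : List Corner} (hne : L ≠ [])
    (hL : ∀ c ∈ L, Grid.COK c)
    {q : ℂ} {x : Fin 6 → ℂ} (h : OC q x) (hq : q ∈ convexHull ℝ {z | ∃ c ∈ L, z = cpt c})
    {vlo2 : ℕ} (hv : (vlo2 : ℝ) ≤ ‖q - PB false‖ ^ 2)
    {i : Fin 6} {u : ℕ} (hu : g.isCell u) (hi : g.InCell u (x i)) (he : g.Elim L vlo2 u) :
    False := by
  obtain ⟨w, hw, hA, hX, hY⟩ := hi
  obtain ⟨b, hb⟩ := near_side hg hu
  -- facts about the vertices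
  have hqn : ∀ j, (g.qn (g.vert u j) : ℝ) =
      2 * (PB b).re * g.vx (g.vert u j) - 1048576 * g.av (g.vert u j) := by
    intro j
    have := hb j
    unfold Grid.qn
    push_cast at this ⊢
    linarith
  have hqf : ∀ j, (g.qf (g.vert u j) : ℝ) =
      2 * (PB (!b)).re * g.vx (g.vert u j) - 1048576 * g.av (g.vert u j) := by
    intro j
    have := hb j
    rw [PB_not]
    unfold Grid.qf
    push_cast at this ⊢
    linarith
  have hav2 : ∀ l, (g.av l : ℝ) ^ 2 = g.av l := by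
    intro l
    rcases av01 g l with h0 | h0 <;> rw [h0] <;> norm_num
  have hdn : ∀ j, ((g.vx (g.vert u j) : ℝ) - g.av (g.vert u j) * (PB b).re) ^ 2 +
      ((g.vy (g.vert u j) : ℝ) - g.av (g.vert u j) * (PB b).im) ^ 2 = (g.dn (g.vert u j) : ℝ) := by
    intro j
    have e : (g.dn (g.vert u j) : ℝ) = (g.vx (g.vert u j) : ℝ) ^ 2 + (g.vy (g.vert u j) : ℝ) ^ 2 -
        g.av (g.vert u j) * g.qn (g.vert u j) := by
      unfold Grid.dn Grid.nn; push_cast; ring
    rw [e, hqn, PB_im]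
    have h2 := hav2 (g.vert u j)
    have h3 := PB_re_sq b
    linear_combination (g.av (g.vert u j) : ℝ) ^ 2 * h3 - 1048576 * h2 + 1048576 * h2
  have hcd : ∀ (c : Corner) l, ((g.vx l : ℝ) - g.av l * (cpt c).re) ^ 2 +
      ((g.vy l : ℝ) - g.av l * (cpt c).im) ^ 2 = (g.cd c l : ℝ) := by
    intro c l
    have e : (g.cd c l : ℝ) = (g.vx l : ℝ) ^ 2 + (g.vy l : ℝ) ^ 2 -
        g.av l * (2 * (c.qx * g.vx l + c.qy * g.vy l) - (c.qx ^ 2 + c.qy ^ 2) * g.av l) := by
      unfold Grid.cd Grid.nn Grid.cq; push_cast; ring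
    rw [e]
    simp only [cpt]
    ring
  have hcorner : ∃ c, c ∈ L := List.exists_mem_of_ne_nil L hne
  -- a lane with `D < r * av` is a point
  have hpt : ∀ {D r : ℤ} {l : ℕ}, 0 ≤ D → D < r * g.av l → g.av l = 1 := by
    intro D r l h1 h2
    rcases av01 g l with h0 | h0
    · rw [h0] at h2; omega
    · exact h0
  have hball : ∀ (p : ℂ) (R : ℝ), (∀ j, g.av (g.vert u j) = 1) →
      (∀ j, ‖(⟨g.vx (g.vert u j), g.vy (g.vert u j)⟩ : ℂ) - p‖ < R) → ‖x i - p‖ < R := by
    intro p R h1 h2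
    refine ball4 hw ?_ hX hY h2
    rw [← hA]
    exact Finset.sum_congr rfl fun j _ => by rw [h1 j]; simp
  have hlt : ∀ {z : ℂ} {r : ℝ}, 0 ≤ r → z.re ^ 2 + z.im ^ 2 < r ^ 2 → ‖z‖ < r := by
    intro z r hr hz
    rw [← nsq] at hz
    exact lt_of_pow_lt_pow_left₀ 2 hr hz
  rcases he with he | he | he | he | he | he
  · -- U0
    have hv0 : ∀ j b', ‖(⟨g.vx (g.vert u j), g.vy (g.vert u j)⟩ : ℂ) - PB b'‖ <
        ‖q - PB false‖ := by
      intro j b'
      have h0 := he j
      unfold Grid.U0 at h0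
      have hdf : 0 ≤ g.df (g.vert u j) := by
        unfold Grid.df Grid.qf
        have := nn_nonneg g (g.vert u j)
        rcases av01 g (g.vert u j) with h1 | h1 <;> rw [h1] <;>
          nlinarith [abs_nonneg (g.vx (g.vert u j))]
      have h1 := hpt hdf h0
      have h2 : (g.df (g.vert u j) : ℝ) < vlo2 := by
        have : g.df (g.vert u j) < (vlo2 : ℤ) := by rw [h1] at h0; simpa using h0
        exact_mod_cast this
      refine hlt (norm_nonneg _) (lt_of_lt_of_le ?_ hv)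
      refine lt_of_le_of_lt ?_ h2
      have e : (g.df (g.vert u j) : ℝ) = (g.vx (g.vert u j) : ℝ) ^ 2 +
          (g.vy (g.vert u j) : ℝ) ^ 2 + (2048 * |(g.vx (g.vert u j) : ℝ)| + 1048576) := by
        unfold Grid.df Grid.nn Grid.qf; rw [h1]; push_cast; ring
      rw [e]
      have h3 := PB_re_sq b'
      have h4 := PB_im b'
      simp only [Complex.sub_re, Complex.sub_im, h4]
      have h5 : -(PB b').re * (g.vx (g.vert u j) : ℝ) ≤ 1024 * |(g.vx (g.vert u j) : ℝ)| := by
        cases b'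
        · simp only [PB]
          have := le_abs_self (g.vx (g.vert u j) : ℝ)
          simp; linarith
        · simp only [PB]
          have := neg_abs_le (g.vx (g.vert u j) : ℝ)
          simp; linarith
      nlinarith
    have hav : ∀ j, g.av (g.vert u j) = 1 := by
      intro j
      have h0 := he j
      unfold Grid.U0 at h0
      refine hpt ?_ h0
      unfold Grid.df Grid.qf
      have := nn_nonneg g (g.vert u j)
      rcases av01 g (g.vert u j) with h1 | h1 <;> rw [h1] <;>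
        nlinarith [abs_nonneg (g.vx (g.vert u j))]
    have h1 := hball (PB false) _ hav (fun j => hv0 j false)
    have h2 := hball (PB true) _ hav (fun j => hv0 j true)
    have h3 := h.hV i
    exact absurd (max_lt h1 h2) (not_lt.mpr h3)
  · -- U1
    have hd0 : ∀ j, 0 ≤ g.dn (g.vert u j) := by
      intro j
      have : (0 : ℝ) ≤ (g.dn (g.vert u j) : ℝ) := by rw [← hdn j]; positivity
      exact_mod_cast this
    have hav : ∀ j, g.av (g.vert u j) = 1 := fun j => hpt (hd0 j) (he j)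
    have h1 := hball (PB b) 2048 hav (fun j => by
      refine hlt (by norm_num) ?_
      have h0 := he j
      unfold Grid.U1 at h0
      rw [hav j] at h0
      have h2 : (g.dn (g.vert u j) : ℝ) < 2 ^ 22 := by
        have : g.dn (g.vert u j) < 2 ^ 22 := by simpa using h0
        exact_mod_cast this
      have h3 := hdn j
      rw [hav j] at h3
      simp only [Complex.sub_re, Complex.sub_im]
      push_cast at h3
      rw [one_mul, one_mul] at h3
      rw [h3]
      linarith)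
    exact absurd (h.n01 i b) (not_le.mpr h1)
  · -- U2
    have hc : ∀ c ∈ L, ‖x i - cpt c‖ < 2048 := by
      intro c hc
      have hd0 : ∀ j, 0 ≤ g.cd c (g.vert u j) := by
        intro j
        have : (0 : ℝ) ≤ (g.cd c (g.vert u j) : ℝ) := by rw [← hcd c]; positivity
        exact_mod_cast this
      have hav : ∀ j, g.av (g.vert u j) = 1 := fun j => hpt (hd0 j) (he c hc j)
      refine hball (cpt c) 2048 hav (fun j => ?_)
      refine hlt (by norm_num) ?_
      have h0 := he c hc j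
      unfold Grid.U2 at h0
      rw [hav j] at h0
      have h2 : (g.cd c (g.vert u j) : ℝ) < 2 ^ 22 := by
        have : g.cd c (g.vert u j) < 2 ^ 22 := by simpa using h0
        exact_mod_cast this
      have h3 := hcd c (g.vert u j)
      rw [hav j] at h3
      simp only [Complex.sub_re, Complex.sub_im]
      push_cast at h3
      rw [one_mul, one_mul] at h3
      rw [h3]
      linarith
    have hsub : convexHull ℝ {z | ∃ c ∈ L, z = cpt c} ⊆ Metric.ball (x i) 2048 := by
      refine convexHull_min ?_ (convex_ball _ _)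
      rintro z ⟨c, hcL, rfl⟩
      rw [Metric.mem_ball, dist_eq_norm, norm_sub_rev]
      exact hc c hcL
    have h1 := hsub hq
    rw [Metric.mem_ball, dist_eq_norm, norm_sub_rev] at h1
    exact absurd (h.nq i) (not_le.mpr h1)
  · -- U3
    have hc : ∀ c ∈ L, ‖x i - PB b‖ + (c.d : ℝ) ≤ ‖x i - cpt c‖ := by
      intro c hc
      refine hull (Nat.cast_nonneg _) hw hA hX hY (fun j => ?_)
      have h0 := he c hc j
      unfold Grid.U3 at h0
      have h1 : (0 : ℝ) ≤ (g.qn (g.vert u j) : ℝ) - g.cq c (g.vert u j) -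
          2 * c.d * g.wn (g.vert u j) - c.d ^ 2 * g.av (g.vert u j) := by exact_mod_cast h0
      have h2 := norm_le_sqrt (z := ⟨g.vx (g.vert u j) - g.av (g.vert u j) * (PB b).re,
        g.vy (g.vert u j) - g.av (g.vert u j) * (PB b).im⟩) (hdn j)
      have h2' : ‖(⟨g.vx (g.vert u j) - g.av (g.vert u j) * (PB b).re,
        g.vy (g.vert u j) - g.av (g.vert u j) * (PB b).im⟩ : ℂ)‖ ≤ (g.wn (g.vert u j) : ℝ) := h2
      have h3 := mul_le_mul_of_nonneg_left h2' (show (0 : ℝ) ≤ 2 * c.d by positivity)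
      have e : (g.cq c (g.vert u j) : ℝ) = 2 * (c.qx * g.vx (g.vert u j) +
          c.qy * g.vy (g.vert u j)) - (c.qx ^ 2 + c.qy ^ 2) * g.av (g.vert u j) := by
        unfold Grid.cq; push_cast; ring
      rw [hqn j, e] at h1
      have h4 := PB_re_sq b
      have h5 := PB_im b
      refine h3.trans ?_
      have h6 : (g.av (g.vert u j) : ℝ) * (PB b).re ^ 2 = 1048576 * g.av (g.vert u j) := by
        rw [h4]; ring
      rw [h5]
      simp only [cpt]
      nlinarith
    have hsub : convexHull ℝ {z | ∃ c ∈ L, z = cpt c} ⊆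
        {z : ℂ | ‖z - PB true‖ + ‖x i - PB b‖ ≤ ‖z - x i‖} := by
      refine convexHull_min ?_ (convex_hyp (x i) (PB true) (norm_nonneg _))
      rintro z ⟨c, hcL, rfl⟩
      have h1 := hc c hcL
      have h2 : ‖cpt c - PB true‖ ≤ c.d := by
        refine abs_le_of_sq_le_sq' ?_ (Nat.cast_nonneg _) |>.2
        rw [nsq]
        have h3 : ((c.qx : ℤ) ^ 2 + (c.qy : ℤ) ^ 2 + 1048576 : ℝ) ≤
            (c.d : ℤ) ^ 2 + 2048 * (c.qx : ℤ) := by exact_mod_cast (hL c hcL).2.2.2.2.1
        push_cast at h3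
        simp [cpt, PB]
        nlinarith
      simp only [Set.mem_ofPred_eq]
      rw [norm_sub_rev (cpt c) (x i)]
      linarith
    have h1 := hsub hq
    simp only [Set.mem_ofPred_eq] at h1
    have h2 := h.u1 i b
    rw [norm_sub_rev q (x i)] at h1
    linarith
  · -- U4
    have hc : ∀ c ∈ L, ‖x i - cpt c‖ + 2048 ≤ ‖x i - PB (!b)‖ := by
      intro c hc
      refine hull (by norm_num) hw hA hX hY (fun j => ?_)
      have h0 := he c hc j
      unfold Grid.U4 at h0
      have h1 : (0 : ℝ) ≤ (g.cq c (g.vert u j) : ℝ) - g.qf (g.vert u j) -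
          4096 * g.cw c (g.vert u j) - 2 ^ 22 * g.av (g.vert u j) := by exact_mod_cast h0
      have h2 := norm_le_sqrt (z := ⟨g.vx (g.vert u j) - g.av (g.vert u j) * (cpt c).re,
        g.vy (g.vert u j) - g.av (g.vert u j) * (cpt c).im⟩) (hcd c (g.vert u j))
      have h2' : ‖(⟨g.vx (g.vert u j) - g.av (g.vert u j) * (cpt c).re,
        g.vy (g.vert u j) - g.av (g.vert u j) * (cpt c).im⟩ : ℂ)‖ ≤
          (g.cw c (g.vert u j) : ℝ) := h2
      have e : (g.cq c (g.vert u j) : ℝ) = 2 * (c.qx * g.vx (g.vert u j) +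
          c.qy * g.vy (g.vert u j)) - (c.qx ^ 2 + c.qy ^ 2) * g.av (g.vert u j) := by
        unfold Grid.cq; push_cast; ring
      rw [hqf j, e] at h1
      have h4 := PB_re_sq (!b)
      have h5 := PB_im (!b)
      have h6 : (g.av (g.vert u j) : ℝ) * (PB (!b)).re ^ 2 = 1048576 * g.av (g.vert u j) := by
        rw [h4]; ring
      rw [h5]
      have hre : (cpt c).re = (c.qx : ℝ) := rfl
      have him : (cpt c).im = (c.qy : ℝ) := rfl
      rw [hre, him] at h2' ⊢
      nlinarith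
    have hsub : convexHull ℝ {z | ∃ c ∈ L, z = cpt c} ⊆
        Metric.closedBall (x i) (‖x i - PB (!b)‖ - 2048) := by
      refine convexHull_min ?_ (convex_closedBall _ _)
      rintro z ⟨c, hcL, rfl⟩
      rw [Metric.mem_closedBall, dist_eq_norm, norm_sub_rev]
      linarith [hc c hcL]
    have h1 := hsub hq
    rw [Metric.mem_closedBall, dist_eq_norm, norm_sub_rev] at h1
    have h2 := h.u2 i (!b)
    linarith
  · -- U5
    have hc : ∀ c ∈ L, ‖cpt c - x i‖ + 2048 ≤ ‖cpt c - PB false‖ := by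
      intro c hc
      have hd0 : ∀ j, 0 ≤ g.cd c (g.vert u j) := by
        intro j
        have : (0 : ℝ) ≤ (g.cd c (g.vert u j) : ℝ) := by rw [← hcd c]; positivity
        exact_mod_cast this
      have hav : ∀ j, g.av (g.vert u j) = 1 := fun j => hpt (hd0 j) (he c hc j)
      have h1 : ‖x i - cpt c‖ < c.t := by
        refine hball (cpt c) c.t hav (fun j => ?_)
        refine hlt (Nat.cast_nonneg _) ?_
        have h0 := he c hc j
        unfold Grid.U5 at h0
        rw [hav j] at h0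
        have h2 : (g.cd c (g.vert u j) : ℝ) < (c.t : ℝ) ^ 2 := by
          have : g.cd c (g.vert u j) < (c.t : ℤ) ^ 2 := by simpa using h0
          exact_mod_cast this
        have h3 := hcd c (g.vert u j)
        rw [hav j] at h3
        simp only [Complex.sub_re, Complex.sub_im]
        push_cast at h3
        rw [one_mul, one_mul] at h3
        rw [h3]
        exact h2
      have ht : c.t ≠ 0 := by
        intro h0
        rw [h0] at h1
        have := norm_nonneg (x i - cpt c)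
        simp at h1
        linarith
      have h2 := ((hL c hc).2.2.2.2.2).resolve_left ht
      have h3 : ((c.t : ℝ) + 2048) ^ 2 ≤ ((c.qx : ℝ) + 1024) ^ 2 + (c.qy : ℝ) ^ 2 := by
        exact_mod_cast h2
      have h4 : (c.t : ℝ) + 2048 ≤ ‖cpt c - PB false‖ := by
        refine abs_le_of_sq_le_sq' ?_ (norm_nonneg _) |>.2
        rw [nsq]
        simp [cpt, PB]
        nlinarith
      rw [norm_sub_rev (cpt c) (x i)]
      linarith
    have hsub : convexHull ℝ {z | ∃ c ∈ L, z = cpt c} ⊆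
        {z : ℂ | ‖z - x i‖ + 2048 ≤ ‖z - PB false‖} := by
      refine convexHull_min ?_ (convex_hyp (PB false) (x i) (by norm_num))
      rintro z ⟨c, hcL, rfl⟩
      exact hc c hcL
    have h1 := hsub hq
    simp only [Set.mem_ofPred_eq] at h1
    linarith [h.u4 i]

end Pool.Agent.K9
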