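import Mathlib
import Pool.Agent.K9.EnvG
import Pool.Agent.K9.EnvB
import Pool.Agent.K9.Row
import Pool.Agent.K9.Geo
import Pool.Agent.K9.Una
import Pool.Agent.K9.Cov
import Pool.Agent.K9.Search
import Pool.Agent.K9.L7
import Pool.Agent.K9.LF
import Pool.Agent.K9.Chk2

/-! # K9: soundness of the certificates for the boxes -/

namespace Pool.Agent.K9

theorem force_rel {α β : Type} {n : ℕ} {F1 : ℕ → α} {F2 : ℕ → β} {k : β → α}
    (h : ∀ m, F1 m = k (F2 m)) : force n F1 = k (force n F2) := h n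

/-- the vectors of the grid -/
def envG (g : Grid) : GEnv := mkG g id

theorem mkG_nat {α : Type} (g : Grid) (k : GEnv → α) : mkG g k = k (envG g) := by
  unfold envG mkG
  repeat (refine force_rel fun _ => ?_)
  rfl

theorem envG_rep {g : Grid} (hg : g.OK) : g.GRep (envG g) := by
  obtain ⟨G, hG, h⟩ := mkG_spec g hg id
  have : envG g = G := h
  rw [this]
  exact hG

theorem sndC_nil {α : Type} (G : GEnv) (k : ℕ → ℕ → ℕ → ℕ → ℕ → ℕ → ℕ → α) :
    mkC G k [] = k := rfl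

theorem sndC_cons {α : Type} (G : GEnv) (k : ℕ → ℕ → ℕ → ℕ → ℕ → ℕ → ℕ → α)
    (c : Corner) (L : List Corner) (QM WM GM U0 U1 U2 U4 : ℕ) :
    mkC G k (c :: L) QM WM GM U0 U1 U2 U4 =
      (force (cQ G c) fun Q =>
      force (cD G c) fun D =>
      force (sqv G.ONE D) fun W =>
      force (cGv G c Q W D) fun Gv =>
      force (vmin G.ONE QM Q) fun QM' =>
      force (vmax G.ONE WM W) fun WM' =>
      force (vmax G.ONE GM Gv) fun GM' =>
      force (Nat.land U0 (cU0 G D)) fun U0' =>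
      force (Nat.land U1 (cU1 G c Q)) fun U1' =>
      force (Nat.land U2 (cU2 G Q W)) fun U2' =>
      force (Nat.land U4 (cU4 G c D)) fun U4' =>
      mkC G k L QM' WM' GM' U0' U1' U2' U4') := rfl

theorem sndC_rel {α β : Type} (G : GEnv) (k : ℕ → ℕ → ℕ → ℕ → ℕ → ℕ → ℕ → α)
    (k' : ℕ → ℕ → ℕ → ℕ → ℕ → ℕ → ℕ → β) (f : β → α)
    (h : ∀ a b c d e a' b', k a b c d e a' b' = f (k' a b c d e a' b'))
    (L : List Corner) (a b c d e a' b' : ℕ) :
    mkC G k L a b c d e a' b' = f (mkC G k' L a b c d e a' b') := by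
  induction L generalizing a b c d e a' b' with
  | nil => exact h _ _ _ _ _ _ _
  | cons x L ih =>
    rw [sndC_cons, sndC_cons]
    iterate 11 refine force_rel fun _ => ?_
    exact ih _ _ _ _ _ _ _

/-- the vectors of the box -/
def envB (g : Grid) (L : List Corner) (vlo2 : ℕ) : BEnv := mkB (envG g) L vlo2 id

theorem mkB_nat {α : Type} (g : Grid) (L : List Corner) (vlo2 : ℕ) (k : BEnv → α) :
    mkB (envG g) L vlo2 k = k (envB g L vlo2) := by
  unfold envB mkB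
  refine sndC_rel _ _ _ _ (fun _ _ _ _ _ _ _ => ?_) _ _ _ _ _ _ _ _
  iterate 12 refine force_rel fun _ => ?_
  rfl

theorem envB_rep {g : Grid} (hg : g.OK) {L : List Corner} (hL : ∀ c ∈ L, Grid.COK c) {vlo2 : ℕ}
    (hv : vlo2 < 2 ^ 40) : (envB g L vlo2).G = envG g ∧ g.BRep L vlo2 (envB g L vlo2) := by
  obtain ⟨e, h1, h2, h3⟩ := mkB_spec g hg (envG g) (envG_rep hg) L hL vlo2 hv id
  have : envB g L vlo2 = e := h3
  rw [this]
  exact ⟨h1, h2⟩

/-- placing the outer points into cells -/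
theorem exists_place {g : Grid} (hg : g.OK) {L : List Corner} (hne : L ≠ [])
    (hL : ∀ c ∈ L, Grid.COK c) {vlo2 : ℕ} (hv : vlo2 < 2 ^ 40)
    {q : ℂ} {x : Fin 6 → ℂ} (h : OC q x) (hq : q ∈ convexHull ℝ {z | ∃ c ∈ L, z = cpt c})
    (hvq : (vlo2 : ℝ) ≤ ‖q - PB false‖ ^ 2) :
    ∃ c : Fin 6 → ℕ, Place g (envB g L vlo2) c ∧ ∀ i, g.InCell (c i) (x i) := by
  have hex : ∀ i, ∃ l, g.isCell l ∧ g.InCell l (x i) :=
    fun i => exists_cell hg (x i) (outer_norm h i)
  choose c hc1 hc2 using hex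
  have he := (envB_rep hg hL hv).2
  refine ⟨c, ⟨hc1, ?_, ?_, ?_⟩, hc2⟩
  · intro i
    by_contra hcon
    have h1 : (envB g L vlo2).ACT.testBit (48 * c i) = false := by simpa using hcon
    exact elim_false hg hne hL h hq hvq (hc1 i) (hc2 i) (he.act2 _ (hc1 i) h1)
  · intro i j hij
    by_contra hcon
    have h1 : (row (envB g L vlo2) (c i)).testBit (48 * c j) = true := by simpa using hcon
    obtain ⟨h2, h3⟩ := row_spec hg hL he (hc1 i) h1
    rcases h3 with ⟨h4, h5⟩ | h3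
    · exact confl_false hg hL h hq hij h4 h2 (hc2 i) (hc2 j) h5
    · exact ang_false hg h hij (hc1 i) h2 (hc2 i) (hc2 j) h3
  · intro v i hi
    obtain ⟨l, -, hl⟩ := he.act1 i (row_testBit he v i hi)
    exact ⟨l, hl⟩

theorem cell_lt {g : Grid} (hg : g.OK) {l : ℕ} (hl : g.isCell l) : l < g.M * g.J := by
  have h1 := Nat.div_add_mod l g.M
  have h2 := Nat.mod_lt l hg.Mpos
  have h3 : g.M * (l / g.M) + g.M ≤ g.M * g.J := by
    calc g.M * (l / g.M) + g.M = g.M * (l / g.M + 1) := by ring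
      _ ≤ g.M * g.J := Nat.mul_le_mul_left _ hl.1
  omega

theorem R_div {g : Grid} {G : GEnv} (hG : g.GRep G) : Nat.div G.R 48 = g.M * g.J := by
  show G.R / 48 = _
  rw [hG.hR, mul_assoc]
  exact Nat.mul_div_cancel_left _ (by norm_num)

theorem chkT_eq (g : Grid) (L : List Corner) (vlo2 : ℕ) (ws : List ℕ) (t : Tree) :
    chkT g L vlo2 ws t = tChk (envB g L vlo2) ws t (envB g L vlo2).ACT 5 := by
  unfold chkT
  rw [mkG_nat]
  rw [mkB_nat]

theorem chkT_sound {g : Grid} (hg : g.OK) {L : List Corner} (hne : L ≠ [])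
    (hL : ∀ c ∈ L, Grid.COK c) {vlo2 : ℕ} (hv : vlo2 < 2 ^ 40) {ws : List ℕ} {t : Tree}
    (hM : ∀ v, 0 ≤ v → v < g.M * g.J → mChk (envB g L vlo2) ws v = true)
    (hchk : chkT g L vlo2 ws t = true)
    {q : ℂ} {x : Fin 6 → ℂ} (h : OC q x) (hq : q ∈ convexHull ℝ {z | ∃ c ∈ L, z = cpt c})
    (hvq : (vlo2 : ℝ) ≤ ‖q - PB false‖ ^ 2) : False := by
  obtain ⟨c, hc, -⟩ := exists_place hg hne hL hv h hq hvq
  obtain ⟨-, he⟩ := envB_rep (L := L) hg hL hv
  rw [chkT_eq] at hchk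
  generalize envB g L vlo2 = e at hc he hchk hM
  have hmemb : Memb e ws c := fun i => hM _ (Nat.zero_le _) (cell_lt hg (hc.cell i))
  have h5 := tChk_spec hg he.grep hc hmemb hchk
  rw [Finset.filter_true_of_mem (fun i _ => hc.act i)] at h5
  simp at h5

/-- all outer points lie in cells which are lexicographically (ring, sector) at least `(k, j)` -/
def Occ (g : Grid) (c : Fin 6 → ℕ) (k j : ℕ) : Prop :=
  ∀ i, k < c i % g.M ∨ (c i % g.M = k ∧ j ≤ c i / g.M)

theorem chkM_eq (g : Grid) (L : List Corner) (vlo2 : ℕ) (ws : List ℕ) (a n : ℕ) :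
    chkM g L vlo2 ws a n = mAll (envB g L vlo2) ws n a := by
  unfold chkM
  rw [mkG_nat]
  rw [mkB_nat]

theorem chkM_sound {g : Grid} {L : List Corner} {vlo2 : ℕ} {ws : List ℕ} {a n : ℕ}
    (hchk : chkM g L vlo2 ws a n = true) {v : ℕ} (h1 : a ≤ v) (h2 : v < a + n) :
    mChk (envB g L vlo2) ws v = true := by
  rw [chkM_eq] at hchk
  exact mAll_spec hchk h1 h2

theorem chkP_eq (g : Grid) (L : List Corner) (vlo2 : ℕ) (ws : List ℕ) (k0 j0 k1 j1 : ℕ)
    (pl : List (ℕ × Tree)) : chkP g L vlo2 ws k0 j0 k1 j1 pl =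
    force (upTo (envG g) k1 j1) fun U =>
      peel (envB g L vlo2) ws pl (fun P => Nat.beq (Nat.land P U) P)
      (Nat.land (envB g L vlo2).ACT (upTo (envG g) k0 j0)) := by
  unfold chkP
  rw [mkG_nat]
  rw [mkB_nat]

theorem chkP_sound {g : Grid} (hg : g.OK) {L : List Corner}
    (hL : ∀ c ∈ L, Grid.COK c) {vlo2 : ℕ} (hv : vlo2 < 2 ^ 40) {ws : List ℕ}
    {c : Fin 6 → ℕ} (hc : Place g (envB g L vlo2) c) (hm : Memb (envB g L vlo2) ws c)
    {k0 j0 k1 j1 : ℕ} (hk0 : k0 < g.M) (hk1 : k1 < g.M) {pl : List (ℕ × Tree)}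
    (hchk : chkP g L vlo2 ws k0 j0 k1 j1 pl = true)
    (h0 : Occ g c k0 j0) : Occ g c k1 j1 := by
  obtain ⟨-, he⟩ := envB_rep (L := L) hg hL hv
  have hGr : g.GRep (envG g) := envG_rep hg
  rw [chkP_eq] at hchk
  generalize envB g L vlo2 = e at hc he hchk hm
  generalize envG g = G at hGr hchk
  rw [force_eq] at hchk
  obtain ⟨P', h1, h2⟩ := peel_spec hg he.grep hc hm hchk (by
    intro i
    show (e.ACT &&& upTo G k0 j0).testBit (48 * c i) = true
    rw [Nat.testBit_land, hc.act i, Bool.true_and]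
    exact (upTo_spec hg hGr hk0 (hc.cell i)).2 (h0 i))
  have h3 : P' &&& upTo G k1 j1 = P' := Nat.eq_of_beq_eq_true h1
  intro i
  refine (upTo_spec hg hGr hk1 (hc.cell i)).1 ?_
  have h4 := h2 i
  rw [← h3, Nat.testBit_land, Bool.and_eq_true] at h4
  exact h4.2

end Pool.Agent.K9
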