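import Mathlib
import Pool.Agent.K9.Sound
import Pool.Agent.K9.Red

/-! # K9: boxes for the third point -/

namespace Pool.Agent.K9

/-- no configuration has its third point `q` in the box -/
def Bad (x0 x1 y0 y1 : ℕ) : Prop :=
  ∀ (q : ℂ) (x : Fin 6 → ℂ), (x0 : ℝ) ≤ q.re → q.re ≤ x1 → (y0 : ℝ) ≤ q.im → q.im ≤ y1 →
    OC q x → False

theorem bad_splitx {x0 x1 y0 y1 : ℕ} (m : ℕ) (h1 : Bad x0 m y0 y1) (h2 : Bad m x1 y0 y1) :
    Bad x0 x1 y0 y1 := by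
  intro q x a b c d h
  rcases le_total q.re m with hm | hm
  · exact h1 q x a hm c d h
  · exact h2 q x hm b c d h

theorem bad_splity {x0 x1 y0 y1 : ℕ} (m : ℕ) (h1 : Bad x0 x1 y0 m) (h2 : Bad x0 x1 m y1) :
    Bad x0 x1 y0 y1 := by
  intro q x a b c d h
  rcases le_total q.im m with hm | hm
  · exact h1 q x a b c hm h
  · exact h2 q x a b hm d h

theorem normSq_PBtrue (q : ℂ) : ‖q - PB true‖ ^ 2 = (q.re - 1024) ^ 2 + q.im ^ 2 := by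
  rw [← Complex.normSq_eq_norm_sq, Complex.normSq_apply]
  simp [PB]
  ring

theorem normSq_PBfalse (q : ℂ) : ‖q - PB false‖ ^ 2 = (q.re + 1024) ^ 2 + q.im ^ 2 := by
  rw [← Complex.normSq_eq_norm_sq, Complex.normSq_apply]
  simp [PB]
  ring

/-- boxes inside the disk of radius 2048 around 1024 -/
theorem bad_near {x0 x1 y0 y1 : ℕ} (h0 : ((x0 : ℤ) - 1024) ^ 2 + (y1 : ℤ) ^ 2 < 2 ^ 22)
    (h1 : ((x1 : ℤ) - 1024) ^ 2 + (y1 : ℤ) ^ 2 < 2 ^ 22) : Bad x0 x1 y0 y1 := by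
  intro q x a b c d h
  have h2 := h.nqq true
  have h0' : ((x0 : ℝ) - 1024) ^ 2 + (y1 : ℝ) ^ 2 < 2 ^ 22 := by exact_mod_cast h0
  have h1' : ((x1 : ℝ) - 1024) ^ 2 + (y1 : ℝ) ^ 2 < 2 ^ 22 := by exact_mod_cast h1
  have h3 : (2048 : ℝ) ^ 2 ≤ ‖q - PB true‖ ^ 2 := by
    have := norm_nonneg (q - PB true)
    nlinarith
  rw [normSq_PBtrue] at h3
  have hy0 : (0 : ℝ) ≤ y0 := Nat.cast_nonneg _
  have h4 : q.im ^ 2 ≤ (y1 : ℝ) ^ 2 := by nlinarith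
  rcases le_total q.re 1024 with h5 | h5
  · have : (q.re - 1024) ^ 2 ≤ ((x0 : ℝ) - 1024) ^ 2 := by nlinarith
    nlinarith
  · have : (q.re - 1024) ^ 2 ≤ ((x1 : ℝ) - 1024) ^ 2 := by nlinarith
    nlinarith

/-- boxes at distance at least `9 * 2048` from `-1024` -/
theorem bad_far {x0 x1 y0 y1 : ℕ} (h0 : (9 * 2048) ^ 2 ≤ (x0 + 1024) ^ 2 + y0 ^ 2) :
    Bad x0 x1 y0 y1 := by
  intro q x a b c d h
  have hx0 : (0 : ℝ) ≤ x0 := Nat.cast_nonneg _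
  have hy0 : (0 : ℝ) ≤ y0 := Nat.cast_nonneg _
  refine lemma7 h (hx0.trans a) ?_
  have h0' : ((9 : ℝ) * 2048) ^ 2 ≤ ((x0 : ℝ) + 1024) ^ 2 + (y0 : ℝ) ^ 2 := by exact_mod_cast h0
  have h1 : ((9 : ℝ) * 2048) ^ 2 ≤ ‖q - PB false‖ ^ 2 := by
    rw [normSq_PBfalse]
    nlinarith
  exact le_of_sq_le_sq h1 (norm_nonneg _)

theorem root {q : ℂ} {x : Fin 6 → ℂ} (hb : Bad 0 18432 0 18432) (h1 : 0 ≤ q.re) (h2 : 0 ≤ q.im)
    (h : OC q x) : False := by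
  rcases le_or_gt q.re 18432 with hr | hr
  · rcases le_or_gt q.im 18432 with hi | hi
    · exact hb q x (by simpa using h1) (by simpa using hr) (by simpa using h2)
        (by simpa using hi) h
    · refine lemma7 h h1 ?_
      have h3 : ((9 : ℝ) * 2048) ^ 2 ≤ ‖q - PB false‖ ^ 2 := by
        rw [normSq_PBfalse]
        nlinarith
      exact le_of_sq_le_sq h3 (norm_nonneg _)
  · refine lemma7 h h1 ?_
    have h3 : ((9 : ℝ) * 2048) ^ 2 ≤ ‖q - PB false‖ ^ 2 := by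
      rw [normSq_PBfalse]
      nlinarith
    exact le_of_sq_le_sq h3 (norm_nonneg _)

/-- check of the conditions on a corner -/
def cokB (c : Corner) : Bool :=
  and (and (and (Nat.ble c.qx 32768) (Nat.ble c.qy 32768))
      (and (Nat.ble c.d 65536) (Nat.ble c.t 65536)))
    (and (Nat.ble (c.qx * c.qx + c.qy * c.qy + 1048576) (c.d * c.d + 2048 * c.qx))
      (or (Nat.beq c.t 0) (Nat.ble ((c.t + 2048) * (c.t + 2048))
        ((c.qx + 1024) * (c.qx + 1024) + c.qy * c.qy))))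

theorem cokB_sound {c : Corner} (h : cokB c = true) : Grid.COK c := by
  unfold cokB at h
  simp only [Bool.and_eq_true, Bool.or_eq_true, Nat.ble_eq, Nat.beq_eq] at h
  obtain ⟨⟨⟨h1, h2⟩, h3, h4⟩, h5, h6⟩ := h
  refine ⟨by simpa using h1, by simpa using h2, by simpa using h3, by simpa using h4, ?_, ?_⟩
  · have : ((c.qx * c.qx + c.qy * c.qy + 1048576 : ℕ) : ℤ) ≤ ((c.d * c.d + 2048 * c.qx : ℕ) : ℤ) :=
      by exact_mod_cast h5
    push_cast at this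
    nlinarith
  · rcases h6 with h6 | h6
    · exact Or.inl h6
    · right
      have : (((c.t + 2048) * (c.t + 2048) : ℕ) : ℤ) ≤
          (((c.qx + 1024) * (c.qx + 1024) + c.qy * c.qy : ℕ) : ℤ) := by exact_mod_cast h6
      push_cast at this
      nlinarith

def boxB (x0 x1 y0 y1 : ℕ) (L : List Corner) : Bool :=
  and (List.all L cokB) (and (Nat.blt x0 x1) (Nat.blt y0 y1))

theorem mem_hull {x0 x1 y0 y1 d0 t0 d1 t1 d2 t2 d3 t3 : ℕ} (hx : x0 < x1) (hy : y0 < y1)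
    {q : ℂ} (h1 : (x0 : ℝ) ≤ q.re) (h2 : q.re ≤ x1) (h3 : (y0 : ℝ) ≤ q.im) (h4 : q.im ≤ y1) :
    q ∈ convexHull ℝ {z | ∃ c ∈ cnr x0 x1 y0 y1 d0 t0 d1 t1 d2 t2 d3 t3, z = cpt c} := by
  set S : Set ℂ := {z | ∃ c ∈ cnr x0 x1 y0 y1 d0 t0 d1 t1 d2 t2 d3 t3, z = cpt c} with hS
  have hx' : (x0 : ℝ) < x1 := by exact_mod_cast hx
  have hy' : (y0 : ℝ) < y1 := by exact_mod_cast hy
  have a1 : (⟨x0, y0⟩ : ℂ) ∈ convexHull ℝ S :=
    subset_convexHull ℝ S ⟨⟨x0, y0, d0, t0⟩, by simp [cnr], rfl⟩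
  have a2 : (⟨x1, y0⟩ : ℂ) ∈ convexHull ℝ S :=
    subset_convexHull ℝ S ⟨⟨x1, y0, d1, t1⟩, by simp [cnr], rfl⟩
  have a3 : (⟨x0, y1⟩ : ℂ) ∈ convexHull ℝ S :=
    subset_convexHull ℝ S ⟨⟨x0, y1, d2, t2⟩, by simp [cnr], rfl⟩
  have a4 : (⟨x1, y1⟩ : ℂ) ∈ convexHull ℝ S :=
    subset_convexHull ℝ S ⟨⟨x1, y1, d3, t3⟩, by simp [cnr], rfl⟩
  have hc := convex_convexHull ℝ S
  obtain ⟨s, hs0, hs1, hs⟩ : ∃ s : ℝ, 0 ≤ s ∧ s ≤ 1 ∧ q.re = (1 - s) * x0 + s * x1 := by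
    refine ⟨(q.re - x0) / (x1 - x0), div_nonneg (by linarith) (by linarith),
      (div_le_one (by linarith)).2 (by linarith), ?_⟩
    have : (x1 : ℝ) - x0 ≠ 0 := by linarith
    field_simp
    ring
  obtain ⟨t, ht0, ht1, ht⟩ : ∃ t : ℝ, 0 ≤ t ∧ t ≤ 1 ∧ q.im = (1 - t) * y0 + t * y1 := by
    refine ⟨(q.im - y0) / (y1 - y0), div_nonneg (by linarith) (by linarith),
      (div_le_one (by linarith)).2 (by linarith), ?_⟩
    have : (y1 : ℝ) - y0 ≠ 0 := by linarith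
    field_simp
    ring
  have b1 : (⟨q.re, y0⟩ : ℂ) ∈ convexHull ℝ S := by
    have h := hc a1 a2 (sub_nonneg.2 hs1) hs0 (by ring)
    have e : (1 - s) • (⟨x0, y0⟩ : ℂ) + s • (⟨x1, y0⟩ : ℂ) = ⟨q.re, y0⟩ := by
      apply Complex.ext
      · simp only [Complex.add_re, Complex.smul_re, smul_eq_mul]
        rw [hs]
      · simp only [Complex.add_im, Complex.smul_im, smul_eq_mul]
        ring
    rwa [e] at h
  have b2 : (⟨q.re, y1⟩ : ℂ) ∈ convexHull ℝ S := by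
    have h := hc a3 a4 (sub_nonneg.2 hs1) hs0 (by ring)
    have e : (1 - s) • (⟨x0, y1⟩ : ℂ) + s • (⟨x1, y1⟩ : ℂ) = ⟨q.re, y1⟩ := by
      apply Complex.ext
      · simp only [Complex.add_re, Complex.smul_re, smul_eq_mul]
        rw [hs]
      · simp only [Complex.add_im, Complex.smul_im, smul_eq_mul]
        ring
    rwa [e] at h
  have h := hc b1 b2 (sub_nonneg.2 ht1) ht0 (by ring)
  have e : (1 - t) • (⟨q.re, y0⟩ : ℂ) + t • (⟨q.re, y1⟩ : ℂ) = q := by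
    apply Complex.ext
    · simp only [Complex.add_re, Complex.smul_re, smul_eq_mul]
      ring
    · simp only [Complex.add_im, Complex.smul_im, smul_eq_mul]
      rw [ht]
  rwa [e] at h

theorem join {P : ℕ → Prop} {a b c : ℕ} (h1 : ∀ v, a ≤ v → v < b → P v)
    (h2 : ∀ v, b ≤ v → v < c → P v) : ∀ v, a ≤ v → v < c → P v := by
  intro v hv hc
  rcases lt_or_ge v b with h | h
  · exact h1 v hv h
  · exact h2 v h hc

/-- the checked cells -/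
def MRange (g : Grid) (L : List Corner) (vlo2 : ℕ) (ws : List ℕ) (a b : ℕ) : Prop :=
  ∀ v, a ≤ v → v < b → mChk (envB g L vlo2) ws v = true

theorem mrange_of_chk {g : Grid} {L : List Corner} {vlo2 : ℕ} {ws : List ℕ} {a n b : ℕ}
    (hn : a + n = b) (h : chkM g L vlo2 ws a n = true) : MRange g L vlo2 ws a b :=
  fun _ h1 h2 => chkM_sound h h1 (by omega)

theorem MRange.join {g : Grid} {L : List Corner} {vlo2 : ℕ} {ws : List ℕ} {a b c : ℕ}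
    (h1 : MRange g L vlo2 ws a b) (h2 : MRange g L vlo2 ws b c) : MRange g L vlo2 ws a c :=
  K9.join h1 h2

/-- a box in normal mode -/
theorem bad_of_chk {g : Grid} (hg : g.OK) {x0 x1 y0 y1 d0 t0 d1 t1 d2 t2 d3 t3 v : ℕ}
    {ws : List ℕ} {t : Tree}
    (hb : boxB x0 x1 y0 y1 (cnr x0 x1 y0 y1 d0 t0 d1 t1 d2 t2 d3 t3) = true)
    (hv : (x0 + 1024) ^ 2 + y0 ^ 2 = v) (hv2 : v < 2 ^ 40) {N : ℕ} (hN : g.M * g.J = N)
    (hM : MRange g (cnr x0 x1 y0 y1 d0 t0 d1 t1 d2 t2 d3 t3) v ws 0 N)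
    (h : chkT g (cnr x0 x1 y0 y1 d0 t0 d1 t1 d2 t2 d3 t3) v ws t = true) :
    Bad x0 x1 y0 y1 := by
  intro q x a b c d hOC
  unfold boxB at hb
  simp only [Bool.and_eq_true, Nat.blt_eq, List.all_eq_true] at hb
  obtain ⟨h1, h2, h3⟩ := hb
  refine chkT_sound hg (by simp [cnr]) (fun c hc => cokB_sound (h1 c hc)) hv2
    (by rw [hN]; exact hM) h hOC (mem_hull h2 h3 a b c d) ?_
  rw [normSq_PBfalse, ← hv]
  push_cast
  have hx0 : (0 : ℝ) ≤ x0 := Nat.cast_nonneg _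
  have hy0 : (0 : ℝ) ≤ y0 := Nat.cast_nonneg _
  nlinarith

/-- one chunk of peeling -/
def Peel (g : Grid) (L : List Corner) (vlo2 : ℕ) (ws : List ℕ) (k0 j0 k1 j1 : ℕ) : Prop :=
  ∀ c : Fin 6 → ℕ, Place g (envB g L vlo2) c → Memb (envB g L vlo2) ws c →
    Occ g c k0 j0 → Occ g c k1 j1

theorem peel_of_chk {g : Grid} (hg : g.OK) {L : List Corner} (hL : List.all L cokB = true)
    {vlo2 : ℕ} (hv : vlo2 < 2 ^ 40) {ws : List ℕ} {k0 j0 k1 j1 : ℕ}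
    (hk0 : k0 < g.M) (hk1 : k1 < g.M) {pl : List (ℕ × Tree)}
    (h : chkP g L vlo2 ws k0 j0 k1 j1 pl = true) : Peel g L vlo2 ws k0 j0 k1 j1 := by
  intro c hc hm h0
  refine chkP_sound hg (fun c hc => cokB_sound ?_) hv hc hm hk0 hk1 h h0
  exact (List.all_eq_true.1 hL) c hc

theorem Peel.trans {g : Grid} {L : List Corner} {vlo2 : ℕ} {ws : List ℕ}
    {k0 j0 k1 j1 k2 j2 : ℕ} (h1 : Peel g L vlo2 ws k0 j0 k1 j1)
    (h2 : Peel g L vlo2 ws k1 j1 k2 j2) : Peel g L vlo2 ws k0 j0 k2 j2 :=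
  fun c hc hm h0 => h2 c hc hm (h1 c hc hm h0)

/-- a box in the mode with far outer points -/
theorem bad_of_peel {g : Grid} (hg : g.OK) {x0 x1 y0 y1 d0 t0 d1 t1 d2 t2 d3 t3 v : ℕ}
    {ws : List ℕ}
    (hb : boxB x0 x1 y0 y1 (cnr x0 x1 y0 y1 d0 t0 d1 t1 d2 t2 d3 t3) = true)
    (hv : (x0 + 1024) ^ 2 + y0 ^ 2 = v) (hv2 : v < 2 ^ 40)
    (hx1 : x1 ≤ 576) (hy0 : 1728 ≤ y0) (hy1 : y1 ≤ 2240) {N kf : ℕ} (hN : g.M * g.J = N)
    (hT : 26624 ≤ 63 * g.tt kf)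
    (hM : MRange g (cnr x0 x1 y0 y1 d0 t0 d1 t1 d2 t2 d3 t3) v ws 0 N)
    (hP : Peel g (cnr x0 x1 y0 y1 d0 t0 d1 t1 d2 t2 d3 t3) v ws 0 0 kf 0) :
    Bad x0 x1 y0 y1 := by
  intro q x a b c d hOC
  unfold boxB at hb
  simp only [Bool.and_eq_true, Nat.blt_eq, List.all_eq_true] at hb
  obtain ⟨h1, h2, h3⟩ := hb
  have hx0 : (0 : ℝ) ≤ x0 := Nat.cast_nonneg _
  have hy0' : (0 : ℝ) ≤ y0 := Nat.cast_nonneg _
  have hvq : (v : ℝ) ≤ ‖q - PB false‖ ^ 2 := by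
    rw [normSq_PBfalse, ← hv]
    push_cast
    nlinarith
  obtain ⟨cl, hcl, hin⟩ := exists_place hg (L := cnr x0 x1 y0 y1 d0 t0 d1 t1 d2 t2 d3 t3)
    (by simp [cnr]) (fun c hc => cokB_sound (h1 c hc)) hv2 hOC (mem_hull h2 h3 a b c d) hvq
  have hmemb : Memb (envB g (cnr x0 x1 y0 y1 d0 t0 d1 t1 d2 t2 d3 t3) v) ws cl :=
    fun i => hM _ (Nat.zero_le _) (by rw [← hN]; exact cell_lt hg (hcl.cell i))
  have hocc := hP cl hcl hmemb (fun i => by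
    rcases Nat.eq_zero_or_pos (cl i % g.M) with h | h
    · exact Or.inr ⟨h, Nat.zero_le _⟩
    · exact Or.inl h)
  have e1 : q.re ≤ 576 := b.trans (by exact_mod_cast hx1)
  have e2 : 1728 ≤ q.im := le_trans (by exact_mod_cast hy0) c
  have e3 : q.im ≤ 2240 := d.trans (by exact_mod_cast hy1)
  refine lemmaF hOC (hx0.trans a) e1 e2 e3 (fun i => ?_)
  have h5 := norm_ge hg (hcl.cell i) (hin i)
  have h6 : g.tt kf ≤ g.tt (cl i % g.M) := by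
    refine hg.tt_mono ?_ (hcl.cell i).2
    rcases hocc i with h | h
    · exact h.le
    · exact h.1.ge
  have h7 : (26624 : ℝ) ≤ 63 * (g.tt kf : ℝ) := by exact_mod_cast hT
  have h8 : (g.tt kf : ℝ) ≤ (g.tt (cl i % g.M) : ℝ) := by exact_mod_cast h6
  linarith

end Pool.Agent.K9
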